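import Pool.Agent.V11113.MP.ManyG
import Pool.Agent.V11113.MP.Bil

set_option autoImplicit false

/-! Configurations of points of arbitrary sets: values of bilinear forms along the edges of a graph. -/

namespace Pool.Agent.V11113.MP

open Finset Filter
open Pool.Agent.W147.PS (ff ff_compare ev_pow)

section
variable {p : ℕ} [hp : Fact p.Prime] {d k : ℕ}

/-- value along an edge -/
def val2 (Q : Matrix (Fin d) (Fin d) (ZMod p)) (f g : (Fin d → ZMod p) → ZMod p)
    (i j : Fin k) (x : Fin k → Fin d → ZMod p) : ZMod p :=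
  x i ⬝ᵥ Q.mulVec (x j) + f (x i) + g (x j)

lemma val2_sep (Q : Matrix (Fin d) (Fin d) (ZMod p)) (f g : (Fin d → ZMod p) → ZMod p)
    (i j i₀ j₀ : Fin k) (hij : i < j) (hij₀ : i₀ < j₀) (hne : (i, j) ≠ (i₀, j₀))
    (x : Fin k → Fin d → ZMod p) (a b : Fin d → ZMod p) :
    val2 Q f g i j (Function.update (Function.update x i₀ a) j₀ b) =
      val2 Q f g i j (Function.update x i₀ a) + val2 Q f g i j (Function.update x j₀ b) -
        val2 Q f g i j x := by
  have hne₀ : i₀ ≠ j₀ := ne_of_lt hij₀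
  by_cases h1 : i = i₀ ∨ j = i₀
  · -- then j₀ is not an endpoint
    have h2 : i ≠ j₀ ∧ j ≠ j₀ := by
      constructor
      · rintro rfl
        rcases h1 with h | h
        · exact hne₀ h.symm
        · subst h
          exact absurd (hij.trans hij₀) (lt_irrefl _)
      · rintro rfl
        rcases h1 with h | h
        · subst h
          exact hne rfl
        · exact hne₀ h.symm
    unfold val2
    rw [Function.update_of_ne h2.1, Function.update_of_ne h2.2, Function.update_of_ne h2.1,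
      Function.update_of_ne h2.2]
    ring
  · push Not at h1
    unfold val2
    have e1 : Function.update (Function.update x i₀ a) j₀ b =
        Function.update (Function.update x j₀ b) i₀ a := Function.update_comm hne₀ a b x
    rw [e1, Function.update_of_ne h1.1, Function.update_of_ne h1.2, Function.update_of_ne h1.1,
      Function.update_of_ne h1.2]
    ring

lemma sum_swap (E : Fin k → Finset (Fin d → ZMod p)) (i₀ j₀ : Fin k) (hne : i₀ ≠ j₀)
    (F : (Fin k → Fin d → ZMod p) → ℂ) :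
    ((E i₀).card * (E j₀).card : ℂ) * ∑ x ∈ Fintype.piFinset E, F x =
      ∑ x ∈ Fintype.piFinset E, ∑ y ∈ E i₀ ×ˢ E j₀,
        F (Function.update (Function.update x i₀ y.1) j₀ y.2) := by
  classical
  have h1 : ((E i₀).card * (E j₀).card : ℂ) * ∑ x ∈ Fintype.piFinset E, F x =
      ∑ z ∈ Fintype.piFinset E ×ˢ (E i₀ ×ˢ E j₀), F z.1 := by
    rw [sum_product, mul_sum]
    refine sum_congr rfl fun x _ => ?_
    simp only
    rw [sum_const, card_product, nsmul_eq_mul]
    push_cast
    ring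
  rw [h1, ← sum_product']
  refine sum_nbij' (fun z => (Function.update (Function.update z.1 i₀ z.2.1) j₀ z.2.2, (z.1 i₀, z.1 j₀)))
    (fun z => (Function.update (Function.update z.1 i₀ z.2.1) j₀ z.2.2, (z.1 i₀, z.1 j₀))) ?_ ?_ ?_ ?_ ?_
  · intro z hz
    rw [mem_product, mem_product, Fintype.mem_piFinset] at hz ⊢
    refine ⟨?_, hz.1 i₀, hz.1 j₀⟩
    intro i
    simp only
    by_cases h : i = j₀
    · subst h
      simpa using hz.2.2
    · rw [Function.update_of_ne h]
      by_cases h' : i = i₀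
      · subst h'
        simpa using hz.2.1
      · rw [Function.update_of_ne h']
        exact hz.1 i
  · intro z hz
    rw [mem_product, mem_product, Fintype.mem_piFinset] at hz ⊢
    refine ⟨?_, hz.1 i₀, hz.1 j₀⟩
    intro i
    simp only
    by_cases h : i = j₀
    · subst h
      simpa using hz.2.2
    · rw [Function.update_of_ne h]
      by_cases h' : i = i₀
      · subst h'
        simpa using hz.2.1
      · rw [Function.update_of_ne h']
        exact hz.1 i
  · intro z _
    refine Prod.ext ?_ (Prod.ext ?_ ?_)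
    · funext i
      simp only
      by_cases h : i = j₀
      · subst h; simp
      · by_cases h' : i = i₀
        · subst h'
          simp [h]
        · simp [h, h']
    · simp [hne]
    · simp
  · intro z _
    refine Prod.ext ?_ (Prod.ext ?_ ?_)
    · funext i
      simp only
      by_cases h : i = j₀
      · subst h; simp
      · by_cases h' : i = i₀
        · subst h'
          simp [h]
        · simp [h, h']
    · simp [hne]
    · simp
  · intro z _
    congr 1
    funext i
    simp only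
    by_cases h : i = j₀
    · subst h; simp
    · by_cases h' : i = i₀
      · subst h'
        simp [h]
      · simp [h, h']

/-- the sums over configurations -/
lemma conf_norm {r : ℕ} (E : Fin k → Finset (Fin d → ZMod p)) (e : Fin r → Fin k × Fin k)
    (he : Function.Injective e) (hlt : ∀ s, (e s).1 < (e s).2)
    (Q : Fin r → Matrix (Fin d) (Fin d) (ZMod p)) (hQ : ∀ s, IsUnit (Q s).det)
    (f g : Fin r → (Fin d → ZMod p) → ZMod p) (h : Fin r → ZMod p) (s₀ : Fin r) (hs : h s₀ ≠ 0) :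
    ((E (e s₀).1).card * (E (e s₀).2).card : ℝ) *
      ‖∑ x ∈ Fintype.piFinset E, (ZMod.stdAddChar
        (∑ s, h s * val2 (Q s) (f s) (g s) (e s).1 (e s).2 x) : ℂ)‖ ≤
      (Fintype.piFinset E).card *
        Real.sqrt ((p : ℝ) ^ d * ((E (e s₀).1).card * (E (e s₀).2).card)) := by
  classical
  set i₀ := (e s₀).1 with hi
  set j₀ := (e s₀).2 with hj
  have hij : i₀ < j₀ := hlt s₀
  have h1 := sum_swap E i₀ j₀ (ne_of_lt hij) (fun x => (ZMod.stdAddChar
        (∑ s, h s * val2 (Q s) (f s) (g s) (e s).1 (e s).2 x) : ℂ))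
  have h2 : ((E i₀).card * (E j₀).card : ℝ) *
      ‖∑ x ∈ Fintype.piFinset E, (ZMod.stdAddChar
        (∑ s, h s * val2 (Q s) (f s) (g s) (e s).1 (e s).2 x) : ℂ)‖ =
      ‖((E i₀).card * (E j₀).card : ℂ) * ∑ x ∈ Fintype.piFinset E, (ZMod.stdAddChar
        (∑ s, h s * val2 (Q s) (f s) (g s) (e s).1 (e s).2 x) : ℂ)‖ := by
    rw [norm_mul, norm_mul, Complex.norm_natCast, Complex.norm_natCast]
  rw [h2, h1]
  refine (norm_sum_le _ _).trans ?_
  rw [← nsmul_eq_mul, ← sum_const]
  refine sum_le_sum fun x _ => ?_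
  set G : (Fin k → Fin d → ZMod p) → ZMod p := fun x =>
    ∑ s ∈ univ.erase s₀, h s * val2 (Q s) (f s) (g s) (e s).1 (e s).2 x with hG
  have hsep : ∀ a b, G (Function.update (Function.update x i₀ a) j₀ b) =
      G (Function.update x i₀ a) + G (Function.update x j₀ b) - G x := by
    intro a b
    simp only [hG]
    rw [← sum_add_distrib, ← sum_sub_distrib]
    refine sum_congr rfl fun s hs' => ?_
    rw [val2_sep (Q s) (f s) (g s) (e s).1 (e s).2 i₀ j₀ (hlt s) hij (by
      intro h3
      exact (mem_erase.mp hs').1 (he (Prod.ext (Prod.ext_iff.mp h3).1 (Prod.ext_iff.mp h3).2)))]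
    ring
  have h3 : ∀ y : (Fin d → ZMod p) × (Fin d → ZMod p),
      (∑ s, h s * val2 (Q s) (f s) (g s) (e s).1 (e s).2
        (Function.update (Function.update x i₀ y.1) j₀ y.2)) =
      h s₀ * (y.1 ⬝ᵥ (Q s₀).mulVec y.2 + (f s₀ y.1 + (h s₀)⁻¹ * G (Function.update x i₀ y.1)) +
        (g s₀ y.2 + (h s₀)⁻¹ * (G (Function.update x j₀ y.2) - G x))) := by
    intro y
    rw [← add_sum_erase univ _ (mem_univ s₀)]
    have h4 := hsep y.1 y.2
    simp only [hG] at h4
    rw [h4]
    have h5 : val2 (Q s₀) (f s₀) (g s₀) (e s₀).1 (e s₀).2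
        (Function.update (Function.update x i₀ y.1) j₀ y.2) =
        y.1 ⬝ᵥ (Q s₀).mulVec y.2 + f s₀ y.1 + g s₀ y.2 := by
      unfold val2
      rw [← hi, ← hj]
      rw [Function.update_of_ne (ne_of_lt hij), Function.update_self, Function.update_self]
    rw [h5]
    simp only [hG]
    field_simp
    ring
  have h6 := bil_norm (E i₀) (E j₀)
    (fun a => f s₀ a + (h s₀)⁻¹ * G (Function.update x i₀ a))
    (fun b => g s₀ b + (h s₀)⁻¹ * (G (Function.update x j₀ b) - G x)) (Q s₀) (hQ s₀) (h s₀) hs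
  refine le_trans (le_of_eq ?_) h6
  congr 1
  refine sum_congr rfl fun y _ => ?_
  rw [h3 y]

end

open scoped Classical in
/-- configurations of points of arbitrary sets -/
theorem configs (k r : ℕ) (hr : 1 ≤ r) (ε : ℝ) (h0 : 0 < ε) (h1 : ε ≤ 1) :
    ∃ κ : ℝ, 0 < κ ∧ ∃ P : ℕ, ∀ p : ℕ, P ≤ p → p.Prime →
    ∀ (d : ℕ) (E : Fin k → Finset (Fin d → ZMod p)) (e : Fin r → Fin k × Fin k),
    Function.Injective e → (∀ s, (e s).1 < (e s).2) →
    ∀ (Q : Fin r → Matrix (Fin d) (Fin d) (ZMod p)), (∀ s, IsUnit (Q s).det) →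
    ∀ (f g : Fin r → (Fin d → ZMod p) → ZMod p) (A H : Fin r → ℕ), (∀ s, A s + H s ≤ p) →
    (∀ s, (p : ℝ) ^ ε ≤ H s) →
    (∀ s, (p : ℝ) ^ (d + 2 * r + ε) ≤
      (E (e s).1).card * (E (e s).2).card * (∏ s, (H s : ℝ)) ^ 2) →
    (∏ i, ((E i).card : ℝ)) * (∏ s, (H s : ℝ)) * (p : ℝ) ^ (-((r : ℝ) + ε / 2)) ≤
      ((Fintype.piFinset E).filter (fun x => ∀ s,
        A s ≤ (x (e s).1 ⬝ᵥ (Q s).mulVec (x (e s).2) + f s (x (e s).1) + g s (x (e s).2)).val ∧
        (x (e s).1 ⬝ᵥ (Q s).mulVec (x (e s).2) + f s (x (e s).1) + g s (x (e s).2)).val <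
          A s + H s ∧
        ∀ q : ℕ, q.Prime → κ * ff p < |(q : ℝ) - (x (e s).1 ⬝ᵥ (Q s).mulVec (x (e s).2) +
          f s (x (e s).1) + g s (x (e s).2)).val|)).card := by
  obtain ⟨κ, hκ, P₁, hc⟩ := manyG r hr (ε / 2) (by positivity) (by linarith)
  refine ⟨κ, hκ, max P₁ 1, ?_⟩
  intro p hpP hpp d E e he hlt Q hQ f g A H hAH hH hE
  haveI : Fact p.Prime := ⟨hpp⟩
  haveI : NeZero p := ⟨hpp.ne_zero⟩
  have hp1 : (1 : ℝ) ≤ p := by exact_mod_cast hpp.one_le
  have hp0 : (0 : ℝ) < p := by linarith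
  set V : ℝ := ∏ s, (H s : ℝ) with hV
  have hV0 : 0 < V := prod_pos fun s _ => lt_of_lt_of_le (by positivity) (hH s)
  have hcard : ((Fintype.piFinset E).card : ℝ) = ∏ i, ((E i).card : ℝ) := by
    rw [Fintype.card_piFinset]
    push_cast
    rfl
  set X : ℝ := (p : ℝ) ^ ((r : ℝ) + ε / 2) with hX
  have hX0 : 0 < X := by positivity
  have hXi : (p : ℝ) ^ (-((r : ℝ) + ε / 2)) = X⁻¹ := by rw [Real.rpow_neg hp0.le]
  have h2 := hc p ((le_max_left _ _).trans hpP) hpp (Fin k → Fin d → ZMod p)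
    (Fintype.piFinset E) (fun x s => val2 (Q s) (f s) (g s) (e s).1 (e s).2 x)
    ((Fintype.piFinset E).card * V * X⁻¹) (by positivity)
    (by
      intro h hh
      obtain ⟨s₀, hs⟩ := Function.ne_iff.mp hh
      have h3 := conf_norm E e he hlt Q hQ f g h s₀ hs
      set m : ℝ := ((E (e s₀).1).card * (E (e s₀).2).card : ℝ) with hm
      have h4 := hE s₀
      rw [← hm] at h4
      have hm0 : 0 < m := by
        by_contra hcon
        push Not at hcon
        have h5 : m * V ^ 2 ≤ 0 := mul_nonpos_of_nonpos_of_nonneg hcon (by positivity)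
        have : (0 : ℝ) < (p : ℝ) ^ ((d : ℝ) + 2 * r + ε) := by positivity
        linarith
      have h6 : Real.sqrt ((p : ℝ) ^ d * m) ≤ m * (V * X⁻¹) := by
        apply Real.sqrt_le_iff.mpr
        refine ⟨by positivity, ?_⟩
        have h7 : (p : ℝ) ^ ((d : ℝ) + 2 * r + ε) = (p : ℝ) ^ d * X ^ 2 := by
          rw [hX, ← Real.rpow_natCast, ← Real.rpow_natCast, ← Real.rpow_mul hp0.le,
            ← Real.rpow_add hp0]
          congr 1
          push_cast
          ring
        rw [h7] at h4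
        calc (p : ℝ) ^ d * m = (p : ℝ) ^ d * X ^ 2 * (m * (X⁻¹) ^ 2) := by field_simp
          _ ≤ (m * V ^ 2) * (m * (X⁻¹) ^ 2) := by gcongr
          _ = _ := by ring
      have h8 : m * ‖∑ x ∈ Fintype.piFinset E, (ZMod.stdAddChar
        (∑ s, h s * val2 (Q s) (f s) (g s) (e s).1 (e s).2 x) : ℂ)‖ ≤
          m * ((Fintype.piFinset E).card * V * X⁻¹) := by
        refine h3.trans ?_
        calc ((Fintype.piFinset E).card : ℝ) * Real.sqrt ((p : ℝ) ^ d * m) ≤
            (Fintype.piFinset E).card * (m * (V * X⁻¹)) := by gcongr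
          _ = _ := by ring
      exact le_of_mul_le_mul_left h8 hm0)
    A H hAH (fun s => le_trans (Real.rpow_le_rpow_of_exponent_le hp1 (by linarith)) (hH s))
    (by
      rw [← hX, ← hV]
      apply le_of_eq
      field_simp)
    (fun x => ∀ s,
        A s ≤ (x (e s).1 ⬝ᵥ (Q s).mulVec (x (e s).2) + f s (x (e s).1) + g s (x (e s).2)).val ∧
        (x (e s).1 ⬝ᵥ (Q s).mulVec (x (e s).2) + f s (x (e s).1) + g s (x (e s).2)).val <
          A s + H s ∧
        ∀ q : ℕ, q.Prime → κ * ff p < |(q : ℝ) - (x (e s).1 ⬝ᵥ (Q s).mulVec (x (e s).2) +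
          f s (x (e s).1) + g s (x (e s).2)).val|) (fun _ => inferInstance)
    (by
      intro x _ h3
      exact h3)
  rw [hcard] at h2
  exact h2

end Pool.Agent.V11113.MP
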