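import Pool.Agent.V11113.MP.Loc
import Pool.Agent.H442R2.KF.Inc

set_option autoImplicit false

/-! Exponential sums modulo a prime over stretches of a geometric progression. -/

namespace Pool.Agent.V11113.MP

open Finset Filter

variable {p : ℕ} [hp : Fact p.Prime]

lemma pow_val (g : ZMod p) (t : ℕ) [NeZero t] (ht : g ^ t = 1) (n : ℕ) :
    g ^ ((n : ZMod t).val) = g ^ n := by
  rw [ZMod.val_natCast]
  conv_rhs => rw [← Nat.div_add_mod n t, pow_add, pow_mul, ht, one_pow, one_mul]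

/-- the twisted sum over the powers of `g` -/
noncomputable def S (g : ZMod p) (t : ℕ) [NeZero t] (k : ZMod t) (y : ZMod p) : ℂ :=
  ∑ u : ZMod t, (ZMod.stdAddChar (-(u * k)) : ℂ) * (ZMod.stdAddChar (y * g ^ u.val) : ℂ)

lemma S_shift (g : ZMod p) (t : ℕ) [NeZero t] (ht : g ^ t = 1) (k : ZMod t) (y : ZMod p) :
    ‖S g t k (y * g)‖ = ‖S g t k y‖ := by
  have h1 : S g t k (y * g) = (ZMod.stdAddChar k : ℂ) * S g t k y := by
    unfold S
    rw [mul_sum]
    refine Fintype.sum_equiv (Equiv.addRight (1 : ZMod t)) _ _ (fun u => ?_)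
    simp only [Equiv.coe_addRight]
    have e1 : g ^ (u + 1).val = g * g ^ u.val := by
      have h2 : u + 1 = ((u.val + 1 : ℕ) : ZMod t) := by
        push_cast
        rw [ZMod.natCast_zmod_val]
      rw [h2, pow_val g t ht, pow_succ]
      ring
    rw [e1, ← mul_assoc, ← AddChar.map_add_eq_mul]
    congr 2
    · ring
    · ring
  rw [h1, norm_mul, AddChar.norm_apply, one_mul]

lemma S_shifts (g : ZMod p) (t : ℕ) [NeZero t] (ht : g ^ t = 1) (k : ZMod t) (y : ZMod p) (s : ℕ) :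
    ‖S g t k (y * g ^ s)‖ = ‖S g t k y‖ := by
  induction s with
  | zero => simp
  | succ s ih => rw [pow_succ, ← mul_assoc, S_shift g t ht, ih]

lemma S_moment (g : ZMod p) (hg : g ≠ 0) (t : ℕ) [NeZero t] (ht : t = orderOf g) (k : ZMod t) :
    ∑ y : ZMod p, ‖S g t k y‖ ^ 2 = (p : ℝ) * t := by
  classical
  have h1 : ∀ y : ZMod p, ((‖S g t k y‖ ^ 2 : ℝ) : ℂ) =
      ∑ u : ZMod t, ∑ u' : ZMod t, ((ZMod.stdAddChar (-(u * k)) : ℂ) *
        (starRingEnd ℂ) (ZMod.stdAddChar (-(u' * k)) : ℂ)) *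
        (ZMod.stdAddChar (y * (g ^ u.val - g ^ u'.val)) : ℂ) := by
    intro y
    unfold S
    rw [Complex.ofReal_pow, ← Complex.mul_conj', map_sum, sum_mul_sum]
    refine sum_congr rfl fun b _ => sum_congr rfl fun b' _ => ?_
    rw [map_mul (starRingEnd ℂ), ← AddChar.map_neg_eq_conj (ZMod.stdAddChar) (y * g ^ b'.val), mul_sub,
      sub_eq_add_neg, AddChar.map_add_eq_mul]
    ring
  have hinj : ∀ u u' : ZMod t, g ^ u.val = g ^ u'.val → u = u' := by
    intro u u' h
    have h2 : u.val = u'.val := by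
      have hu : u.val < orderOf g := by rw [← ht]; exact ZMod.val_lt u
      have hu' : u'.val < orderOf g := by rw [← ht]; exact ZMod.val_lt u'
      exact pow_injOn_Iio_orderOf hu hu' h
    exact ZMod.val_injective t h2
  have h2 : ((∑ y : ZMod p, ‖S g t k y‖ ^ 2 : ℝ) : ℂ) = (((p : ℝ) * t : ℝ) : ℂ) := by
    rw [Complex.ofReal_sum, sum_congr rfl (fun a _ => h1 a), sum_comm]
    have h3 : ∀ u : ZMod t, ∑ y : ZMod p, ∑ u' : ZMod t, ((ZMod.stdAddChar (-(u * k)) : ℂ) *
        (starRingEnd ℂ) (ZMod.stdAddChar (-(u' * k)) : ℂ)) *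
        (ZMod.stdAddChar (y * (g ^ u.val - g ^ u'.val)) : ℂ) = (p : ℂ) := by
      intro u
      rw [sum_comm]
      have h4 : ∀ u' : ZMod t, ∑ y : ZMod p, ((ZMod.stdAddChar (-(u * k)) : ℂ) *
        (starRingEnd ℂ) (ZMod.stdAddChar (-(u' * k)) : ℂ)) *
        (ZMod.stdAddChar (y * (g ^ u.val - g ^ u'.val)) : ℂ) = if u = u' then (p : ℂ) else 0 := by
        intro u'
        rw [← mul_sum, AddChar.sum_mulShift _ (ZMod.isPrimitive_stdAddChar p), ZMod.card]
        by_cases h : u = u'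
        · rw [if_pos h, if_pos (by rw [h, sub_self]), h, Complex.mul_conj', AddChar.norm_apply]
          simp
        · rw [if_neg h, if_neg (fun h5 => h (hinj _ _ (sub_eq_zero.mp h5)))]
          simp
      rw [sum_congr rfl (fun u' _ => h4 u'), sum_ite_eq, if_pos (mem_univ _)]
    rw [sum_congr rfl (fun u _ => h3 u), sum_const, card_univ, ZMod.card, nsmul_eq_mul]
    push_cast
    ring
  exact_mod_cast h2

lemma S_bound (g : ZMod p) (hg : g ≠ 0) (t : ℕ) [NeZero t] (ht : t = orderOf g) (k : ZMod t)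
    (y : ZMod p) (hy : y ≠ 0) : ‖S g t k y‖ ≤ Real.sqrt p := by
  classical
  have ht1 : g ^ t = 1 := by rw [ht]; exact pow_orderOf_eq_one g
  have ht0 : (0 : ℝ) < t := by exact_mod_cast Nat.pos_of_ne_zero (NeZero.ne t)
  apply Real.le_sqrt_of_sq_le
  have h1 : (t : ℝ) * ‖S g t k y‖ ^ 2 ≤ t * p := by
    calc (t : ℝ) * ‖S g t k y‖ ^ 2 = ∑ s ∈ range t, ‖S g t k (y * g ^ s)‖ ^ 2 := by
          rw [sum_congr rfl (fun s _ => by rw [S_shifts g t ht1 k y s]), sum_const, card_range,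
            nsmul_eq_mul]
      _ = ∑ z ∈ (range t).image (fun s => y * g ^ s), ‖S g t k z‖ ^ 2 := by
          rw [sum_image]
          intro s hs s' hs' h
          have h2 : g ^ s = g ^ s' := mul_left_cancel₀ hy h
          rw [mem_coe, mem_range, ht] at hs hs'
          exact pow_injOn_Iio_orderOf hs hs' h2
      _ ≤ ∑ z : ZMod p, ‖S g t k z‖ ^ 2 :=
          sum_le_sum_of_subset_of_nonneg (subset_univ _) fun _ _ _ => by positivity
      _ = p * t := S_moment g hg t ht k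
      _ = t * p := mul_comm _ _
  exact le_of_mul_le_mul_left h1 ht0

/-- exponential sums over stretches of powers -/
lemma pow_norm (g : ZMod p) (hg : g ≠ 0) (y : ZMod p) (hy : y ≠ 0) (c K : ℕ) :
    ‖∑ k ∈ range K, (ZMod.stdAddChar (y * g ^ (c + k)) : ℂ)‖ ≤
      Real.sqrt p * ((K : ℝ) / orderOf g + 1 + Real.log (orderOf g)) := by
  have hfin : IsOfFinOrder g := by
    rw [isOfFinOrder_iff_pow_eq_one]
    exact ⟨p - 1, by have := hp.out.two_le; omega, ZMod.pow_card_sub_one_eq_one hg⟩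
  have : NeZero (orderOf g) := ⟨(orderOf_pos_iff.mpr hfin).ne'⟩
  have ht1 : g ^ (orderOf g) = 1 := pow_orderOf_eq_one g
  have h1 := Pool.Agent.H442R2.KF.Inc.completion (orderOf g) 1 (Nat.coprime_one_right _)
    (fun u => (ZMod.stdAddChar (y * g ^ u.val) : ℂ)) (Real.sqrt p) (Real.sqrt_nonneg _)
    (fun w => S_bound g hg (orderOf g) rfl w y hy) (c : ℤ) K
  refine le_trans (le_of_eq ?_) h1
  congr 1
  refine sum_congr rfl fun k _ => ?_
  have e1 : (((c : ℤ) + ((1 : ℕ) : ℤ) * (k : ℤ) : ℤ) : ZMod (orderOf g)) =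
      ((c + k : ℕ) : ZMod (orderOf g)) := by
    push_cast
    ring
  rw [e1, pow_val g _ ht1]

end Pool.Agent.V11113.MP
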