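import Pool.Agent.V11113.MP.ManyJ
import Pool.Agent.V11113.MP.Pow

set_option autoImplicit false

/-! Points of exponential curves modulo a prime, in short boxes, both coordinates in record gaps. -/

namespace Pool.Agent.V11113.MP

open Finset Filter
open Pool.Agent.W147.PS (ff ff_compare ev_pow)

lemma ap (L N q : ℕ) (hq : 1 ≤ q) (ρ : ℤ) : ∃ j0 K : ℕ, |(K : ℝ) - N / q| ≤ 1 ∧
    (Ioc L (L + N)).filter (fun j : ℕ => (q : ℤ) ∣ (j : ℤ) - ρ) =
      (range K).image (fun k => j0 + q * k) := by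
  have hqz : (0 : ℤ) < q := by exact_mod_cast hq
  obtain ⟨r, hr⟩ : ∃ r : ℕ, (r : ℤ) = (ρ - (L + 1)) % q :=
    ⟨((ρ - (L + 1)) % q).toNat, Int.toNat_of_nonneg (Int.emod_nonneg _ hqz.ne')⟩
  have hrq : r < q := by
    have := Int.emod_lt_of_pos (ρ - (L + 1)) hqz
    rw [← hr] at this
    exact_mod_cast this
  have hdvd : (q : ℤ) ∣ (L : ℤ) + 1 + r - ρ := by
    have h1 := Int.emod_add_mul_ediv (ρ - (L + 1)) q
    rw [← hr] at h1
    exact ⟨-((ρ - (L + 1)) / q), by linarith⟩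
  refine ⟨L + 1 + r, (N + (q - 1 - r)) / q, ?_, ?_⟩
  · set K := (N + (q - 1 - r)) / q with hK
    have h1 : K * q ≤ N + (q - 1 - r) := Nat.div_mul_le_self _ _
    have h2 : N + (q - 1 - r) < (K + 1) * q := by
      have := Nat.lt_mul_div_succ (N + (q - 1 - r)) (show 0 < q by omega)
      rw [mul_comm]
      exact this
    have h3 : K * q ≤ N + q := by omega
    have h4 : N ≤ (K + 1) * q := by omega
    have h3r : (K : ℝ) * q ≤ N + q := by exact_mod_cast h3
    have h4r : (N : ℝ) ≤ (K + 1) * q := by exact_mod_cast h4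
    have hq0 : (0 : ℝ) < q := by exact_mod_cast hq
    rw [abs_le]
    constructor
    · have : (N : ℝ) / q ≤ K + 1 := by rw [div_le_iff₀ hq0]; exact h4r
      linarith
    · have : (K : ℝ) ≤ (N + q) / q := by rw [le_div_iff₀ hq0]; exact h3r
      rw [add_div, div_self hq0.ne'] at this
      linarith
  · ext j
    rw [mem_filter, mem_Ioc, mem_image]
    constructor
    · rintro ⟨⟨h1, h2⟩, h3⟩
      have h4 : (q : ℤ) ∣ (j : ℤ) - (L + 1 + r : ℕ) := by
        have := dvd_sub h3 hdvd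
        push_cast
        have e : (j : ℤ) - (L + 1 + r) = (j : ℤ) - ρ - (L + 1 + r - ρ) := by ring
        rw [e]
        exact this
      obtain ⟨k, hk⟩ := h4
      have hk0 : 0 ≤ k := by
        by_contra hneg
        have hk1 : k ≤ -1 := by omega
        have : (q : ℤ) * k ≤ -q := by nlinarith
        rw [← hk] at this
        push_cast at this
        omega
      lift k to ℕ using hk0
      have hj : j = L + 1 + r + q * k := by
        zify
        push_cast at hk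
        linarith
      refine ⟨k, ?_, hj.symm⟩
      rw [mem_range]
      have h5 : (k + 1) * q ≤ N + (q - 1 - r) := by
        have : (k + 1) * q = q * k + q := by ring
        omega
      exact (Nat.le_div_iff_mul_le (by omega)).mpr h5
    · rintro ⟨k, hk, hj⟩
      rw [mem_range] at hk
      have h5 : (k + 1) * q ≤ N + (q - 1 - r) := (Nat.le_div_iff_mul_le (by omega)).mp hk
      have h6 : (k + 1) * q = q * k + q := by ring
      refine ⟨⟨by omega, by omega⟩, ?_⟩
      rw [← hj]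
      push_cast
      have e : (L : ℤ) + 1 + r + q * k - ρ = (L + 1 + r - ρ) + q * k := by ring
      rw [e]
      exact dvd_add hdvd (dvd_mul_right _ _)

variable {p : ℕ} [hp : Fact p.Prime]

/-- sums over the exponents in a residue class -/
lemma class_norm (g : ZMod p) (hg : g ≠ 0) (y : ZMod p) (hy : y ≠ 0) (L N q : ℕ) (hq : 1 ≤ q)
    (hqt : q ≤ orderOf g) (ρ : ℤ) :
    ‖∑ j ∈ (Ioc L (L + N)).filter (fun j : ℕ => (q : ℤ) ∣ (j : ℤ) - ρ),
      (ZMod.stdAddChar (y * g ^ j) : ℂ)‖ ≤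
      Real.sqrt p * ((N : ℝ) / orderOf g + 2 + Real.log p) := by
  obtain ⟨j0, K, hK, hfil⟩ := ap L N q hq ρ
  have hq0 : (0 : ℝ) < q := by exact_mod_cast hq
  rw [hfil, sum_image (by
    intro x _ x' _ h
    have h1 : q * x = q * x' := Nat.add_left_cancel h
    exact Nat.eq_of_mul_eq_mul_left (by omega) h1)]
  have h1 := pow_norm (g ^ q) (pow_ne_zero q hg) (y * g ^ j0) (mul_ne_zero hy (pow_ne_zero _ hg)) 0 K
  have e1 : ∑ k ∈ range K, (ZMod.stdAddChar (y * g ^ j0 * (g ^ q) ^ (0 + k)) : ℂ) =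
      ∑ k ∈ range K, (ZMod.stdAddChar (y * g ^ (j0 + q * k)) : ℂ) := by
    refine sum_congr rfl fun k _ => ?_
    rw [zero_add, pow_add, pow_mul]
    ring_nf
  rw [e1] at h1
  refine h1.trans ?_
  have hfin : IsOfFinOrder g := by
    rw [isOfFinOrder_iff_pow_eq_one]
    exact ⟨p - 1, by have := hp.out.two_le; omega, ZMod.pow_card_sub_one_eq_one hg⟩
  have ht : 0 < orderOf g := orderOf_pos_iff.mpr hfin
  have htr : (0 : ℝ) < orderOf g := by exact_mod_cast ht
  have hfin' : IsOfFinOrder (g ^ q) := hfin.pow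
  have ht' : 0 < orderOf (g ^ q) := orderOf_pos_iff.mpr hfin'
  have htr' : (0 : ℝ) < orderOf (g ^ q) := by exact_mod_cast ht'
  have h2 : orderOf g ≤ orderOf (g ^ q) * q := by
    rw [orderOf_pow' g (by omega)]
    have hgcd : Nat.gcd (orderOf g) q ∣ orderOf g := Nat.gcd_dvd_left _ _
    calc orderOf g = orderOf g / Nat.gcd (orderOf g) q * Nat.gcd (orderOf g) q :=
          (Nat.div_mul_cancel hgcd).symm
      _ ≤ orderOf g / Nat.gcd (orderOf g) q * q :=
          Nat.mul_le_mul_left _ (Nat.gcd_le_right _ (by omega))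
  have h2r : (orderOf g : ℝ) ≤ orderOf (g ^ q) * q := by exact_mod_cast h2
  have h3 : (orderOf (g ^ q) : ℝ) ≤ p := by
    have : orderOf (g ^ q) ≤ p - 1 := by
      apply Nat.le_of_dvd (by have := hp.out.two_le; omega)
      exact orderOf_dvd_of_pow_eq_one (ZMod.pow_card_sub_one_eq_one (pow_ne_zero q hg))
    have : orderOf (g ^ q) ≤ p := by omega
    exact_mod_cast this
  have h4 : Real.log (orderOf (g ^ q)) ≤ Real.log p := Real.log_le_log htr' h3
  have h5 : (K : ℝ) / orderOf (g ^ q) ≤ N / orderOf g + 1 := by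
    have hKq : (K : ℝ) * q ≤ N + q := by
      have := (abs_le.mp hK).2
      have h6 : (K : ℝ) ≤ N / q + 1 := by linarith
      calc (K : ℝ) * q ≤ (N / q + 1) * q := by gcongr
        _ = N + q := by field_simp
    have hqtr : (q : ℝ) ≤ orderOf g := by exact_mod_cast hqt
    have h7 : (K : ℝ) / orderOf (g ^ q) ≤ K * q / orderOf g := by
      rw [div_le_div_iff₀ htr' htr]
      calc (K : ℝ) * orderOf g ≤ K * (orderOf (g ^ q) * q) := by gcongr
        _ = _ := by ring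
    refine h7.trans ?_
    calc (K : ℝ) * q / orderOf g ≤ (N + orderOf g) / orderOf g := by
          gcongr
          linarith
      _ = _ := by rw [add_div, div_self htr.ne']
  refine mul_le_mul_of_nonneg_left ?_ (Real.sqrt_nonneg _)
  linarith

open scoped Classical in
/-- points `(j, a g ^ j)` in short boxes -/
theorem curve (ε : ℝ) (h0 : 0 < ε) (h1 : ε ≤ 1) : ∃ κ : ℝ, 0 < κ ∧ ∃ P : ℕ, ∀ p : ℕ, P ≤ p →
    p.Prime → ∀ g a : ZMod p, g ≠ 0 → a ≠ 0 → ∀ L N M H : ℕ, H ≤ p →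
    (p : ℝ) ^ (3 / 2 + ε) ≤ N * H → (p : ℝ) ^ (3 / 2 + ε) ≤ orderOf g * H →
    N * H * (p : ℝ) ^ (-(1 + ε)) ≤ ((Ioc L (L + N)).filter (fun j : ℕ =>
      (∀ q : ℕ, q.Prime → κ * ff p < |(q : ℝ) - j|) ∧
      ∃ n : ℕ, M < n ∧ n ≤ M + H ∧ (n : ZMod p) = a * g ^ j ∧
      ∀ q : ℕ, q.Prime → κ * ff p < |(q : ℝ) - n|)).card := by
  obtain ⟨κ, hκ, hm⟩ := manyJ (ε / 2) (by positivity) (by linarith)
  have hcast : Tendsto (fun m : ℕ => (m : ℝ)) atTop atTop := tendsto_natCast_atTop_atTop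
  have hlog : ∀ᶠ x : ℝ in atTop, 4 * (2 + Real.log x) ≤ x ^ (ε / 2) := by
    have h2 := (isLittleO_log_rpow_atTop (show (0 : ℝ) < ε / 4 by positivity)).def
      (show (0 : ℝ) < 1 by norm_num)
    filter_upwards [h2, eventually_ge_atTop (1 : ℝ), ev_pow (ε / 4) (ε / 2) 12 (by linarith),
      (tendsto_rpow_atTop (show 0 < ε / 4 by positivity)).eventually_ge_atTop 1]
      with x hx hx1 hx2 hx3
    rw [Real.norm_eq_abs, abs_of_nonneg (Real.log_nonneg hx1), Real.norm_eq_abs,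
      abs_of_nonneg (Real.rpow_nonneg (by linarith) _)] at hx
    linarith
  obtain ⟨P, hP⟩ := eventually_atTop.mp (hm.and ((hcast.eventually hlog).and
    ((hcast.eventually (ev_pow (ε / 64) (1 / 2 + ε) 4 (by linarith))).and
    ((hcast.eventually (ev_pow 0 (ε / 2) 2 (by linarith))).and
    (hcast.eventually (ev_pow (ε / 2) (1 / 2 + ε) 2 (by linarith)))))))
  refine ⟨κ, hκ, max P 1, ?_⟩
  intro p hpP hp g a hg ha L N M H hHp hNH htH
  have : Fact p.Prime := ⟨hp⟩
  obtain ⟨c1, c2, c3, c4, c5⟩ := hP p ((le_max_left _ _).trans hpP)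
  rw [Real.rpow_zero] at c4
  have hp1 : (1 : ℝ) ≤ p := by exact_mod_cast hp.one_le
  have hp0 : (0 : ℝ) < p := by linarith
  have hHpr : (H : ℝ) ≤ p := by exact_mod_cast hHp
  have hH0 : (0 : ℝ) ≤ H := Nat.cast_nonneg _
  have hfin : IsOfFinOrder g := by
    rw [isOfFinOrder_iff_pow_eq_one]
    exact ⟨p - 1, by have := hp.two_le; omega, ZMod.pow_card_sub_one_eq_one hg⟩
  have ht : 0 < orderOf g := orderOf_pos_iff.mpr hfin
  have htr : (0 : ℝ) < orderOf g := by exact_mod_cast ht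
  have htp : (orderOf g : ℝ) ≤ p := by
    have : orderOf g ≤ p - 1 := by
      apply Nat.le_of_dvd (by have := hp.two_le; omega)
      exact orderOf_dvd_of_pow_eq_one (ZMod.pow_card_sub_one_eq_one hg)
    have : orderOf g ≤ p := by omega
    exact_mod_cast this
  have hsplit : (p : ℝ) ^ (3 / 2 + ε) = (p : ℝ) ^ (1 / 2 + ε) * p := by
    rw [← Real.rpow_add_one hp0.ne']
    congr 1
    ring
  have hNbig : (p : ℝ) ^ (1 / 2 + ε) ≤ N := by
    have : (p : ℝ) ^ (1 / 2 + ε) * p ≤ N * p := by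
      rw [← hsplit]
      refine hNH.trans ?_
      gcongr
    exact le_of_mul_le_mul_right this hp0
  have htbig : (p : ℝ) ^ (1 / 2 + ε) ≤ orderOf g := by
    have : (p : ℝ) ^ (1 / 2 + ε) * p ≤ orderOf g * p := by
      rw [← hsplit]
      refine htH.trans ?_
      gcongr
    exact le_of_mul_le_mul_right this hp0
  have hHbig : (p : ℝ) ^ (1 / 2 + ε) ≤ H := by
    have : (p : ℝ) ^ (1 / 2 + ε) * p ≤ H * p := by
      rw [← hsplit, mul_comm (H : ℝ)]
      refine htH.trans ?_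
      gcongr
    exact le_of_mul_le_mul_right this hp0
  -- cut off the small exponents
  set Y : ℝ := (p : ℝ) ^ (ε / 64) with hY
  have hY1 : 1 ≤ Y := Real.one_le_rpow hp1 (by positivity)
  set D : ℕ := ⌈Y⌉₊ with hD
  have hDY : Y ≤ D := Nat.le_ceil _
  have hDY2 : (D : ℝ) ≤ Y + 1 := (Nat.ceil_lt_add_one (by linarith)).le
  have hDN : (D : ℝ) ≤ N / 2 := by linarith
  have hDN' : D ≤ N := by
    have : (D : ℝ) ≤ N := by
      have : (0 : ℝ) ≤ N := Nat.cast_nonneg _
      linarith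
    exact_mod_cast this
  set N' : ℕ := N - D with hN'
  have hN'r : (N' : ℝ) = N - D := by rw [hN', Nat.cast_sub hDN']
  have hN'h : (N : ℝ) / 2 ≤ N' := by rw [hN'r]; linarith
  set L' : ℕ := L + D with hL'
  have hLN : L' + N' = L + N := by omega
  have hN0 : (0 : ℝ) ≤ N := Nat.cast_nonneg _
  have hcard : ((Ioc L' (L' + N')).card : ℝ) = N' := by simp
  have hrexp : (p : ℝ) ^ (3 / 2 + ε / 2) = Real.sqrt p * p * (p : ℝ) ^ (ε / 2) := by
    have : (p : ℝ) ^ (3 / 2 + ε / 2) = (p : ℝ) ^ (1 / 2 : ℝ) * (p : ℝ) ^ (1 : ℝ) *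
        (p : ℝ) ^ (ε / 2) := by
      rw [← Real.rpow_add hp0, ← Real.rpow_add hp0]
      congr 1
      ring
    rw [this, Real.rpow_one, Real.sqrt_eq_rpow]
  have hrexp2 : (p : ℝ) ^ (3 / 2 + ε) = (p : ℝ) ^ (3 / 2 + ε / 2) * (p : ℝ) ^ (ε / 2) := by
    rw [← Real.rpow_add hp0]
    congr 1
    ring
  have hpe : (0 : ℝ) < (p : ℝ) ^ (ε / 2) := by positivity
  have hpneg : (p : ℝ) ^ (-(ε / 2)) = ((p : ℝ) ^ (ε / 2))⁻¹ := Real.rpow_neg hp0.le _
  have h2 := c1 ⟨hp.ne_zero⟩ M H hHp (le_trans (Real.rpow_le_rpow_of_exponent_le hp1 (by linarith)) hHbig)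
    ℕ (Ioc L' (L' + N')) (fun j => j) (fun j => a * g ^ j)
    (fun j => (∀ q : ℕ, q.Prime → κ * ff p < |(q : ℝ) - j|) ∧
      ∃ n : ℕ, M < n ∧ n ≤ M + H ∧ (n : ZMod p) = a * g ^ j ∧
      ∀ q : ℕ, q.Prime → κ * ff p < |(q : ℝ) - n|) (fun _ => inferInstance)
    (fun j _ h3 h4 => ⟨h3, h4⟩) (by
    intro j hj
    rw [mem_Ioc] at hj
    have h3 : D ≤ j := by omega
    have h3r : (D : ℝ) ≤ j := by exact_mod_cast h3
    have h4 : ε / 2 / 32 = ε / 64 := by ring
    rw [h4]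
    exact hDY.trans h3r) (by
    intro q hq hqY ρ
    have h4 : ε / 2 / 32 = ε / 64 := by ring
    rw [h4] at hqY
    rw [hcard]
    constructor
    · obtain ⟨j0, K, hK, hfil⟩ := ap L' N' q hq ρ
      rw [hfil, card_image_of_injective _ (by
        intro x x' h
        have h1 : q * x = q * x' := Nat.add_left_cancel h
        exact Nat.eq_of_mul_eq_mul_left (by omega) h1), card_range]
      refine hK.trans ?_
      rw [hpneg, ← div_eq_mul_inv, le_div_iff₀ hpe]
      linarith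
    · intro w hw
      have hqt : q ≤ orderOf g := by
        have : (q : ℝ) ≤ orderOf g := by linarith
        exact_mod_cast this
      have h5 := class_norm g hg (w * a) (mul_ne_zero hw ha) L' N' q hq hqt ρ
      have h6 : ∑ j ∈ (Ioc L' (L' + N')).filter (fun j : ℕ => (q : ℤ) ∣ (j : ℤ) - ρ),
          (ZMod.stdAddChar (w * (a * g ^ j)) : ℂ) =
          ∑ j ∈ (Ioc L' (L' + N')).filter (fun j : ℕ => (q : ℤ) ∣ (j : ℤ) - ρ),
          (ZMod.stdAddChar (w * a * g ^ j) : ℂ) := by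
        refine sum_congr rfl fun j _ => ?_
        rw [mul_assoc]
      rw [h6]
      refine h5.trans ?_
      rw [hpneg, ← div_eq_mul_inv, le_div_iff₀ hpe, le_div_iff₀ hp0]
      have e1 : Real.sqrt p * ((N' : ℝ) / orderOf g + 2 + Real.log p) * (p : ℝ) ^ (ε / 2) * p =
          (p : ℝ) ^ (3 / 2 + ε / 2) * (N' / orderOf g) +
          (p : ℝ) ^ (3 / 2 + ε / 2) * (2 + Real.log p) := by
        rw [hrexp]
        ring
      rw [e1]
      have hpp : (0 : ℝ) ≤ (p : ℝ) ^ (3 / 2 + ε / 2) := by positivity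
      have hN'0 : (0 : ℝ) ≤ N' := Nat.cast_nonneg _
      have e2 : (p : ℝ) ^ (3 / 2 + ε / 2) * (N' / orderOf g) ≤ N' * H / 2 := by
        have : (p : ℝ) ^ (3 / 2 + ε / 2) ≤ orderOf g * H / 2 := by
          have : (p : ℝ) ^ (3 / 2 + ε / 2) * 2 ≤ orderOf g * H := by
            refine le_trans ?_ htH
            rw [hrexp2]
            gcongr
            linarith
          linarith
        calc (p : ℝ) ^ (3 / 2 + ε / 2) * (N' / orderOf g) ≤
            orderOf g * H / 2 * (N' / orderOf g) := by gcongr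
          _ = _ := by field_simp
      have e3 : (p : ℝ) ^ (3 / 2 + ε / 2) * (2 + Real.log p) ≤ N' * H / 2 := by
        have h7 : (p : ℝ) ^ (3 / 2 + ε / 2) * (4 * (2 + Real.log p)) ≤ N * H := by
          refine le_trans ?_ hNH
          rw [hrexp2]
          gcongr
        have h8 : (N : ℝ) / 2 * H ≤ N' * H := by gcongr
        linarith
      linarith)
  rw [hcard] at h2
  have h3 : ((Ioc L' (L' + N')).filter (fun j : ℕ =>
      (∀ q : ℕ, q.Prime → κ * ff p < |(q : ℝ) - j|) ∧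
      ∃ n : ℕ, M < n ∧ n ≤ M + H ∧ (n : ZMod p) = a * g ^ j ∧
      ∀ q : ℕ, q.Prime → κ * ff p < |(q : ℝ) - n|)).card ≤
      ((Ioc L (L + N)).filter (fun j : ℕ =>
      (∀ q : ℕ, q.Prime → κ * ff p < |(q : ℝ) - j|) ∧
      ∃ n : ℕ, M < n ∧ n ≤ M + H ∧ (n : ZMod p) = a * g ^ j ∧
      ∀ q : ℕ, q.Prime → κ * ff p < |(q : ℝ) - n|)).card := by
    apply card_le_card
    apply filter_subset_filter
    rw [hLN]
    exact Ioc_subset_Ioc_left (by omega)
  have h4 : (N : ℝ) * H * (p : ℝ) ^ (-(1 + ε)) ≤ N' * H / p * (p : ℝ) ^ (-(ε / 2)) := by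
    have e7 : (p : ℝ) ^ (-(1 + ε)) = (p : ℝ) ^ (-(ε / 2)) * (p : ℝ) ^ (-(ε / 2)) / p := by
      rw [← Real.rpow_add hp0, div_eq_mul_inv, ← Real.rpow_neg_one (p : ℝ), ← Real.rpow_add hp0]
      congr 1
      ring
    have e8 : (p : ℝ) ^ (-(ε / 2)) ≤ 1 / 2 := by
      rw [hpneg, ← one_div]
      exact one_div_le_one_div_of_le (by norm_num) (by linarith)
    rw [e7]
    have e9 : (0 : ℝ) ≤ (p : ℝ) ^ (-(ε / 2)) := by positivity
    calc (N : ℝ) * H * ((p : ℝ) ^ (-(ε / 2)) * (p : ℝ) ^ (-(ε / 2)) / p) =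
        (N * (p : ℝ) ^ (-(ε / 2))) * H / p * (p : ℝ) ^ (-(ε / 2)) := by ring
      _ ≤ N' * H / p * (p : ℝ) ^ (-(ε / 2)) := by
          gcongr
          calc (N : ℝ) * (p : ℝ) ^ (-(ε / 2)) ≤ N * (1 / 2) := by gcongr
            _ = N / 2 := by ring
            _ ≤ N' := hN'h
  refine h4.trans (le_trans ?_ (Nat.cast_le.mpr h3))
  exact h2

end Pool.Agent.V11113.MP
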