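import Pool.Agent.V11113.MP.Pow
import Pool.Agent.H435R3.HBK.Step

set_option autoImplicit false

/-! Exponential sums over small multiplicative subgroups modulo a prime, by the lemma of Heath-Brown
and Konyagin. -/

namespace Pool.Agent.V11113.MP

open Finset Filter

variable {p : ℕ} [hp : Fact p.Prime]

lemma parseval (f : ZMod p → ℂ) :
    ∑ a : ZMod p, ‖∑ s : ZMod p, f s * (ZMod.stdAddChar (a * s) : ℂ)‖ ^ 2 =
      p * ∑ s : ZMod p, ‖f s‖ ^ 2 := by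
  classical
  have h1 : ∀ a : ZMod p,
      ((‖∑ s : ZMod p, f s * (ZMod.stdAddChar (a * s) : ℂ)‖ ^ 2 : ℝ) : ℂ) =
      ∑ s : ZMod p, ∑ s' : ZMod p, (f s * (starRingEnd ℂ) (f s')) *
        (ZMod.stdAddChar (a * (s - s')) : ℂ) := by
    intro a
    rw [Complex.ofReal_pow, ← Complex.mul_conj', map_sum, sum_mul_sum]
    refine sum_congr rfl fun b _ => sum_congr rfl fun b' _ => ?_
    rw [map_mul (starRingEnd ℂ), ← AddChar.map_neg_eq_conj (ZMod.stdAddChar) (a * b'), mul_sub,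
      sub_eq_add_neg, AddChar.map_add_eq_mul]
    ring
  have h2 : ((∑ a : ZMod p, ‖∑ s : ZMod p, f s * (ZMod.stdAddChar (a * s) : ℂ)‖ ^ 2 : ℝ) : ℂ) =
      ((p * ∑ s : ZMod p, ‖f s‖ ^ 2 : ℝ) : ℂ) := by
    rw [Complex.ofReal_sum, sum_congr rfl (fun a _ => h1 a), sum_comm]
    have h3 : ∀ s : ZMod p, ∑ a : ZMod p, ∑ s' : ZMod p, (f s * (starRingEnd ℂ) (f s')) *
        (ZMod.stdAddChar (a * (s - s')) : ℂ) = (p : ℂ) * ((‖f s‖ ^ 2 : ℝ) : ℂ) := by
      intro s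
      rw [sum_comm]
      have h4 : ∀ s' : ZMod p, ∑ a : ZMod p, (f s * (starRingEnd ℂ) (f s')) *
          (ZMod.stdAddChar (a * (s - s')) : ℂ) =
          if s = s' then (p : ℂ) * ((‖f s‖ ^ 2 : ℝ) : ℂ) else 0 := by
        intro s'
        rw [← mul_sum, AddChar.sum_mulShift _ (ZMod.isPrimitive_stdAddChar p), ZMod.card]
        by_cases h : s = s'
        · rw [if_pos h, if_pos (by rw [h, sub_self]), h, Complex.mul_conj']
          push_cast
          ring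
        · rw [if_neg h, if_neg (fun h5 => h (sub_eq_zero.mp h5))]
          simp
      rw [sum_congr rfl (fun s' _ => h4 s'), sum_ite_eq, if_pos (mem_univ _)]
    rw [sum_congr rfl (fun s _ => h3 s), ← mul_sum]
    push_cast
    rfl
  exact_mod_cast h2

open scoped Classical in
/-- number of representations of a difference -/
noncomputable def rr (g : ZMod p) (t : ℕ) [NeZero t] (s : ZMod p) : ℕ :=
  ((univ : Finset (ZMod t × ZMod t)).filter (fun w => g ^ w.1.val - g ^ w.2.val = s)).card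

lemma pow_inj (g : ZMod p) (t : ℕ) [NeZero t] (ht : t = orderOf g) (u u' : ZMod t)
    (h : g ^ u.val = g ^ u'.val) : u = u' := by
  have h2 : u.val = u'.val := by
    have hu : u.val < orderOf g := by rw [← ht]; exact ZMod.val_lt u
    have hu' : u'.val < orderOf g := by rw [← ht]; exact ZMod.val_lt u'
    exact pow_injOn_Iio_orderOf hu hu' h
  exact ZMod.val_injective t h2

lemma rr_zero (g : ZMod p) (t : ℕ) [NeZero t] (ht : t = orderOf g) : rr g t 0 ≤ t := by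
  classical
  unfold rr
  calc _ ≤ (univ.image (fun u : ZMod t => (u, u))).card := by
        apply card_le_card
        intro w hw
        rw [mem_filter] at hw
        rw [mem_image]
        refine ⟨w.1, mem_univ _, ?_⟩
        have := pow_inj g t ht w.1 w.2 (sub_eq_zero.mp hw.2)
        exact Prod.ext rfl this
    _ ≤ (univ : Finset (ZMod t)).card := card_image_le
    _ = t := by rw [card_univ, ZMod.card]

lemma rr_le (g : ZMod p) (hg : g ≠ 0) (t : ℕ) [NeZero t] (ht : t = orderOf g)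
    (htp : t ^ 4 < p ^ 3) (x : ZMod p) (hx : x ≠ 0) : (rr g t x : ℝ) ≤ 7 * (t : ℝ) ^ (2 / 3 : ℝ) := by
  classical
  have ht1 : g ^ t = 1 := by rw [ht]; exact pow_orderOf_eq_one g
  have htpos : 1 ≤ t := Nat.one_le_iff_ne_zero.mpr (NeZero.ne t)
  have hpow : ∀ n : ℕ, (g ^ n) ^ t = 1 := fun n => by rw [← pow_mul, mul_comm, pow_mul, ht1, one_pow]
  have h1 : rr g t x ≤
      (univ.filter fun u : ZMod p => u ^ t = 1 / x ^ t ∧ (u - 1) ^ t = 1 / x ^ t).card := by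
    unfold rr
    refine card_le_card_of_injOn (fun w => g ^ w.1.val / x) ?_ ?_
    · intro w hw
      rw [mem_coe, mem_filter] at hw
      rw [mem_coe, mem_filter]
      refine ⟨mem_univ _, ?_, ?_⟩
      · simp only
        rw [div_pow, hpow]
      · have h2 : g ^ w.1.val / x - 1 = g ^ w.2.val / x := by
          have h3 : g ^ w.1.val = g ^ w.2.val + x := by rw [← hw.2]; ring
          rw [h3, add_div, div_self hx, add_sub_cancel_right]
        simp only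
        rw [h2, div_pow, hpow]
    · intro w hw w' hw' h2
      rw [mem_coe, mem_filter] at hw hw'
      have h3 : g ^ w.1.val = g ^ w'.1.val := by
        have h4 := congrArg (fun y => y * x) h2
        simpa [div_mul_cancel₀ _ hx] using h4
      have h5 : g ^ w.2.val = g ^ w'.2.val := by
        have e1 : g ^ w.2.val = g ^ w.1.val - x := by rw [← hw.2]; ring
        have e2 : g ^ w'.2.val = g ^ w'.1.val - x := by rw [← hw'.2]; ring
        rw [e1, e2, h3]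
      exact Prod.ext (pow_inj g t ht _ _ h3) (pow_inj g t ht _ _ h5)
  have h0 : 1 / x ^ t ≠ 0 := div_ne_zero one_ne_zero (pow_ne_zero _ hx)
  have h2 := Pool.Agent.H435R3.HBK.hbk (p := p) t htpos htp _ _ h0 h0
    (univ.filter fun u : ZMod p => u ^ t = 1 / x ^ t ∧ (u - 1) ^ t = 1 / x ^ t)
    (fun u hu => (mem_filter.1 hu).2)
  have h3 := (Nat.pow_le_pow_left h1 3).trans h2
  have h4 : (rr g t x : ℝ) ^ 3 ≤ 308 * (t : ℝ) ^ 2 := by
    exact_mod_cast h3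
  have h5 : (7 * (t : ℝ) ^ (2 / 3 : ℝ)) ^ 3 = 343 * (t : ℝ) ^ 2 := by
    rw [mul_pow, ← Real.rpow_natCast ((t : ℝ) ^ (2 / 3 : ℝ)) 3, ← Real.rpow_mul (Nat.cast_nonneg t)]
    norm_num
  refine (pow_le_pow_iff_left₀ (Nat.cast_nonneg _) (by positivity) (by norm_num : (3 : ℕ) ≠ 0)).1 ?_
  rw [h5]
  refine h4.trans ?_
  have : (0 : ℝ) ≤ (t : ℝ) ^ 2 := by positivity
  linarith

lemma rr_sum {M : Type*} [AddCommMonoid M] (g : ZMod p) (t : ℕ) [NeZero t] (F : ZMod p → M) :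
    ∑ w : ZMod t × ZMod t, F (g ^ w.1.val - g ^ w.2.val) = ∑ s : ZMod p, rr g t s • F s := by
  classical
  rw [← Finset.sum_fiberwise (s := (univ : Finset (ZMod t × ZMod t)))
    (g := fun w : ZMod t × ZMod t => g ^ w.1.val - g ^ w.2.val)]
  refine sum_congr rfl fun s _ => ?_
  rw [sum_congr rfl (g := fun _ => F s) (fun w hw => by rw [(mem_filter.mp hw).2]), sum_const]
  rfl

lemma rr_total (g : ZMod p) (t : ℕ) [NeZero t] : ∑ s : ZMod p, (rr g t s : ℝ) = (t : ℝ) ^ 2 := by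
  have h := rr_sum g t (fun _ => (1 : ℝ))
  simp only [sum_const, card_univ, Fintype.card_prod, ZMod.card, nsmul_eq_mul, mul_one] at h
  rw [← h]
  push_cast
  ring

lemma energy (g : ZMod p) (hg : g ≠ 0) (t : ℕ) [NeZero t] (ht : t = orderOf g)
    (htp : t ^ 4 < p ^ 3) : ∑ s : ZMod p, (rr g t s : ℝ) ^ 2 ≤ 8 * (t : ℝ) ^ (8 / 3 : ℝ) := by
  classical
  have htpos : 1 ≤ t := Nat.one_le_iff_ne_zero.mpr (NeZero.ne t)
  have ht1 : (1 : ℝ) ≤ t := by exact_mod_cast htpos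
  set R : ℝ := 7 * (t : ℝ) ^ (2 / 3 : ℝ) with hR
  have h1 : ∀ s : ZMod p, (rr g t s : ℝ) ^ 2 ≤ R * rr g t s + if s = 0 then (t : ℝ) ^ 2 else 0 := by
    intro s
    have hr0 : (0 : ℝ) ≤ rr g t s := Nat.cast_nonneg _
    have hR0 : 0 ≤ R := by positivity
    by_cases h : s = 0
    · rw [if_pos h, h]
      have h2 : (rr g t (0 : ZMod p) : ℝ) ≤ t := by exact_mod_cast rr_zero g t ht
      have h3 : (0 : ℝ) ≤ rr g t (0 : ZMod p) := Nat.cast_nonneg _
      have h4 : (rr g t (0 : ZMod p) : ℝ) ^ 2 ≤ (t : ℝ) ^ 2 := pow_le_pow_left₀ h3 h2 2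
      have h5 : 0 ≤ R * rr g t (0 : ZMod p) := mul_nonneg hR0 h3
      linarith
    · rw [if_neg h, add_zero, sq]
      exact mul_le_mul_of_nonneg_right (rr_le g hg t ht htp s h) hr0
  calc ∑ s : ZMod p, (rr g t s : ℝ) ^ 2 ≤
      ∑ s : ZMod p, (R * rr g t s + if s = 0 then (t : ℝ) ^ 2 else 0) :=
        sum_le_sum fun s _ => h1 s
    _ = R * (t : ℝ) ^ 2 + (t : ℝ) ^ 2 := by
        rw [sum_add_distrib, ← mul_sum, rr_total, sum_ite_eq' univ, if_pos (mem_univ _)]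
    _ ≤ 8 * (t : ℝ) ^ (8 / 3 : ℝ) := by
        have e1 : (t : ℝ) ^ (8 / 3 : ℝ) = (t : ℝ) ^ (2 / 3 : ℝ) * (t : ℝ) ^ 2 := by
          rw [← Real.rpow_natCast (t : ℝ) 2, ← Real.rpow_add (by linarith)]
          norm_num
        have e2 : (1 : ℝ) ≤ (t : ℝ) ^ (2 / 3 : ℝ) := Real.one_le_rpow ht1 (by norm_num)
        rw [e1, hR]
        have : (0 : ℝ) ≤ (t : ℝ) ^ 2 := by positivity
        nlinarith

/-- the plain sum -/
noncomputable def W (g : ZMod p) (t : ℕ) [NeZero t] (b : ZMod p) : ℂ :=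
  ∑ u : ZMod t, (ZMod.stdAddChar (b * g ^ u.val) : ℂ)

lemma W_sq (g : ZMod p) (t : ℕ) [NeZero t] (b : ZMod p) :
    ((‖W g t b‖ ^ 2 : ℝ) : ℂ) = ∑ s : ZMod p, (rr g t s : ℂ) * (ZMod.stdAddChar (b * s) : ℂ) := by
  have h1 : ((‖W g t b‖ ^ 2 : ℝ) : ℂ) = ∑ w : ZMod t × ZMod t,
      (ZMod.stdAddChar (b * (g ^ w.1.val - g ^ w.2.val)) : ℂ) := by
    unfold W
    rw [Complex.ofReal_pow, ← Complex.mul_conj', map_sum, sum_mul_sum, Fintype.sum_prod_type]
    refine sum_congr rfl fun u _ => sum_congr rfl fun u' _ => ?_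
    rw [← AddChar.map_neg_eq_conj, mul_sub, sub_eq_add_neg, AddChar.map_add_eq_mul]
  rw [h1, rr_sum g t (fun s => (ZMod.stdAddChar (b * s) : ℂ))]
  refine sum_congr rfl fun s _ => ?_
  rw [nsmul_eq_mul]

lemma W_fourth (g : ZMod p) (t : ℕ) [NeZero t] :
    ∑ b : ZMod p, ‖W g t b‖ ^ 4 = p * ∑ s : ZMod p, (rr g t s : ℝ) ^ 2 := by
  have h1 : ∀ b : ZMod p, ‖W g t b‖ ^ 4 =
      ‖∑ s : ZMod p, (rr g t s : ℂ) * (ZMod.stdAddChar (b * s) : ℂ)‖ ^ 2 := by
    intro b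
    rw [← W_sq, Complex.norm_real, Real.norm_eq_abs, abs_of_nonneg (by positivity)]
    ring
  rw [sum_congr rfl (fun b _ => h1 b), parseval]
  congr 1
  refine sum_congr rfl fun s _ => ?_
  rw [Complex.norm_natCast]

lemma S_fourth (g : ZMod p) (hg : g ≠ 0) (t : ℕ) [NeZero t] (ht : t = orderOf g) (k : ZMod t)
    (y : ZMod p) (hy : y ≠ 0) :
    ‖S g t k y‖ ^ 4 ≤ (∑ s : ZMod p, (rr g t s : ℝ) ^ 2) * Real.sqrt p := by
  classical
  have ht1 : g ^ t = 1 := by rw [ht]; exact pow_orderOf_eq_one g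
  have ht0 : (0 : ℝ) < t := by exact_mod_cast Nat.pos_of_ne_zero (NeZero.ne t)
  set E : ℝ := ∑ s : ZMod p, (rr g t s : ℝ) ^ 2 with hE
  have hE0 : 0 ≤ E := by positivity
  -- `t |S|² ≤ ∑ r(s) |W(ys)|`
  have h1 : (t : ℝ) * ‖S g t k y‖ ^ 2 ≤ ∑ s : ZMod p, (rr g t s : ℝ) * ‖W g t (y * s)‖ := by
    have e1 : (((t : ℝ) * ‖S g t k y‖ ^ 2 : ℝ) : ℂ) = ∑ w : ZMod t × ZMod t,
        ((ZMod.stdAddChar (-(w.1 * k)) : ℂ) * (starRingEnd ℂ) (ZMod.stdAddChar (-(w.2 * k)) : ℂ)) *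
        W g t (y * (g ^ w.1.val - g ^ w.2.val)) := by
      have e2 : (t : ℝ) * ‖S g t k y‖ ^ 2 = ∑ z : ZMod t, ‖S g t k (y * g ^ z.val)‖ ^ 2 := by
        rw [sum_congr rfl (fun z _ => by rw [S_shifts g t ht1 k y z.val]), sum_const, card_univ,
          ZMod.card, nsmul_eq_mul]
      rw [e2, Complex.ofReal_sum]
      have e3 : ∀ z : ZMod t, ((‖S g t k (y * g ^ z.val)‖ ^ 2 : ℝ) : ℂ) =
          ∑ w : ZMod t × ZMod t, ((ZMod.stdAddChar (-(w.1 * k)) : ℂ) *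
            (starRingEnd ℂ) (ZMod.stdAddChar (-(w.2 * k)) : ℂ)) *
            (ZMod.stdAddChar (y * (g ^ w.1.val - g ^ w.2.val) * g ^ z.val) : ℂ) := by
        intro z
        unfold S
        rw [Complex.ofReal_pow, ← Complex.mul_conj', map_sum, sum_mul_sum, Fintype.sum_prod_type]
        refine sum_congr rfl fun b _ => sum_congr rfl fun b' _ => ?_
        rw [map_mul (starRingEnd ℂ), ← AddChar.map_neg_eq_conj (ZMod.stdAddChar)
          (y * g ^ z.val * g ^ b'.val)]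
        have e4 : y * (g ^ b.val - g ^ b'.val) * g ^ z.val =
            y * g ^ z.val * g ^ b.val + -(y * g ^ z.val * g ^ b'.val) := by ring
        rw [e4, AddChar.map_add_eq_mul]
        ring
      rw [sum_congr rfl (fun z _ => e3 z), sum_comm]
      refine sum_congr rfl fun w _ => ?_
      rw [← mul_sum]
      rfl
    have e5 : (t : ℝ) * ‖S g t k y‖ ^ 2 ≤ ∑ w : ZMod t × ZMod t,
        ‖W g t (y * (g ^ w.1.val - g ^ w.2.val))‖ := by
      have e6 : (t : ℝ) * ‖S g t k y‖ ^ 2 = ‖(((t : ℝ) * ‖S g t k y‖ ^ 2 : ℝ) : ℂ)‖ := by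
        rw [Complex.norm_real, Real.norm_eq_abs, abs_of_nonneg (by positivity)]
      rw [e6, e1]
      refine (norm_sum_le _ _).trans (sum_le_sum fun w _ => le_of_eq ?_)
      rw [norm_mul, norm_mul, RCLike.norm_conj, AddChar.norm_apply, AddChar.norm_apply, one_mul,
        one_mul]
    refine e5.trans (le_of_eq ?_)
    rw [rr_sum g t (fun s => ‖W g t (y * s)‖)]
    refine sum_congr rfl fun s _ => ?_
    rw [nsmul_eq_mul]
  -- Cauchy and Schwarz twice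
  have h2 : (∑ s : ZMod p, (rr g t s : ℝ) * ‖W g t (y * s)‖) ^ 2 ≤
      (t : ℝ) ^ 2 * ∑ s : ZMod p, (rr g t s : ℝ) * ‖W g t (y * s)‖ ^ 2 := by
    have := sum_mul_sq_le_sq_mul_sq (univ : Finset (ZMod p)) (fun s => Real.sqrt (rr g t s))
      (fun s => Real.sqrt (rr g t s) * ‖W g t (y * s)‖)
    have e1 : ∀ s : ZMod p, Real.sqrt (rr g t s) * (Real.sqrt (rr g t s) * ‖W g t (y * s)‖) =
        (rr g t s : ℝ) * ‖W g t (y * s)‖ := by
      intro s
      rw [← mul_assoc, Real.mul_self_sqrt (Nat.cast_nonneg _)]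
    have e2 : ∀ s : ZMod p, (Real.sqrt (rr g t s) * ‖W g t (y * s)‖) ^ 2 =
        (rr g t s : ℝ) * ‖W g t (y * s)‖ ^ 2 := by
      intro s
      rw [mul_pow, Real.sq_sqrt (Nat.cast_nonneg _)]
    have e3 : ∀ s : ZMod p, (Real.sqrt (rr g t s)) ^ 2 = (rr g t s : ℝ) := by
      intro s
      rw [Real.sq_sqrt (Nat.cast_nonneg _)]
    rw [sum_congr rfl (fun s _ => e1 s), sum_congr rfl (fun s _ => e2 s),
      sum_congr rfl (fun s _ => e3 s), rr_total] at this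
    exact this
  have h3 : (∑ s : ZMod p, (rr g t s : ℝ) * ‖W g t (y * s)‖ ^ 2) ^ 2 ≤ E * (p * E) := by
    have := sum_mul_sq_le_sq_mul_sq (univ : Finset (ZMod p)) (fun s => (rr g t s : ℝ))
      (fun s => ‖W g t (y * s)‖ ^ 2)
    refine this.trans ?_
    rw [← hE]
    apply mul_le_mul_of_nonneg_left _ hE0
    have e1 : ∑ s : ZMod p, (‖W g t (y * s)‖ ^ 2) ^ 2 = ∑ b : ZMod p, ‖W g t b‖ ^ 4 := by
      rw [← Equiv.sum_comp (Equiv.mulLeft₀ y hy) (fun b => ‖W g t b‖ ^ 4)]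
      refine sum_congr rfl fun s _ => ?_
      rw [Equiv.mulLeft₀_apply]
      ring
    rw [e1, W_fourth]
  have h4 : ∑ s : ZMod p, (rr g t s : ℝ) * ‖W g t (y * s)‖ ^ 2 ≤ E * Real.sqrt p := by
    apply le_of_sq_le_sq _ (by positivity)
    rw [mul_pow, Real.sq_sqrt (Nat.cast_nonneg _)]
    refine h3.trans (le_of_eq ?_)
    ring
  have h5 : ((t : ℝ) * ‖S g t k y‖ ^ 2) ^ 2 ≤ (t : ℝ) ^ 2 * (E * Real.sqrt p) := by
    calc ((t : ℝ) * ‖S g t k y‖ ^ 2) ^ 2 ≤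
        (∑ s : ZMod p, (rr g t s : ℝ) * ‖W g t (y * s)‖) ^ 2 :=
          pow_le_pow_left₀ (by positivity) h1 2
      _ ≤ _ := h2
      _ ≤ _ := mul_le_mul_of_nonneg_left h4 (by positivity)
  have h6 : ((t : ℝ) * ‖S g t k y‖ ^ 2) ^ 2 = (t : ℝ) ^ 2 * ‖S g t k y‖ ^ 4 := by ring
  rw [h6] at h5
  exact le_of_mul_le_mul_left h5 (by positivity)

/-- twisted sums over small subgroups -/
lemma S_small (g : ZMod p) (hg : g ≠ 0) (t : ℕ) [NeZero t] (ht : t = orderOf g) (k : ZMod t)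
    (y : ZMod p) (hy : y ≠ 0) :
    ‖S g t k y‖ ≤ 2 * (t : ℝ) ^ (2 / 3 : ℝ) * (p : ℝ) ^ (1 / 8 : ℝ) := by
  have htpos : 1 ≤ t := Nat.one_le_iff_ne_zero.mpr (NeZero.ne t)
  have ht1 : (1 : ℝ) ≤ t := by exact_mod_cast htpos
  have ht0 : (0 : ℝ) < t := by linarith
  have hp1 : (1 : ℝ) ≤ p := by exact_mod_cast hp.out.one_le
  have hp0 : (0 : ℝ) < p := by linarith
  by_cases htp : t ^ 4 < p ^ 3
  · have h1 := (S_fourth g hg t ht k y hy).trans
      (mul_le_mul_of_nonneg_right (energy g hg t ht htp) (Real.sqrt_nonneg _))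
    refine (pow_le_pow_iff_left₀ (norm_nonneg _) (by positivity) (by norm_num : (4 : ℕ) ≠ 0)).1 ?_
    refine h1.trans ?_
    have e1 : (2 * (t : ℝ) ^ (2 / 3 : ℝ) * (p : ℝ) ^ (1 / 8 : ℝ)) ^ 4 =
        16 * (t : ℝ) ^ (8 / 3 : ℝ) * Real.sqrt p := by
      rw [mul_pow, mul_pow, ← Real.rpow_natCast ((t : ℝ) ^ (2 / 3 : ℝ)) 4, ← Real.rpow_mul ht0.le,
        ← Real.rpow_natCast ((p : ℝ) ^ (1 / 8 : ℝ)) 4, ← Real.rpow_mul hp0.le, Real.sqrt_eq_rpow]
      norm_num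
    rw [e1]
    have : 0 ≤ (t : ℝ) ^ (8 / 3 : ℝ) * Real.sqrt p := by positivity
    linarith
  · push Not at htp
    refine (S_bound g hg t ht k y hy).trans ?_
    have h1 : ((p : ℝ)) ^ (3 / 4 : ℝ) ≤ t := by
      have h2 : ((p : ℝ)) ^ 3 ≤ (t : ℝ) ^ 4 := by exact_mod_cast htp
      refine (pow_le_pow_iff_left₀ (by positivity) ht0.le (by norm_num : (4 : ℕ) ≠ 0)).1 ?_
      rw [← Real.rpow_natCast ((p : ℝ) ^ (3 / 4 : ℝ)) 4, ← Real.rpow_mul hp0.le]
      refine le_trans (le_of_eq ?_) h2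
      rw [← Real.rpow_natCast (p : ℝ) 3]
      norm_num
    have h2 : (p : ℝ) ^ (1 / 2 : ℝ) ≤ (t : ℝ) ^ (2 / 3 : ℝ) := by
      calc (p : ℝ) ^ (1 / 2 : ℝ) = ((p : ℝ) ^ (3 / 4 : ℝ)) ^ (2 / 3 : ℝ) := by
            rw [← Real.rpow_mul hp0.le]
            norm_num
        _ ≤ (t : ℝ) ^ (2 / 3 : ℝ) := Real.rpow_le_rpow (by positivity) h1 (by norm_num)
    have h3 : (1 : ℝ) ≤ (p : ℝ) ^ (1 / 8 : ℝ) := Real.one_le_rpow hp1 (by norm_num)
    rw [Real.sqrt_eq_rpow]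
    have h4 : (0 : ℝ) ≤ (t : ℝ) ^ (2 / 3 : ℝ) := by positivity
    nlinarith

/-- sums over stretches of powers of an element of small order -/
lemma pow_norm_small (g : ZMod p) (hg : g ≠ 0) (y : ZMod p) (hy : y ≠ 0) (c K : ℕ) :
    ‖∑ k ∈ range K, (ZMod.stdAddChar (y * g ^ (c + k)) : ℂ)‖ ≤
      2 * (orderOf g : ℝ) ^ (2 / 3 : ℝ) * (p : ℝ) ^ (1 / 8 : ℝ) *
        ((K : ℝ) / orderOf g + 1 + Real.log (orderOf g)) := by
  have hfin : IsOfFinOrder g := by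
    rw [isOfFinOrder_iff_pow_eq_one]
    exact ⟨p - 1, by have := hp.out.two_le; omega, ZMod.pow_card_sub_one_eq_one hg⟩
  have : NeZero (orderOf g) := ⟨(orderOf_pos_iff.mpr hfin).ne'⟩
  have ht1 : g ^ (orderOf g) = 1 := pow_orderOf_eq_one g
  have h1 := Pool.Agent.H442R2.KF.Inc.completion (orderOf g) 1 (Nat.coprime_one_right _)
    (fun u => (ZMod.stdAddChar (y * g ^ u.val) : ℂ))
    (2 * (orderOf g : ℝ) ^ (2 / 3 : ℝ) * (p : ℝ) ^ (1 / 8 : ℝ)) (by positivity)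
    (fun w => S_small g hg (orderOf g) rfl w y hy) (c : ℤ) K
  refine le_trans (le_of_eq ?_) h1
  congr 1
  refine sum_congr rfl fun k _ => ?_
  have e1 : (((c : ℤ) + ((1 : ℕ) : ℤ) * (k : ℤ) : ℤ) : ZMod (orderOf g)) =
      ((c + k : ℕ) : ZMod (orderOf g)) := by
    push_cast
    ring
  rw [e1, pow_val g _ ht1]

end Pool.Agent.V11113.MP
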