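import Pool.Agent.V11113.MP.Curve
import Pool.Agent.V11113.MP.Small

set_option autoImplicit false

/-! Powers of elements of small order modulo a prime, both coordinates in record gaps. -/

namespace Pool.Agent.V11113.MP

open Finset Filter
open Pool.Agent.W147.PS (ff ff_compare ev_pow)

section

variable {p : ℕ} [hp : Fact p.Prime]

/-- sums over the exponents in a residue class, small order -/
lemma class_norm_small (g : ZMod p) (hg : g ≠ 0) (y : ZMod p) (hy : y ≠ 0) (L N q : ℕ) (hq : 1 ≤ q)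
    (hqt : q ≤ orderOf g) (ρ : ℤ) :
    ‖∑ j ∈ (Ioc L (L + N)).filter (fun j : ℕ => (q : ℤ) ∣ (j : ℤ) - ρ),
      (ZMod.stdAddChar (y * g ^ j) : ℂ)‖ ≤
      2 * (orderOf g : ℝ) ^ (2 / 3 : ℝ) * (p : ℝ) ^ (1 / 8 : ℝ) *
        ((N : ℝ) / orderOf g + 2 + Real.log p) := by
  obtain ⟨j0, K, hK, hfil⟩ := ap L N q hq ρ
  have hq0 : (0 : ℝ) < q := by exact_mod_cast hq
  rw [hfil, sum_image (by
    intro x _ x' _ h
    have h1 : q * x = q * x' := Nat.add_left_cancel h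
    exact Nat.eq_of_mul_eq_mul_left (by omega) h1)]
  have h1 := pow_norm_small (g ^ q) (pow_ne_zero q hg) (y * g ^ j0)
    (mul_ne_zero hy (pow_ne_zero _ hg)) 0 K
  have e1 : ∑ k ∈ range K, (ZMod.stdAddChar (y * g ^ j0 * (g ^ q) ^ (0 + k)) : ℂ) =
      ∑ k ∈ range K, (ZMod.stdAddChar (y * g ^ (j0 + q * k)) : ℂ) := by
    refine sum_congr rfl fun k _ => ?_
    rw [zero_add, pow_add, pow_mul]
    ring_nf
  rw [e1] at h1
  refine h1.trans ?_
  have hfin : IsOfFinOrder g := by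
    rw [isOfFinOrder_iff_pow_eq_one]
    exact ⟨p - 1, by have := hp.out.two_le; omega, ZMod.pow_card_sub_one_eq_one hg⟩
  have ht : 0 < orderOf g := orderOf_pos_iff.mpr hfin
  have htr : (0 : ℝ) < orderOf g := by exact_mod_cast ht
  have hfin' : IsOfFinOrder (g ^ q) := hfin.pow
  have ht' : 0 < orderOf (g ^ q) := orderOf_pos_iff.mpr hfin'
  have htr' : (0 : ℝ) < orderOf (g ^ q) := by exact_mod_cast ht'
  have h2 : orderOf g ≤ orderOf (g ^ q) * q := by
    rw [orderOf_pow' g (by omega)]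
    have hgcd : Nat.gcd (orderOf g) q ∣ orderOf g := Nat.gcd_dvd_left _ _
    calc orderOf g = orderOf g / Nat.gcd (orderOf g) q * Nat.gcd (orderOf g) q :=
          (Nat.div_mul_cancel hgcd).symm
      _ ≤ orderOf g / Nat.gcd (orderOf g) q * q :=
          Nat.mul_le_mul_left _ (Nat.gcd_le_right _ (by omega))
  have h2r : (orderOf g : ℝ) ≤ orderOf (g ^ q) * q := by exact_mod_cast h2
  have h2le : (orderOf (g ^ q) : ℝ) ≤ orderOf g := by
    have : orderOf (g ^ q) ∣ orderOf g := orderOf_pow_dvd q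
    exact_mod_cast Nat.le_of_dvd ht this
  have h3 : (orderOf (g ^ q) : ℝ) ≤ p := by
    have : orderOf (g ^ q) ≤ p - 1 := by
      apply Nat.le_of_dvd (by have := hp.out.two_le; omega)
      exact orderOf_dvd_of_pow_eq_one (ZMod.pow_card_sub_one_eq_one (pow_ne_zero q hg))
    have : orderOf (g ^ q) ≤ p := by omega
    exact_mod_cast this
  have h4 : Real.log (orderOf (g ^ q)) ≤ Real.log p := Real.log_le_log htr' h3
  have h5 : (K : ℝ) / orderOf (g ^ q) ≤ N / orderOf g + 1 := by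
    have hKq : (K : ℝ) * q ≤ N + q := by
      have := (abs_le.mp hK).2
      have h6 : (K : ℝ) ≤ N / q + 1 := by linarith
      calc (K : ℝ) * q ≤ (N / q + 1) * q := by gcongr
        _ = N + q := by field_simp
    have hqtr : (q : ℝ) ≤ orderOf g := by exact_mod_cast hqt
    have h7 : (K : ℝ) / orderOf (g ^ q) ≤ K * q / orderOf g := by
      rw [div_le_div_iff₀ htr' htr]
      calc (K : ℝ) * orderOf g ≤ K * (orderOf (g ^ q) * q) := by gcongr
        _ = _ := by ring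
    refine h7.trans ?_
    calc (K : ℝ) * q / orderOf g ≤ (N + orderOf g) / orderOf g := by
          gcongr
          linarith
      _ = _ := by rw [add_div, div_self htr.ne']
  have h6 : (0 : ℝ) ≤ (K : ℝ) / orderOf (g ^ q) := by positivity
  have h7 : (1 : ℝ) ≤ orderOf (g ^ q) := by exact_mod_cast ht'
  have h8 : 0 ≤ Real.log (orderOf (g ^ q)) := Real.log_nonneg h7
  have h9 : (orderOf (g ^ q) : ℝ) ^ (2 / 3 : ℝ) ≤ (orderOf g : ℝ) ^ (2 / 3 : ℝ) :=
    Real.rpow_le_rpow htr'.le h2le (by norm_num)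
  calc 2 * (orderOf (g ^ q) : ℝ) ^ (2 / 3 : ℝ) * (p : ℝ) ^ (1 / 8 : ℝ) *
        ((K : ℝ) / orderOf (g ^ q) + 1 + Real.log (orderOf (g ^ q))) ≤
      2 * (orderOf g : ℝ) ^ (2 / 3 : ℝ) * (p : ℝ) ^ (1 / 8 : ℝ) *
        ((K : ℝ) / orderOf (g ^ q) + 1 + Real.log (orderOf (g ^ q))) := by gcongr
    _ ≤ _ := by
      refine mul_le_mul_of_nonneg_left ?_ (by positivity)
      linarith

end

open scoped Classical in
/-- points `(j, a g ^ j)` in short boxes, from a bound for the sums over classes -/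
theorem curve_core (ε : ℝ) (h0 : 0 < ε) (h1 : ε ≤ 1) : ∃ κ : ℝ, 0 < κ ∧ ∃ P : ℕ, ∀ p : ℕ, P ≤ p →
    ∀ _ : Fact p.Prime, ∀ g a : ZMod p, g ≠ 0 → a ≠ 0 → ∀ B : ℝ, 1 ≤ B →
    (∀ y : ZMod p, y ≠ 0 → ∀ L N q : ℕ, 1 ≤ q → q ≤ orderOf g → ∀ ρ : ℤ,
      ‖∑ j ∈ (Ioc L (L + N)).filter (fun j : ℕ => (q : ℤ) ∣ (j : ℤ) - ρ),
      (ZMod.stdAddChar (y * g ^ j) : ℂ)‖ ≤ B * ((N : ℝ) / orderOf g + 2 + Real.log p)) →
    ∀ L N M H : ℕ, H ≤ p →
    B * (p : ℝ) ^ (1 + ε) ≤ N * H → B * (p : ℝ) ^ (1 + ε) ≤ orderOf g * H →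
    N * H * (p : ℝ) ^ (-(1 + ε)) ≤ ((Ioc L (L + N)).filter (fun j : ℕ =>
      (∀ q : ℕ, q.Prime → κ * ff p < |(q : ℝ) - j|) ∧
      ∃ n : ℕ, M < n ∧ n ≤ M + H ∧ (n : ZMod p) = a * g ^ j ∧
      ∀ q : ℕ, q.Prime → κ * ff p < |(q : ℝ) - n|)).card := by
  obtain ⟨κ, hκ, hm⟩ := manyJ (ε / 2) (by positivity) (by linarith)
  have hcast : Tendsto (fun m : ℕ => (m : ℝ)) atTop atTop := tendsto_natCast_atTop_atTop
  have hlog : ∀ᶠ x : ℝ in atTop, 4 * (2 + Real.log x) ≤ x ^ (ε / 2) := by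
    have h2 := (isLittleO_log_rpow_atTop (show (0 : ℝ) < ε / 4 by positivity)).def
      (show (0 : ℝ) < 1 by norm_num)
    filter_upwards [h2, eventually_ge_atTop (1 : ℝ), ev_pow (ε / 4) (ε / 2) 12 (by linarith),
      (tendsto_rpow_atTop (show 0 < ε / 4 by positivity)).eventually_ge_atTop 1]
      with x hx hx1 hx2 hx3
    rw [Real.norm_eq_abs, abs_of_nonneg (Real.log_nonneg hx1), Real.norm_eq_abs,
      abs_of_nonneg (Real.rpow_nonneg (by linarith) _)] at hx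
    linarith
  obtain ⟨P, hP⟩ := eventually_atTop.mp (hm.and ((hcast.eventually hlog).and
    ((hcast.eventually (ev_pow (ε / 64) ε 4 (by linarith))).and
    (hcast.eventually (ev_pow (ε / 2) ε 2 (by linarith))))))
  refine ⟨κ, hκ, max P 1, ?_⟩
  intro p hpP hfact g a hg ha B hB1 hB L N M H hHp hNH htH
  have hp : p.Prime := hfact.out
  obtain ⟨c1, c2, c3, c5⟩ := hP p ((le_max_left _ _).trans hpP)
  have hp1 : (1 : ℝ) ≤ p := by exact_mod_cast hp.one_le
  have hp0 : (0 : ℝ) < p := by linarith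
  have hB0 : 0 < B := by linarith
  have c4 : (2 : ℝ) ≤ (p : ℝ) ^ (ε / 2) := by linarith [Real.log_nonneg hp1]
  have hHpr : (H : ℝ) ≤ p := by exact_mod_cast hHp
  have hH0 : (0 : ℝ) ≤ H := Nat.cast_nonneg _
  have hfin : IsOfFinOrder g := by
    rw [isOfFinOrder_iff_pow_eq_one]
    exact ⟨p - 1, by have := hp.two_le; omega, ZMod.pow_card_sub_one_eq_one hg⟩
  have ht : 0 < orderOf g := orderOf_pos_iff.mpr hfin
  have htr : (0 : ℝ) < orderOf g := by exact_mod_cast ht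
  have htp : (orderOf g : ℝ) ≤ p := by
    have : orderOf g ≤ p - 1 := by
      apply Nat.le_of_dvd (by have := hp.two_le; omega)
      exact orderOf_dvd_of_pow_eq_one (ZMod.pow_card_sub_one_eq_one hg)
    have : orderOf g ≤ p := by omega
    exact_mod_cast this
  have hsplit : (p : ℝ) ^ (1 + ε) = (p : ℝ) ^ ε * p := by
    rw [← Real.rpow_add_one hp0.ne']
    congr 1
    ring
  have hpε : (0 : ℝ) < (p : ℝ) ^ ε := by positivity
  have hNbig : (p : ℝ) ^ ε ≤ N := by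
    have : (p : ℝ) ^ ε * p ≤ N * p := by
      rw [← hsplit]
      calc (p : ℝ) ^ (1 + ε) ≤ B * (p : ℝ) ^ (1 + ε) := by
            refine le_mul_of_one_le_left (by positivity) hB1
        _ ≤ N * H := hNH
        _ ≤ N * p := by gcongr
    exact le_of_mul_le_mul_right this hp0
  have htbig : (p : ℝ) ^ ε ≤ orderOf g := by
    have : (p : ℝ) ^ ε * p ≤ orderOf g * p := by
      rw [← hsplit]
      calc (p : ℝ) ^ (1 + ε) ≤ B * (p : ℝ) ^ (1 + ε) := by
            refine le_mul_of_one_le_left (by positivity) hB1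
        _ ≤ orderOf g * H := htH
        _ ≤ orderOf g * p := by gcongr
    exact le_of_mul_le_mul_right this hp0
  have hHbig : (p : ℝ) ^ ε ≤ H := by
    have : (p : ℝ) ^ ε * p ≤ H * p := by
      rw [← hsplit, mul_comm (H : ℝ)]
      calc (p : ℝ) ^ (1 + ε) ≤ B * (p : ℝ) ^ (1 + ε) := by
            refine le_mul_of_one_le_left (by positivity) hB1
        _ ≤ orderOf g * H := htH
        _ ≤ p * H := by gcongr
    exact le_of_mul_le_mul_right this hp0
  -- cut off the small exponents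
  set Y : ℝ := (p : ℝ) ^ (ε / 64) with hY
  have hY1 : 1 ≤ Y := Real.one_le_rpow hp1 (by positivity)
  set D : ℕ := ⌈Y⌉₊ with hD
  have hDY : Y ≤ D := Nat.le_ceil _
  have hDY2 : (D : ℝ) ≤ Y + 1 := (Nat.ceil_lt_add_one (by linarith)).le
  have hDN : (D : ℝ) ≤ N / 2 := by linarith
  have hDN' : D ≤ N := by
    have : (D : ℝ) ≤ N := by
      have : (0 : ℝ) ≤ N := Nat.cast_nonneg _
      linarith
    exact_mod_cast this
  set N' : ℕ := N - D with hN'
  have hN'r : (N' : ℝ) = N - D := by rw [hN', Nat.cast_sub hDN']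
  have hN'h : (N : ℝ) / 2 ≤ N' := by rw [hN'r]; linarith
  set L' : ℕ := L + D with hL'
  have hLN : L' + N' = L + N := by omega
  have hN0 : (0 : ℝ) ≤ N := Nat.cast_nonneg _
  have hcard : ((Ioc L' (L' + N')).card : ℝ) = N' := by simp
  set E : ℝ := (p : ℝ) ^ (ε / 2) with hE
  have hrexp2 : (p : ℝ) ^ (1 + ε) = p * E * E := by
    rw [hsplit]
    have : (p : ℝ) ^ ε = E * E := by
      rw [hE, ← Real.rpow_add hp0]
      congr 1
      ring
    rw [this]
    ring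
  have hpe : (0 : ℝ) < E := by positivity
  have hpneg : (p : ℝ) ^ (-(ε / 2)) = E⁻¹ := Real.rpow_neg hp0.le _
  have h2 := c1 ⟨hp.ne_zero⟩ M H hHp (le_trans (Real.rpow_le_rpow_of_exponent_le hp1 (by linarith)) hHbig)
    ℕ (Ioc L' (L' + N')) (fun j => j) (fun j => a * g ^ j)
    (fun j => (∀ q : ℕ, q.Prime → κ * ff p < |(q : ℝ) - j|) ∧
      ∃ n : ℕ, M < n ∧ n ≤ M + H ∧ (n : ZMod p) = a * g ^ j ∧
      ∀ q : ℕ, q.Prime → κ * ff p < |(q : ℝ) - n|) (fun _ => inferInstance)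
    (fun j _ h3 h4 => ⟨h3, h4⟩) (by
    intro j hj
    rw [mem_Ioc] at hj
    have h3 : D ≤ j := by omega
    have h3r : (D : ℝ) ≤ j := by exact_mod_cast h3
    have h4 : ε / 2 / 32 = ε / 64 := by ring
    rw [h4]
    exact hDY.trans h3r) (by
    intro q hq hqY ρ
    have h4 : ε / 2 / 32 = ε / 64 := by ring
    rw [h4] at hqY
    rw [hcard]
    constructor
    · obtain ⟨j0, K, hK, hfil⟩ := ap L' N' q hq ρ
      rw [hfil, card_image_of_injective _ (by
        intro x x' h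
        have h1 : q * x = q * x' := Nat.add_left_cancel h
        exact Nat.eq_of_mul_eq_mul_left (by omega) h1), card_range]
      refine hK.trans ?_
      rw [hpneg, ← div_eq_mul_inv, le_div_iff₀ hpe]
      linarith
    · intro w hw
      have hqt : q ≤ orderOf g := by
        have : (q : ℝ) ≤ orderOf g := by linarith
        exact_mod_cast this
      have h5 := hB (w * a) (mul_ne_zero hw ha) L' N' q hq hqt ρ
      have h6 : ∑ j ∈ (Ioc L' (L' + N')).filter (fun j : ℕ => (q : ℤ) ∣ (j : ℤ) - ρ),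
          (ZMod.stdAddChar (w * (a * g ^ j)) : ℂ) =
          ∑ j ∈ (Ioc L' (L' + N')).filter (fun j : ℕ => (q : ℤ) ∣ (j : ℤ) - ρ),
          (ZMod.stdAddChar (w * a * g ^ j) : ℂ) := by
        refine sum_congr rfl fun j _ => ?_
        rw [mul_assoc]
      rw [h6]
      refine h5.trans ?_
      rw [hpneg, ← div_eq_mul_inv, le_div_iff₀ hpe, le_div_iff₀ hp0]
      have e1 : B * ((N' : ℝ) / orderOf g + 2 + Real.log p) * E * p =
          B * (p * E) * (N' / orderOf g) + B * (p * E) * (2 + Real.log p) := by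
        ring
      rw [e1]
      have hN'0 : (0 : ℝ) ≤ N' := Nat.cast_nonneg _
      have e2 : B * (p * E) * (N' / orderOf g) ≤ N' * H / 2 := by
        have : B * (p * E) ≤ orderOf g * H / 2 := by
          have : B * (p * E) * 2 ≤ orderOf g * H := by
            refine le_trans ?_ htH
            rw [hrexp2]
            calc B * (p * E) * 2 ≤ B * (p * E) * E := by gcongr
              _ = _ := by ring
          linarith
        calc B * (p * E) * (N' / orderOf g) ≤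
            orderOf g * H / 2 * (N' / orderOf g) := by gcongr
          _ = _ := by field_simp
      have e3 : B * (p * E) * (2 + Real.log p) ≤ N' * H / 2 := by
        have h7 : B * (p * E) * (4 * (2 + Real.log p)) ≤ N * H := by
          refine le_trans ?_ hNH
          rw [hrexp2]
          calc B * (p * E) * (4 * (2 + Real.log p)) ≤ B * (p * E) * E := by gcongr
            _ = _ := by ring
        have h8 : (N : ℝ) / 2 * H ≤ N' * H := by gcongr
        linarith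
      linarith)
  rw [hcard] at h2
  have h3 : ((Ioc L' (L' + N')).filter (fun j : ℕ =>
      (∀ q : ℕ, q.Prime → κ * ff p < |(q : ℝ) - j|) ∧
      ∃ n : ℕ, M < n ∧ n ≤ M + H ∧ (n : ZMod p) = a * g ^ j ∧
      ∀ q : ℕ, q.Prime → κ * ff p < |(q : ℝ) - n|)).card ≤
      ((Ioc L (L + N)).filter (fun j : ℕ =>
      (∀ q : ℕ, q.Prime → κ * ff p < |(q : ℝ) - j|) ∧
      ∃ n : ℕ, M < n ∧ n ≤ M + H ∧ (n : ZMod p) = a * g ^ j ∧
      ∀ q : ℕ, q.Prime → κ * ff p < |(q : ℝ) - n|)).card := by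
    apply card_le_card
    apply filter_subset_filter
    rw [hLN]
    exact Ioc_subset_Ioc_left (by omega)
  have h4 : (N : ℝ) * H * (p : ℝ) ^ (-(1 + ε)) ≤ N' * H / p * (p : ℝ) ^ (-(ε / 2)) := by
    have e7 : (p : ℝ) ^ (-(1 + ε)) = (p * E * E)⁻¹ := by
      rw [Real.rpow_neg hp0.le, hrexp2]
    rw [e7, hpneg, ← div_eq_mul_inv, ← div_eq_mul_inv, div_div,
      div_le_div_iff₀ (by positivity) (by positivity)]
    have e9 : (N : ℝ) ≤ N' * E := by
      have hN'0 : (0 : ℝ) ≤ N' := Nat.cast_nonneg _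
      nlinarith
    calc (N : ℝ) * H * (p * E) ≤ (N' * E) * H * (p * E) := by gcongr
      _ = _ := by ring
  refine h4.trans (le_trans ?_ (Nat.cast_le.mpr h3))
  exact h2

open scoped Classical in
/-- powers of elements of small order -/
theorem curve_small (ε : ℝ) (h0 : 0 < ε) (h1 : ε ≤ 1) : ∃ κ : ℝ, 0 < κ ∧ ∃ P : ℕ, ∀ p : ℕ, P ≤ p →
    p.Prime → ∀ g a : ZMod p, g ≠ 0 → a ≠ 0 → ∀ L N M H : ℕ, H ≤ p →
    (orderOf g : ℝ) ^ (2 / 3 : ℝ) * (p : ℝ) ^ (9 / 8 + ε) ≤ N * H →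
    (p : ℝ) ^ (9 / 8 + ε) ≤ (orderOf g : ℝ) ^ (1 / 3 : ℝ) * H →
    N * H * (p : ℝ) ^ (-(1 + ε)) ≤ ((Ioc L (L + N)).filter (fun j : ℕ =>
      (∀ q : ℕ, q.Prime → κ * ff p < |(q : ℝ) - j|) ∧
      ∃ n : ℕ, M < n ∧ n ≤ M + H ∧ (n : ZMod p) = a * g ^ j ∧
      ∀ q : ℕ, q.Prime → κ * ff p < |(q : ℝ) - n|)).card := by
  obtain ⟨κ, hκ, P, hP⟩ := curve_core (ε / 2) (by positivity) (by linarith)
  have hcast : Tendsto (fun m : ℕ => (m : ℝ)) atTop atTop := tendsto_natCast_atTop_atTop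
  obtain ⟨P₁, hP₁⟩ := eventually_atTop.mp (hcast.eventually (ev_pow 0 (ε / 2) 2 (by linarith)))
  refine ⟨κ, hκ, max P (max P₁ 1), ?_⟩
  intro p hpP hp g a hg ha L N M H hHp hNH htH
  have : Fact p.Prime := ⟨hp⟩
  have c4 := hP₁ p ((le_max_left _ _).trans ((le_max_right _ _).trans hpP))
  rw [Real.rpow_zero, mul_one] at c4
  have hp1 : (1 : ℝ) ≤ p := by exact_mod_cast hp.one_le
  have hp0 : (0 : ℝ) < p := by linarith
  have hfin : IsOfFinOrder g := by
    rw [isOfFinOrder_iff_pow_eq_one]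
    exact ⟨p - 1, by have := hp.two_le; omega, ZMod.pow_card_sub_one_eq_one hg⟩
  have ht : 0 < orderOf g := orderOf_pos_iff.mpr hfin
  have ht1 : (1 : ℝ) ≤ orderOf g := by exact_mod_cast ht
  have ht0 : (0 : ℝ) < orderOf g := by linarith
  set B : ℝ := 2 * (orderOf g : ℝ) ^ (2 / 3 : ℝ) * (p : ℝ) ^ (1 / 8 : ℝ) with hB
  have hB1 : 1 ≤ B := by
    have e1 : (1 : ℝ) ≤ (orderOf g : ℝ) ^ (2 / 3 : ℝ) := Real.one_le_rpow ht1 (by norm_num)
    have e2 : (1 : ℝ) ≤ (p : ℝ) ^ (1 / 8 : ℝ) := Real.one_le_rpow hp1 (by norm_num)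
    rw [hB]
    nlinarith
  have hexp : B * (p : ℝ) ^ (1 + ε / 2) ≤ (orderOf g : ℝ) ^ (2 / 3 : ℝ) * (p : ℝ) ^ (9 / 8 + ε) := by
    have e1 : (p : ℝ) ^ (9 / 8 + ε) =
        (p : ℝ) ^ (1 / 8 : ℝ) * (p : ℝ) ^ (1 + ε / 2) * (p : ℝ) ^ (ε / 2) := by
      rw [← Real.rpow_add hp0, ← Real.rpow_add hp0]
      congr 1
      ring
    rw [e1, hB]
    calc 2 * (orderOf g : ℝ) ^ (2 / 3 : ℝ) * (p : ℝ) ^ (1 / 8 : ℝ) * (p : ℝ) ^ (1 + ε / 2) =
        (orderOf g : ℝ) ^ (2 / 3 : ℝ) * ((p : ℝ) ^ (1 / 8 : ℝ) * (p : ℝ) ^ (1 + ε / 2) * 2) := by ring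
      _ ≤ _ := by gcongr
  have h2 := hP p ((le_max_left _ _).trans hpP) ⟨hp⟩ g a hg ha B hB1
    (fun y hy L N q hq hqt ρ => class_norm_small g hg y hy L N q hq hqt ρ) L N M H hHp
    (hexp.trans hNH) (by
      refine hexp.trans ?_
      calc (orderOf g : ℝ) ^ (2 / 3 : ℝ) * (p : ℝ) ^ (9 / 8 + ε) ≤
          (orderOf g : ℝ) ^ (2 / 3 : ℝ) * ((orderOf g : ℝ) ^ (1 / 3 : ℝ) * H) := by gcongr
        _ = orderOf g * H := by
          rw [← mul_assoc, ← Real.rpow_add ht0]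
          norm_num)
  refine le_trans ?_ h2
  gcongr
  linarith

end Pool.Agent.V11113.MP
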