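import Pool.Agent.V11113.MP.Crit
import Pool.Agent.V11113.MP.Small

set_option autoImplicit false

/-! Almost all dilates of an arbitrary set of residues modulo a prime. -/

namespace Pool.Agent.V11113.MP

open Finset Filter
open Pool.Agent.TH668.Bil (dz geom)
open Pool.Agent.H469R2.NK (e norm_e e_add)
open Pool.Agent.W147.PS (ff ff_compare ev_pow)
open Pool.Agent.TH915.PW (crit_int)

/-- the Fourier coefficients of an interval with a phase -/
noncomputable def Fc (m : ℕ) [NeZero m] (θ : ℝ) (H : ℕ) (w : ZMod m) : ℂ :=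
  ∑ t ∈ range H, e (t * θ) * (ZMod.stdAddChar (-(w * (t : ZMod m))) : ℂ)

/-- sums over the members of a family in an interval, weighted form -/
lemma local_sumW (m : ℕ) [NeZero m] {ι : Type*} (s : Finset ι) (v : ι → ZMod m)
    (c : ZMod m) (θ : ℝ) (H : ℕ) (hH : H ≤ m) :
    m * ‖∑ i ∈ s.filter (fun i => (v i - c).val < H), e ((v i - c).val * θ) -
      (s.card / m : ℂ) * ∑ t ∈ range H, e (t * θ)‖ ≤
      ∑ w ∈ univ.erase (0 : ZMod m), ‖Fc m θ H w‖ * ‖∑ i ∈ s, (ZMod.stdAddChar (w * v i) : ℂ)‖ := by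
  classical
  have hm0 : 0 < m := Nat.pos_of_ne_zero (NeZero.ne m)
  have hm : (0 : ℝ) < m := by exact_mod_cast hm0
  have hmc : (m : ℂ) ≠ 0 := by exact_mod_cast hm0.ne'
  set ψ : AddChar (ZMod m) ℂ := ZMod.stdAddChar with hψ
  set F : ZMod m → ℂ := fun w => ∑ t ∈ range H, e (t * θ) * ψ (-(w * (t : ZMod m))) with hF
  have horth : ∀ u : ZMod m, (∑ w : ZMod m, F w * ψ (w * u)) =
      m * (if u.val < H then e (u.val * θ) else 0) := by
    intro u
    have e1 : ∀ w : ZMod m, F w * ψ (w * u) =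
        ∑ t ∈ range H, e (t * θ) * ψ (w * (u - (t : ZMod m))) := by
      intro w
      rw [hF]
      simp only
      rw [sum_mul]
      refine sum_congr rfl fun t _ => ?_
      rw [mul_assoc, ← AddChar.map_add_eq_mul]
      congr 2
      ring
    rw [sum_congr rfl (fun w _ => e1 w), sum_comm]
    have e2 : ∀ t ∈ range H, ∑ w : ZMod m, e (t * θ) * ψ (w * (u - (t : ZMod m))) =
        if t = u.val then (m : ℂ) * e (t * θ) else 0 := by
      intro t ht
      rw [mem_range] at ht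
      rw [← mul_sum, AddChar.sum_mulShift _ (ZMod.isPrimitive_stdAddChar m)]
      by_cases h : t = u.val
      · have h0 : u - (t : ZMod m) = 0 := by
          rw [h, ZMod.natCast_zmod_val, sub_self]
        rw [if_pos h0, if_pos h, ZMod.card]
        ring
      · have h0 : u - (t : ZMod m) ≠ 0 := by
          intro h0
          apply h
          have h1 : u = (t : ZMod m) := sub_eq_zero.mp h0
          rw [h1, ZMod.val_natCast_of_lt (by omega)]
        rw [if_neg h0, if_neg h]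
        simp
    rw [sum_congr rfl e2, sum_ite_eq' (range H) u.val]
    simp only [mem_range]
    split_ifs <;> simp
  have hmain : (m : ℂ) * ∑ i ∈ s.filter (fun i => (v i - c).val < H), e ((v i - c).val * θ) =
      ∑ w : ZMod m, F w * (ψ (-(w * c)) * ∑ i ∈ s, ψ (w * v i)) := by
    rw [sum_filter, mul_sum]
    have e3 : ∀ i ∈ s, (m : ℂ) * (if (v i - c).val < H then e ((v i - c).val * θ) else 0) =
        ∑ w : ZMod m, F w * (ψ (-(w * c)) * ψ (w * v i)) := by
      intro i _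
      rw [← horth]
      refine sum_congr rfl fun w _ => ?_
      rw [← AddChar.map_add_eq_mul]
      congr 2
      ring
    rw [sum_congr rfl e3, sum_comm]
    refine sum_congr rfl fun w _ => ?_
    rw [mul_sum, mul_sum]
  have hF0 : F 0 = ∑ t ∈ range H, e (t * θ) := by
    rw [hF]
    simp
  have hsplit : (m : ℂ) * (∑ i ∈ s.filter (fun i => (v i - c).val < H), e ((v i - c).val * θ) -
      (s.card / m : ℂ) * ∑ t ∈ range H, e (t * θ)) =
      ∑ w ∈ univ.erase (0 : ZMod m), F w * (ψ (-(w * c)) * ∑ i ∈ s, ψ (w * v i)) := by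
    rw [mul_sub, hmain, ← add_sum_erase univ _ (mem_univ (0 : ZMod m)), hF0]
    have e4 : (ψ (-((0 : ZMod m) * c)) * ∑ i ∈ s, ψ ((0 : ZMod m) * v i) : ℂ) = s.card := by
      simp
    have e5 : (m : ℂ) * ((s.card / m : ℂ) * ∑ t ∈ range H, e (t * θ)) =
        (∑ t ∈ range H, e (t * θ)) * s.card := by
      rw [← mul_assoc, mul_div_cancel₀ _ hmc, mul_comm]
    rw [e4, e5]
    exact add_sub_cancel_left _ _
  have e6 : (m : ℝ) * ‖∑ i ∈ s.filter (fun i => (v i - c).val < H), e ((v i - c).val * θ) -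
      (s.card / m : ℂ) * ∑ t ∈ range H, e (t * θ)‖ =
      ‖(m : ℂ) * (∑ i ∈ s.filter (fun i => (v i - c).val < H), e ((v i - c).val * θ) -
      (s.card / m : ℂ) * ∑ t ∈ range H, e (t * θ))‖ := by
    rw [norm_mul, Complex.norm_natCast]
  rw [e6, hsplit]
  refine (norm_sum_le _ _).trans (le_of_eq ?_)
  refine sum_congr rfl fun w _ => ?_
  rw [norm_mul, norm_mul, AddChar.norm_apply, one_mul]
  rfl

/-- the criterion, one member, weighted form -/
theorem oneW (ε : ℝ) (h0 : 0 < ε) (h1 : ε ≤ 1) : ∃ κ : ℝ, 0 < κ ∧ ∀ᶠ m : ℕ in atTop,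
    ∀ (_ : NeZero m) (M H : ℕ), H ≤ m → (m : ℝ) ^ ε ≤ H →
    ∀ (ι : Type) (s : Finset ι) (v : ι → ZMod m), s.Nonempty →
    (∀ q h : ℕ, (q : ℝ) ≤ (m : ℝ) ^ (ε / 4) → h < q →
      ∑ w ∈ univ.erase (0 : ZMod m), ‖Fc m ((h : ℝ) / q) (H - ⌈(m : ℝ) ^ (ε / 4)⌉₊) w‖ *
        ‖∑ i ∈ s, (ZMod.stdAddChar (w * v i) : ℂ)‖ ≤ s.card * H * (m : ℝ) ^ (-(ε / 4)) / 16) →
    ∃ i ∈ s, ∃ n : ℕ, M < n ∧ n ≤ M + H ∧ (n : ZMod m) = v i ∧
      ∀ q : ℕ, q.Prime → κ * ff m < |(q : ℝ) - n| := by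
  classical
  obtain ⟨κ, hκ, hcr⟩ := crit_int 1 one_pos le_rfl
  refine ⟨κ * (ε / 4 / 32), by positivity, ?_⟩
  have hε4 : 0 < ε / 4 := by positivity
  have hcast : Tendsto (fun m : ℕ => (m : ℝ)) atTop atTop := tendsto_natCast_atTop_atTop
  have hpow : Tendsto (fun m : ℕ => (m : ℝ) ^ (ε / 4)) atTop atTop :=
    (tendsto_rpow_atTop hε4).comp hcast
  filter_upwards [hpow.eventually hcr, hcast.eventually (ff_compare (ε / 4) hε4 (by linarith)),
    hcast.eventually (ev_pow (ε / 4) ε 4 (by linarith)),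
    hcast.eventually (ev_pow (ε / 2) ε 16 (by linarith)), hpow.eventually_ge_atTop 1,
    eventually_ge_atTop 1] with m c1 c2 c4 c5 c6 c7
  intro hne M H hHm hH ι s v hs hE
  have hm1 : (1 : ℝ) ≤ m := by exact_mod_cast c7
  have hm : (0 : ℝ) < m := by linarith
  set X : ℝ := (m : ℝ) ^ (ε / 4) with hX
  have hX0 : 0 < X := by linarith
  set K : ℕ := ⌈X⌉₊ with hK
  have hKX : X ≤ K := Nat.le_ceil _
  have hKX2 : (K : ℝ) ≤ X + 1 := (Nat.ceil_lt_add_one hX0.le).le
  have hHr : (K : ℝ) ≤ H / 2 := by linarith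
  have hKH : K ≤ H := by
    have : (K : ℝ) ≤ H := by
      have : (0 : ℝ) ≤ H := Nat.cast_nonneg _
      linarith
    exact_mod_cast this
  set H' : ℕ := H - K with hH'
  have hH'r : (H' : ℝ) = H - K := by
    rw [hH', Nat.cast_sub hKH]
  have hH'm : H' ≤ m := by omega
  set a : ℝ := s.card * H / m with ha
  have hspos : (0 : ℝ) < s.card := by exact_mod_cast hs.card_pos
  have hHpos : (0 : ℝ) < H := lt_of_lt_of_le (Real.rpow_pos_of_pos hm _) hH
  have ha0 : 0 < a := by positivity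
  set c : ZMod m := ((M + K + 1 : ℕ) : ZMod m) with hc
  have hXinv : X⁻¹ ≤ 1 := inv_le_one_of_one_le₀ c6
  have hXi : (m : ℝ) ^ (-(ε / 4)) = X⁻¹ := by rw [hX, Real.rpow_neg hm.le]
  set s' := s.filter (fun i => (v i - c).val < H') with hs'
  have hloc : ∀ q h : ℕ, (q : ℝ) ≤ X → h < q →
      ‖∑ i ∈ s', e ((v i - c).val * ((h : ℝ) / q)) -
        (s.card / m : ℂ) * ∑ t ∈ range H', e (t * ((h : ℝ) / q))‖ ≤ a / 16 * X⁻¹ := by
    intro q h hq hh
    have h2 := (local_sumW m s v c ((h : ℝ) / q) H' hH'm).trans (hE q h hq hh)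
    rw [hXi] at h2
    have h3 : (m : ℝ) * (a / 16 * X⁻¹) = s.card * H * X⁻¹ / 16 := by
      rw [ha]
      field_simp
    rw [← h3] at h2
    exact le_of_mul_le_mul_left h2 hm
  -- the number of members in the interval
  have hcard : a / 4 ≤ s'.card := by
    have h2 := hloc 1 0 (by push_cast; exact c6) (by norm_num)
    simp only [CharP.cast_eq_zero, zero_div, mul_zero] at h2
    have e0 : e 0 = 1 := by simpa using Pool.Agent.TH915.PW.e_int 0
    rw [e0] at h2
    simp only [sum_const, nsmul_eq_mul, mul_one, card_range] at h2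
    have h3 : ((s'.card : ℂ) - (s.card / m : ℂ) * H') = (((s'.card : ℝ) - s.card / m * H' : ℝ) : ℂ) := by
      push_cast
      ring
    rw [h3, Complex.norm_real, Real.norm_eq_abs] at h2
    have h4 := (abs_le.mp h2).1
    have h5 : a / 2 ≤ s.card / m * H' := by
      rw [hH'r, ha]
      have : (H : ℝ) / 2 ≤ H - K := by linarith
      calc (s.card : ℝ) * H / m / 2 = s.card / m * (H / 2) := by ring
        _ ≤ s.card / m * (H - K) := by gcongr
    have h6 : a / 16 * X⁻¹ ≤ a / 16 := by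
      calc a / 16 * X⁻¹ ≤ a / 16 * 1 := by gcongr
        _ = _ := by ring
    linarith
  have hs'pos : (0 : ℝ) < s'.card := by linarith
  have hs'ne : s'.Nonempty := by
    rw [← card_pos]
    exact_mod_cast hs'pos
  obtain ⟨i, hi, hi2⟩ := c1 ι s' (fun i => ((M + K + 1 + (v i - c).val : ℕ) : ℤ)) hs'ne (by
    intro i _
    push_cast
    have : (0 : ℝ) ≤ ((v i - c).val : ℝ) := Nat.cast_nonneg _
    have : (0 : ℝ) ≤ (M : ℝ) := Nat.cast_nonneg _
    linarith) (by
    intro q h hq hh1 hh2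
    rw [Real.rpow_one] at hq
    have e1 : ∑ i ∈ s', e ((h : ℝ) / q * (((M + K + 1 + (v i - c).val : ℕ) : ℤ) : ℝ)) =
        e ((h : ℝ) / q * (M + K + 1)) * ∑ i ∈ s', e ((v i - c).val * ((h : ℝ) / q)) := by
      rw [mul_sum]
      refine sum_congr rfl fun i _ => ?_
      rw [← e_add]
      congr 1
      push_cast
      ring
    rw [e1, norm_mul, norm_e, one_mul]
    have h2 := hloc q h hq hh2
    have h3 : ‖∑ i ∈ s', e ((v i - c).val * ((h : ℝ) / q))‖ ≤
        a / 16 * X⁻¹ + s.card / m * (2 * q) := by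
      have h4 : ‖(s.card / m : ℂ) * ∑ t ∈ range H', e (t * ((h : ℝ) / q))‖ ≤
          s.card / m * (2 * q) := by
        rw [norm_mul]
        have : ‖(s.card / m : ℂ)‖ = s.card / m := by
          rw [norm_div, Complex.norm_natCast, Complex.norm_natCast]
        rw [this]
        exact mul_le_mul_of_nonneg_left (geom_frac q h hh1 hh2 H') (by positivity)
      calc _ = ‖(∑ i ∈ s', e ((v i - c).val * ((h : ℝ) / q)) -
            (s.card / m : ℂ) * ∑ t ∈ range H', e (t * ((h : ℝ) / q))) +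
            (s.card / m : ℂ) * ∑ t ∈ range H', e (t * ((h : ℝ) / q))‖ := by
              congr 1
              ring
        _ ≤ _ := norm_add_le _ _
        _ ≤ _ := add_le_add h2 h4
    refine h3.trans ?_
    rw [Real.rpow_neg_one]
    have h5 : s.card / m * (2 * q) ≤ a / 8 * X⁻¹ := by
      have h6 : 16 * X ^ 2 ≤ H := by
        have : X ^ 2 = (m : ℝ) ^ (ε / 2) := by
          rw [hX, ← Real.rpow_natCast, ← Real.rpow_mul hm.le]
          congr 1
          push_cast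
          ring
        rw [this]
        linarith
      have h7 : a / 8 * X⁻¹ = s.card / m * (H / (8 * X)) := by
        rw [ha]
        field_simp
      rw [h7]
      apply mul_le_mul_of_nonneg_left _ (by positivity)
      rw [le_div_iff₀ (by positivity)]
      nlinarith
    have h8 : a / 4 * X⁻¹ ≤ s'.card * X⁻¹ := by gcongr
    have h9 : 0 ≤ a * X⁻¹ := by positivity
    linarith)
  have hcmp := (c2.2 X le_rfl (by
    calc X = (m : ℝ) ^ (ε / 4) := hX
      _ ≤ (m : ℝ) ^ (2 : ℝ) := Real.rpow_le_rpow_of_exponent_le hm1 (by linarith)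
      _ = (m : ℝ) ^ 2 := by norm_num)).1
  rw [hs', mem_filter] at hi
  refine ⟨i, hi.1, M + K + 1 + (v i - c).val, by omega, by omega, ?_, fun q hq => ?_⟩
  · push_cast
    rw [ZMod.natCast_zmod_val, hc]
    push_cast
    ring
  · have h2 := hi2 q hq
    have h3 : κ * (ε / 4 / 32) * ff m ≤ κ * ff X := by
      calc κ * (ε / 4 / 32) * ff m = κ * (ε / 4 / 32 * ff m) := by ring
        _ ≤ _ := mul_le_mul_of_nonneg_left hcmp hκ.le
    refine lt_of_le_of_lt h3 ?_
    push_cast at h2 ⊢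
    exact h2

/-- the criterion, many members, weighted form -/
theorem manyW (ε : ℝ) (h0 : 0 < ε) (h1 : ε ≤ 1) : ∃ κ : ℝ, 0 < κ ∧ ∀ᶠ m : ℕ in atTop,
    ∀ (_ : NeZero m) (M H : ℕ), H ≤ m → (m : ℝ) ^ ε ≤ H →
    ∀ (ι : Type) (s : Finset ι) (v : ι → ZMod m) (good : ι → Prop) (_ : DecidablePred good),
    (∀ i ∈ s, (∃ n : ℕ, M < n ∧ n ≤ M + H ∧ (n : ZMod m) = v i ∧
      ∀ q : ℕ, q.Prime → κ * ff m < |(q : ℝ) - n|) → good i) →
    (∀ q h : ℕ, (q : ℝ) ≤ (m : ℝ) ^ (ε / 4) → h < q →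
      ∑ w ∈ univ.erase (0 : ZMod m), ‖Fc m ((h : ℝ) / q) (H - ⌈(m : ℝ) ^ (ε / 4)⌉₊) w‖ *
        ‖∑ i ∈ s, (ZMod.stdAddChar (w * v i) : ℂ)‖ ≤ s.card * H * (m : ℝ) ^ (-(ε / 4)) / 64) →
    s.card * H / m * (m : ℝ) ^ (-ε) ≤ (s.filter good).card := by
  classical
  obtain ⟨κ, hκ, hcr⟩ := oneW ε h0 h1
  refine ⟨κ, hκ, ?_⟩
  have hcast : Tendsto (fun m : ℕ => (m : ℝ)) atTop atTop := tendsto_natCast_atTop_atTop
  have hlogev : ∀ᶠ x : ℝ in atTop, (6 + 4 * Real.log x) * x ^ (-ε) ≤ x ^ (-(ε / 4)) / 64 := by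
    have h2 := (isLittleO_log_rpow_atTop (show (0 : ℝ) < ε / 4 by positivity)).def
      (show (0 : ℝ) < 1 by norm_num)
    filter_upwards [h2, eventually_ge_atTop (1 : ℝ), ev_pow (ε / 4) (3 / 4 * ε) (64 * 10) (by linarith),
      (tendsto_rpow_atTop (show 0 < ε / 4 by positivity)).eventually_ge_atTop 1]
      with x hx hx1 hx2 hx3
    have hx0 : 0 < x := by linarith
    rw [Real.norm_eq_abs, abs_of_nonneg (Real.log_nonneg hx1), Real.norm_eq_abs,
      abs_of_nonneg (Real.rpow_nonneg hx0.le _)] at hx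
    have h3 : 6 + 4 * Real.log x ≤ 10 * x ^ (ε / 4) := by linarith
    have h4 : x ^ (-(ε / 4)) = x ^ (3 / 4 * ε) * x ^ (-ε) := by
      rw [← Real.rpow_add hx0]
      congr 1
      ring
    rw [h4]
    have h5 : (0 : ℝ) ≤ x ^ (-ε) := Real.rpow_nonneg hx0.le _
    nlinarith
  filter_upwards [hcr, hcast.eventually hlogev,
    hcast.eventually (ev_pow (-ε) 0 2 (by linarith)),
    eventually_ge_atTop 1] with m c1 c2 c3 c7
  intro hne M H hHm hH ι s v good hdec hgood hE
  have hm1 : (1 : ℝ) ≤ m := by exact_mod_cast c7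
  have hm : (0 : ℝ) < m := by linarith
  by_contra hcon
  push Not at hcon
  set E := s.filter good with hEd
  set a : ℝ := s.card * H / m with ha
  have hHm' : (H : ℝ) ≤ m := by exact_mod_cast hHm
  have ha0 : 0 ≤ a := by positivity
  have hale : a ≤ s.card := by
    rw [ha, div_le_iff₀ hm]
    gcongr
  have hp0 : (0 : ℝ) ≤ (m : ℝ) ^ (-ε) := by positivity
  have hsdiff : (s \ E).card + E.card = s.card := card_sdiff_add_card_eq_card (filter_subset _ _)
  have hsr : ((s \ E).card : ℝ) = s.card - E.card := by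
    rw [← hsdiff]
    push_cast
    ring
  rw [Real.rpow_zero] at c3
  have hEh : (E.card : ℝ) ≤ s.card / 2 := by
    have : a * (m : ℝ) ^ (-ε) ≤ s.card * (1 / 2) := by
      apply mul_le_mul hale _ hp0 (by positivity)
      linarith
    linarith
  have hhalf : (s.card : ℝ) / 2 ≤ (s \ E).card := by rw [hsr]; linarith
  have hspos : (0 : ℝ) < s.card := by
    have : 0 < a * (m : ℝ) ^ (-ε) := lt_of_le_of_lt (Nat.cast_nonneg _) hcon
    by_contra h
    have h2 : (s.card : ℝ) = 0 := le_antisymm (not_lt.mp h) (Nat.cast_nonneg _)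
    rw [ha, h2] at this
    simp at this
  obtain ⟨i, hi, n, hn1, hn2, hn3, hn4⟩ := c1 hne M H hHm hH ι (s \ E) v (by
    rw [← card_pos]
    have : (0 : ℝ) < (s \ E).card := by linarith
    exact_mod_cast this) (by
    intro q h hq hh
    set H' := H - ⌈(m : ℝ) ^ (ε / 4)⌉₊ with hH'
    set θ : ℝ := (h : ℝ) / q with hθ
    have hH'm : (H' : ℝ) ≤ m := by
      have : H' ≤ m := by omega
      exact_mod_cast this
    have h2 : ∀ w : ZMod m, ‖∑ i ∈ s \ E, (ZMod.stdAddChar (w * v i) : ℂ)‖ ≤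
        ‖∑ i ∈ s, (ZMod.stdAddChar (w * v i) : ℂ)‖ + E.card := by
      intro w
      have h2 : ∑ i ∈ s \ E, (ZMod.stdAddChar (w * v i) : ℂ) =
          ∑ i ∈ s, (ZMod.stdAddChar (w * v i) : ℂ) - ∑ i ∈ E, (ZMod.stdAddChar (w * v i) : ℂ) := by
        rw [← sum_sdiff (filter_subset good s)]
        ring
      rw [h2]
      have h3 : ‖∑ i ∈ E, (ZMod.stdAddChar (w * v i) : ℂ)‖ ≤ E.card := by
        refine (norm_sum_le _ _).trans (le_of_eq ?_)
        simp [AddChar.norm_apply]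
      exact (norm_sub_le _ _).trans (add_le_add le_rfl h3)
    have h3 : ∑ w ∈ univ.erase (0 : ZMod m), ‖Fc m θ H' w‖ ≤ m * (6 + 4 * Real.log m) := by
      have e1 : ∑ w ∈ univ.erase (0 : ZMod m), ‖Fc m θ H' w‖ ≤ 2 * (H' + 2 * m * (1 + Real.log m)) := by
        refine le_trans ?_ (phase_sum m θ H')
        exact sum_le_sum_of_subset_of_nonneg (erase_subset _ _) fun _ _ _ => norm_nonneg _
      linarith
    have hX0 : 0 ≤ (m : ℝ) ^ (-(ε / 4)) := by positivity
    calc ∑ w ∈ univ.erase (0 : ZMod m), ‖Fc m θ H' w‖ *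
          ‖∑ i ∈ s \ E, (ZMod.stdAddChar (w * v i) : ℂ)‖ ≤
        ∑ w ∈ univ.erase (0 : ZMod m), (‖Fc m θ H' w‖ *
          ‖∑ i ∈ s, (ZMod.stdAddChar (w * v i) : ℂ)‖ + ‖Fc m θ H' w‖ * E.card) := by
          refine sum_le_sum fun w _ => ?_
          rw [← mul_add]
          exact mul_le_mul_of_nonneg_left (h2 w) (norm_nonneg _)
      _ = ∑ w ∈ univ.erase (0 : ZMod m), ‖Fc m θ H' w‖ *
          ‖∑ i ∈ s, (ZMod.stdAddChar (w * v i) : ℂ)‖ +
          (∑ w ∈ univ.erase (0 : ZMod m), ‖Fc m θ H' w‖) * E.card := by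
          rw [sum_add_distrib, ← sum_mul]
      _ ≤ s.card * H * (m : ℝ) ^ (-(ε / 4)) / 64 +
          (m * (6 + 4 * Real.log m)) * (a * (m : ℝ) ^ (-ε)) := by
          have := Real.log_nonneg hm1
          refine add_le_add (hE q h hq hh) (mul_le_mul h3 hcon.le (Nat.cast_nonneg _) (by positivity))
      _ = s.card * H * (m : ℝ) ^ (-(ε / 4)) / 64 +
          s.card * H * ((6 + 4 * Real.log m) * (m : ℝ) ^ (-ε)) := by
          rw [ha]
          field_simp
      _ ≤ s.card * H * (m : ℝ) ^ (-(ε / 4)) / 64 +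
          s.card * H * ((m : ℝ) ^ (-(ε / 4)) / 64) := by
          gcongr
      _ = s.card / 2 * H * (m : ℝ) ^ (-(ε / 4)) / 16 := by ring
      _ ≤ (s \ E).card * H * (m : ℝ) ^ (-(ε / 4)) / 16 := by gcongr)
  rw [Finset.mem_sdiff] at hi
  apply hi.2
  rw [hEd, mem_filter]
  exact ⟨hi.1, hgood i hi.1 ⟨n, hn1, hn2, hn3, hn4⟩⟩

end Pool.Agent.V11113.MP
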