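import Pool.Agent.V11113.MP.Dil

set_option autoImplicit false

namespace Pool.Agent.V11113.MP

open Finset Filter
open Pool.Agent.H469R2.NK (e norm_e e_add)
open Pool.Agent.W147.PS (ff ff_compare ev_pow)

section

variable {p : ℕ} [hp : Fact p.Prime]

lemma dil_moment (S : Finset (ZMod p)) (w : ZMod p) (hw : w ≠ 0) :
    ∑ l : ZMod p, ‖∑ s ∈ S, (ZMod.stdAddChar (w * (l * s)) : ℂ)‖ ^ 2 = p * S.card := by
  classical
  have h1 := parseval (p := p) (fun s => if s ∈ S then 1 else 0)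
  have h2 : ∑ s : ZMod p, ‖(if s ∈ S then (1 : ℂ) else 0)‖ ^ 2 = (S.card : ℝ) := by
    have : ∀ s : ZMod p, ‖(if s ∈ S then (1 : ℂ) else 0)‖ ^ 2 = if s ∈ S then (1 : ℝ) else 0 := by
      intro s
      split_ifs <;> simp
    rw [sum_congr rfl (fun s _ => this s), sum_ite_mem]
    simp
  rw [h2] at h1
  rw [← h1, ← Equiv.sum_comp (Equiv.mulLeft₀ w hw)
    (fun a => ‖∑ s : ZMod p, (if s ∈ S then (1 : ℂ) else 0) * (ZMod.stdAddChar (a * s) : ℂ)‖ ^ 2)]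
  refine sum_congr rfl fun l _ => ?_
  congr 2
  rw [Equiv.mulLeft₀_apply]
  have : ∀ s : ZMod p, (if s ∈ S then (1 : ℂ) else 0) * (ZMod.stdAddChar (w * l * s) : ℂ) =
      if s ∈ S then (ZMod.stdAddChar (w * (l * s)) : ℂ) else 0 := by
    intro s
    rw [mul_assoc w l s]
    split_ifs <;> simp
  rw [sum_congr rfl (fun s _ => this s), sum_ite_mem]
  simp

lemma phi_moment (S : Finset (ZMod p)) (F : ZMod p → ℝ) (hF : ∀ w, 0 ≤ F w) :
    ∑ l : ZMod p, (∑ w ∈ univ.erase (0 : ZMod p), F w *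
      ‖∑ s ∈ S, (ZMod.stdAddChar (w * (l * s)) : ℂ)‖) ^ 2 ≤
      (∑ w ∈ univ.erase (0 : ZMod p), F w) ^ 2 * (p * S.card) := by
  classical
  set T := ∑ w ∈ univ.erase (0 : ZMod p), F w with hT
  have hT0 : 0 ≤ T := sum_nonneg fun w _ => hF w
  have h1 : ∀ l : ZMod p, (∑ w ∈ univ.erase (0 : ZMod p), F w *
      ‖∑ s ∈ S, (ZMod.stdAddChar (w * (l * s)) : ℂ)‖) ^ 2 ≤
      T * ∑ w ∈ univ.erase (0 : ZMod p), F w *
        ‖∑ s ∈ S, (ZMod.stdAddChar (w * (l * s)) : ℂ)‖ ^ 2 := by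
    intro l
    have := sum_mul_sq_le_sq_mul_sq (univ.erase (0 : ZMod p)) (fun w => Real.sqrt (F w))
      (fun w => Real.sqrt (F w) * ‖∑ s ∈ S, (ZMod.stdAddChar (w * (l * s)) : ℂ)‖)
    have e1 : ∀ w : ZMod p, Real.sqrt (F w) * (Real.sqrt (F w) *
        ‖∑ s ∈ S, (ZMod.stdAddChar (w * (l * s)) : ℂ)‖) =
        F w * ‖∑ s ∈ S, (ZMod.stdAddChar (w * (l * s)) : ℂ)‖ := by
      intro w
      rw [← mul_assoc, Real.mul_self_sqrt (hF w)]
    have e2 : ∀ w : ZMod p, (Real.sqrt (F w) *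
        ‖∑ s ∈ S, (ZMod.stdAddChar (w * (l * s)) : ℂ)‖) ^ 2 =
        F w * ‖∑ s ∈ S, (ZMod.stdAddChar (w * (l * s)) : ℂ)‖ ^ 2 := by
      intro w
      rw [mul_pow, Real.sq_sqrt (hF w)]
    have e3 : ∀ w : ZMod p, (Real.sqrt (F w)) ^ 2 = F w := fun w => Real.sq_sqrt (hF w)
    rw [sum_congr rfl (fun s _ => e1 s), sum_congr rfl (fun s _ => e2 s),
      sum_congr rfl (fun s _ => e3 s)] at this
    exact this
  refine (sum_le_sum fun l _ => h1 l).trans ?_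
  rw [← mul_sum, sum_comm]
  have h2 : ∀ w ∈ univ.erase (0 : ZMod p), ∑ l : ZMod p, F w *
      ‖∑ s ∈ S, (ZMod.stdAddChar (w * (l * s)) : ℂ)‖ ^ 2 = F w * (p * S.card) := by
    intro w hw
    rw [← mul_sum, dil_moment S w (ne_of_mem_erase hw)]
  rw [sum_congr rfl h2, ← sum_mul]
  exact le_of_eq (by ring)

end

open scoped Classical in
/-- almost all dilates of an arbitrary set -/
theorem dilates (ε : ℝ) (h0 : 0 < ε) (h1 : ε ≤ 1) : ∃ κ : ℝ, 0 < κ ∧ ∃ P : ℕ, ∀ p : ℕ, P ≤ p →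
    ∀ _ : Fact p.Prime, ∀ (S : Finset (ZMod p)) (M H : ℕ), (p : ℝ) ^ ε ≤ H → H ≤ p →
    ((Finset.univ : Finset (ZMod p)).filter (fun l =>
      ((S.filter (fun s => ∃ n : ℕ, M < n ∧ n ≤ M + H ∧ (n : ZMod p) = l * s ∧
        ∀ q : ℕ, q.Prime → κ * ff p < |(q : ℝ) - n|)).card : ℝ) <
      S.card * H * (p : ℝ) ^ (-(1 + ε)))).card * (S.card * (H : ℝ) ^ 2) ≤ (p : ℝ) ^ (3 + 2 * ε) := by
  obtain ⟨κ, hκ, hm⟩ := manyW ε h0 h1
  have hcast : Tendsto (fun m : ℕ => (m : ℝ)) atTop atTop := tendsto_natCast_atTop_atTop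
  have hlog : ∀ᶠ x : ℝ in atTop, 64 ^ 2 * 4 * (6 + 4 * Real.log x) ^ 2 ≤ x ^ ε := by
    have h2 := (isLittleO_log_rpow_atTop (show (0 : ℝ) < ε / 4 by positivity)).def
      (show (0 : ℝ) < 1 by norm_num)
    filter_upwards [h2, eventually_ge_atTop (1 : ℝ),
      ev_pow (ε / 2) ε (64 ^ 2 * 4 * 100) (by linarith),
      (tendsto_rpow_atTop (show 0 < ε / 4 by positivity)).eventually_ge_atTop 1]
      with x hx hx1 hx2 hx3
    have hx0 : 0 < x := by linarith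
    have hl0 := Real.log_nonneg hx1
    rw [Real.norm_eq_abs, abs_of_nonneg hl0, Real.norm_eq_abs,
      abs_of_nonneg (Real.rpow_nonneg (by linarith) _)] at hx
    have h3 : 6 + 4 * Real.log x ≤ 10 * x ^ (ε / 4) := by linarith
    have h4 : x ^ (ε / 2) = x ^ (ε / 4) * x ^ (ε / 4) := by
      rw [← Real.rpow_add hx0]
      congr 1
      ring
    calc 64 ^ 2 * 4 * (6 + 4 * Real.log x) ^ 2 ≤ 64 ^ 2 * 4 * (10 * x ^ (ε / 4)) ^ 2 := by
          gcongr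
      _ = 64 ^ 2 * 4 * 100 * x ^ (ε / 2) := by rw [h4]; ring
      _ ≤ _ := hx2
  obtain ⟨P, hP⟩ := eventually_atTop.mp (hm.and (hcast.eventually hlog))
  refine ⟨κ, hκ, max P 1, ?_⟩
  intro p hpP hfact S M H hH hHp
  have hp : p.Prime := hfact.out
  obtain ⟨c1, c2⟩ := hP p ((le_max_left _ _).trans hpP)
  have hp1 : (1 : ℝ) ≤ p := by exact_mod_cast hp.one_le
  have hp0 : (0 : ℝ) < p := by linarith
  have hHpos : (0 : ℝ) < H := lt_of_lt_of_le (by positivity) hH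
  rcases Nat.eq_zero_or_pos S.card with hS0 | hSpos
  · rw [hS0]
    simp only [CharP.cast_eq_zero, zero_mul, mul_zero]
    positivity
  have hSp : (0 : ℝ) < S.card := by exact_mod_cast hSpos
  set X : ℝ := (p : ℝ) ^ (ε / 4) with hX
  have hX1 : 1 ≤ X := Real.one_le_rpow hp1 (by positivity)
  have hX0 : 0 < X := by linarith
  have hXi : (p : ℝ) ^ (-(ε / 4)) = X⁻¹ := by rw [hX, Real.rpow_neg hp0.le]
  set H' := H - ⌈X⌉₊ with hH'
  have hH'p : (H' : ℝ) ≤ p := by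
    have : H' ≤ p := by omega
    exact_mod_cast this
  set L : ℝ := 6 + 4 * Real.log p with hL
  have hL0 : 0 < L := by have := Real.log_nonneg hp1; positivity
  set T : ℝ := S.card * H * X⁻¹ / 64 with hT
  have hT0 : 0 < T := by positivity
  -- the weighted sums
  let Φ : ℕ → ℕ → ZMod p → ℝ := fun q h l => ∑ w ∈ univ.erase (0 : ZMod p),
    ‖Fc p ((h : ℝ) / q) H' w‖ * ‖∑ s ∈ S, (ZMod.stdAddChar (w * (l * s)) : ℂ)‖
  set Q : Finset (ℕ × ℕ) := (range (⌊X⌋₊ + 1)) ×ˢ (range (⌊X⌋₊ + 1)) with hQ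
  let bad : ℕ × ℕ → Finset (ZMod p) := fun x => univ.filter (fun l => T < Φ x.1 x.2 l)
  have hbad : ∀ x : ℕ × ℕ, ((bad x).card : ℝ) * T ^ 2 ≤ (p * L) ^ 2 * (p * S.card) := by
    intro x
    have e1 : ((bad x).card : ℝ) * T ^ 2 ≤ ∑ l : ZMod p, Φ x.1 x.2 l ^ 2 := by
      calc ((bad x).card : ℝ) * T ^ 2 = ∑ l ∈ bad x, T ^ 2 := by rw [sum_const, nsmul_eq_mul]
        _ ≤ ∑ l ∈ bad x, Φ x.1 x.2 l ^ 2 := by
            refine sum_le_sum fun l hl => ?_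
            exact pow_le_pow_left₀ hT0.le (mem_filter.mp hl).2.le 2
        _ ≤ _ := sum_le_sum_of_subset_of_nonneg (subset_univ _) fun _ _ _ => by positivity
    refine e1.trans ((phi_moment S (fun w => ‖Fc p ((x.2 : ℝ) / x.1) H' w‖)
      (fun w => norm_nonneg _)).trans ?_)
    have e2 : ∑ w ∈ univ.erase (0 : ZMod p), ‖Fc p ((x.2 : ℝ) / x.1) H' w‖ ≤ p * L := by
      have e3 : ∑ w ∈ univ.erase (0 : ZMod p), ‖Fc p ((x.2 : ℝ) / x.1) H' w‖ ≤
          2 * (H' + 2 * p * (1 + Real.log p)) := by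
        refine le_trans ?_ (phase_sum p ((x.2 : ℝ) / x.1) H')
        exact sum_le_sum_of_subset_of_nonneg (erase_subset _ _) fun _ _ _ => norm_nonneg _
      rw [hL]
      linarith
    have e4 : 0 ≤ ∑ w ∈ univ.erase (0 : ZMod p), ‖Fc p ((x.2 : ℝ) / x.1) H' w‖ :=
      sum_nonneg fun _ _ => norm_nonneg _
    gcongr
  -- the bad dilates are in the union
  have hsub : (univ : Finset (ZMod p)).filter (fun l =>
      ((S.filter (fun s => ∃ n : ℕ, M < n ∧ n ≤ M + H ∧ (n : ZMod p) = l * s ∧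
        ∀ q : ℕ, q.Prime → κ * ff p < |(q : ℝ) - n|)).card : ℝ) <
      S.card * H * (p : ℝ) ^ (-(1 + ε))) ⊆ Q.biUnion bad := by
    intro l hl
    rw [mem_filter] at hl
    by_contra hcon
    have hgood : ∀ q h : ℕ, (q : ℝ) ≤ X → h < q → Φ q h l ≤ T := by
      intro q h hq hh
      by_contra h5
      push Not at h5
      apply hcon
      rw [mem_biUnion]
      refine ⟨(q, h), ?_, ?_⟩
      · rw [hQ, mem_product, mem_range, mem_range]
        have hqX : q ≤ ⌊X⌋₊ := Nat.le_floor hq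
        simp only
        omega
      · rw [mem_filter]
        exact ⟨mem_univ _, h5⟩
    have h6 := c1 ⟨hp.ne_zero⟩ M H hHp hH (ZMod p) S (fun s => l * s)
      (fun s => ∃ n : ℕ, M < n ∧ n ≤ M + H ∧ (n : ZMod p) = l * s ∧
        ∀ q : ℕ, q.Prime → κ * ff p < |(q : ℝ) - n|) (fun _ => inferInstance)
      (fun s _ h => h) (by
      intro q h hq hh
      refine (hgood q h hq hh).trans (le_of_eq ?_)
      rw [hT, hXi])
    have h7 : (p : ℝ) ^ (-(1 + ε)) = (p : ℝ) ^ (-ε) / p := by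
      rw [show (-(1 + ε) : ℝ) = -ε + -1 by ring, Real.rpow_add hp0, Real.rpow_neg_one]
      rfl
    have h8 := hl.2
    rw [h7] at h8
    have h9 : (S.card : ℝ) * H * ((p : ℝ) ^ (-ε) / p) = S.card * H / p * (p : ℝ) ^ (-ε) := by ring
    rw [h9] at h8
    exact absurd h6 (not_le.mpr h8)
  have hcard : (((univ : Finset (ZMod p)).filter (fun l =>
      ((S.filter (fun s => ∃ n : ℕ, M < n ∧ n ≤ M + H ∧ (n : ZMod p) = l * s ∧
        ∀ q : ℕ, q.Prime → κ * ff p < |(q : ℝ) - n|)).card : ℝ) <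
      S.card * H * (p : ℝ) ^ (-(1 + ε)))).card : ℝ) * T ^ 2 ≤
      (2 * X) ^ 2 * ((p * L) ^ 2 * (p * S.card)) := by
    have e1 : (((univ : Finset (ZMod p)).filter (fun l =>
      ((S.filter (fun s => ∃ n : ℕ, M < n ∧ n ≤ M + H ∧ (n : ZMod p) = l * s ∧
        ∀ q : ℕ, q.Prime → κ * ff p < |(q : ℝ) - n|)).card : ℝ) <
      S.card * H * (p : ℝ) ^ (-(1 + ε)))).card : ℝ) ≤ ∑ x ∈ Q, ((bad x).card : ℝ) := by
      exact_mod_cast (card_le_card hsub).trans card_biUnion_le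
    have e2 : (Q.card : ℝ) ≤ (2 * X) ^ 2 := by
      rw [hQ, card_product, card_range]
      push_cast
      have : (⌊X⌋₊ : ℝ) ≤ X := Nat.floor_le hX0.le
      have h3 : (⌊X⌋₊ : ℝ) + 1 ≤ 2 * X := by linarith
      rw [sq]
      gcongr
    calc _ ≤ (∑ x ∈ Q, ((bad x).card : ℝ)) * T ^ 2 := by gcongr
      _ = ∑ x ∈ Q, ((bad x).card : ℝ) * T ^ 2 := by rw [sum_mul]
      _ ≤ ∑ x ∈ Q, (p * L) ^ 2 * (p * S.card) := sum_le_sum fun x _ => hbad x
      _ = Q.card * ((p * L) ^ 2 * (p * S.card)) := by rw [sum_const, nsmul_eq_mul]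
      _ ≤ _ := by gcongr
  set N : ℝ := (((univ : Finset (ZMod p)).filter (fun l =>
      ((S.filter (fun s => ∃ n : ℕ, M < n ∧ n ≤ M + H ∧ (n : ZMod p) = l * s ∧
        ∀ q : ℕ, q.Prime → κ * ff p < |(q : ℝ) - n|)).card : ℝ) <
      S.card * H * (p : ℝ) ^ (-(1 + ε)))).card : ℝ) with hN
  -- arithmetic
  have hA : N * (S.card * (H : ℝ) ^ 2) * S.card ≤ (64 ^ 2 * 4 * L ^ 2) * X ^ 4 * p ^ 3 * S.card := by
    have e1 : N * T ^ 2 * (64 ^ 2 * X ^ 2) = N * (S.card * (H : ℝ) ^ 2) * S.card := by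
      rw [hT]
      field_simp
    have e2 : (2 * X) ^ 2 * ((p * L) ^ 2 * (p * S.card)) * (64 ^ 2 * X ^ 2) =
        (64 ^ 2 * 4 * L ^ 2) * X ^ 4 * p ^ 3 * S.card := by ring
    rw [← e1, ← e2]
    exact mul_le_mul_of_nonneg_right hcard (by positivity)
  have hB : N * (S.card * (H : ℝ) ^ 2) ≤ (64 ^ 2 * 4 * L ^ 2) * X ^ 4 * p ^ 3 :=
    le_of_mul_le_mul_right hA hSp
  refine hB.trans ?_
  have hX4 : X ^ 4 = (p : ℝ) ^ ε := by
    rw [hX, ← Real.rpow_natCast, ← Real.rpow_mul hp0.le]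
    congr 1
    push_cast
    ring
  have hp3 : (p : ℝ) ^ 3 = (p : ℝ) ^ (3 : ℝ) := by
    exact_mod_cast (Real.rpow_natCast (p : ℝ) 3).symm
  calc (64 ^ 2 * 4 * L ^ 2) * X ^ 4 * p ^ 3 ≤ (p : ℝ) ^ ε * (p : ℝ) ^ ε * (p : ℝ) ^ (3 : ℝ) := by
        rw [hX4, hp3]
        gcongr
    _ = (p : ℝ) ^ (3 + 2 * ε) := by
        rw [← Real.rpow_add hp0, ← Real.rpow_add hp0]
        congr 1
        ring

end Pool.Agent.V11113.MP
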