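import Pool.Agent.V11113.MP.Mat
import Pool.Agent.V11113.MP.Crit

set_option autoImplicit false

/-! Representations of all nonzero residue classes by dot products (Hart, Iosevich). -/

namespace Pool.Agent.V11113.MP

open Finset Filter
open Pool.Agent.W147.PS (ff ff_compare ev_pow)

section
variable {p : ℕ} [hp : Fact p.Prime]

lemma second_moment_exact {ι β : Type*} [Fintype ι] [DecidableEq ι] [DecidableEq β] (B : Finset β)
    (k : β → ℂ) (R : β → ι → ZMod p) :
    ((∑ a : ι → ZMod p, ‖∑ b ∈ B, k b * (ZMod.stdAddChar (∑ i, a i * R b i) : ℂ)‖ ^ 2 : ℝ) : ℂ) =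
      ∑ b ∈ B, ∑ b' ∈ B.filter (fun b' => R b = R b'),
        (k b * (starRingEnd ℂ) (k b')) * (p : ℂ) ^ Fintype.card ι := by
  classical
  have h1 : ∀ a : ι → ZMod p,
      ((‖∑ b ∈ B, k b * (ZMod.stdAddChar (∑ i, a i * R b i) : ℂ)‖ ^ 2 : ℝ) : ℂ) =
      ∑ b ∈ B, ∑ b' ∈ B, (k b * (starRingEnd ℂ) (k b')) *
        (ZMod.stdAddChar (∑ i, a i * (R b i - R b' i)) : ℂ) := by
    intro a
    rw [Complex.ofReal_pow, ← Complex.mul_conj', map_sum, sum_mul_sum]
    refine sum_congr rfl fun b _ => sum_congr rfl fun b' _ => ?_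
    have e1 : ∑ i, a i * (R b i - R b' i) = ∑ i, a i * R b i + -∑ i, a i * R b' i := by
      rw [← sub_eq_add_neg, ← sum_sub_distrib]
      exact sum_congr rfl fun i _ => by ring
    rw [map_mul, ← AddChar.map_neg_eq_conj, e1, AddChar.map_add_eq_mul]
    ring
  rw [Complex.ofReal_sum, sum_congr rfl (fun a _ => h1 a), sum_comm]
  refine sum_congr rfl fun b hb => ?_
  rw [sum_comm, sum_filter]
  refine sum_congr rfl fun b' _ => ?_
  rw [← mul_sum]
  have h5 := char_sum_fin (p := p) (fun i => R b i - R b' i)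
  rw [h5]
  by_cases h : R b = R b'
  · rw [if_pos h, if_pos (by funext i; rw [h]; simp)]
  · rw [if_neg h, if_neg (fun h6 => h (by
      funext i
      have := congrFun h6 i
      simpa [sub_eq_zero] using this)), mul_zero]

lemma sum_nonzero (c : ZMod p) :
    ∑ s ∈ (univ : Finset (ZMod p)).filter (fun s => s ≠ 0), (ZMod.stdAddChar (s * c) : ℂ) =
      (if c = 0 then (p : ℂ) else 0) - 1 := by
  classical
  have h1 : ∑ s : ZMod p, (ZMod.stdAddChar (s * c) : ℂ) = if c = 0 then (p : ℂ) else 0 := by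
    rw [AddChar.sum_mulShift _ (ZMod.isPrimitive_stdAddChar p), ZMod.card]
    split_ifs <;> simp
  rw [← h1, ← sum_filter_add_sum_filter_not univ (fun s : ZMod p => s ≠ 0)]
  have h2 : (univ : Finset (ZMod p)).filter (fun s => ¬ s ≠ 0) = {0} := by
    ext s
    simp
  rw [h2, sum_singleton, zero_mul, AddChar.map_zero_eq_one]
  ring

/-- the second moment -/
lemma dot_moment {d : ℕ} (F : Finset (Fin d → ZMod p)) (w : ZMod p) (hw : w ≠ 0) :
    ∑ a : Fin d → ZMod p, ‖∑ b ∈ F ×ˢ (univ : Finset (ZMod p)).filter (fun s => s ≠ 0),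
      (ZMod.stdAddChar (-(b.2 * w)) : ℂ) * (ZMod.stdAddChar (∑ i, a i * (b.2 * b.1 i)) : ℂ)‖ ^ 2 ≤
      (p : ℝ) ^ d * (p * F.card) := by
  classical
  set S := (univ : Finset (ZMod p)).filter (fun s => s ≠ 0) with hS
  have h1 := second_moment_exact (p := p) (F ×ˢ S)
    (fun b => (ZMod.stdAddChar (-(b.2 * w)) : ℂ)) (fun b i => b.2 * b.1 i)
  set W : (Fin d → ZMod p) → ℝ := fun y =>
    ∑ t ∈ S, if (fun i => t * y i) ∈ F then ((if t = 1 then (p : ℝ) else 0) - 1) else 0 with hW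
  have hWle : ∀ y, W y ≤ p := by
    intro y
    have hp0 : (0 : ℝ) ≤ p := Nat.cast_nonneg _
    calc W y ≤ ∑ t ∈ S, if t = 1 then (p : ℝ) else 0 := by
          refine sum_le_sum fun t _ => ?_
          split_ifs <;> linarith
      _ ≤ ∑ t : ZMod p, if t = 1 then (p : ℝ) else 0 :=
          sum_le_sum_of_subset_of_nonneg (subset_univ _) (fun _ _ _ => by split_ifs <;> linarith)
      _ = p := by simp
  have h2 : ∀ y ∈ F, ∑ s ∈ S, ∑ b' ∈ (F ×ˢ S).filter
      (fun b' => (fun i => s * y i) = (fun i => b'.2 * b'.1 i)),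
      ((ZMod.stdAddChar (-(s * w)) : ℂ) * (starRingEnd ℂ) (ZMod.stdAddChar (-(b'.2 * w)) : ℂ)) =
      (W y : ℂ) := by
    intro y _
    have e1 : ∀ s ∈ S, ∑ b' ∈ (F ×ˢ S).filter
        (fun b' => (fun i => s * y i) = (fun i => b'.2 * b'.1 i)),
        ((ZMod.stdAddChar (-(s * w)) : ℂ) * (starRingEnd ℂ) (ZMod.stdAddChar (-(b'.2 * w)) : ℂ)) =
        ∑ s' ∈ S, if (fun i => s / s' * y i) ∈ F then
          (ZMod.stdAddChar (s' * w - s * w) : ℂ) else 0 := by
      intro s _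
      rw [sum_filter, sum_product_right]
      refine sum_congr rfl fun s' hs' => ?_
      have hs'0 : s' ≠ 0 := (mem_filter.mp hs').2
      have e2 : ∀ y' ∈ F, (if (fun i => s * y i) = (fun i => s' * y' i) then
          ((ZMod.stdAddChar (-(s * w)) : ℂ) * (starRingEnd ℂ) (ZMod.stdAddChar (-(s' * w)) : ℂ))
          else 0) = if (fun i => s / s' * y i) = y' then
          (ZMod.stdAddChar (s' * w - s * w) : ℂ) else 0 := by
        intro y' _
        have e3 : ((fun i => s * y i) = (fun i => s' * y' i)) ↔ ((fun i => s / s' * y i) = y') := by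
          constructor
          · intro h
            funext i
            have := congrFun h i
            rw [div_mul_eq_mul_div, this, mul_div_cancel_left₀ _ hs'0]
          · intro h
            funext i
            rw [← h]
            field_simp
        rw [← AddChar.map_neg_eq_conj, neg_neg, ← AddChar.map_add_eq_mul]
        have e4 : -(s * w) + s' * w = s' * w - s * w := by ring
        rw [e4]
        exact if_congr e3 rfl rfl
      rw [sum_congr rfl e2, sum_ite_eq]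
    rw [sum_congr rfl e1, sum_comm]
    have e5 : ∀ s' ∈ S, ∑ s ∈ S, (if (fun i => s / s' * y i) ∈ F then
          (ZMod.stdAddChar (s' * w - s * w) : ℂ) else 0) =
        ∑ t ∈ S, if (fun i => t * y i) ∈ F then
          (ZMod.stdAddChar (s' * (w * (1 - t))) : ℂ) else 0 := by
      intro s' hs'
      have hs'0 : s' ≠ 0 := (mem_filter.mp hs').2
      refine sum_nbij' (fun s => s / s') (fun t => t * s') ?_ ?_ ?_ ?_ ?_
      · intro s hs
        rw [hS, mem_filter] at hs ⊢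
        exact ⟨mem_univ _, div_ne_zero hs.2 hs'0⟩
      · intro t ht
        rw [hS, mem_filter] at ht ⊢
        exact ⟨mem_univ _, mul_ne_zero ht.2 hs'0⟩
      · intro s _
        field_simp
      · intro t _
        field_simp
      · intro s _
        have e6 : s' * w - s * w = s' * (w * (1 - s / s')) := by field_simp
        rw [e6]
    rw [sum_congr rfl e5, sum_comm]
    rw [hW]
    push_cast
    refine sum_congr rfl fun t _ => ?_
    by_cases ht : (fun i => t * y i) ∈ F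
    · simp only [if_pos ht]
      rw [sum_nonzero]
      by_cases ht1 : t = 1
      · rw [if_pos (by rw [ht1]; ring), if_pos ht1]
        push_cast
        ring
      · rw [if_neg (by
          intro h
          rcases mul_eq_zero.mp h with h' | h'
          · exact hw h'
          · exact ht1 (sub_eq_zero.mp h').symm), if_neg ht1]
        push_cast
        ring
    · simp only [if_neg ht]
      simp
  have h3 : ((∑ a : Fin d → ZMod p, ‖∑ b ∈ F ×ˢ S,
      (ZMod.stdAddChar (-(b.2 * w)) : ℂ) * (ZMod.stdAddChar (∑ i, a i * (b.2 * b.1 i)) : ℂ)‖ ^ 2 : ℝ) : ℂ) =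
      (((p : ℝ) ^ d * ∑ y ∈ F, W y : ℝ) : ℂ) := by
    rw [h1, sum_product]
    push_cast
    rw [mul_sum]
    refine sum_congr rfl fun y hy => ?_
    rw [← h2 y hy, mul_sum]
    refine sum_congr rfl fun s _ => ?_
    rw [mul_sum]
    refine sum_congr rfl fun b' _ => ?_
    rw [Fintype.card_fin]
    ring
  have h4 : (∑ a : Fin d → ZMod p, ‖∑ b ∈ F ×ˢ S,
      (ZMod.stdAddChar (-(b.2 * w)) : ℂ) * (ZMod.stdAddChar (∑ i, a i * (b.2 * b.1 i)) : ℂ)‖ ^ 2 : ℝ) =
      (p : ℝ) ^ d * ∑ y ∈ F, W y := by exact_mod_cast h3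
  rw [h4]
  gcongr
  calc ∑ y ∈ F, W y ≤ ∑ y ∈ F, (p : ℝ) := sum_le_sum fun y _ => hWle y
    _ = p * F.card := by rw [sum_const, nsmul_eq_mul]; ring

/-- the number of representations of a nonzero residue as a dot product (Hart, Iosevich) -/
lemma dot_count {d : ℕ} (E F : Finset (Fin d → ZMod p)) (w : ZMod p) (hw : w ≠ 0) :
    |(((E ×ˢ F).filter (fun x => ∑ i, x.1 i * x.2 i = w)).card : ℝ) - E.card * F.card / p| ≤
      Real.sqrt ((p : ℝ) ^ d * (E.card * F.card) / p) := by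
  classical
  have hp0 : (0 : ℝ) < p := by exact_mod_cast hp.out.pos
  have hpc : (p : ℂ) ≠ 0 := by exact_mod_cast hp.out.ne_zero
  set S := (univ : Finset (ZMod p)).filter (fun s => s ≠ 0) with hS
  set U : (Fin d → ZMod p) → ℂ := fun a => ∑ b ∈ F ×ˢ S,
      (ZMod.stdAddChar (-(b.2 * w)) : ℂ) * (ZMod.stdAddChar (∑ i, a i * (b.2 * b.1 i)) : ℂ) with hU
  have h1 : ((((E ×ˢ F).filter (fun x => ∑ i, x.1 i * x.2 i = w)).card : ℝ) : ℂ) -
      ((E.card * F.card / p : ℝ) : ℂ) = (p : ℂ)⁻¹ * ∑ a ∈ E, U a := by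
    have e1 : ((((E ×ˢ F).filter (fun x => ∑ i, x.1 i * x.2 i = w)).card : ℝ) : ℂ) =
        ∑ a ∈ E, ∑ y ∈ F, if ∑ i, a i * y i = w then (1 : ℂ) else 0 := by
      rw [← sum_product', ← sum_filter]
      simp
    have e2 : ((E.card * F.card / p : ℝ) : ℂ) = ∑ a ∈ E, ∑ y ∈ F, (p : ℂ)⁻¹ := by
      rw [sum_const, sum_const]
      simp only [nsmul_eq_mul]
      push_cast
      ring
    rw [e1, e2, ← sum_sub_distrib, mul_sum]
    refine sum_congr rfl fun a _ => ?_
    rw [← sum_sub_distrib, hU]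
    simp only
    rw [sum_product, mul_sum]
    refine sum_congr rfl fun y _ => ?_
    have e3 : ∑ s ∈ S, (ZMod.stdAddChar (-(s * w)) : ℂ) *
        (ZMod.stdAddChar (∑ i, a i * (s * y i)) : ℂ) =
        ∑ s ∈ S, (ZMod.stdAddChar (s * (∑ i, a i * y i - w)) : ℂ) := by
      refine sum_congr rfl fun s _ => ?_
      rw [← AddChar.map_add_eq_mul]
      congr 1
      rw [mul_sub, mul_sum]
      have : ∀ i ∈ (univ : Finset (Fin d)), a i * (s * y i) = s * (a i * y i) := fun i _ => by ring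
      rw [sum_congr rfl this]
      ring
    rw [e3, sum_nonzero]
    by_cases h : ∑ i, a i * y i = w
    · rw [if_pos h, if_pos (sub_eq_zero.mpr h)]
      field_simp
    · rw [if_neg h, if_neg (fun h' => h (sub_eq_zero.mp h'))]
      ring
  have h2 : |(((E ×ˢ F).filter (fun x => ∑ i, x.1 i * x.2 i = w)).card : ℝ) - E.card * F.card / p| =
      (p : ℝ)⁻¹ * ‖∑ a ∈ E, U a‖ := by
    have h5 := congrArg (fun z : ℂ => ‖z‖) h1
    rw [← Complex.ofReal_sub, Complex.norm_real, Real.norm_eq_abs, norm_mul, norm_inv,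
      Complex.norm_natCast] at h5
    exact h5
  rw [h2]
  apply Real.le_sqrt_of_sq_le
  have h3 : ‖∑ a ∈ E, U a‖ ^ 2 ≤ E.card * ((p : ℝ) ^ d * (p * F.card)) := by
    calc ‖∑ a ∈ E, U a‖ ^ 2 ≤ (∑ a ∈ E, ‖U a‖) ^ 2 := by
          gcongr
          exact norm_sum_le _ _
      _ ≤ E.card * ∑ a ∈ E, ‖U a‖ ^ 2 := sq_sum_le_card_mul_sum_sq
      _ ≤ E.card * ∑ a : Fin d → ZMod p, ‖U a‖ ^ 2 := by
          gcongr
          exact subset_univ _
      _ ≤ _ := by
          gcongr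
          exact dot_moment F w hw
  rw [mul_pow]
  calc ((p : ℝ)⁻¹) ^ 2 * ‖∑ a ∈ E, U a‖ ^ 2 ≤ ((p : ℝ)⁻¹) ^ 2 * (E.card * ((p : ℝ) ^ d * (p * F.card))) := by
        gcongr
    _ = _ := by field_simp

lemma castInj (M H : ℕ) (hH : H ≤ p) : ∀ x ∈ Ioc M (M + H), ∀ y ∈ Ioc M (M + H),
    (x : ZMod p) = (y : ZMod p) → x = y := by
  have key : ∀ x ∈ Ioc M (M + H), ∀ y ∈ Ioc M (M + H), x ≤ y →
      (x : ZMod p) = (y : ZMod p) → x = y := by
    intro x hx y hy hxy h
    rw [mem_Ioc] at hx hy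
    rw [ZMod.natCast_eq_natCast_iff] at h
    have h2 : p ∣ y - x := (Nat.modEq_iff_dvd' hxy).mp h
    by_contra hne
    have h3 := Nat.le_of_dvd (by omega) h2
    omega
  intro x hx y hy h
  rcases le_total x y with h1 | h1
  · exact key x hx y hy h1 h
  · exact (key y hy x hx h1 h.symm).symm

end

open scoped Classical in
/-- every nonzero residue class is a dot product of integers in record gaps -/
theorem dotrep (d : ℕ) (ε : ℝ) (h0 : 0 < ε) (h1 : ε ≤ 1) : ∃ κ : ℝ, 0 < κ ∧ ∃ P : ℕ,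
    ∀ p : ℕ, P ≤ p → ∀ [Fact p.Prime], ∀ c : Fin d → ZMod p, (∀ i, c i ≠ 0) →
    ∀ w : ZMod p, w ≠ 0 → ∀ M H M' H' : Fin d → ℕ, (∀ i, H i ≤ p) → (∀ i, H' i ≤ p) →
    (∀ i, (p : ℝ) ^ ε ≤ H i) → (∀ i, (p : ℝ) ^ ε ≤ H' i) →
    (p : ℝ) ^ (d + 1 + ε) ≤ (∏ i, (H i : ℝ)) * ∏ i, (H' i : ℝ) →
    (∏ i, (H i : ℝ)) * (∏ i, (H' i : ℝ)) * (p : ℝ) ^ (-(1 + ε)) ≤
      (((Fintype.piFinset fun i => Ioc (M i) (M i + H i)) ×ˢ
        (Fintype.piFinset fun i => Ioc (M' i) (M' i + H' i))).filter (fun z =>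
          ∑ i, c i * (z.1 i : ZMod p) * (z.2 i : ZMod p) = w ∧
          ∀ i, (∀ q : ℕ, q.Prime → κ * ff p < |(q : ℝ) - z.1 i|) ∧
            (∀ q : ℕ, q.Prime → κ * ff p < |(q : ℝ) - z.2 i|))).card := by
  set δ : ℝ := ε / (4 * (d + 1)) with hδ
  have hd0 : (0 : ℝ) ≤ d := Nat.cast_nonneg _
  have hδ0 : 0 < δ := by positivity
  have hδε : δ ≤ ε := by
    rw [hδ, div_le_iff₀ (by positivity)]
    nlinarith
  have hδ2 : 2 * d * δ ≤ ε / 2 := by
    rw [hδ, mul_div_assoc', div_le_iff₀ (by positivity)]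
    nlinarith
  obtain ⟨κ, hκ, hm⟩ := many δ hδ0 (hδε.trans h1)
  have hcast : Tendsto (fun m : ℕ => (m : ℝ)) atTop atTop := tendsto_natCast_atTop_atTop
  obtain ⟨P, hP⟩ := eventually_atTop.mp (hm.and
    ((hcast.eventually (ev_pow 0 (ε / 2) 4 (by linarith))).and (eventually_ge_atTop 1)))
  refine ⟨κ, hκ, P, ?_⟩
  intro p hpP hfact c hc w hw M H M' H' hH hH' hHe hHe' hV
  have hp := hfact.out
  obtain ⟨c1, c2, c3⟩ := hP p hpP
  rw [Real.rpow_zero] at c2
  have hp1 : (1 : ℝ) ≤ p := by exact_mod_cast hp.one_le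
  have hp0 : (0 : ℝ) < p := by linarith
  set iso : ℕ → Prop := fun n => ∀ q : ℕ, q.Prime → κ * ff p < |(q : ℝ) - n| with hiso
  set G : ℝ := (p : ℝ) ^ (-δ) with hG
  have hG0 : 0 < G := by positivity
  have dens : ∀ M H : ℕ, H ≤ p → (p : ℝ) ^ ε ≤ H →
      (H : ℝ) * G ≤ ((Ioc M (M + H)).filter iso).card := by
    intro M H hHp hHe
    have h2 := c1 ⟨hp.ne_zero⟩ M H hHp (le_trans (Real.rpow_le_rpow_of_exponent_le hp1 hδε) hHe)
      (ZMod p) univ (fun x => x) (fun x => ∃ n : ℕ, M < n ∧ n ≤ M + H ∧ (n : ZMod p) = x ∧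
        ∀ q : ℕ, q.Prime → κ * ff p < |(q : ℝ) - n|) (fun _ => inferInstance)
      (fun _ _ h => h) (by
        intro v hv
        have h3 : ∑ x : ZMod p, (ZMod.stdAddChar (v * x) : ℂ) = 0 := by
          have h4 := AddChar.sum_mulShift v (ZMod.isPrimitive_stdAddChar p)
          rw [if_neg hv, Nat.cast_zero] at h4
          rw [← h4]
          exact sum_congr rfl fun x _ => by rw [mul_comm]
        rw [h3, norm_zero]
        positivity)
    rw [card_univ, ZMod.card, mul_div_assoc, mul_div_cancel₀ _ hp0.ne'] at h2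
    refine h2.trans ?_
    have h5 : ((univ : Finset (ZMod p)).filter (fun x => ∃ n : ℕ, M < n ∧ n ≤ M + H ∧
        (n : ZMod p) = x ∧ ∀ q : ℕ, q.Prime → κ * ff p < |(q : ℝ) - n|)) ⊆
        ((Ioc M (M + H)).filter iso).image (fun n : ℕ => (n : ZMod p)) := by
      intro x hx
      obtain ⟨n, a1, a2, a3, a4⟩ := (mem_filter.mp hx).2
      rw [mem_image]
      exact ⟨n, mem_filter.mpr ⟨mem_Ioc.mpr ⟨a1, a2⟩, a4⟩, a3⟩
    exact_mod_cast (card_le_card h5).trans card_image_le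
  set X : Fin d → Finset ℕ := fun i => (Ioc (M i) (M i + H i)).filter iso with hX
  set Y : Fin d → Finset ℕ := fun i => (Ioc (M' i) (M' i + H' i)).filter iso with hY
  set φ : (Fin d → ℕ) → Fin d → ZMod p := fun x i => c i * (x i : ZMod p) with hφ
  set ψ : (Fin d → ℕ) → Fin d → ZMod p := fun x i => (x i : ZMod p) with hψ
  have hXc : ∀ i, (H i : ℝ) * G ≤ (X i).card := fun i => dens _ _ (hH i) (hHe i)
  have hYc : ∀ i, (H' i : ℝ) * G ≤ (Y i).card := fun i => dens _ _ (hH' i) (hHe' i)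
  set E := (Fintype.piFinset X).image φ with hE
  set F := (Fintype.piFinset Y).image ψ with hF
  have hEcard : E.card = ∏ i, (X i).card := by
    rw [hE, card_image_of_injOn, Fintype.card_piFinset]
    intro x hx y hy hxy
    funext i
    have hx1 := (mem_filter.mp (Fintype.mem_piFinset.mp (mem_coe.mp hx) i)).1
    have hy1 := (mem_filter.mp (Fintype.mem_piFinset.mp (mem_coe.mp hy) i)).1
    exact castInj _ _ (hH i) _ hx1 _ hy1 (mul_left_cancel₀ (hc i) (congrFun hxy i))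
  have hFcard : F.card = ∏ i, (Y i).card := by
    rw [hF, card_image_of_injOn, Fintype.card_piFinset]
    intro x hx y hy hxy
    funext i
    have hx1 := (mem_filter.mp (Fintype.mem_piFinset.mp (mem_coe.mp hx) i)).1
    have hy1 := (mem_filter.mp (Fintype.mem_piFinset.mp (mem_coe.mp hy) i)).1
    exact castInj _ _ (hH' i) _ hx1 _ hy1 (congrFun hxy i)
  set V : ℝ := (∏ i, (H i : ℝ)) * ∏ i, (H' i : ℝ) with hVd
  have hV0 : 0 ≤ V := by positivity
  set Z : ℝ := (E.card : ℝ) * F.card with hZ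
  have hEG : (∏ i, (H i : ℝ)) * G ^ d ≤ E.card := by
    rw [hEcard]
    push_cast
    have : ∏ i : Fin d, ((H i : ℝ) * G) = (∏ i, (H i : ℝ)) * G ^ d := by
      rw [prod_mul_distrib, prod_const, card_univ, Fintype.card_fin]
    rw [← this]
    exact prod_le_prod (fun i _ => by positivity) (fun i _ => hXc i)
  have hFG : (∏ i, (H' i : ℝ)) * G ^ d ≤ F.card := by
    rw [hFcard]
    push_cast
    have : ∏ i : Fin d, ((H' i : ℝ) * G) = (∏ i, (H' i : ℝ)) * G ^ d := by
      rw [prod_mul_distrib, prod_const, card_univ, Fintype.card_fin]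
    rw [← this]
    exact prod_le_prod (fun i _ => by positivity) (fun i _ => hYc i)
  have hGG : (p : ℝ) ^ (-(ε / 2)) ≤ G ^ d * G ^ d := by
    rw [← pow_add, hG, ← Real.rpow_natCast, ← Real.rpow_mul hp0.le]
    apply Real.rpow_le_rpow_of_exponent_le hp1
    push_cast
    linarith
  have hZV : V * (p : ℝ) ^ (-(ε / 2)) ≤ Z := by
    calc V * (p : ℝ) ^ (-(ε / 2)) ≤ V * (G ^ d * G ^ d) := by gcongr
      _ = ((∏ i, (H i : ℝ)) * G ^ d) * ((∏ i, (H' i : ℝ)) * G ^ d) := by rw [hVd]; ring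
      _ ≤ _ := by
        rw [hZ]
        gcongr
  have e1 : (p : ℝ) ^ (d + 1 + ε) * (p : ℝ) ^ (-(ε / 2)) = (p : ℝ) ^ d * p * (p : ℝ) ^ (ε / 2) := by
    rw [← Real.rpow_add hp0, ← Real.rpow_natCast, ← Real.rpow_add_one hp0.ne', ← Real.rpow_add hp0]
    congr 1
    ring
  have hbig : 4 * ((p : ℝ) ^ d * p) ≤ Z := by
    refine le_trans ?_ hZV
    refine le_trans ?_ (mul_le_mul_of_nonneg_right hV (by positivity))
    rw [e1]
    have : (0 : ℝ) ≤ (p : ℝ) ^ d * p := by positivity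
    nlinarith
  have hZ0 : 0 ≤ Z := by positivity
  have hcount := dot_count E F w hw
  have hs : Real.sqrt ((p : ℝ) ^ d * Z / p) ≤ Z / (2 * p) := by
    apply Real.sqrt_le_iff.mpr
    refine ⟨by positivity, ?_⟩
    rw [div_pow, div_le_div_iff₀ hp0 (by positivity)]
    have : (p : ℝ) ^ d * Z * (2 * p) ^ 2 = (4 * ((p : ℝ) ^ d * p)) * (Z * p) := by ring
    rw [this]
    calc (4 * ((p : ℝ) ^ d * p)) * (Z * p) ≤ Z * (Z * p) := by gcongr
      _ = _ := by ring
  have hN : Z / (2 * p) ≤ (((E ×ˢ F).filter (fun x => ∑ i, x.1 i * x.2 i = w)).card : ℝ) := by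
    have h5 := (abs_le.mp hcount).1
    have h6 : Z / p = Z / (2 * p) + Z / (2 * p) := by field_simp; ring
    rw [← hZ, h6] at h5
    linarith
  have hsub : (E ×ˢ F).filter (fun x => ∑ i, x.1 i * x.2 i = w) ⊆
      (((Fintype.piFinset fun i => Ioc (M i) (M i + H i)) ×ˢ
        (Fintype.piFinset fun i => Ioc (M' i) (M' i + H' i))).filter (fun z =>
          ∑ i, c i * (z.1 i : ZMod p) * (z.2 i : ZMod p) = w ∧
          ∀ i, (∀ q : ℕ, q.Prime → κ * ff p < |(q : ℝ) - z.1 i|) ∧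
            (∀ q : ℕ, q.Prime → κ * ff p < |(q : ℝ) - z.2 i|))).image
        (fun z => (φ z.1, ψ z.2)) := by
    intro x hx
    rw [mem_filter, mem_product, hE, hF, mem_image, mem_image] at hx
    obtain ⟨⟨⟨a, ha, ha'⟩, ⟨b, hb, hb'⟩⟩, hsum⟩ := hx
    rw [mem_image]
    refine ⟨(a, b), ?_, Prod.ext ha' hb'⟩
    rw [mem_filter, mem_product, Fintype.mem_piFinset, Fintype.mem_piFinset]
    rw [Fintype.mem_piFinset] at ha hb
    refine ⟨⟨fun i => (mem_filter.mp (ha i)).1, fun i => (mem_filter.mp (hb i)).1⟩, ?_,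
      fun i => ⟨(mem_filter.mp (ha i)).2, (mem_filter.mp (hb i)).2⟩⟩
    rw [← hsum, ← ha', ← hb']
  have hfin := (card_le_card hsub).trans card_image_le
  refine le_trans ?_ (hN.trans (Nat.cast_le.mpr hfin))
  have e2 : (p : ℝ) ^ (-(1 + ε)) = (p : ℝ) ^ (-(ε / 2)) * (p : ℝ) ^ (-(ε / 2)) / p := by
    rw [← Real.rpow_add hp0, div_eq_mul_inv, ← Real.rpow_neg_one (p : ℝ), ← Real.rpow_add hp0]
    congr 1
    ring
  have e3 : (p : ℝ) ^ (-(ε / 2)) ≤ 1 / 2 := by
    rw [Real.rpow_neg hp0.le, inv_eq_one_div]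
    apply one_div_le_one_div_of_le (by norm_num)
    linarith
  rw [e2]
  calc V * ((p : ℝ) ^ (-(ε / 2)) * (p : ℝ) ^ (-(ε / 2)) / p) =
      (V * (p : ℝ) ^ (-(ε / 2))) * (p : ℝ) ^ (-(ε / 2)) / p := by ring
    _ ≤ Z * (1 / 2) / p := by gcongr
    _ = _ := by field_simp

end Pool.Agent.V11113.MP
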