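import Pool.Agent.V11113.MP.ManyK
import Pool.Agent.V11113.MP.Curve

set_option autoImplicit false

/-! Powers of an element of a finite field: exponential sums. -/

namespace Pool.Agent.V11113.MP

open Finset Filter
open Pool.Agent.W147.PS (ff ff_compare ev_pow)

section

variable {K : Type} [Field K] [Fintype K]

lemma pow_valK (g : K) (t : ℕ) [NeZero t] (ht : g ^ t = 1) (n : ℕ) :
    g ^ ((n : ZMod t).val) = g ^ n := by
  rw [ZMod.val_natCast]
  conv_rhs => rw [← Nat.div_add_mod n t, pow_add, pow_mul, ht, one_pow, one_mul]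

/-- the twisted sum over the powers of `g` -/
noncomputable def SK (g : K) (t : ℕ) [NeZero t] (k : ZMod t) (χ : AddChar K ℂ) : ℂ :=
  ∑ u : ZMod t, (ZMod.stdAddChar (-(u * k)) : ℂ) * χ (g ^ u.val)

lemma SK_shift (g : K) (t : ℕ) [NeZero t] (ht : g ^ t = 1) (k : ZMod t) (χ : AddChar K ℂ) :
    ‖SK g t k (χ.mulShift g)‖ = ‖SK g t k χ‖ := by
  have h1 : SK g t k (χ.mulShift g) = (ZMod.stdAddChar k : ℂ) * SK g t k χ := by
    unfold SK
    rw [mul_sum]
    refine Fintype.sum_equiv (Equiv.addRight (1 : ZMod t)) _ _ (fun u => ?_)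
    simp only [Equiv.coe_addRight]
    have e1 : g ^ (u + 1).val = g * g ^ u.val := by
      have h2 : u + 1 = ((u.val + 1 : ℕ) : ZMod t) := by
        push_cast
        rw [ZMod.natCast_zmod_val]
      rw [h2, pow_valK g t ht, pow_succ]
      ring
    rw [e1, AddChar.mulShift_apply, ← mul_assoc, ← AddChar.map_add_eq_mul]
    congr 2
    ring
  rw [h1, norm_mul, AddChar.norm_apply, one_mul]

lemma SK_shifts (g : K) (t : ℕ) [NeZero t] (ht : g ^ t = 1) (k : ZMod t) (χ : AddChar K ℂ)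
    (s : ℕ) : ‖SK g t k (χ.mulShift (g ^ s))‖ = ‖SK g t k χ‖ := by
  induction s with
  | zero => rw [pow_zero, AddChar.mulShift_one]
  | succ s ih =>
    rw [pow_succ, ← AddChar.mulShift_mulShift, SK_shift g t ht, ih]

lemma SK_moment (g : K) (t : ℕ) [NeZero t] (ht : t = orderOf g) (k : ZMod t) :
    ∑ χ : AddChar K ℂ, ‖SK g t k χ‖ ^ 2 = (Fintype.card K : ℝ) * t := by
  classical
  have h1 : ∀ χ : AddChar K ℂ, ((‖SK g t k χ‖ ^ 2 : ℝ) : ℂ) =
      ∑ u : ZMod t, ∑ u' : ZMod t, ((ZMod.stdAddChar (-(u * k)) : ℂ) *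
        (starRingEnd ℂ) (ZMod.stdAddChar (-(u' * k)) : ℂ)) * χ (g ^ u.val - g ^ u'.val) := by
    intro χ
    unfold SK
    rw [Complex.ofReal_pow, ← Complex.mul_conj', map_sum, sum_mul_sum]
    refine sum_congr rfl fun b _ => sum_congr rfl fun b' _ => ?_
    rw [map_mul (starRingEnd ℂ), ← AddChar.map_neg_eq_conj χ (g ^ b'.val),
      sub_eq_add_neg, AddChar.map_add_eq_mul]
    ring
  have hinj : ∀ u u' : ZMod t, g ^ u.val = g ^ u'.val → u = u' := by
    intro u u' h
    have h2 : u.val = u'.val := by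
      have hu : u.val < orderOf g := by rw [← ht]; exact ZMod.val_lt u
      have hu' : u'.val < orderOf g := by rw [← ht]; exact ZMod.val_lt u'
      exact pow_injOn_Iio_orderOf hu hu' h
    exact ZMod.val_injective t h2
  have h2 : ((∑ χ : AddChar K ℂ, ‖SK g t k χ‖ ^ 2 : ℝ) : ℂ) =
      (((Fintype.card K : ℝ) * t : ℝ) : ℂ) := by
    rw [Complex.ofReal_sum, sum_congr rfl (fun a _ => h1 a), sum_comm]
    have h3 : ∀ u : ZMod t, ∑ χ : AddChar K ℂ, ∑ u' : ZMod t, ((ZMod.stdAddChar (-(u * k)) : ℂ) *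
        (starRingEnd ℂ) (ZMod.stdAddChar (-(u' * k)) : ℂ)) * χ (g ^ u.val - g ^ u'.val) =
        (Fintype.card K : ℂ) := by
      intro u
      rw [sum_comm]
      have h4 : ∀ u' : ZMod t, ∑ χ : AddChar K ℂ, ((ZMod.stdAddChar (-(u * k)) : ℂ) *
          (starRingEnd ℂ) (ZMod.stdAddChar (-(u' * k)) : ℂ)) * χ (g ^ u.val - g ^ u'.val) =
          if u = u' then (Fintype.card K : ℂ) else 0 := by
        intro u'
        rw [← mul_sum, AddChar.sum_apply_eq_ite]
        by_cases h : u = u'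
        · rw [if_pos h, if_pos (by rw [h, sub_self]), h, Complex.mul_conj', AddChar.norm_apply]
          simp
        · rw [if_neg h, if_neg (fun h5 => h (hinj _ _ (sub_eq_zero.mp h5))), mul_zero]
      rw [sum_congr rfl (fun u' _ => h4 u'), sum_ite_eq, if_pos (mem_univ _)]
    rw [sum_congr rfl (fun u _ => h3 u), sum_const, card_univ, ZMod.card, nsmul_eq_mul]
    push_cast
    ring
  exact_mod_cast h2

lemma mulShift_inj (χ : AddChar K ℂ) (hχ : χ ≠ 1) : Function.Injective (fun r : K => χ.mulShift r) := by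
  intro r r' h
  simp only at h
  by_contra hne
  apply hχ
  ext x
  have h1 := DFunLike.congr_fun h (x / (r - r'))
  rw [AddChar.mulShift_apply, AddChar.mulShift_apply] at h1
  have hrr : r - r' ≠ 0 := sub_ne_zero.mpr hne
  have h2 : x = r * (x / (r - r')) - r' * (x / (r - r')) := by
    field_simp
  rw [AddChar.one_apply, h2, AddChar.map_sub_eq_div, h1]
  refine div_self ?_
  rw [← norm_ne_zero_iff, AddChar.norm_apply]
  exact one_ne_zero

lemma SK_bound (g : K) (t : ℕ) [NeZero t] (ht : t = orderOf g) (k : ZMod t)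
    (χ : AddChar K ℂ) (hχ : χ ≠ 1) : ‖SK g t k χ‖ ≤ Real.sqrt (Fintype.card K) := by
  classical
  have ht1 : g ^ t = 1 := by rw [ht]; exact pow_orderOf_eq_one g
  have ht0 : (0 : ℝ) < t := by exact_mod_cast Nat.pos_of_ne_zero (NeZero.ne t)
  apply Real.le_sqrt_of_sq_le
  have h1 : (t : ℝ) * ‖SK g t k χ‖ ^ 2 ≤ t * Fintype.card K := by
    calc (t : ℝ) * ‖SK g t k χ‖ ^ 2 = ∑ s ∈ range t, ‖SK g t k (χ.mulShift (g ^ s))‖ ^ 2 := by
          rw [sum_congr rfl (fun s _ => by rw [SK_shifts g t ht1 k χ s]), sum_const, card_range,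
            nsmul_eq_mul]
      _ = ∑ z ∈ (range t).image (fun s => χ.mulShift (g ^ s)), ‖SK g t k z‖ ^ 2 := by
          rw [sum_image]
          intro s hs s' hs' h
          have h2 : g ^ s = g ^ s' := mulShift_inj χ hχ h
          rw [mem_coe, mem_range, ht] at hs hs'
          exact pow_injOn_Iio_orderOf hs hs' h2
      _ ≤ ∑ z : AddChar K ℂ, ‖SK g t k z‖ ^ 2 :=
          sum_le_sum_of_subset_of_nonneg (subset_univ _) fun _ _ _ => by positivity
      _ = Fintype.card K * t := SK_moment g t ht k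
      _ = t * Fintype.card K := mul_comm _ _
  exact le_of_mul_le_mul_left h1 ht0

/-- sums over stretches of powers -/
lemma pow_normK (g : K) (hg : g ≠ 0) (χ : AddChar K ℂ) (hχ : χ ≠ 1) (b : K) (hb : b ≠ 0) (N : ℕ) :
    ‖∑ k ∈ range N, χ (b * g ^ k)‖ ≤
      Real.sqrt (Fintype.card K) * ((N : ℝ) / orderOf g + 1 + Real.log (orderOf g)) := by
  have hfin : IsOfFinOrder g := by
    have hu := isOfFinOrder_of_finite (Units.mk0 g hg)
    exact (Units.isOfFinOrder_val (u := Units.mk0 g hg)).mpr hu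
  have : NeZero (orderOf g) := ⟨(orderOf_pos_iff.mpr hfin).ne'⟩
  have ht1 : g ^ (orderOf g) = 1 := pow_orderOf_eq_one g
  have hχb : χ.mulShift b ≠ 1 := by
    intro h
    apply hb
    have h2 : χ.mulShift b = χ.mulShift 0 := by rw [h, AddChar.mulShift_zero]
    exact mulShift_inj χ hχ h2
  have h1 := Pool.Agent.H442R2.KF.Inc.completion (orderOf g) 1 (Nat.coprime_one_right _)
    (fun u => (χ.mulShift b) (g ^ u.val)) (Real.sqrt (Fintype.card K)) (Real.sqrt_nonneg _)
    (fun w => SK_bound g (orderOf g) rfl w (χ.mulShift b) hχb) 0 N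
  refine le_trans (le_of_eq ?_) h1
  congr 1
  refine sum_congr rfl fun k _ => ?_
  have e1 : (((0 : ℤ) + ((1 : ℕ) : ℤ) * (k : ℤ) : ℤ) : ZMod (orderOf g)) =
      ((k : ℕ) : ZMod (orderOf g)) := by
    push_cast
    ring
  rw [e1, pow_valK g _ ht1, AddChar.mulShift_apply]

/-- sums over the exponents in a residue class -/
lemma class_normK (g : K) (hg : g ≠ 0) (χ : AddChar K ℂ) (hχ : χ ≠ 1) (b : K) (hb : b ≠ 0)
    (L N q : ℕ) (hq : 1 ≤ q) (hqt : q ≤ orderOf g) (ρ : ℤ) :
    ‖∑ j ∈ (Ioc L (L + N)).filter (fun j : ℕ => (q : ℤ) ∣ (j : ℤ) - ρ), χ (b * g ^ j)‖ ≤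
      Real.sqrt (Fintype.card K) * ((N : ℝ) / orderOf g + 2 + Real.log (Fintype.card K)) := by
  classical
  obtain ⟨j0, M, hM, hfil⟩ := ap L N q hq ρ
  have hq0 : (0 : ℝ) < q := by exact_mod_cast hq
  rw [hfil, sum_image (by
    intro x _ x' _ h
    have h1 : q * x = q * x' := Nat.add_left_cancel h
    exact Nat.eq_of_mul_eq_mul_left (by omega) h1)]
  have h1 := pow_normK (g ^ q) (pow_ne_zero q hg) χ hχ (b * g ^ j0) (mul_ne_zero hb (pow_ne_zero _ hg)) M
  have e1 : ∑ k ∈ range M, χ (b * g ^ j0 * (g ^ q) ^ k) =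
      ∑ k ∈ range M, χ (b * g ^ (j0 + q * k)) := by
    refine sum_congr rfl fun k _ => ?_
    rw [pow_add, pow_mul]
    ring_nf
  rw [e1] at h1
  refine h1.trans ?_
  have hfinK : ∀ x : K, x ≠ 0 → IsOfFinOrder x := fun x hx =>
    (Units.isOfFinOrder_val (u := Units.mk0 x hx)).mpr (isOfFinOrder_of_finite (Units.mk0 x hx))
  have ht : 0 < orderOf g := orderOf_pos_iff.mpr (hfinK g hg)
  have htr : (0 : ℝ) < orderOf g := by exact_mod_cast ht
  have ht' : 0 < orderOf (g ^ q) := orderOf_pos_iff.mpr (hfinK _ (pow_ne_zero q hg))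
  have htr' : (0 : ℝ) < orderOf (g ^ q) := by exact_mod_cast ht'
  have h2 : orderOf g ≤ orderOf (g ^ q) * q := by
    rw [orderOf_pow' g (by omega)]
    have hgcd : Nat.gcd (orderOf g) q ∣ orderOf g := Nat.gcd_dvd_left _ _
    calc orderOf g = orderOf g / Nat.gcd (orderOf g) q * Nat.gcd (orderOf g) q :=
          (Nat.div_mul_cancel hgcd).symm
      _ ≤ orderOf g / Nat.gcd (orderOf g) q * q :=
          Nat.mul_le_mul_left _ (Nat.gcd_le_right _ (by omega))
  have h2r : (orderOf g : ℝ) ≤ orderOf (g ^ q) * q := by exact_mod_cast h2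
  have h3 : (orderOf (g ^ q) : ℝ) ≤ Fintype.card K := by
    have h5 : orderOf (Units.mk0 (g ^ q) (pow_ne_zero q hg)) ≤ Fintype.card Kˣ := orderOf_le_card_univ
    rw [← orderOf_units, Units.val_mk0] at h5
    have h6 : Fintype.card Kˣ ≤ Fintype.card K := Fintype.card_le_of_injective _ Units.val_injective
    exact_mod_cast h5.trans h6
  have h4 : Real.log (orderOf (g ^ q)) ≤ Real.log (Fintype.card K) := Real.log_le_log htr' h3
  have h5 : (M : ℝ) / orderOf (g ^ q) ≤ N / orderOf g + 1 := by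
    have hKq : (M : ℝ) * q ≤ N + q := by
      have := (abs_le.mp hM).2
      have h6 : (M : ℝ) ≤ N / q + 1 := by linarith
      calc (M : ℝ) * q ≤ (N / q + 1) * q := by gcongr
        _ = N + q := by field_simp
    have hqtr : (q : ℝ) ≤ orderOf g := by exact_mod_cast hqt
    have h7 : (M : ℝ) / orderOf (g ^ q) ≤ M * q / orderOf g := by
      rw [div_le_div_iff₀ htr' htr]
      calc (M : ℝ) * orderOf g ≤ M * (orderOf (g ^ q) * q) := by gcongr
        _ = _ := by ring
    refine h7.trans ?_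
    calc (M : ℝ) * q / orderOf g ≤ (N + orderOf g) / orderOf g := by
          gcongr
          linarith
      _ = _ := by rw [add_div, div_self htr.ne']
  refine mul_le_mul_of_nonneg_left ?_ (Real.sqrt_nonneg _)
  linarith

end

end Pool.Agent.V11113.MP
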