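import Pool.Agent.V11113.MP.FField

set_option autoImplicit false

namespace Pool.Agent.V11113.MP

open Finset Filter
open Pool.Agent.W147.PS (ff ff_compare ev_pow)

lemma char_ne_one (p : ℕ) [Fact p.Prime] (K : Type) [Field K] [Algebra (ZMod p) K]
    (f : K →ₗ[ZMod p] ZMod p) (hf : f ≠ 0) :
    (ZMod.stdAddChar (N := p)).compAddMonoidHom f.toAddMonoidHom ≠ 1 := by
  intro h
  obtain ⟨x₀, hx₀⟩ : ∃ x, f x ≠ 0 := by
    by_contra hcon
    push Not at hcon
    exact hf (LinearMap.ext hcon)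
  have h1 : (ZMod.stdAddChar (N := p)) = 1 := by
    ext y
    have h2 := DFunLike.congr_fun h ((y / f x₀) • x₀)
    rw [AddChar.one_apply] at h2 ⊢
    rw [← h2, AddChar.compAddMonoidHom_apply]
    congr 1
    simp only [LinearMap.toAddMonoidHom_coe]
    rw [map_smul, smul_eq_mul, div_mul_cancel₀ _ hx₀]
  have h2 := ZMod.isPrimitive_stdAddChar p (one_ne_zero (α := ZMod p))
  rw [AddChar.mulShift_one] at h2
  exact h2 h1

open scoped Classical in
/-- coordinates of powers of elements of finite fields -/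
theorem ffield (d r : ℕ) (hr : 1 ≤ r) (ε : ℝ) (h0 : 0 < ε) (h1 : ε ≤ 1) :
    ∃ κ : ℝ, 0 < κ ∧ ∃ P : ℕ, ∀ (p : ℕ) [Fact p.Prime], P ≤ p →
    ∀ (K : Type) [Field K] [Fintype K] [Algebra (ZMod p) K], Fintype.card K = p ^ d →
    ∀ (l : Fin r → K →ₗ[ZMod p] ZMod p), LinearIndependent (ZMod p) l →
    ∀ g a : K, g ≠ 0 → a ≠ 0 → ∀ (L N : ℕ) (A H : Fin r → ℕ), (∀ j, A j + H j ≤ p) →
    (∀ j, (p : ℝ) ^ ε ≤ H j) →
    (p : ℝ) ^ ((d : ℝ) / 2 + r + ε) ≤ N * ∏ j, (H j : ℝ) →
    (p : ℝ) ^ ((d : ℝ) / 2 + r + ε) ≤ orderOf g * ∏ j, (H j : ℝ) →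
    N * (∏ j, (H j : ℝ)) * (p : ℝ) ^ (-((r : ℝ) + ε)) ≤ ((Ioc L (L + N)).filter (fun n : ℕ =>
      (∀ q : ℕ, q.Prime → κ * ff p < |(q : ℝ) - n|) ∧
      ∀ j, A j ≤ (l j (a * g ^ n)).val ∧ (l j (a * g ^ n)).val < A j + H j ∧
      ∀ q : ℕ, q.Prime → κ * ff p < |(q : ℝ) - (l j (a * g ^ n)).val|)).card := by
  obtain ⟨κ, hκ, P₁, hc⟩ := manyK 1 r (by omega) (ε / 2) (by positivity) (by linarith)
  have hcast : Tendsto (fun m : ℕ => (m : ℝ)) atTop atTop := tendsto_natCast_atTop_atTop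
  have hlog : ∀ᶠ x : ℝ in atTop, 4 * (2 + d * Real.log x) ≤ x ^ (ε / 2) := by
    have h2 := (isLittleO_log_rpow_atTop (show (0 : ℝ) < ε / 4 by positivity)).def
      (show (0 : ℝ) < 1 by norm_num)
    filter_upwards [h2, eventually_ge_atTop (1 : ℝ),
      ev_pow (ε / 4) (ε / 2) (8 + 4 * d) (by linarith),
      (tendsto_rpow_atTop (show 0 < ε / 4 by positivity)).eventually_ge_atTop 1]
      with x hx hx1 hx2 hx3
    rw [Real.norm_eq_abs, abs_of_nonneg (Real.log_nonneg hx1), Real.norm_eq_abs,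
      abs_of_nonneg (Real.rpow_nonneg (by linarith) _), one_mul] at hx
    have hd0 : (0 : ℝ) ≤ d := Nat.cast_nonneg _
    have : (d : ℝ) * Real.log x ≤ d * x ^ (ε / 4) := by gcongr
    nlinarith
  obtain ⟨P₂, hP₂⟩ := eventually_atTop.mp ((hcast.eventually hlog).and
    ((hcast.eventually (ev_pow (ε / 4) ε 4 (by linarith))).and
    (hcast.eventually (ev_pow (ε / 2) ε 2 (by linarith)))))
  refine ⟨κ, hκ, max P₁ (max P₂ 1), ?_⟩
  intro p hfact hpP K _ _ _ hK l hl g a hg ha L N A H hAH hH hN ht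
  have hp : p.Prime := hfact.out
  obtain ⟨c2, c3, c5⟩ := hP₂ p ((le_max_left _ _).trans ((le_max_right _ _).trans hpP))
  have hp1 : (1 : ℝ) ≤ p := by exact_mod_cast hp.one_le
  have hp0 : (0 : ℝ) < p := by linarith
  have c4 : (2 : ℝ) ≤ (p : ℝ) ^ (ε / 2) := by
    have := Real.log_nonneg hp1
    have hd0 : (0 : ℝ) ≤ d := Nat.cast_nonneg _
    nlinarith
  set V : ℝ := ∏ j, (H j : ℝ) with hV
  have hVpos : 0 < V := by
    rw [hV]
    refine prod_pos fun j _ => ?_
    exact lt_of_lt_of_le (by positivity) (hH j)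
  have hVP : V ≤ (p : ℝ) ^ (r : ℝ) := by
    rw [hV, Real.rpow_natCast]
    calc ∏ j, (H j : ℝ) ≤ ∏ _j : Fin r, (p : ℝ) := by
          refine prod_le_prod (fun j _ => Nat.cast_nonneg _) fun j _ => ?_
          have := hAH j
          have : H j ≤ p := by omega
          exact_mod_cast this
      _ = _ := by rw [prod_const, card_univ, Fintype.card_fin]
  have hd2 : (0 : ℝ) ≤ (d : ℝ) / 2 := by positivity
  have hpd1 : (1 : ℝ) ≤ (p : ℝ) ^ ((d : ℝ) / 2) := Real.one_le_rpow hp1 hd2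
  have hsplit : (p : ℝ) ^ ((d : ℝ) / 2 + r + ε) = (p : ℝ) ^ ((d : ℝ) / 2) * (p : ℝ) ^ ε *
      (p : ℝ) ^ (r : ℝ) := by
    rw [← Real.rpow_add hp0, ← Real.rpow_add hp0]
    congr 1
    ring
  have hprr : (0 : ℝ) < (p : ℝ) ^ (r : ℝ) := by positivity
  have hbig : ∀ x : ℝ, 0 ≤ x → (p : ℝ) ^ ((d : ℝ) / 2 + r + ε) ≤ x * V → (p : ℝ) ^ ε ≤ x := by
    intro x hx0 hx
    rw [hsplit] at hx
    have h2 : (p : ℝ) ^ ((d : ℝ) / 2) * (p : ℝ) ^ ε * (p : ℝ) ^ (r : ℝ) ≤ x * (p : ℝ) ^ (r : ℝ) := by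
      refine hx.trans ?_
      gcongr
    have h3 := le_of_mul_le_mul_right h2 hprr
    refine le_trans ?_ h3
    exact le_mul_of_one_le_left (by positivity) hpd1
  have hNbig := hbig N (Nat.cast_nonneg _) hN
  have htbig := hbig (orderOf g) (Nat.cast_nonneg _) ht
  have htr : (0 : ℝ) < orderOf g := lt_of_lt_of_le (by positivity) htbig
  -- cut off the small exponents
  set Y : ℝ := (p : ℝ) ^ (ε / 4) with hY
  have hY1 : 1 ≤ Y := Real.one_le_rpow hp1 (by positivity)
  set D : ℕ := ⌈Y⌉₊ with hD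
  have hDY : Y ≤ D := Nat.le_ceil _
  have hDY2 : (D : ℝ) ≤ Y + 1 := (Nat.ceil_lt_add_one (by linarith)).le
  have hDN : (D : ℝ) ≤ N / 2 := by linarith
  have hN0 : (0 : ℝ) ≤ N := Nat.cast_nonneg _
  have hDN' : D ≤ N := by
    have : (D : ℝ) ≤ N := by linarith
    exact_mod_cast this
  set N' : ℕ := N - D with hN'
  have hN'r : (N' : ℝ) = N - D := by rw [hN', Nat.cast_sub hDN']
  have hN'h : (N : ℝ) / 2 ≤ N' := by rw [hN'r]; linarith
  have hN'0 : (0 : ℝ) ≤ N' := Nat.cast_nonneg _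
  set L' : ℕ := L + D with hL'
  have hLN : L' + N' = L + N := by omega
  have hcard : ((Ioc L' (L' + N')).card : ℝ) = N' := by simp
  set E : ℝ := (p : ℝ) ^ (ε / 2) with hE
  have hpe : (0 : ℝ) < E := by positivity
  have hEE : (p : ℝ) ^ ε = E * E := by
    rw [hE, ← Real.rpow_add hp0]
    congr 1
    ring
  have hpneg : (p : ℝ) ^ (-(ε / 2)) = E⁻¹ := Real.rpow_neg hp0.le _
  have hKc : Real.sqrt (Fintype.card K) = (p : ℝ) ^ ((d : ℝ) / 2) := by
    rw [hK, Real.sqrt_eq_rpow]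
    push_cast
    rw [← Real.rpow_natCast, ← Real.rpow_mul hp0.le]
    congr 1
    ring
  have hKl : Real.log (Fintype.card K) = d * Real.log p := by
    rw [hK]
    push_cast
    rw [Real.log_pow]
  set B : ℝ := (p : ℝ) ^ ((d : ℝ) / 2) * ((N' : ℝ) / orderOf g + 2 + d * Real.log p) with hB
  have hlog0 : 0 ≤ Real.log p := Real.log_nonneg hp1
  have h2 := hc p ((le_max_left _ _).trans hpP) hp ℕ (Ioc L' (L' + N'))
    (fun i _ => (i : ℤ)) (fun i j => l j (a * g ^ i)) B (by positivity) (by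
      intro q hq hqp ρ
      have hfil : (Ioc L' (L' + N')).filter (fun i : ℕ => ∀ _j : Fin 1, (q : ℤ) ∣ (i : ℤ) - ρ _j) =
          (Ioc L' (L' + N')).filter (fun i : ℕ => (q : ℤ) ∣ (i : ℤ) - ρ 0) := by
        apply filter_congr
        intro i _
        rw [Fin.forall_fin_one]
      rw [hfil]
      have hqr : (q : ℝ) ≤ orderOf g := by linarith
      have hqt : q ≤ orderOf g := by exact_mod_cast hqr
      constructor
      · rw [hcard, pow_one]
        obtain ⟨j0, M, hM, hfil2⟩ := ap L' N' q hq (ρ 0)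
        rw [hfil2, card_image_of_injective _ (by
          intro x x' h
          have h1 : q * x = q * x' := Nat.add_left_cancel h
          exact Nat.eq_of_mul_eq_mul_left (by omega) h1), card_range]
        refine hM.trans ?_
        rw [hpneg, ← div_eq_mul_inv, le_div_iff₀ hpe]
        linarith
      · intro h hh
        set f : K →ₗ[ZMod p] ZMod p := ∑ j, h j • l j with hf
        have hf0 : f ≠ 0 := by
          intro hf0
          apply hh
          have := Fintype.linearIndependent_iff.mp hl h hf0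
          exact funext this
        have e1 : ∀ i : ℕ, (ZMod.stdAddChar (∑ j, h j * l j (a * g ^ i)) : ℂ) =
            ((ZMod.stdAddChar (N := p)).compAddMonoidHom f.toAddMonoidHom) (a * g ^ i) := by
          intro i
          rw [AddChar.compAddMonoidHom_apply]
          congr 1
          simp only [LinearMap.toAddMonoidHom_coe]
          rw [hf, LinearMap.sum_apply]
          refine sum_congr rfl fun j _ => ?_
          rw [LinearMap.smul_apply, smul_eq_mul]
        rw [sum_congr rfl (fun i _ => e1 i)]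
        have h5 := class_normK g hg _ (char_ne_one p K f hf0) a ha L' N' q hq hqt (ρ 0)
        rw [hKc, hKl] at h5
        exact h5)
    (by
      intro i hi j
      rw [mem_Ioc] at hi
      have h3 : D ≤ i := by omega
      have h3r : (D : ℝ) ≤ i := by exact_mod_cast h3
      have h4 : ε / 2 / 2 = ε / 4 := by ring
      rw [h4]
      push_cast
      exact hDY.trans h3r) A H hAH (fun j => le_trans
      (Real.rpow_le_rpow_of_exponent_le hp1 (by linarith)) (hH j)) (by
      rw [hcard]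
      have e1 : (p : ℝ) ^ ((r : ℝ) + ε / 2) = (p : ℝ) ^ (r : ℝ) * E := by
        rw [Real.rpow_add hp0]
      set W : ℝ := (p : ℝ) ^ ((d : ℝ) / 2) * (p : ℝ) ^ (r : ℝ) * E with hW
      have hW0 : 0 < W := by positivity
      have e2 : B * (p : ℝ) ^ ((r : ℝ) + ε / 2) =
          W * (N' / orderOf g) + W * (2 + d * Real.log p) := by
        rw [e1, hB, hW]
        ring
      have e3 : (p : ℝ) ^ ((d : ℝ) / 2 + r + ε) = W * E := by
        rw [hsplit, hEE, hW]
        ring
      rw [e3] at hN ht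
      rw [e2]
      have e4 : W * (N' / orderOf g) ≤ N' * V / 2 := by
        have : W ≤ orderOf g * V / 2 := by
          have : W * 2 ≤ W * E := by gcongr
          linarith
        calc W * (N' / orderOf g) ≤ orderOf g * V / 2 * (N' / orderOf g) := by gcongr
          _ = _ := by field_simp
      have e5 : W * (2 + d * Real.log p) ≤ N' * V / 2 := by
        have h7 : W * (4 * (2 + d * Real.log p)) ≤ N * V := by
          refine le_trans ?_ hN
          gcongr
        have h8 : (N : ℝ) / 2 * V ≤ N' * V := by gcongr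
        linarith
      linarith)
    (fun n => (∀ q : ℕ, q.Prime → κ * ff p < |(q : ℝ) - n|) ∧
      ∀ j, A j ≤ (l j (a * g ^ n)).val ∧ (l j (a * g ^ n)).val < A j + H j ∧
      ∀ q : ℕ, q.Prime → κ * ff p < |(q : ℝ) - (l j (a * g ^ n)).val|) (fun _ => inferInstance)
    (by
      intro i _ h3 h4
      refine ⟨?_, h4⟩
      have := h3 0
      push_cast at this
      exact this)
  rw [hcard] at h2
  have h3 : ((Ioc L' (L' + N')).filter (fun n : ℕ =>
      (∀ q : ℕ, q.Prime → κ * ff p < |(q : ℝ) - n|) ∧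
      ∀ j, A j ≤ (l j (a * g ^ n)).val ∧ (l j (a * g ^ n)).val < A j + H j ∧
      ∀ q : ℕ, q.Prime → κ * ff p < |(q : ℝ) - (l j (a * g ^ n)).val|)).card ≤
      ((Ioc L (L + N)).filter (fun n : ℕ =>
      (∀ q : ℕ, q.Prime → κ * ff p < |(q : ℝ) - n|) ∧
      ∀ j, A j ≤ (l j (a * g ^ n)).val ∧ (l j (a * g ^ n)).val < A j + H j ∧
      ∀ q : ℕ, q.Prime → κ * ff p < |(q : ℝ) - (l j (a * g ^ n)).val|)).card := by
    apply card_le_card
    apply filter_subset_filter
    rw [hLN]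
    exact Ioc_subset_Ioc_left (by omega)
  refine le_trans ?_ (h2.trans (Nat.cast_le.mpr h3))
  have e7 : (p : ℝ) ^ (-((r : ℝ) + ε)) * E = (p : ℝ) ^ (-((r : ℝ) + ε / 2)) := by
    rw [hE, ← Real.rpow_add hp0]
    congr 1
    ring
  rw [← e7]
  have e8 : (0 : ℝ) < (p : ℝ) ^ (-((r : ℝ) + ε)) := by positivity
  calc (N : ℝ) * V * (p : ℝ) ^ (-((r : ℝ) + ε)) ≤ (N' * E) * V * (p : ℝ) ^ (-((r : ℝ) + ε)) := by
        gcongr
        nlinarith
    _ = _ := by ring

end Pool.Agent.V11113.MP
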