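import Pool.Agent.V11113.MP.Curve

set_option autoImplicit false

/-! Fermat quotients: exponential sums, and record gaps. -/

namespace Pool.Agent.V11113.MP

open Finset Filter
open Pool.Agent.W147.PS (ff ff_compare ev_pow)

variable {p : ℕ} [hp : Fact p.Prime]

/-- Fermat quotient of an integer -/
def fq (p n : ℕ) : ℕ := (n ^ (p - 1) - 1) / p

lemma fq_spec (n : ℕ) (hn : ((n : ℕ) : ZMod p) ≠ 0) : p * fq p n + 1 = n ^ (p - 1) := by
  have h1 : (((n ^ (p - 1) : ℕ)) : ZMod p) = ((1 : ℕ) : ZMod p) := by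
    push_cast
    exact ZMod.pow_card_sub_one_eq_one hn
  have hn0 : n ≠ 0 := by
    rintro rfl
    simp at hn
  have h2 : 1 ≤ n ^ (p - 1) := Nat.one_le_pow _ _ (Nat.pos_of_ne_zero hn0)
  have h3 : p ∣ n ^ (p - 1) - 1 :=
    (Nat.modEq_iff_dvd' h2).mp ((ZMod.natCast_eq_natCast_iff _ _ _).mp h1).symm
  unfold fq
  rw [Nat.mul_div_cancel' h3]
  omega

lemma fq_add (u v : ℕ) (hu : ((u : ℕ) : ZMod p) ≠ 0) :
    ((fq p (u + p * v) : ℕ) : ZMod p) = (fq p u : ZMod p) - v * ((u : ℕ) : ZMod p)⁻¹ := by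
  have hp0 : (p : ℤ) ≠ 0 := by exact_mod_cast hp.out.ne_zero
  have hp2 := hp.out.two_le
  have hu' : (((u + p * v : ℕ)) : ZMod p) ≠ 0 := by
    push_cast
    rw [ZMod.natCast_self, zero_mul, add_zero]
    exact hu
  have h1 := fq_spec (p := p) u hu
  have h2 := fq_spec (p := p) (u + p * v) hu'
  obtain ⟨k, hk⟩ := Polynomial.powAddExpansion (u : ℤ) ((p : ℤ) * v) (p - 1)
  have h1z : (p : ℤ) * fq p u + 1 = (u : ℤ) ^ (p - 1) := by exact_mod_cast h1
  have h2z : (p : ℤ) * fq p (u + p * v) + 1 = ((u : ℤ) + p * v) ^ (p - 1) := by exact_mod_cast h2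
  have h3 : (p : ℤ) * (fq p (u + p * v) : ℤ) =
      p * (fq p u + ((p - 1 : ℕ) : ℤ) * (u : ℤ) ^ (p - 1 - 1) * v + k * p * v ^ 2) := by
    have h4 : ((p : ℤ) * fq p (u + p * v) + 1) = (p * fq p u + 1) +
        ((p - 1 : ℕ) : ℤ) * (u : ℤ) ^ (p - 1 - 1) * (p * v) + k * (p * v) ^ 2 := by
      rw [h2z, hk, h1z]
    linear_combination h4
  have h5 := mul_left_cancel₀ hp0 h3
  have h6 := congrArg (fun z : ℤ => (z : ZMod p)) h5
  push_cast at h6
  have h7 : (((p - 1 : ℕ)) : ZMod p) = -1 := by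
    rw [Nat.cast_sub hp.out.one_le, ZMod.natCast_self]
    simp
  have h8 : ((u : ℕ) : ZMod p) ^ (p - 1 - 1) = ((u : ℕ) : ZMod p)⁻¹ := by
    have h9 : ((u : ℕ) : ZMod p) ^ (p - 1 - 1) * ((u : ℕ) : ZMod p) = 1 := by
      rw [← pow_succ]
      have : p - 1 - 1 + 1 = p - 1 := by omega
      rw [this]
      exact ZMod.pow_card_sub_one_eq_one hu
    exact eq_inv_of_mul_eq_one_left h9
  rw [h7, h8, ZMod.natCast_self] at h6
  rw [h6]
  ring

/-- the additive character of the Fermat quotient, as a function modulo `p²` -/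
noncomputable def FF (w : ZMod p) (x : ZMod (p * p)) : ℂ :=
  if ((x.val : ℕ) : ZMod p) = 0 then 0 else (ZMod.stdAddChar (w * (fq p x.val : ZMod p)) : ℂ)

instance nzpp : NeZero (p * p) := ⟨mul_ne_zero hp.out.ne_zero hp.out.ne_zero⟩

lemma FF_nat (w : ZMod p) (n : ℕ) : FF w ((n : ℕ) : ZMod (p * p)) =
    if ((n : ℕ) : ZMod p) = 0 then 0 else (ZMod.stdAddChar (w * (fq p n : ZMod p)) : ℂ) := by
  unfold FF
  have h1 : ((n : ℕ) : ZMod (p * p)).val = n % (p * p) := ZMod.val_natCast _ _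
  have h2 : n = n % (p * p) + p * (p * (n / (p * p))) := by
    rw [← mul_assoc]
    exact (Nat.mod_add_div n (p * p)).symm
  set r := n % (p * p) with hr
  have h3 : ((n : ℕ) : ZMod p) = ((r : ℕ) : ZMod p) := by
    rw [h2]
    push_cast
    rw [ZMod.natCast_self, zero_mul, add_zero]
  rw [h1, ← h3]
  by_cases h : ((n : ℕ) : ZMod p) = 0
  · rw [if_pos h, if_pos h]
  · rw [if_neg h, if_neg h]
    have h4 : ((fq p n : ℕ) : ZMod p) = (fq p r : ZMod p) := by
      have h5 := fq_add (p := p) r (p * (n / (p * p))) (by rw [← h3]; exact h)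
      rw [← h2] at h5
      rw [h5]
      push_cast
      rw [ZMod.natCast_self]
      ring
    rw [h4]

lemma std_pp (a : ℤ) : (ZMod.stdAddChar (((p : ℤ) * a : ℤ) : ZMod (p * p)) : ℂ) =
    (ZMod.stdAddChar ((a : ℤ) : ZMod p) : ℂ) := by
  have hp0 : (p : ℂ) ≠ 0 := by exact_mod_cast hp.out.ne_zero
  rw [ZMod.stdAddChar_coe, ZMod.stdAddChar_coe]
  congr 1
  push_cast
  field_simp

lemma FF_bound (w : ZMod p) (hw : w ≠ 0) (k : ZMod (p * p)) :
    ‖∑ x : ZMod (p * p), (ZMod.stdAddChar (-(x * k)) : ℂ) * FF w x‖ ≤ (p : ℝ) := by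
  classical
  have hp0 : 0 < p := hp.out.pos
  -- parametrisation
  let φ : ZMod p × ZMod p → ZMod (p * p) := fun z => ((z.1.val + p * z.2.val : ℕ) : ZMod (p * p))
  have hlt : ∀ z : ZMod p × ZMod p, z.1.val + p * z.2.val < p * p := by
    intro z
    have h1 := ZMod.val_lt z.1
    have h2 := ZMod.val_lt z.2
    have h3 : z.2.val + 1 ≤ p := h2
    have h4 : p * (z.2.val + 1) ≤ p * p := Nat.mul_le_mul_left _ h3
    rw [mul_add, mul_one] at h4
    omega
  have hinj : Function.Injective φ := by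
    intro z z' h
    have h1 : (φ z).val = (φ z').val := by rw [h]
    have e1 : (φ z).val = z.1.val + p * z.2.val := ZMod.val_natCast_of_lt (hlt z)
    have e2 : (φ z').val = z'.1.val + p * z'.2.val := ZMod.val_natCast_of_lt (hlt z')
    rw [e1, e2] at h1
    have h2 : z.1.val = z'.1.val := by
      have := congrArg (fun t => t % p) h1
      simpa [Nat.add_mul_mod_self_left, Nat.mod_eq_of_lt (ZMod.val_lt _)] using this
    have h3 : z.2.val = z'.2.val := by
      rw [h2] at h1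
      exact Nat.eq_of_mul_eq_mul_left hp0 (Nat.add_left_cancel h1)
    exact Prod.ext (ZMod.val_injective _ h2) (ZMod.val_injective _ h3)
  have hbij : Function.Bijective φ := by
    rw [Fintype.bijective_iff_injective_and_card]
    refine ⟨hinj, ?_⟩
    rw [Fintype.card_prod, ZMod.card, ZMod.card]
  have hsum : ∑ x : ZMod (p * p), (ZMod.stdAddChar (-(x * k)) : ℂ) * FF w x =
      ∑ z : ZMod p × ZMod p, (ZMod.stdAddChar (-(φ z * k)) : ℂ) * FF w (φ z) :=
    (Function.Bijective.sum_comp hbij (fun x => (ZMod.stdAddChar (-(x * k)) : ℂ) * FF w x)).symm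
  rw [hsum, Fintype.sum_prod_type]
  set k' : ZMod p := ((k.val : ℕ) : ZMod p) with hk'
  have hterm : ∀ u v : ZMod p, (ZMod.stdAddChar (-(φ (u, v) * k)) : ℂ) * FF w (φ (u, v)) =
      (if u = 0 then 0 else (ZMod.stdAddChar (-(((u.val : ℕ) : ZMod (p * p)) * k)) : ℂ) *
        (ZMod.stdAddChar (w * (fq p u.val : ZMod p)) : ℂ)) *
        (ZMod.stdAddChar (v * (-(k' + w * u⁻¹))) : ℂ) := by
    intro u v
    have e1 : (ZMod.stdAddChar (-(φ (u, v) * k)) : ℂ) =
        (ZMod.stdAddChar (-(((u.val : ℕ) : ZMod (p * p)) * k)) : ℂ) *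
        (ZMod.stdAddChar (-(v * k')) : ℂ) := by
      have e2 : -(φ (u, v) * k) = -(((u.val : ℕ) : ZMod (p * p)) * k) +
          (((p : ℤ) * (-((v.val : ℤ) * k.val)) : ℤ) : ZMod (p * p)) := by
        simp only [φ]
        push_cast
        rw [ZMod.natCast_zmod_val k]
        ring
      rw [e2, AddChar.map_add_eq_mul, std_pp]
      congr 3
      push_cast
      rw [ZMod.natCast_zmod_val v, hk']
    rw [e1]
    have e3 : FF w (φ (u, v)) = if u = 0 then 0 else
        (ZMod.stdAddChar (w * (fq p u.val : ZMod p)) : ℂ) *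
        (ZMod.stdAddChar (-(w * (v * u⁻¹))) : ℂ) := by
      simp only [φ]
      rw [FF_nat]
      have e4 : (((u.val + p * v.val : ℕ)) : ZMod p) = u := by
        push_cast
        rw [ZMod.natCast_self, zero_mul, add_zero, ZMod.natCast_zmod_val]
      rw [e4]
      by_cases h : u = 0
      · rw [if_pos h, if_pos h]
      · rw [if_neg h, if_neg h]
        have h1 : ((u.val : ℕ) : ZMod p) ≠ 0 := by rw [ZMod.natCast_zmod_val]; exact h
        rw [fq_add u.val v.val h1, ZMod.natCast_zmod_val, ZMod.natCast_zmod_val, mul_sub,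
          sub_eq_add_neg, AddChar.map_add_eq_mul]
    rw [e3]
    by_cases h : u = 0
    · rw [if_pos h, if_pos h]
      ring
    · rw [if_neg h, if_neg h]
      have e5 : v * (-(k' + w * u⁻¹)) = -(v * k') + -(w * (v * u⁻¹)) := by ring
      rw [e5, AddChar.map_add_eq_mul]
      ring
  have hinner : ∀ u : ZMod p, ∑ v : ZMod p,
      (ZMod.stdAddChar (-(φ (u, v) * k)) : ℂ) * FF w (φ (u, v)) =
      (if u = 0 then 0 else (ZMod.stdAddChar (-(((u.val : ℕ) : ZMod (p * p)) * k)) : ℂ) *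
        (ZMod.stdAddChar (w * (fq p u.val : ZMod p)) : ℂ)) *
        (if k' + w * u⁻¹ = 0 then (p : ℂ) else 0) := by
    intro u
    rw [sum_congr rfl (fun v _ => hterm u v), ← mul_sum,
      AddChar.sum_mulShift _ (ZMod.isPrimitive_stdAddChar p), ZMod.card]
    simp only [neg_eq_zero]
    norm_cast
  rw [sum_congr rfl (fun u _ => hinner u)]
  refine (norm_sum_le _ _).trans ?_
  have hle : ∀ u : ZMod p, ‖(if u = 0 then 0 else
      (ZMod.stdAddChar (-(((u.val : ℕ) : ZMod (p * p)) * k)) : ℂ) *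
        (ZMod.stdAddChar (w * (fq p u.val : ZMod p)) : ℂ)) *
        (if k' + w * u⁻¹ = 0 then (p : ℂ) else 0)‖ ≤ if u = -(w * k'⁻¹) then (p : ℝ) else 0 := by
    intro u
    by_cases h : u = 0
    · rw [if_pos h, zero_mul, norm_zero]
      split_ifs <;> positivity
    · rw [if_neg h]
      by_cases h2 : k' + w * u⁻¹ = 0
      · rw [if_pos h2, norm_mul, norm_mul, AddChar.norm_apply, AddChar.norm_apply, one_mul, one_mul]
        have h3 : u = -(w * k'⁻¹) := by
          have hk0 : k' ≠ 0 := by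
            intro hk0
            rw [hk0, zero_add, mul_eq_zero] at h2
            rcases h2 with h2 | h2
            · exact hw h2
            · exact h (inv_eq_zero.mp h2)
          field_simp at h2 ⊢
          linear_combination h2
        rw [if_pos h3]
        simp
      · rw [if_neg h2, mul_zero, norm_zero]
        split_ifs <;> positivity
  refine (sum_le_sum fun u _ => hle u).trans ?_
  rw [sum_ite_eq' univ, if_pos (mem_univ _)]

/-- sums over the arguments in a residue class -/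
lemma fermat_norm (w : ZMod p) (hw : w ≠ 0) (L N q : ℕ) (hq : 1 ≤ q) (hqp : q < p) (ρ : ℤ) :
    ‖∑ n ∈ ((Ioc L (L + N)).filter (fun n : ℕ => ¬ p ∣ n)).filter
      (fun n : ℕ => (q : ℤ) ∣ (n : ℤ) - ρ), (ZMod.stdAddChar (w * (fq p n : ZMod p)) : ℂ)‖ ≤
      (N : ℝ) / p + p * (2 + 2 * Real.log p) := by
  classical
  have hp1 : (1 : ℝ) ≤ p := by exact_mod_cast hp.out.one_le
  have hp0 : (0 : ℝ) < p := by linarith
  have e1 : ∑ n ∈ ((Ioc L (L + N)).filter (fun n : ℕ => ¬ p ∣ n)).filter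
      (fun n : ℕ => (q : ℤ) ∣ (n : ℤ) - ρ), (ZMod.stdAddChar (w * (fq p n : ZMod p)) : ℂ) =
      ∑ n ∈ (Ioc L (L + N)).filter (fun n : ℕ => (q : ℤ) ∣ (n : ℤ) - ρ),
        FF w ((n : ℕ) : ZMod (p * p)) := by
    rw [filter_comm, sum_filter]
    refine sum_congr rfl fun n _ => ?_
    rw [FF_nat]
    have : ((n : ℕ) : ZMod p) = 0 ↔ p ∣ n := ZMod.natCast_eq_zero_iff _ _
    by_cases h : p ∣ n
    · rw [if_neg (not_not.mpr h), if_pos (this.mpr h)]
    · rw [if_pos h, if_neg (fun h2 => h (this.mp h2))]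
  rw [e1]
  obtain ⟨j0, K, hK, hfil⟩ := ap L N q hq ρ
  have hq0 : (0 : ℝ) < q := by exact_mod_cast hq
  have hq1 : (1 : ℝ) ≤ q := by exact_mod_cast hq
  rw [hfil, sum_image (by
    intro x _ x' _ h
    have h1 : q * x = q * x' := Nat.add_left_cancel h
    exact Nat.eq_of_mul_eq_mul_left (by omega) h1)]
  have hcop : Nat.Coprime (p * p) q := by
    have : Nat.Coprime p q := (Nat.Prime.coprime_iff_not_dvd hp.out).mpr (fun h => by
      have := Nat.le_of_dvd (by omega) h
      omega)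
    exact Nat.Coprime.mul_left this this
  have h1 := Pool.Agent.H442R2.KF.Inc.completion (p * p) q hcop (FF w) p hp0.le (FF_bound w hw)
    (j0 : ℤ) K
  have e2 : ∑ k ∈ range K, FF w (((((j0 : ℤ) + q * k : ℤ))) : ZMod (p * p)) =
      ∑ k ∈ range K, FF w (((j0 + q * k : ℕ)) : ZMod (p * p)) := by
    refine sum_congr rfl fun k _ => ?_
    push_cast
    rfl
  rw [e2] at h1
  refine h1.trans ?_
  have hK2 : (K : ℝ) ≤ N + 1 := by
    have h2 := (abs_le.mp hK).2
    have h3 : (N : ℝ) / q ≤ N := div_le_self (Nat.cast_nonneg _) hq1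
    linarith
  have hlog : Real.log ((p * p : ℕ) : ℝ) = 2 * Real.log p := by
    push_cast
    rw [Real.log_mul hp0.ne' hp0.ne']
    ring
  rw [hlog]
  push_cast
  have h4 : (K : ℝ) / (p * p) ≤ N / (p * p) + 1 := by
    calc (K : ℝ) / (p * p) ≤ (N + 1) / (p * p) := by gcongr
      _ = N / (p * p) + 1 / (p * p) := by ring
      _ ≤ N / (p * p) + 1 := by
          have : 1 / ((p : ℝ) * p) ≤ 1 := by
            rw [div_le_one (by positivity)]
            nlinarith
          linarith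
  calc (p : ℝ) * (K / (p * p) + 1 + 2 * Real.log p) ≤
      p * (N / (p * p) + 1 + 1 + 2 * Real.log p) := by gcongr
    _ = N / p + p * (2 + 2 * Real.log p) := by
      field_simp
      ring

end Pool.Agent.V11113.MP
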