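import Pool.Agent.V11113.MP.Fermat

set_option autoImplicit false

namespace Pool.Agent.V11113.MP

open Finset Filter
open Pool.Agent.W147.PS (ff ff_compare ev_pow)

lemma ap_card (L N q : ℕ) (hq : 1 ≤ q) (ρ : ℤ) :
    |(((Ioc L (L + N)).filter (fun j : ℕ => (q : ℤ) ∣ (j : ℤ) - ρ)).card : ℝ) - N / q| ≤ 1 := by
  obtain ⟨j0, K, hK, hfil⟩ := ap L N q hq ρ
  rw [hfil, card_image_of_injective _ (by
    intro x x' h
    have h1 : q * x = q * x' := Nat.add_left_cancel h
    exact Nat.eq_of_mul_eq_mul_left (by omega) h1), card_range]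
  exact hK

lemma mult_card (L N p : ℕ) (hp : 1 ≤ p) :
    (((Ioc L (L + N)).filter (fun j : ℕ => p ∣ j)).card : ℝ) ≤ N / p + 1 := by
  have h1 := ap_card L N p hp 0
  have h2 : (Ioc L (L + N)).filter (fun j : ℕ => (p : ℤ) ∣ (j : ℤ) - 0) =
      (Ioc L (L + N)).filter (fun j : ℕ => p ∣ j) := by
    apply filter_congr
    intro j _
    rw [sub_zero]
    exact Int.natCast_dvd_natCast
  rw [h2] at h1
  linarith [(abs_le.mp h1).2]

open scoped Classical in
/-- Fermat quotients in short intervals -/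
theorem fermat (ε : ℝ) (h0 : 0 < ε) (h1 : ε ≤ 1) : ∃ κ : ℝ, 0 < κ ∧ ∃ P : ℕ, ∀ p : ℕ, P ≤ p →
    p.Prime → ∀ L N M H : ℕ, (p : ℝ) ^ ε ≤ H → H ≤ p → (p : ℝ) ^ (2 + ε) ≤ N * H →
    N * H * (p : ℝ) ^ (-(1 + ε)) ≤ ((Ioc L (L + N)).filter (fun n : ℕ =>
      (∀ q : ℕ, q.Prime → κ * ff p < |(q : ℝ) - n|) ∧
      ∃ m : ℕ, M < m ∧ m ≤ M + H ∧ ((n : ℕ) : ZMod (p ^ 2)) ^ (p - 1) = 1 + p * m ∧
      ∀ q : ℕ, q.Prime → κ * ff p < |(q : ℝ) - m|)).card := by
  obtain ⟨κ, hκ, hm⟩ := manyJ (ε / 2) (by positivity) (by linarith)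
  have hcast : Tendsto (fun m : ℕ => (m : ℝ)) atTop atTop := tendsto_natCast_atTop_atTop
  have hlog : ∀ᶠ x : ℝ in atTop, 8 * (2 + 2 * Real.log x) ≤ x ^ (ε / 2) := by
    have h2 := (isLittleO_log_rpow_atTop (show (0 : ℝ) < ε / 4 by positivity)).def
      (show (0 : ℝ) < 1 by norm_num)
    filter_upwards [h2, eventually_ge_atTop (1 : ℝ), ev_pow (ε / 4) (ε / 2) 32 (by linarith),
      (tendsto_rpow_atTop (show 0 < ε / 4 by positivity)).eventually_ge_atTop 1]
      with x hx hx1 hx2 hx3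
    rw [Real.norm_eq_abs, abs_of_nonneg (Real.log_nonneg hx1), Real.norm_eq_abs,
      abs_of_nonneg (Real.rpow_nonneg (by linarith) _)] at hx
    linarith
  obtain ⟨P, hP⟩ := eventually_atTop.mp (hm.and ((hcast.eventually hlog).and
    ((hcast.eventually (ev_pow (ε / 64) 1 4 (by linarith))).and
    ((hcast.eventually (ev_pow 0 (ε / 2) 2 (by linarith))).and
    ((hcast.eventually (ev_pow (ε / 2) ε 4 (by linarith))).and
    ((hcast.eventually (ev_pow (ε / 2) 1 24 (by linarith)))))))))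
  refine ⟨κ, hκ, max P 24, ?_⟩
  intro p hpP hp L N M H hHbig hHp hNH
  have : Fact p.Prime := ⟨hp⟩
  obtain ⟨c1, c2, c3, c4, c5, c6⟩ := hP p ((le_max_left _ _).trans hpP)
  have hp24 : (24 : ℝ) ≤ p := by exact_mod_cast (le_max_right _ _).trans hpP
  rw [Real.rpow_zero] at c4
  rw [Real.rpow_one] at c3 c6
  have hp1 : (1 : ℝ) ≤ p := by exact_mod_cast hp.one_le
  have hp0 : (0 : ℝ) < p := by linarith
  have hHpr : (H : ℝ) ≤ p := by exact_mod_cast hHp
  have hH0 : (0 : ℝ) ≤ H := Nat.cast_nonneg _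
  have hsplit : (p : ℝ) ^ (2 + ε) = (p : ℝ) ^ (1 + ε) * p := by
    rw [← Real.rpow_add_one hp0.ne']
    congr 1
    ring
  have hsplit1 : (p : ℝ) ^ (1 + ε) = p * (p : ℝ) ^ (ε / 2) * (p : ℝ) ^ (ε / 2) := by
    rw [Real.rpow_add hp0, Real.rpow_one]
    have : (p : ℝ) ^ ε = (p : ℝ) ^ (ε / 2) * (p : ℝ) ^ (ε / 2) := by
      rw [← Real.rpow_add hp0]
      congr 1
      ring
    rw [this]
    ring
  have hNbig : (p : ℝ) ^ (1 + ε) ≤ N := by
    have : (p : ℝ) ^ (1 + ε) * p ≤ N * p := by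
      rw [← hsplit]
      refine hNH.trans ?_
      gcongr
    exact le_of_mul_le_mul_right this hp0
  -- cut off the small arguments
  set E : ℝ := (p : ℝ) ^ (ε / 2) with hE
  have hE2 : 2 ≤ E := by linarith
  set Y : ℝ := (p : ℝ) ^ (ε / 64) with hY
  have hY1 : 1 ≤ Y := Real.one_le_rpow hp1 (by positivity)
  have hNE : (p : ℝ) * E * E ≤ N := by rw [← hsplit1]; exact hNbig
  have hpE : (p : ℝ) * 4 ≤ N := by
    refine le_trans ?_ hNE
    have : (4 : ℝ) ≤ E * E := by nlinarith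
    nlinarith
  set D : ℕ := ⌈Y⌉₊ with hD
  have hDY : Y ≤ D := Nat.le_ceil _
  have hDY2 : (D : ℝ) ≤ Y + 1 := (Nat.ceil_lt_add_one (by linarith)).le
  have hDN : (D : ℝ) ≤ N / 2 := by linarith
  have hDN' : D ≤ N := by
    have : (D : ℝ) ≤ N := by
      have : (0 : ℝ) ≤ N := Nat.cast_nonneg _
      linarith
    exact_mod_cast this
  set N' : ℕ := N - D with hN'
  have hN'r : (N' : ℝ) = N - D := by rw [hN', Nat.cast_sub hDN']
  have hN'h : (N : ℝ) / 2 ≤ N' := by rw [hN'r]; linarith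
  set L' : ℕ := L + D with hL'
  have hLN : L' + N' = L + N := by omega
  have hN0 : (0 : ℝ) ≤ N := Nat.cast_nonneg _
  have hN'0 : (0 : ℝ) ≤ N' := Nat.cast_nonneg _
  set s : Finset ℕ := (Ioc L' (L' + N')).filter (fun n : ℕ => ¬ p ∣ n) with hs
  set T : Finset ℕ := (Ioc L' (L' + N')).filter (fun n : ℕ => p ∣ n) with hT
  have hTc : (T.card : ℝ) ≤ N' / p + 1 := mult_card L' N' p hp.one_le
  have hsT : (s.card : ℝ) = N' - T.card := by
    have h2 : T.card + s.card = (Ioc L' (L' + N')).card := by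
      rw [hs, hT]
      exact card_filter_add_card_filter_not _
    have h3 : (Ioc L' (L' + N')).card = N' := by simp
    rw [h3] at h2
    rw [← h2]
    push_cast
    ring
  have hTs : (T.card : ℝ) ≤ N' / 2 := by
    have h3 : (N' : ℝ) / p ≤ N' / 24 := by gcongr
    have h4 : (24 : ℝ) ≤ N' := by linarith
    linarith
  have hscard : (N' : ℝ) / 2 ≤ s.card := by rw [hsT]; linarith
  have hpe : (0 : ℝ) < E := by positivity
  have hpneg : (p : ℝ) ^ (-(ε / 2)) = E⁻¹ := Real.rpow_neg hp0.le _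
  have h2 := c1 ⟨hp.ne_zero⟩ M H hHp (by
      refine le_trans ?_ hHbig
      exact Real.rpow_le_rpow_of_exponent_le hp1 (by linarith))
    ℕ s (fun j => j) (fun j => (fq p j : ZMod p))
    (fun n => (∀ q : ℕ, q.Prime → κ * ff p < |(q : ℝ) - n|) ∧
      ∃ m : ℕ, M < m ∧ m ≤ M + H ∧ ((n : ℕ) : ZMod (p ^ 2)) ^ (p - 1) = 1 + p * m ∧
      ∀ q : ℕ, q.Prime → κ * ff p < |(q : ℝ) - m|) (fun _ => inferInstance)
    (fun j hj h3 h4 => ⟨h3, by
      obtain ⟨m, g1, g2, g3, g4⟩ := h4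
      refine ⟨m, g1, g2, ?_, g4⟩
      rw [hs, mem_filter] at hj
      have hj0 : ((j : ℕ) : ZMod p) ≠ 0 := by
        intro h5
        exact hj.2 ((ZMod.natCast_eq_zero_iff _ _).mp h5)
      have h5 := fq_spec (p := p) j hj0
      have h6 : ((j : ℕ) : ZMod (p ^ 2)) ^ (p - 1) = ((p * fq p j + 1 : ℕ) : ZMod (p ^ 2)) := by
        rw [h5]
        push_cast
        ring
      have h7 : m ≡ fq p j [MOD p] := (ZMod.natCast_eq_natCast_iff _ _ _).mp g3
      have h8 : p * m ≡ p * fq p j [MOD p * p] := Nat.ModEq.mul_left' p h7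
      have h9 : ((p * m : ℕ) : ZMod (p ^ 2)) = ((p * fq p j : ℕ) : ZMod (p ^ 2)) := by
        rw [sq]
        exact (ZMod.natCast_eq_natCast_iff _ _ _).mpr h8
      rw [h6]
      push_cast at h9 ⊢
      rw [h9]
      ring⟩) (by
    intro j hj
    rw [hs, mem_filter, mem_Ioc] at hj
    have h3 : D ≤ j := by omega
    have h3r : (D : ℝ) ≤ j := by exact_mod_cast h3
    have h4 : ε / 2 / 32 = ε / 64 := by ring
    rw [h4]
    exact hDY.trans h3r) (by
    intro q hq hqY ρ
    have h4 : ε / 2 / 32 = ε / 64 := by ring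
    rw [h4] at hqY
    have hq1 : (1 : ℝ) ≤ q := by exact_mod_cast hq
    have hq0 : (0 : ℝ) < q := by linarith
    constructor
    · have g1 := ap_card L' N' q hq ρ
      set A := (Ioc L' (L' + N')).filter (fun j : ℕ => (q : ℤ) ∣ (j : ℤ) - ρ) with hA
      have g2 : ((A.filter (fun n : ℕ => p ∣ n)).card : ℝ) ≤ T.card := by
        have : (A.filter (fun n : ℕ => p ∣ n)) ⊆ T := by
          rw [hA, hT]
          exact filter_subset_filter _ (filter_subset _ _)
        exact_mod_cast card_le_card this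
      have g3 : ((s.filter (fun j : ℕ => (q : ℤ) ∣ (j : ℤ) - ρ)).card : ℝ) =
          A.card - (A.filter (fun n : ℕ => p ∣ n)).card := by
        have e1 : s.filter (fun j : ℕ => (q : ℤ) ∣ (j : ℤ) - ρ) = A.filter (fun n : ℕ => ¬ p ∣ n) := by
          rw [hs, hA, filter_comm]
        have e2 : (A.filter (fun n : ℕ => p ∣ n)).card + (A.filter (fun n : ℕ => ¬ p ∣ n)).card =
            A.card := card_filter_add_card_filter_not _
        rw [e1, ← e2]
        push_cast
        ring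
      rw [g3, hsT]
      have g4 : (0 : ℝ) ≤ ((A.filter (fun n : ℕ => p ∣ n)).card : ℝ) := Nat.cast_nonneg _
      have g5 : (T.card : ℝ) / q ≤ T.card := div_le_self (Nat.cast_nonneg _) hq1
      have g6 : (0 : ℝ) ≤ (T.card : ℝ) / q := by positivity
      have e3 : (A.card : ℝ) - ((A.filter (fun n : ℕ => p ∣ n)).card : ℝ) - (N' - T.card) / q =
          (A.card - N' / q) - ((A.filter (fun n : ℕ => p ∣ n)).card : ℝ) + T.card / q := by ring
      rw [e3]
      have g7 : |((A.card : ℝ) - N' / q) - ((A.filter (fun n : ℕ => p ∣ n)).card : ℝ) +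
          T.card / q| ≤ 1 + (N' / p + 1) := by
        rw [abs_le] at g1 ⊢
        constructor
        · linarith [g1.1]
        · linarith [g1.2]
      refine g7.trans ?_
      rw [hpneg, ← div_eq_mul_inv, le_div_iff₀ hpe, ← hsT]
      refine le_trans ?_ hscard
      have g8 : (N' : ℝ) / p * E ≤ N' / 24 := by
        rw [div_mul_eq_mul_div, div_le_div_iff₀ hp0 (by norm_num)]
        nlinarith
      have g9 : 24 * E ≤ N' * 2 := by linarith
      nlinarith
    · intro w hw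
      have hqp : q < p := by
        have : (q : ℝ) < p := by linarith
        exact_mod_cast this
      refine (fermat_norm w hw L' N' q hq hqp ρ).trans ?_
      rw [hpneg, ← div_eq_mul_inv, le_div_iff₀ hpe, le_div_iff₀ hp0]
      have e1 : ((N' : ℝ) / p + p * (2 + 2 * Real.log p)) * E * p =
          N' * E + p * p * E * (2 + 2 * Real.log p) := by
        field_simp
      rw [e1]
      have e2 : (N' : ℝ) * E ≤ N' * H / 4 := by
        have : E * 4 ≤ H := by linarith
        nlinarith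
      have e3 : (p : ℝ) * p * E * (2 + 2 * Real.log p) ≤ N' * H / 4 := by
        have h7 : (p : ℝ) * p * E * (8 * (2 + 2 * Real.log p)) ≤ N * H := by
          refine le_trans ?_ hNH
          rw [hsplit, hsplit1]
          calc (p : ℝ) * p * E * (8 * (2 + 2 * Real.log p)) ≤ (p : ℝ) * p * E * E := by gcongr
            _ = _ := by ring
        have h8 : (N : ℝ) / 2 * H ≤ N' * H := by gcongr
        linarith
      have e4 : (N' : ℝ) / 2 * H ≤ s.card * H := by gcongr
      linarith)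
  have h3 : (s.filter (fun n : ℕ =>
      (∀ q : ℕ, q.Prime → κ * ff p < |(q : ℝ) - n|) ∧
      ∃ m : ℕ, M < m ∧ m ≤ M + H ∧ ((n : ℕ) : ZMod (p ^ 2)) ^ (p - 1) = 1 + p * m ∧
      ∀ q : ℕ, q.Prime → κ * ff p < |(q : ℝ) - m|)).card ≤
      ((Ioc L (L + N)).filter (fun n : ℕ =>
      (∀ q : ℕ, q.Prime → κ * ff p < |(q : ℝ) - n|) ∧
      ∃ m : ℕ, M < m ∧ m ≤ M + H ∧ ((n : ℕ) : ZMod (p ^ 2)) ^ (p - 1) = 1 + p * m ∧
      ∀ q : ℕ, q.Prime → κ * ff p < |(q : ℝ) - m|)).card := by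
    apply card_le_card
    apply filter_subset_filter
    rw [hs, hLN]
    refine (filter_subset _ _).trans ?_
    exact Ioc_subset_Ioc_left (by omega)
  have h4 : (N : ℝ) * H * (p : ℝ) ^ (-(1 + ε)) ≤ s.card * H / p * (p : ℝ) ^ (-(ε / 2)) := by
    have e7 : (p : ℝ) ^ (-(1 + ε)) = (p * E * E)⁻¹ := by
      rw [Real.rpow_neg hp0.le, hsplit1]
    have e8 : (N : ℝ) / 4 ≤ s.card := by linarith
    rw [e7, hpneg, ← div_eq_mul_inv, ← div_eq_mul_inv, div_div, div_le_div_iff₀ (by positivity)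
      (by positivity)]
    have e9 : (N : ℝ) ≤ s.card * E := by
      have e10 : 4 ≤ E := by linarith [Real.log_nonneg hp1]
      calc (N : ℝ) = N / 4 * 4 := by ring
        _ ≤ s.card * E := by gcongr
    calc (N : ℝ) * H * (p * E) ≤ (s.card * E) * H * (p * E) := by gcongr
      _ = _ := by ring
  exact h4.trans (h2.trans (Nat.cast_le.mpr h3))

end Pool.Agent.V11113.MP
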