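import Pool.Agent.V11113.MP.Crit
import Pool.Agent.Y961.JR.Crit

set_option autoImplicit false

/-! Record prime-free neighbourhoods of both coordinates of the members of a family of pairs
(an integer, a residue modulo `m`). -/

namespace Pool.Agent.V11113.MP

open Finset Filter
open Pool.Agent.H469R2.NK (e norm_e e_add)
open Pool.Agent.W147.PS (ff ff_compare ev_pow)
open Pool.Agent.TH915.PW (class_le)
open Pool.Agent.Y961.JR (critJ)

lemma ev_small : ∀ᶠ X : ℝ in atTop, (Real.log X) ^ 2 ≤ X / 2 ∧ X ^ (1 / 10 : ℝ) < X / 2 := by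
  have e3 : ∀ᶠ X : ℝ in atTop, (Real.log X) ^ 2 ≤ X / 2 := Pool.Agent.H256R2.SC.ev_log_sq
  have := (tendsto_rpow_atTop (show (0 : ℝ) < 9 / 10 by norm_num)).eventually_gt_atTop 2
  filter_upwards [e3, this, eventually_ge_atTop (1 : ℝ)] with X h3 hX hX1
  refine ⟨h3, ?_⟩
  have h0 : 0 < X := by linarith
  have h2 : X = X ^ (9 / 10 : ℝ) * X ^ (1 / 10 : ℝ) := by
    rw [← Real.rpow_add h0]; norm_num
  have h3 : 0 < X ^ (1 / 10 : ℝ) := Real.rpow_pos_of_pos h0 _
  have h4 : 2 * X ^ (1 / 10 : ℝ) < X ^ (9 / 10 : ℝ) * X ^ (1 / 10 : ℝ) :=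
    mul_lt_mul_of_pos_right hX h3
  rw [← h2] at h4
  linarith

lemma no_prime (κ X : ℝ) (h1 : κ * Pool.Agent.H256R2.SC.ff X + 1 ≤ (Real.log X) ^ 2)
    (h2 : (Real.log X) ^ 2 ≤ X / 2)
    (h3 : X ^ (1 / 10 : ℝ) < X / 2) (a : ℤ) (ha : X ≤ a)
    (h : ∀ m : ℤ, |(m : ℝ) - a| ≤ κ * Pool.Agent.H256R2.SC.ff X + 1 →
      ∃ p : ℕ, p.Prime ∧ (p : ℝ) ≤ X ^ (1 / 10 : ℝ) ∧ (p : ℤ) ∣ m) (q : ℕ) (hq : q.Prime) :
    κ * Pool.Agent.H256R2.SC.ff X < |(q : ℝ) - a| := by
  by_contra hcon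
  push Not at hcon
  have h5 : |((q : ℤ) : ℝ) - a| ≤ κ * Pool.Agent.H256R2.SC.ff X + 1 := by
    push_cast
    linarith
  obtain ⟨p, hp, hpX, hpd⟩ := h q h5
  have h6 : p = q := (Nat.prime_dvd_prime_iff_eq hp hq).mp (by exact_mod_cast hpd)
  rw [h6] at hpX
  have h8 := abs_le.mp hcon
  linarith [h8.1]

lemma final_est (Z S' S1' S1 S H' m q a Y : ℝ) (hq1 : 1 ≤ q) (hm : 0 < m) (hH' : 0 ≤ H')
    (_ : 0 ≤ a * Y) (h1 : |Z - S1' / q| ≤ a / 32 * Y + S / m * (2 * q))
    (h2 : |S1' - S1 / m * H'| ≤ a / 32 * Y) (h3 : |S1 - S / q| * (H' / m) ≤ a / 32 * Y)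
    (h4 : |S' - S / m * H'| ≤ a / 32 * Y) (h5 : S / m * (2 * q) ≤ a / 8 * Y) :
    |Z - S' / q ^ 2| ≤ a / 4 * Y := by
  have hq0 : 0 < q := by linarith
  have hfin : Z - S' / q ^ 2 = (Z - S1' / q) + (S1' - S1 / m * H') / q +
      (S1 - S / q) * (H' / m / q) - (S' - S / m * H') / q ^ 2 := by
    field_simp
    ring
  have t2 : |(S1' - S1 / m * H') / q| ≤ a / 32 * Y := by
    rw [abs_div, abs_of_pos hq0]
    exact (div_le_self (abs_nonneg _) hq1).trans h2
  have t3 : |(S1 - S / q) * (H' / m / q)| ≤ a / 32 * Y := by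
    rw [abs_mul, abs_of_nonneg (show 0 ≤ H' / m / q by positivity)]
    refine le_trans ?_ h3
    have : H' / m / q ≤ H' / m := div_le_self (by positivity) hq1
    gcongr
  have t4 : |(S' - S / m * H') / q ^ 2| ≤ a / 32 * Y := by
    rw [abs_div, abs_of_pos (by positivity : (0 : ℝ) < q ^ 2)]
    exact (div_le_self (abs_nonneg _) (one_le_pow₀ hq1)).trans h4
  rw [hfin]
  have hab := abs_sub ((Z - S1' / q) + (S1' - S1 / m * H') / q + (S1 - S / q) * (H' / m / q))
    ((S' - S / m * H') / q ^ 2)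
  have hab2 := abs_add_le ((Z - S1' / q) + (S1' - S1 / m * H') / q) ((S1 - S / q) * (H' / m / q))
  have hab3 := abs_add_le (Z - S1' / q) ((S1' - S1 / m * H') / q)
  linarith

/-- both coordinates, one member -/
theorem oneJ (ε : ℝ) (h0 : 0 < ε) (h1 : ε ≤ 1) : ∃ κ : ℝ, 0 < κ ∧ ∀ᶠ m : ℕ in atTop,
    ∀ (_ : NeZero m) (M H : ℕ), H ≤ m → (m : ℝ) ^ ε ≤ H →
    ∀ (ι : Type) (s : Finset ι) (u : ι → ℕ) (v : ι → ZMod m), s.Nonempty →
    (∀ i ∈ s, (m : ℝ) ^ (ε / 16) ≤ u i) →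
    (∀ q : ℕ, 1 ≤ q → (q : ℝ) ≤ (m : ℝ) ^ (ε / 16) → ∀ ρ : ℤ,
      |((s.filter (fun i => (q : ℤ) ∣ (u i : ℤ) - ρ)).card : ℝ) - s.card / q| ≤
        s.card * (m : ℝ) ^ (-ε) ∧
      ∀ w : ZMod m, w ≠ 0 →
        ‖∑ i ∈ s.filter (fun i => (q : ℤ) ∣ (u i : ℤ) - ρ), (ZMod.stdAddChar (w * v i) : ℂ)‖ ≤
          s.card * H / m * (m : ℝ) ^ (-ε)) →
    ∃ i ∈ s, (∀ q : ℕ, q.Prime → κ * ff m < |(q : ℝ) - u i|) ∧
      ∃ n : ℕ, M < n ∧ n ≤ M + H ∧ (n : ZMod m) = v i ∧
      ∀ q : ℕ, q.Prime → κ * ff m < |(q : ℝ) - n| := by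
  classical
  obtain ⟨κ, hκ, X₀, hcr⟩ := critJ 2 (by norm_num)
  refine ⟨κ * (ε / 16 / 32), by positivity, ?_⟩
  have hε4 : 0 < ε / 16 := by positivity
  have hcast : Tendsto (fun m : ℕ => (m : ℝ)) atTop atTop := tendsto_natCast_atTop_atTop
  have hpow : Tendsto (fun m : ℕ => (m : ℝ) ^ (ε / 16)) atTop atTop :=
    (tendsto_rpow_atTop hε4).comp hcast
  have hlogev : ∀ᶠ x : ℝ in atTop, (6 + 4 * Real.log x) * x ^ (-ε) ≤ x ^ (-(ε / 4)) / 32 := by
    have h2 := (isLittleO_log_rpow_atTop (show (0 : ℝ) < ε / 4 by positivity)).def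
      (show (0 : ℝ) < 1 by norm_num)
    filter_upwards [h2, eventually_ge_atTop (1 : ℝ), ev_pow (ε / 4) (3 / 4 * ε) (32 * 10) (by linarith),
      (tendsto_rpow_atTop (show 0 < ε / 4 by positivity)).eventually_ge_atTop 1]
      with x hx hx1 hx2 hx3
    have hx0 : 0 < x := by linarith
    rw [Real.norm_eq_abs, abs_of_nonneg (Real.log_nonneg hx1), Real.norm_eq_abs,
      abs_of_nonneg (Real.rpow_nonneg hx0.le _)] at hx
    have h3 : 6 + 4 * Real.log x ≤ 10 * x ^ (ε / 4) := by linarith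
    have h4 : x ^ (-(ε / 4)) = x ^ (3 / 4 * ε) * x ^ (-ε) := by
      rw [← Real.rpow_add hx0]
      congr 1
      ring
    rw [h4]
    have h5 : (0 : ℝ) ≤ x ^ (-ε) := Real.rpow_nonneg hx0.le _
    nlinarith
  filter_upwards [hpow.eventually_ge_atTop X₀, hpow.eventually ev_small,
    hcast.eventually (ff_compare (ε / 16) hε4 (by linarith)),
    hcast.eventually hlogev, hcast.eventually (ev_pow (ε / 16) ε 4 (by linarith)),
    hcast.eventually (ev_pow (5 * ε / 16) ε 16 (by linarith)), hpow.eventually_ge_atTop 1,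
    eventually_ge_atTop 1] with m c0 csm c2 c3 c4 c5 c6 c7
  intro hne M H hHm hH ι s u v hs hu hE
  have hm1 : (1 : ℝ) ≤ m := by exact_mod_cast c7
  have hm : (0 : ℝ) < m := by linarith
  set X : ℝ := (m : ℝ) ^ (ε / 16) with hX
  obtain ⟨hfl, hcrX⟩ := hcr X c0
  have hX0 : 0 < X := by linarith
  set K : ℕ := ⌈X⌉₊ with hK
  have hKX : X ≤ K := Nat.le_ceil _
  have hKX2 : (K : ℝ) ≤ X + 1 := (Nat.ceil_lt_add_one hX0.le).le
  have hHr : (K : ℝ) ≤ H / 2 := by linarith
  have hKH : K ≤ H := by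
    have : (K : ℝ) ≤ H := by
      have : (0 : ℝ) ≤ H := Nat.cast_nonneg _
      linarith
    exact_mod_cast this
  set H' : ℕ := H - K with hH'
  have hH'r : (H' : ℝ) = H - K := by
    rw [hH', Nat.cast_sub hKH]
  have hH'm : H' ≤ m := by omega
  have hH'mr : (H' : ℝ) ≤ m := by exact_mod_cast hH'm
  set a : ℝ := s.card * H / m with ha
  have hspos : (0 : ℝ) < s.card := by exact_mod_cast hs.card_pos
  have hHpos : (0 : ℝ) < H := lt_of_lt_of_le (Real.rpow_pos_of_pos hm _) hH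
  have ha0 : 0 < a := by positivity
  set B : ℝ := a * (m : ℝ) ^ (-ε) with hB
  have hB0 : 0 ≤ B := by positivity
  set c : ZMod m := ((M + K + 1 : ℕ) : ZMod m) with hc
  set L : ℝ := Real.log m with hL
  have hL0 : 0 ≤ L := Real.log_nonneg hm1
  set Y : ℝ := (m : ℝ) ^ (-(ε / 4)) with hY
  have hY0 : 0 < Y := by positivity
  have hY1 : Y ≤ 1 := by
    rw [hY]
    calc (m : ℝ) ^ (-(ε / 4)) ≤ (m : ℝ) ^ (0 : ℝ) :=
          Real.rpow_le_rpow_of_exponent_le hm1 (by linarith)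
      _ = 1 := Real.rpow_zero _
  have hBB : B * (6 + 4 * L) ≤ a / 32 * Y := by
    calc B * (6 + 4 * L) = a * ((6 + 4 * L) * (m : ℝ) ^ (-ε)) := by rw [hB]; ring
      _ ≤ a * (Y / 32) := mul_le_mul_of_nonneg_left c3 ha0.le
      _ = _ := by ring
  have hBL : B / m * (2 * (H' + 2 * m * (1 + L))) ≤ a / 32 * Y := by
    have h2 : B / m * (2 * (H' + 2 * m * (1 + L))) ≤ B / m * (2 * (m + 2 * m * (1 + L))) := by
      gcongr
    refine h2.trans (le_trans (le_of_eq ?_) hBB)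
    field_simp
    ring
  have hBY : B ≤ a / 32 * Y := by
    refine le_trans ?_ hBB
    nlinarith
  -- the number of members of a subfamily in the interval
  have hcount : ∀ s1 : Finset ι, (∀ w : ZMod m, w ≠ 0 →
      ‖∑ i ∈ s1, (ZMod.stdAddChar (w * v i) : ℂ)‖ ≤ B) →
      |((s1.filter (fun i => (v i - c).val < H')).card : ℝ) - s1.card / m * H'| ≤ a / 32 * Y := by
    intro s1 hs1
    have h2 := local_sum m s1 v B hB0 hs1 c 0 H' hH'm
    simp only [mul_zero] at h2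
    have e0 : e 0 = 1 := by simpa using Pool.Agent.TH915.PW.e_int 0
    rw [e0] at h2
    simp only [sum_const, nsmul_eq_mul, mul_one, card_range] at h2
    have h3 : (((s1.filter (fun i => (v i - c).val < H')).card : ℂ) - (s1.card / m : ℂ) * H') =
        ((((s1.filter (fun i => (v i - c).val < H')).card : ℝ) - s1.card / m * H' : ℝ) : ℂ) := by
      push_cast
      ring
    rw [h3, Complex.norm_real, Real.norm_eq_abs] at h2
    exact h2.trans hBL
  have hall : s.filter (fun i => (((1 : ℕ) : ℤ)) ∣ (u i : ℤ) - 0) = s := by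
    apply filter_true_of_mem
    intro i _
    simp
  have hEs : ∀ w : ZMod m, w ≠ 0 → ‖∑ i ∈ s, (ZMod.stdAddChar (w * v i) : ℂ)‖ ≤ B := by
    have := (hE 1 le_rfl (by push_cast; exact c6) 0).2
    rw [hall] at this
    exact this
  set s' := s.filter (fun i => (v i - c).val < H') with hs'
  have hcs := hcount s hEs
  rw [← hs'] at hcs
  have hcard : a / 4 ≤ s'.card := by
    have h4 := (abs_le.mp hcs).1
    have h5 : a / 2 ≤ s.card / m * H' := by
      rw [hH'r, ha]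
      have : (H : ℝ) / 2 ≤ H - K := by linarith
      calc (s.card : ℝ) * H / m / 2 = s.card / m * (H / 2) := by ring
        _ ≤ s.card / m * (H - K) := by gcongr
    have h6 : a / 32 * Y ≤ a / 32 := by
      calc a / 32 * Y ≤ a / 32 * 1 := by gcongr
        _ = _ := by ring
    linarith
  have hs'pos : (0 : ℝ) < s'.card := by linarith
  have hs'ne : s'.Nonempty := by
    rw [← card_pos]
    exact_mod_cast hs'pos
  obtain ⟨i, hi, hi2⟩ := hcrX ι s' (fun i => ![(u i : ℤ), ((M + K + 1 + (v i - c).val : ℕ) : ℤ)])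
    hs'ne (by
    intro q hq hqX ρ
    have hq0 : (0 : ℝ) < q := by exact_mod_cast hq
    have hq1 : (1 : ℝ) ≤ q := by exact_mod_cast hq
    have hqX' : (q : ℝ) ≤ X := by
      refine hqX.trans ?_
      calc X ^ (2 / 5 : ℝ) ≤ X ^ (1 : ℝ) := Real.rpow_le_rpow_of_exponent_le c6 (by norm_num)
        _ = X := Real.rpow_one X
    obtain ⟨g1, g2⟩ := hE q hq hqX' (ρ 0)
    set s1 := s.filter (fun i => (q : ℤ) ∣ (u i : ℤ) - ρ 0) with hs1
    have k1 := hcount s1 g2
    set s1' := s1.filter (fun i => (v i - c).val < H') with hs1'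
    have hfil : s'.filter (fun i => ∀ j, (q : ℤ) ∣
        (![(u i : ℤ), ((M + K + 1 + (v i - c).val : ℕ) : ℤ)] : Fin 2 → ℤ) j - ρ j) =
        s1'.filter (fun i => (q : ℤ) ∣ ((M + K + 1 + (v i - c).val : ℕ) : ℤ) - ρ 1) := by
      rw [hs', hs1', hs1, filter_filter, filter_filter, filter_filter]
      apply filter_congr
      intro i _
      rw [Fin.forall_fin_two]
      simp only [Matrix.cons_val_zero, Matrix.cons_val_one]
      tauto
    rw [hfil]
    have hs1card : (s1.card : ℝ) ≤ s.card := by exact_mod_cast card_filter_le _ _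
    have k2 := class_le s1' (fun i => ((M + K + 1 + (v i - c).val : ℕ) : ℤ)) q hq
      (a / 32 * Y + s.card / m * (2 * q)) (by positivity) (by
      intro h hh1 hh2
      have e1 : ∑ i ∈ s1', e ((h : ℝ) / q * (((M + K + 1 + (v i - c).val : ℕ) : ℤ) : ℝ)) =
          e ((h : ℝ) / q * (M + K + 1)) * ∑ i ∈ s1', e ((v i - c).val * ((h : ℝ) / q)) := by
        rw [mul_sum]
        refine sum_congr rfl fun i _ => ?_
        rw [← e_add]
        congr 1
        push_cast
        ring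
      rw [e1, norm_mul, norm_e, one_mul]
      have h2 := local_sum m s1 v B hB0 g2 c ((h : ℝ) / q) H' hH'm
      have h4 : ‖(s1.card / m : ℂ) * ∑ t ∈ range H', e (t * ((h : ℝ) / q))‖ ≤
          s.card / m * (2 * q) := by
        rw [norm_mul]
        have : ‖(s1.card / m : ℂ)‖ = s1.card / m := by
          rw [norm_div, Complex.norm_natCast, Complex.norm_natCast]
        rw [this]
        calc (s1.card : ℝ) / m * ‖∑ t ∈ range H', e (t * ((h : ℝ) / q))‖ ≤
            s1.card / m * (2 * q) :=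
              mul_le_mul_of_nonneg_left (geom_frac q h hh1 hh2 H') (by positivity)
          _ ≤ _ := by gcongr
      calc _ = ‖(∑ i ∈ s1', e ((v i - c).val * ((h : ℝ) / q)) -
            (s1.card / m : ℂ) * ∑ t ∈ range H', e (t * ((h : ℝ) / q))) +
            (s1.card / m : ℂ) * ∑ t ∈ range H', e (t * ((h : ℝ) / q))‖ := by
              congr 1
              ring
        _ ≤ _ := norm_add_le _ _
        _ ≤ _ := add_le_add (h2.trans hBL) h4) (ρ 1)
    set Z : ℝ := ((s1'.filter (fun i => (q : ℤ) ∣ ((M + K + 1 + (v i - c).val : ℕ) : ℤ) - ρ 1)).card : ℝ)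
      with hZ
    have hsmall : s.card / m * (2 * q) ≤ a / 8 * Y := by
      have h6 : 16 * X ^ 5 ≤ H := by
        have : X ^ 5 = (m : ℝ) ^ (5 * ε / 16) := by
          rw [hX, ← Real.rpow_natCast, ← Real.rpow_mul hm.le]
          congr 1
          push_cast
          ring
        rw [this]
        linarith
      have hYX : Y = (X ^ 4)⁻¹ := by
        rw [hY, hX, ← Real.rpow_natCast, ← Real.rpow_mul hm.le, ← Real.rpow_neg hm.le]
        congr 1
        push_cast
        ring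
      have h7 : a / 8 * Y = s.card / m * (H / (8 * X ^ 4)) := by
        rw [ha, hYX]
        field_simp
      rw [h7]
      apply mul_le_mul_of_nonneg_left _ (by positivity)
      rw [le_div_iff₀ (by positivity)]
      have h9 : (q : ℝ) * X ^ 4 ≤ X * X ^ 4 := by gcongr
      nlinarith
    have t3 : |(s1.card : ℝ) - s.card / q| * (H' / m) ≤ a / 32 * Y := by
      have hh : (H' / m : ℝ) ≤ H / m := by
        have : (H' : ℝ) ≤ H := by
          rw [hH'r]
          have : (0 : ℝ) ≤ K := Nat.cast_nonneg _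
          linarith
        gcongr
      calc |(s1.card : ℝ) - s.card / q| * (H' / m : ℝ) ≤
          (s.card * (m : ℝ) ^ (-ε)) * (H / m) := by gcongr
        _ = B := by rw [hB, ha]; ring
        _ ≤ _ := hBY
    have hXY : X ^ (-(2 * ((2 : ℕ) : ℝ))) = Y := by
      rw [hY, hX, ← Real.rpow_mul hm.le]
      congr 1
      push_cast
      ring
    rw [hXY]
    have hZle : |Z - s'.card / (q : ℝ) ^ 2| ≤ a / 4 * Y :=
      final_est Z s'.card s1'.card s1.card s.card H' m q a Y hq1 hm (Nat.cast_nonneg _)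
        (by positivity) k2 k1 t3 hcs hsmall
    refine hZle.trans ?_
    gcongr)
  have hcmp := (c2.2 X le_rfl (by
    calc X = (m : ℝ) ^ (ε / 16) := hX
      _ ≤ (m : ℝ) ^ (2 : ℝ) := Real.rpow_le_rpow_of_exponent_le hm1 (by linarith)
      _ = (m : ℝ) ^ 2 := by norm_num)).1
  have h3 : κ * (ε / 16 / 32) * ff m ≤ κ * ff X := by
    calc κ * (ε / 16 / 32) * ff m = κ * (ε / 16 / 32 * ff m) := by ring
      _ ≤ _ := mul_le_mul_of_nonneg_left hcmp hκ.le
  rw [hs', mem_filter] at hi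
  have i0 := hi2 0
  have i1 := hi2 1
  simp only [Matrix.cons_val_zero, Matrix.cons_val_one] at i0 i1
  refine ⟨i, hi.1, fun q hq => ?_, M + K + 1 + (v i - c).val, by omega, by omega, ?_,
    fun q hq => ?_⟩
  · have h2 := no_prime κ X hfl csm.1 csm.2 (u i : ℤ) (by push_cast; exact hu i hi.1) i0 q hq
    refine lt_of_le_of_lt h3 ?_
    push_cast at h2
    exact h2
  · push_cast
    rw [ZMod.natCast_zmod_val, hc]
    push_cast
    ring
  · have h2 := no_prime κ X hfl csm.1 csm.2 ((M + K + 1 + (v i - c).val : ℕ) : ℤ) (by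
      push_cast
      have : (0 : ℝ) ≤ ((v i - c).val : ℝ) := Nat.cast_nonneg _
      have : (0 : ℝ) ≤ (M : ℝ) := Nat.cast_nonneg _
      linarith) i1 q hq
    refine lt_of_le_of_lt h3 ?_
    push_cast at h2 ⊢
    exact h2

end Pool.Agent.V11113.MP
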