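import Pool.Agent.V11113.MP.Crit

set_option autoImplicit false

/-! Kernels on arbitrary sets modulo a prime. -/

namespace Pool.Agent.V11113.MP

open Finset Filter
open Pool.Agent.W147.PS (ff ev_pow)

section

variable {p : ℕ} [hp : Fact p.Prime]

lemma kern_norm (K : ZMod p → ZMod p → ZMod p) (C : ℝ) (hC : 0 ≤ C) (w : ZMod p)
    (hK : ∀ b b' : ZMod p, b ≠ b' →
      ‖∑ a : ZMod p, (ZMod.stdAddChar (w * (K a b - K a b')) : ℂ)‖ ≤ C)
    (A B : Finset (ZMod p)) (f g : ZMod p → ZMod p) :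
    ‖∑ x ∈ A ×ˢ B, (ZMod.stdAddChar (w * (K x.1 x.2 + f x.1 + g x.2)) : ℂ)‖ ^ 2 ≤
      A.card * (B.card * p + (B.card : ℝ) ^ 2 * C) := by
  classical
  have h0 : ∑ x ∈ A ×ˢ B, (ZMod.stdAddChar (w * (K x.1 x.2 + f x.1 + g x.2)) : ℂ) =
      ∑ a ∈ A, (ZMod.stdAddChar (w * f a) : ℂ) *
        ∑ b ∈ B, (ZMod.stdAddChar (w * (K a b + g b)) : ℂ) := by
    rw [sum_product]
    refine sum_congr rfl fun a _ => ?_
    rw [mul_sum]
    refine sum_congr rfl fun b _ => ?_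
    rw [← AddChar.map_add_eq_mul]
    congr 1
    ring
  set T : ZMod p → ℂ := fun a => ∑ b ∈ B, (ZMod.stdAddChar (w * (K a b + g b)) : ℂ) with hT
  rw [h0]
  have h2 : ‖∑ a ∈ A, (ZMod.stdAddChar (w * f a) : ℂ) * T a‖ ≤ ∑ a ∈ A, ‖T a‖ := by
    refine (norm_sum_le _ _).trans (le_of_eq ?_)
    refine sum_congr rfl fun a _ => ?_
    rw [norm_mul, AddChar.norm_apply, one_mul]
  have h3 : ∑ a : ZMod p, ‖T a‖ ^ 2 ≤ B.card * p + (B.card : ℝ) ^ 2 * C := by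
    have e1 : ((∑ a : ZMod p, ‖T a‖ ^ 2 : ℝ) : ℂ) = ∑ b ∈ B, ∑ b' ∈ B,
        ((ZMod.stdAddChar (w * g b) : ℂ) * (starRingEnd ℂ) (ZMod.stdAddChar (w * g b') : ℂ)) *
        ∑ a : ZMod p, (ZMod.stdAddChar (w * (K a b - K a b')) : ℂ) := by
      rw [Complex.ofReal_sum]
      have e2 : ∀ a : ZMod p, ((‖T a‖ ^ 2 : ℝ) : ℂ) = ∑ b ∈ B, ∑ b' ∈ B,
          ((ZMod.stdAddChar (w * g b) : ℂ) * (starRingEnd ℂ) (ZMod.stdAddChar (w * g b') : ℂ)) *
          (ZMod.stdAddChar (w * (K a b - K a b')) : ℂ) := by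
        intro a
        rw [Complex.ofReal_pow, ← Complex.mul_conj', hT, map_sum, sum_mul_sum]
        refine sum_congr rfl fun b _ => sum_congr rfl fun b' _ => ?_
        rw [← AddChar.map_neg_eq_conj, ← AddChar.map_neg_eq_conj, ← AddChar.map_add_eq_mul,
          ← AddChar.map_add_eq_mul, ← AddChar.map_add_eq_mul]
        congr 1
        ring
      rw [sum_congr rfl (fun a _ => e2 a), sum_comm]
      refine sum_congr rfl fun b _ => ?_
      rw [sum_comm]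
      refine sum_congr rfl fun b' _ => ?_
      rw [mul_sum]
    have e3 : ∑ a : ZMod p, ‖T a‖ ^ 2 = ‖((∑ a : ZMod p, ‖T a‖ ^ 2 : ℝ) : ℂ)‖ := by
      rw [Complex.norm_real, Real.norm_eq_abs, abs_of_nonneg (by positivity)]
    rw [e3, e1]
    refine (norm_sum_le _ _).trans ?_
    have e4 : ∀ b ∈ B, ‖∑ b' ∈ B,
        ((ZMod.stdAddChar (w * g b) : ℂ) * (starRingEnd ℂ) (ZMod.stdAddChar (w * g b') : ℂ)) *
        ∑ a : ZMod p, (ZMod.stdAddChar (w * (K a b - K a b')) : ℂ)‖ ≤ p + B.card * C := by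
      intro b hb
      refine (norm_sum_le _ _).trans ?_
      have e5 : ∀ b' ∈ B, ‖((ZMod.stdAddChar (w * g b) : ℂ) *
          (starRingEnd ℂ) (ZMod.stdAddChar (w * g b') : ℂ)) *
          ∑ a : ZMod p, (ZMod.stdAddChar (w * (K a b - K a b')) : ℂ)‖ ≤
          (if b' = b then (p : ℝ) else 0) + if b' = b then 0 else C := by
        intro b' _
        rw [norm_mul, norm_mul, RCLike.norm_conj, AddChar.norm_apply, AddChar.norm_apply, one_mul,
          one_mul]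
        by_cases h : b' = b
        · rw [if_pos h, if_pos h, h, add_zero]
          simp
        · rw [if_neg h, if_neg h, zero_add]
          exact hK b b' (fun h5 => h h5.symm)
      refine (sum_le_sum e5).trans ?_
      rw [sum_add_distrib, sum_ite_eq' B, if_pos hb]
      have h5 : ∑ b' ∈ B, (if b' = b then (0 : ℝ) else C) ≤ ∑ b' ∈ B, C := by
        refine sum_le_sum fun b' _ => ?_
        split_ifs
        · exact hC
        · exact le_rfl
      rw [sum_const, nsmul_eq_mul] at h5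
      linarith
    calc _ ≤ ∑ b ∈ B, ((p : ℝ) + B.card * C) := sum_le_sum e4
      _ = _ := by
        rw [sum_const, nsmul_eq_mul]
        ring
  calc ‖∑ a ∈ A, (ZMod.stdAddChar (w * f a) : ℂ) * T a‖ ^ 2 ≤ (∑ a ∈ A, ‖T a‖) ^ 2 :=
        pow_le_pow_left₀ (norm_nonneg _) h2 2
    _ ≤ A.card * ∑ a ∈ A, ‖T a‖ ^ 2 := sq_sum_le_card_mul_sum_sq
    _ ≤ A.card * ∑ a : ZMod p, ‖T a‖ ^ 2 := by
        gcongr
        exact subset_univ _
    _ ≤ _ := by gcongr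

end

open scoped Classical in
/-- the values of a kernel on two arbitrary sets -/
theorem kernel_many (ε : ℝ) (h0 : 0 < ε) (h1 : ε ≤ 1) : ∃ κ : ℝ, 0 < κ ∧ ∃ P : ℕ, ∀ p : ℕ, P ≤ p →
    ∀ _ : Fact p.Prime, ∀ (K : ZMod p → ZMod p → ZMod p) (C : ℝ), 0 ≤ C →
    (∀ w : ZMod p, w ≠ 0 → ∀ b b' : ZMod p, b ≠ b' →
      ‖∑ a : ZMod p, (ZMod.stdAddChar (w * (K a b - K a b')) : ℂ)‖ ≤ C) →
    ∀ (A B : Finset (ZMod p)) (f g : ZMod p → ZMod p) (M H : ℕ),
    (p : ℝ) ^ ε ≤ H → H ≤ p →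
    (p : ℝ) ^ (3 + ε) ≤ A.card * B.card * (H : ℝ) ^ 2 →
    C * (p : ℝ) ^ (2 + ε) ≤ A.card * (H : ℝ) ^ 2 →
    A.card * B.card * H * (p : ℝ) ^ (-(1 + ε / 2)) ≤
      ((A ×ˢ B).filter (fun x => ∃ n : ℕ, M < n ∧ n ≤ M + H ∧
        (n : ZMod p) = K x.1 x.2 + f x.1 + g x.2 ∧
        ∀ q : ℕ, q.Prime → κ * ff p < |(q : ℝ) - n|)).card := by
  obtain ⟨κ, hκ, hm⟩ := many (ε / 4) (by positivity) (by linarith)
  have hcast : Tendsto (fun m : ℕ => (m : ℝ)) atTop atTop := tendsto_natCast_atTop_atTop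
  obtain ⟨P, hP⟩ := eventually_atTop.mp (hm.and (hcast.eventually (ev_pow 0 (ε / 2) 2 (by linarith))))
  refine ⟨κ, hκ, max P 1, ?_⟩
  intro p hpP hfact K C hC hK A B f g M H hH hHp hAB hA
  have hp : p.Prime := hfact.out
  obtain ⟨c1, c2⟩ := hP p ((le_max_left _ _).trans hpP)
  rw [Real.rpow_zero, mul_one] at c2
  have hp1 : (1 : ℝ) ≤ p := by exact_mod_cast hp.one_le
  have hp0 : (0 : ℝ) < p := by linarith
  have hH0 : (0 : ℝ) ≤ H := Nat.cast_nonneg _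
  have h2 := c1 ⟨hp.ne_zero⟩ M H hHp
    ((Real.rpow_le_rpow_of_exponent_le hp1 (by linarith)).trans hH)
    (ZMod p × ZMod p) (A ×ˢ B)
    (fun x => K x.1 x.2 + f x.1 + g x.2)
    (fun x => ∃ n : ℕ, M < n ∧ n ≤ M + H ∧
        (n : ZMod p) = K x.1 x.2 + f x.1 + g x.2 ∧
        ∀ q : ℕ, q.Prime → κ * ff p < |(q : ℝ) - n|) (fun x => Classical.propDecidable _)
    (fun x _ h => h) (by
    intro w hw
    refine le_of_sq_le_sq ?_ (by positivity)
    refine (kern_norm K C hC w (hK w hw) A B f g).trans ?_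
    rw [card_product]
    push_cast
    set E : ℝ := (p : ℝ) ^ (ε / 2) with hE
    have hE0 : 0 < E := by positivity
    have e2 : ((p : ℝ) ^ (-(ε / 4))) ^ 2 = E⁻¹ := by
      rw [← Real.rpow_natCast, ← Real.rpow_mul hp0.le, hE, ← Real.rpow_neg hp0.le]
      congr 1
      push_cast
      ring
    have e3 : (p : ℝ) ^ (3 + ε) = p ^ 3 * (E * E) := by
      have h3 : (p : ℝ) ^ (3 : ℝ) = (p : ℝ) ^ 3 := by exact_mod_cast Real.rpow_natCast (p : ℝ) 3
      rw [← h3, hE, ← Real.rpow_add hp0, ← Real.rpow_add hp0]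
      congr 1
      ring
    have e4 : (p : ℝ) ^ (2 + ε) = p ^ 2 * (E * E) := by
      have h3 : (p : ℝ) ^ (2 : ℝ) = (p : ℝ) ^ 2 := by exact_mod_cast Real.rpow_natCast (p : ℝ) 2
      rw [← h3, hE, ← Real.rpow_add hp0, ← Real.rpow_add hp0]
      congr 1
      ring
    rw [e3] at hAB
    rw [e4] at hA
    have e5 : ((A.card : ℝ) * B.card * H / p * (p : ℝ) ^ (-(ε / 4))) ^ 2 =
        A.card * (A.card * B.card * H ^ 2) * B.card / (p ^ 2 * E) := by
      rw [mul_pow, e2]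
      field_simp
    rw [e5, le_div_iff₀ (by positivity)]
    have hA0 : (0 : ℝ) ≤ A.card := Nat.cast_nonneg _
    have hB0 : (0 : ℝ) ≤ B.card := Nat.cast_nonneg _
    have e6 : (p : ℝ) * (p ^ 2 * E) ≤ A.card * B.card * H ^ 2 / 2 := by
      rw [le_div_iff₀ (by norm_num)]
      refine le_trans ?_ hAB
      calc (p : ℝ) * (p ^ 2 * E) * 2 = p ^ 3 * (E * 2) := by ring
        _ ≤ p ^ 3 * (E * E) := by gcongr
    have e7 : C * (p ^ 2 * E) ≤ A.card * H ^ 2 / 2 := by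
      rw [le_div_iff₀ (by norm_num)]
      refine le_trans ?_ hA
      calc C * ((p : ℝ) ^ 2 * E) * 2 = C * (p ^ 2 * (E * 2)) := by ring
        _ ≤ C * (p ^ 2 * (E * E)) := by gcongr
    calc (A.card : ℝ) * (B.card * p + (B.card : ℝ) ^ 2 * C) * (p ^ 2 * E) =
        A.card * B.card * (p * (p ^ 2 * E)) + A.card * (B.card : ℝ) ^ 2 * (C * (p ^ 2 * E)) := by
          ring
      _ ≤ A.card * B.card * (A.card * B.card * H ^ 2 / 2) +
          A.card * (B.card : ℝ) ^ 2 * (A.card * H ^ 2 / 2) := by gcongr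
      _ = _ := by ring)
  refine le_trans ?_ h2
  rw [card_product]
  push_cast
  have e8 : (p : ℝ) ^ (-(1 + ε / 2)) ≤ (p : ℝ) ^ (-(ε / 4)) / p := by
    have : (p : ℝ) ^ (-(ε / 4)) / p = (p : ℝ) ^ (-(1 + ε / 4)) := by
      rw [show (-(1 + ε / 4) : ℝ) = -(ε / 4) + -1 by ring, Real.rpow_add hp0, Real.rpow_neg_one]
      rfl
    rw [this]
    exact Real.rpow_le_rpow_of_exponent_le hp1 (by linarith)
  calc (A.card : ℝ) * B.card * H * (p : ℝ) ^ (-(1 + ε / 2)) ≤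
      A.card * B.card * H * ((p : ℝ) ^ (-(ε / 4)) / p) := by gcongr
    _ = _ := by ring

end Pool.Agent.V11113.MP
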