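import Pool.Agent.V11113.MP.Kern
import Pool.Agent.V1179.MH.WeylP
import Pool.Agent.H498R2.KlWeil

set_option autoImplicit false

/-! Reciprocals of sums and polynomials of sums on arbitrary sets modulo a prime. -/

namespace Pool.Agent.V11113.MP

open Finset Filter
open Pool.Agent.W147.PS (ff ev_pow)

section

variable {p : ℕ} [hp : Fact p.Prime]

/-- the complete sums for reciprocals -/
lemma recip_sum (hp2 : p ≠ 2) (w : ZMod p) (hw : w ≠ 0) (b b' : ZMod p) (hb : b ≠ b') :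
    ‖∑ a : ZMod p, (ZMod.stdAddChar (w * ((a + b)⁻¹ - (a + b')⁻¹)) : ℂ)‖ ≤ 5 * Real.sqrt p := by
  classical
  set δ : ZMod p := b' - b with hδ
  have hδ0 : δ ≠ 0 := sub_ne_zero.mpr (Ne.symm hb)
  -- shift
  have h1 : ∑ a : ZMod p, (ZMod.stdAddChar (w * ((a + b)⁻¹ - (a + b')⁻¹)) : ℂ) =
      ∑ x : ZMod p, (ZMod.stdAddChar (w * (x⁻¹ - (x + δ)⁻¹)) : ℂ) := by
    rw [← Equiv.sum_comp (Equiv.addRight b)
      (fun x => (ZMod.stdAddChar (w * (x⁻¹ - (x + δ)⁻¹)) : ℂ))]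
    refine sum_congr rfl fun a _ => ?_
    rw [Equiv.coe_addRight]
    congr 3
    rw [hδ]
    ring
  rw [h1]
  -- the map `v ↦ x`, `x⁻¹ = (v - 1) / δ`
  let T : Finset (ZMod p) := univ.filter (fun x => x ≠ 0 ∧ x + δ ≠ 0)
  let V : Finset (ZMod p) := univ.filter (fun v => v ≠ 0 ∧ v ≠ 1)
  have h2 : ∑ x ∈ T, (ZMod.stdAddChar (w * (x⁻¹ - (x + δ)⁻¹)) : ℂ) =
      ∑ v ∈ V, (ZMod.stdAddChar (w / δ * v + w / δ * v⁻¹ - 2 * (w / δ)) : ℂ) := by
    refine sum_nbij' (fun x => 1 + δ * x⁻¹) (fun v => δ * (v - 1)⁻¹) ?_ ?_ ?_ ?_ ?_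
    · intro x hx
      rw [mem_filter] at hx ⊢
      obtain ⟨_, hx0, hx1⟩ := hx
      refine ⟨mem_univ _, ?_, ?_⟩
      · intro h
        apply hx1
        field_simp at h
        linear_combination h
      · intro h
        have : δ * x⁻¹ = 0 := by linear_combination h
        rcases mul_eq_zero.mp this with h | h
        · exact hδ0 h
        · exact hx0 (inv_eq_zero.mp h)
    · intro v hv
      rw [mem_filter] at hv ⊢
      obtain ⟨_, hv0, hv1⟩ := hv
      have hv1' : v - 1 ≠ 0 := sub_ne_zero.mpr hv1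
      refine ⟨mem_univ _, mul_ne_zero hδ0 (inv_ne_zero hv1'), ?_⟩
      intro h
      apply hv0
      have h3 : δ * (v - 1)⁻¹ + δ = δ * (v * (v - 1)⁻¹) := by
        field_simp
        ring
      rw [h3] at h
      rcases mul_eq_zero.mp h with h | h
      · exact absurd h hδ0
      · rcases mul_eq_zero.mp h with h | h
        · exact h
        · exact absurd h (inv_ne_zero hv1')
    · intro x hx
      rw [mem_filter] at hx
      obtain ⟨_, hx0, _⟩ := hx
      rw [add_sub_cancel_left, mul_inv, inv_inv, ← mul_assoc, mul_inv_cancel₀ hδ0, one_mul]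
    · intro v hv
      rw [mem_filter] at hv
      obtain ⟨_, _, hv1⟩ := hv
      rw [mul_inv, inv_inv, ← mul_assoc, mul_inv_cancel₀ hδ0, one_mul]
      ring
    · intro x hx
      rw [mem_filter] at hx
      obtain ⟨_, hx0, hx1⟩ := hx
      congr 1
      have hx2 : 1 + δ * x⁻¹ ≠ 0 := by
        intro h
        apply hx1
        field_simp at h
        linear_combination h
      have hx3 : x + δ = x * (1 + δ * x⁻¹) := by
        field_simp
      rw [hx3, mul_inv]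
      field_simp
      ring
  have h3 : ‖∑ v ∈ V, (ZMod.stdAddChar (w / δ * v + w / δ * v⁻¹ - 2 * (w / δ)) : ℂ)‖ ≤
      2 * Real.sqrt p + 1 := by
    have hwδ : w / δ ≠ 0 := div_ne_zero hw hδ0
    have e1 : ∑ v ∈ V, (ZMod.stdAddChar (w / δ * v + w / δ * v⁻¹ - 2 * (w / δ)) : ℂ) =
        (ZMod.stdAddChar (-(2 * (w / δ))) : ℂ) *
        ((∑ x : ZMod p, if x = 0 then (0 : ℂ) else
          (ZMod.stdAddChar (w / δ * x + w / δ * x⁻¹) : ℂ)) -
          (ZMod.stdAddChar (w / δ * 1 + w / δ * (1 : ZMod p)⁻¹) : ℂ)) := by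
      have e2 : ∑ x : ZMod p, (if x = 0 then (0 : ℂ) else
          (ZMod.stdAddChar (w / δ * x + w / δ * x⁻¹) : ℂ)) =
          ∑ x ∈ univ.filter (fun x : ZMod p => x ≠ 0),
            (ZMod.stdAddChar (w / δ * x + w / δ * x⁻¹) : ℂ) := by
        rw [sum_filter]
        refine sum_congr rfl fun x _ => ?_
        by_cases h : x = 0
        · rw [if_pos h, if_neg (not_not.mpr h)]
        · rw [if_neg h, if_pos h]
      have e3 : univ.filter (fun x : ZMod p => x ≠ 0) = insert 1 V := by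
        ext x
        rw [mem_filter, mem_insert, mem_filter]
        constructor
        · rintro ⟨_, h⟩
          by_cases h1 : x = 1
          · exact Or.inl h1
          · exact Or.inr ⟨mem_univ _, h, h1⟩
        · rintro (h | ⟨_, h, _⟩)
          · exact ⟨mem_univ _, by rw [h]; exact one_ne_zero⟩
          · exact ⟨mem_univ _, h⟩
      have e4 : (1 : ZMod p) ∉ V := by
        intro h
        exact (mem_filter.mp h).2.2 rfl
      rw [e2, e3, sum_insert e4, add_sub_cancel_left, mul_sum]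
      refine sum_congr rfl fun v _ => ?_
      rw [← AddChar.map_add_eq_mul]
      congr 1
      ring
    rw [e1, norm_mul, AddChar.norm_apply, one_mul]
    refine (norm_sub_le _ _).trans ?_
    rw [AddChar.norm_apply]
    have hchar : ringChar (ZMod p) ≠ 2 := by
      rw [ZMod.ringChar_zmod_n]
      exact hp2
    have := Pool.Agent.H498R2.Kl.kloosterman_le hchar (ZMod.isPrimitive_stdAddChar p) hwδ hwδ
    rw [ZMod.card] at this
    linarith
  -- the two exceptional terms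
  have h4 : ∑ x : ZMod p, (ZMod.stdAddChar (w * (x⁻¹ - (x + δ)⁻¹)) : ℂ) =
      ∑ x ∈ T, (ZMod.stdAddChar (w * (x⁻¹ - (x + δ)⁻¹)) : ℂ) +
      ∑ x ∈ univ.filter (fun x => ¬ (x ≠ 0 ∧ x + δ ≠ 0)),
        (ZMod.stdAddChar (w * (x⁻¹ - (x + δ)⁻¹)) : ℂ) :=
    (sum_filter_add_sum_filter_not _ _ _).symm
  have h5 : ‖∑ x ∈ univ.filter (fun x : ZMod p => ¬ (x ≠ 0 ∧ x + δ ≠ 0)),
        (ZMod.stdAddChar (w * (x⁻¹ - (x + δ)⁻¹)) : ℂ)‖ ≤ 2 := by
    refine (norm_sum_le _ _).trans ?_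
    rw [sum_congr rfl (fun x _ => AddChar.norm_apply _ _), sum_const, nsmul_eq_mul, mul_one]
    have h6 : (univ.filter (fun x : ZMod p => ¬ (x ≠ 0 ∧ x + δ ≠ 0))).card ≤ 2 := by
      refine (card_le_card (t := {0, -δ}) ?_).trans card_le_two
      intro x hx
      rw [mem_filter] at hx
      rw [mem_insert, mem_singleton]
      by_contra h
      push Not at h
      exact hx.2 ⟨h.1, fun h7 => h.2 (by linear_combination h7)⟩
    exact_mod_cast h6
  rw [h4, h2]
  have hs1 : 1 ≤ Real.sqrt p := by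
    apply Real.le_sqrt_of_sq_le
    have : (1 : ℝ) ≤ p := by exact_mod_cast hp.out.one_le
    linarith
  calc _ ≤ (2 * Real.sqrt p + 1) + 2 := (norm_add_le _ _).trans (add_le_add h3 h5)
    _ ≤ _ := by linarith

open Polynomial in
/-- the complete sums for polynomials of sums -/
lemma poly_sum (d : ℕ) (F : (ZMod p)[X]) (hF : F.natDegree = d + 2) (hdp : d + 2 < p)
    (w : ZMod p) (hw : w ≠ 0) (b b' : ZMod p) (hb : b ≠ b') :
    ‖∑ a : ZMod p, (ZMod.stdAddChar (w * (F.eval (a + b) - F.eval (a + b'))) : ℂ)‖ ≤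
      2 * (p : ℝ) ^ (1 - 1 / 2 ^ d : ℝ) := by
  classical
  set G : (ZMod p)[X] := C w * (taylor (b - b') F - F) with hG
  have hdeg : G.natDegree = d + 1 := by
    rw [hG, natDegree_C_mul hw]
    exact Pool.Agent.V1179.MH.diff_natDegree (d + 1) (by omega) (by omega) F hF (b - b')
      (sub_ne_zero.mpr hb)
  have h1 : ∑ a : ZMod p, (ZMod.stdAddChar (w * (F.eval (a + b) - F.eval (a + b'))) : ℂ) =
      ∑ x : ZMod p, (ZMod.stdAddChar (G.eval x) : ℂ) := by
    rw [← Equiv.sum_comp (Equiv.addRight b') (fun x => (ZMod.stdAddChar (G.eval x) : ℂ))]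
    refine sum_congr rfl fun a _ => ?_
    rw [Equiv.coe_addRight, hG]
    congr 1
    rw [eval_mul, eval_C, eval_sub, taylor_eval]
    congr 3
    ring
  rw [h1]
  exact Pool.Agent.V1179.MH.weyl d G hdeg (by omega)

end

open scoped Classical in
/-- reciprocals of sums -/
theorem reciprocals (ε : ℝ) (h0 : 0 < ε) (h1 : ε ≤ 1) : ∃ κ : ℝ, 0 < κ ∧ ∃ P : ℕ, ∀ p : ℕ, P ≤ p →
    p.Prime → ∀ (A B : Finset (ZMod p)) (f g : ZMod p → ZMod p) (M H : ℕ),
    (p : ℝ) ^ ε ≤ H → H ≤ p →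
    (p : ℝ) ^ (3 + ε) ≤ A.card * B.card * (H : ℝ) ^ 2 →
    (p : ℝ) ^ (5 / 2 + ε) ≤ A.card * (H : ℝ) ^ 2 →
    A.card * B.card * H * (p : ℝ) ^ (-(1 + ε / 2)) ≤
      ((A ×ˢ B).filter (fun x => ∃ n : ℕ, M < n ∧ n ≤ M + H ∧
        (n : ZMod p) = (x.1 + x.2)⁻¹ + f x.1 + g x.2 ∧
        ∀ q : ℕ, q.Prime → κ * ff p < |(q : ℝ) - n|)).card := by
  obtain ⟨κ, hκ, P, hP⟩ := kernel_many (ε / 2) (by positivity) (by linarith)
  have hcast : Tendsto (fun m : ℕ => (m : ℝ)) atTop atTop := tendsto_natCast_atTop_atTop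
  obtain ⟨P₁, hP₁⟩ := eventually_atTop.mp (hcast.eventually (ev_pow 0 (ε / 2) 5 (by linarith)))
  refine ⟨κ, hκ, max P (max P₁ 3), ?_⟩
  intro p hpP hp A B f g M H hH hHp hAB hA
  have : Fact p.Prime := ⟨hp⟩
  have c2 := hP₁ p ((le_max_left _ _).trans ((le_max_right _ _).trans hpP))
  rw [Real.rpow_zero, mul_one] at c2
  have hp3 : 3 ≤ p := (le_max_right _ _).trans ((le_max_right _ _).trans hpP)
  have hp1 : (1 : ℝ) ≤ p := by exact_mod_cast hp.one_le
  have hp0 : (0 : ℝ) < p := by linarith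
  have h2 := hP p ((le_max_left _ _).trans hpP) ⟨hp⟩ (fun a b => (a + b)⁻¹) (5 * Real.sqrt p)
    (by positivity) (fun w hw b b' hb => recip_sum (by omega) w hw b b' hb) A B f g M H
    ((Real.rpow_le_rpow_of_exponent_le hp1 (by linarith)).trans hH) hHp
    ((Real.rpow_le_rpow_of_exponent_le hp1 (by linarith)).trans hAB) (by
      refine le_trans ?_ hA
      rw [Real.sqrt_eq_rpow]
      have e1 : (p : ℝ) ^ (5 / 2 + ε) =
          (p : ℝ) ^ (ε / 2) * (p : ℝ) ^ (1 / 2 : ℝ) * (p : ℝ) ^ (2 + ε / 2) := by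
        rw [← Real.rpow_add hp0, ← Real.rpow_add hp0]
        congr 1
        ring
      rw [e1]
      gcongr)
  refine le_trans ?_ h2
  gcongr
  linarith

open scoped Classical Polynomial in
/-- polynomials of sums -/
theorem polysums (d : ℕ) (ε : ℝ) (h0 : 0 < ε) (h1 : ε ≤ 1) : ∃ κ : ℝ, 0 < κ ∧ ∃ P : ℕ,
    ∀ p : ℕ, P ≤ p → p.Prime → ∀ F : (ZMod p)[X], F.natDegree = d + 2 →
    ∀ (A B : Finset (ZMod p)) (f g : ZMod p → ZMod p) (M H : ℕ),
    (p : ℝ) ^ ε ≤ H → H ≤ p →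
    (p : ℝ) ^ (3 + ε) ≤ A.card * B.card * (H : ℝ) ^ 2 →
    (p : ℝ) ^ (3 - 1 / 2 ^ d + ε) ≤ A.card * (H : ℝ) ^ 2 →
    A.card * B.card * H * (p : ℝ) ^ (-(1 + ε / 2)) ≤
      ((A ×ˢ B).filter (fun x => ∃ n : ℕ, M < n ∧ n ≤ M + H ∧
        (n : ZMod p) = F.eval (x.1 + x.2) + f x.1 + g x.2 ∧
        ∀ q : ℕ, q.Prime → κ * ff p < |(q : ℝ) - n|)).card := by
  obtain ⟨κ, hκ, P, hP⟩ := kernel_many (ε / 2) (by positivity) (by linarith)
  have hcast : Tendsto (fun m : ℕ => (m : ℝ)) atTop atTop := tendsto_natCast_atTop_atTop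
  obtain ⟨P₁, hP₁⟩ := eventually_atTop.mp (hcast.eventually (ev_pow 0 (ε / 2) 2 (by linarith)))
  refine ⟨κ, hκ, max P (max P₁ (d + 3)), ?_⟩
  intro p hpP hp F hF A B f g M H hH hHp hAB hA
  have : Fact p.Prime := ⟨hp⟩
  have c2 := hP₁ p ((le_max_left _ _).trans ((le_max_right _ _).trans hpP))
  rw [Real.rpow_zero, mul_one] at c2
  have hp3 : d + 3 ≤ p := (le_max_right _ _).trans ((le_max_right _ _).trans hpP)
  have hp1 : (1 : ℝ) ≤ p := by exact_mod_cast hp.one_le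
  have hp0 : (0 : ℝ) < p := by linarith
  have h2 := hP p ((le_max_left _ _).trans hpP) ⟨hp⟩ (fun a b => F.eval (a + b))
    (2 * (p : ℝ) ^ (1 - 1 / 2 ^ d : ℝ))
    (by positivity) (fun w hw b b' hb => poly_sum d F hF (by omega) w hw b b' hb) A B f g M H
    ((Real.rpow_le_rpow_of_exponent_le hp1 (by linarith)).trans hH) hHp
    ((Real.rpow_le_rpow_of_exponent_le hp1 (by linarith)).trans hAB) (by
      refine le_trans ?_ hA
      have e1 : (p : ℝ) ^ (3 - 1 / 2 ^ d + ε) =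
          (p : ℝ) ^ (ε / 2) * (p : ℝ) ^ (1 - 1 / 2 ^ d : ℝ) * (p : ℝ) ^ (2 + ε / 2) := by
        rw [← Real.rpow_add hp0, ← Real.rpow_add hp0]
        congr 1
        ring
      rw [e1]
      gcongr)
  refine le_trans ?_ h2
  gcongr
  linarith

end Pool.Agent.V11113.MP
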