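import Pool.Agent.V1179.MH.Wrap

set_option autoImplicit false

/-! The criterion of helper79 for vectors of residues, with many members. -/

namespace Pool.Agent.V11113.MP

open Finset Filter
open Pool.Agent.W147.PS (ff ff_compare ev_pow)

theorem manyG (r : ℕ) (hr : 1 ≤ r) (ε : ℝ) (h0 : 0 < ε) (h1 : ε ≤ 1) :
    ∃ κ : ℝ, 0 < κ ∧ ∃ P₀ : ℕ, ∀ P : ℕ, P₀ ≤ P → P.Prime → ∀ [NeZero P],
    ∀ (ι : Type) (t : Finset ι) (u : ι → Fin r → ZMod P) (B : ℝ), 0 ≤ B →
    (∀ h : Fin r → ZMod P, h ≠ 0 →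
        ‖∑ i ∈ t, (ZMod.stdAddChar (∑ j, h j * u i j) : ℂ)‖ ≤ B) →
    ∀ a L : Fin r → ℕ, (∀ j, a j + L j ≤ P) →
    (∀ j, (P : ℝ) ^ ε ≤ L j) →
    B * (P : ℝ) ^ ((r : ℝ) + ε) ≤ t.card * ∏ j, (L j : ℝ) →
    ∀ (good : ι → Prop) (_ : DecidablePred good),
    (∀ i ∈ t, (∀ j, a j ≤ (u i j).val ∧ (u i j).val < a j + L j ∧
        ∀ q : ℕ, q.Prime → κ * ff P < |(q : ℝ) - (u i j).val|) → good i) →
    t.card * (∏ j, (L j : ℝ)) * (P : ℝ) ^ (-((r : ℝ) + ε)) ≤ (t.filter good).card := by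
  classical
  obtain ⟨κ, hκ, P₁, hc⟩ := Pool.Agent.V1179.MH.crit_gen' 0 r (by omega) (ε / 2) (by linarith)
    (by linarith)
  have hcast : Tendsto (fun m : ℕ => (m : ℝ)) atTop atTop := tendsto_natCast_atTop_atTop
  obtain ⟨P₂, hP₂⟩ := eventually_atTop.mp ((hcast.eventually (ev_pow (-ε) (-(ε / 2)) 4 (by linarith))).and
    (hcast.eventually (ev_pow (-ε) 0 2 (by linarith))))
  refine ⟨κ, hκ, max P₁ (max P₂ 1), ?_⟩
  intro P hP hPp _ ι t u B hB hE a L haL hL hBt good _ hgood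
  obtain ⟨c2, c3⟩ := hP₂ P ((le_max_left _ _).trans ((le_max_right _ _).trans hP))
  rw [Real.rpow_zero] at c3
  have hP1 : (1 : ℝ) ≤ P := by exact_mod_cast hPp.one_le
  have hP0 : (0 : ℝ) < P := by linarith
  by_contra hcon
  push Not at hcon
  set E := t.filter good with hEd
  set V : ℝ := ∏ j, (L j : ℝ) with hV
  have hVpos : 0 < V := by
    rw [hV]
    refine prod_pos fun j _ => ?_
    exact lt_of_lt_of_le (by positivity) (hL j)
  have hVP : V ≤ (P : ℝ) ^ (r : ℝ) := by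
    rw [hV, Real.rpow_natCast]
    calc ∏ j, (L j : ℝ) ≤ ∏ _j : Fin r, (P : ℝ) := by
          refine prod_le_prod (fun j _ => Nat.cast_nonneg _) fun j _ => ?_
          have := haL j
          have : L j ≤ P := by omega
          exact_mod_cast this
      _ = _ := by rw [prod_const, card_univ, Fintype.card_fin]
  have hsdiff : (t \ E).card + E.card = t.card := card_sdiff_add_card_eq_card (filter_subset _ _)
  have hsr : ((t \ E).card : ℝ) = t.card - E.card := by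
    rw [← hsdiff]
    push_cast
    ring
  have hexp : (P : ℝ) ^ (-((r : ℝ) + ε)) = ((P : ℝ) ^ (r : ℝ))⁻¹ * (P : ℝ) ^ (-ε) := by
    rw [← Real.rpow_neg hP0.le, ← Real.rpow_add hP0]
    congr 1
    ring
  have hPr : 0 < (P : ℝ) ^ (r : ℝ) := by positivity
  have hPe : 0 < (P : ℝ) ^ (-ε) := by positivity
  have hEh : (E.card : ℝ) ≤ t.card / 2 := by
    have h2 : (t.card : ℝ) * V * (P : ℝ) ^ (-((r : ℝ) + ε)) ≤ t.card * (P : ℝ) ^ (-ε) := by
      rw [hexp]
      calc (t.card : ℝ) * V * (((P : ℝ) ^ (r : ℝ))⁻¹ * (P : ℝ) ^ (-ε)) =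
          t.card * (V / (P : ℝ) ^ (r : ℝ)) * (P : ℝ) ^ (-ε) := by ring
        _ ≤ t.card * 1 * (P : ℝ) ^ (-ε) := by
            have : V / (P : ℝ) ^ (r : ℝ) ≤ 1 := by rw [div_le_one hPr]; exact hVP
            gcongr
        _ = _ := by ring
    have h3 : (t.card : ℝ) * (P : ℝ) ^ (-ε) ≤ t.card * (1 / 2) := by
      gcongr
      linarith
    linarith
  have hhalf : (t.card : ℝ) / 2 ≤ (t \ E).card := by rw [hsr]; linarith
  have htpos : (0 : ℝ) < t.card := by
    have h2 : 0 < (t.card : ℝ) * V * (P : ℝ) ^ (-((r : ℝ) + ε)) :=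
      lt_of_le_of_lt (Nat.cast_nonneg _) hcon
    by_contra h
    have h3 : (t.card : ℝ) = 0 := le_antisymm (not_lt.mp h) (Nat.cast_nonneg _)
    rw [h3] at h2
    simp at h2
  have htEpos : 0 < (t \ E).card := by
    have : (0 : ℝ) < (t \ E).card := by linarith
    exact_mod_cast this
  obtain ⟨i, hi, _, hi2⟩ := hc P ((le_max_left _ _).trans hP) hPp ι (t \ E)
    (fun _ j => j.elim0) u (B + E.card) (by positivity) (by
      intro q hq hqP ρ
      have hfil : (t \ E).filter (fun i => ∀ j : Fin 0, (q : ℤ) ∣ (j.elim0 : ℤ) - ρ j) = t \ E := by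
        apply filter_true_of_mem
        intro i _ j
        exact j.elim0
      constructor
      · rw [hfil]
        simp only [pow_zero, div_one, sub_self, abs_zero]
        positivity
      · intro h hh
        rw [hfil]
        have h2 : ∑ i ∈ t \ E, (ZMod.stdAddChar (∑ j, h j * u i j) : ℂ) =
            ∑ i ∈ t, (ZMod.stdAddChar (∑ j, h j * u i j) : ℂ) -
            ∑ i ∈ E, (ZMod.stdAddChar (∑ j, h j * u i j) : ℂ) := by
          rw [← sum_sdiff (filter_subset good t)]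
          ring
        rw [h2]
        have h3 : ‖∑ i ∈ E, (ZMod.stdAddChar (∑ j, h j * u i j) : ℂ)‖ ≤ E.card := by
          refine (norm_sum_le _ _).trans (le_of_eq ?_)
          simp [AddChar.norm_apply]
        exact (norm_sub_le _ _).trans (add_le_add (hE h hh) h3))
    (fun i _ j => j.elim0) a L haL (fun j => le_trans
      (Real.rpow_le_rpow_of_exponent_le hP1 (by linarith)) (hL j)) htEpos (by
      have e1 : (P : ℝ) ^ ((r : ℝ) + ε / 2) = (P : ℝ) ^ ((r : ℝ) + ε) * (P : ℝ) ^ (-(ε / 2)) := by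
        rw [← Real.rpow_add hP0]
        congr 1
        ring
      have e2 : (P : ℝ) ^ ((r : ℝ) + ε) * (P : ℝ) ^ (-((r : ℝ) + ε)) = 1 := by
        rw [← Real.rpow_add hP0, add_neg_cancel, Real.rpow_zero]
      have hPre : 0 < (P : ℝ) ^ ((r : ℝ) + ε) := by positivity
      have e3 : (E.card : ℝ) * (P : ℝ) ^ ((r : ℝ) + ε) ≤ t.card * V := by
        calc (E.card : ℝ) * (P : ℝ) ^ ((r : ℝ) + ε) ≤
            (t.card * V * (P : ℝ) ^ (-((r : ℝ) + ε))) * (P : ℝ) ^ ((r : ℝ) + ε) := by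
              gcongr
          _ = t.card * V * ((P : ℝ) ^ ((r : ℝ) + ε) * (P : ℝ) ^ (-((r : ℝ) + ε))) := by ring
          _ = _ := by rw [e2, mul_one]
      have e4 : (P : ℝ) ^ (-(ε / 2)) ≤ 1 / 4 := by
        have e5 : (P : ℝ) ^ (-ε) = (P : ℝ) ^ (-(ε / 2)) * (P : ℝ) ^ (-(ε / 2)) := by
          rw [← Real.rpow_add hP0]
          congr 1
          ring
        rw [e5] at c2
        have e6 : 0 < (P : ℝ) ^ (-(ε / 2)) := by positivity
        nlinarith
      calc (B + E.card) * (P : ℝ) ^ ((r : ℝ) + ε / 2) =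
          (B * (P : ℝ) ^ ((r : ℝ) + ε) + E.card * (P : ℝ) ^ ((r : ℝ) + ε)) *
            (P : ℝ) ^ (-(ε / 2)) := by rw [e1]; ring
        _ ≤ (t.card * V + t.card * V) * (1 / 4) := by
            gcongr
        _ = t.card / 2 * V := by ring
        _ ≤ (t \ E).card * V := by gcongr)
  rw [Finset.mem_sdiff] at hi
  apply hi.2
  rw [hEd, mem_filter]
  exact ⟨hi.1, hgood i hi.1 hi2⟩

end Pool.Agent.V11113.MP
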