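import Pool.Agent.V11113.MP.Joint

set_option autoImplicit false

namespace Pool.Agent.V11113.MP

open Finset Filter
open Pool.Agent.W147.PS (ff ff_compare ev_pow)

/-- both coordinates, many members -/
theorem manyJ (ε : ℝ) (h0 : 0 < ε) (h1 : ε ≤ 1) : ∃ κ : ℝ, 0 < κ ∧ ∀ᶠ m : ℕ in atTop,
    ∀ (_ : NeZero m) (M H : ℕ), H ≤ m → (m : ℝ) ^ ε ≤ H →
    ∀ (ι : Type) (s : Finset ι) (u : ι → ℕ) (v : ι → ZMod m) (good : ι → Prop)
    (_ : DecidablePred good),
    (∀ i ∈ s, (∀ q : ℕ, q.Prime → κ * ff m < |(q : ℝ) - u i|) →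
      (∃ n : ℕ, M < n ∧ n ≤ M + H ∧ (n : ZMod m) = v i ∧
      ∀ q : ℕ, q.Prime → κ * ff m < |(q : ℝ) - n|) → good i) →
    (∀ i ∈ s, (m : ℝ) ^ (ε / 32) ≤ u i) →
    (∀ q : ℕ, 1 ≤ q → (q : ℝ) ≤ (m : ℝ) ^ (ε / 32) → ∀ ρ : ℤ,
      |((s.filter (fun i => (q : ℤ) ∣ (u i : ℤ) - ρ)).card : ℝ) - s.card / q| ≤
        s.card * (m : ℝ) ^ (-ε) ∧
      ∀ w : ZMod m, w ≠ 0 →
        ‖∑ i ∈ s.filter (fun i => (q : ℤ) ∣ (u i : ℤ) - ρ), (ZMod.stdAddChar (w * v i) : ℂ)‖ ≤
          s.card * H / m * (m : ℝ) ^ (-ε)) →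
    s.card * H / m * (m : ℝ) ^ (-ε) ≤ (s.filter good).card := by
  classical
  obtain ⟨κ, hκ, hcr⟩ := oneJ (ε / 2) (by positivity) (by linarith)
  refine ⟨κ, hκ, ?_⟩
  have hcast : Tendsto (fun m : ℕ => (m : ℝ)) atTop atTop := tendsto_natCast_atTop_atTop
  filter_upwards [hcr, hcast.eventually (ev_pow (-ε) (-(ε / 2)) 6 (by linarith)),
    hcast.eventually (ev_pow (-ε) 0 2 (by linarith)),
    eventually_ge_atTop 1] with m c1 c2 c3 c7
  intro hne M H hHm hH ι s u v good hdec hgood hu hE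
  have hm1 : (1 : ℝ) ≤ m := by exact_mod_cast c7
  have hm : (0 : ℝ) < m := by linarith
  by_contra hcon
  push Not at hcon
  set E := s.filter good with hEd
  set a : ℝ := s.card * H / m with ha
  have hHm' : (H : ℝ) ≤ m := by exact_mod_cast hHm
  have ha0 : 0 ≤ a := by positivity
  have hale : a ≤ s.card := by
    rw [ha, div_le_iff₀ hm]
    gcongr
  have hp0 : (0 : ℝ) ≤ (m : ℝ) ^ (-ε) := by positivity
  have hsdiff : (s \ E).card + E.card = s.card := card_sdiff_add_card_eq_card (filter_subset _ _)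
  have hsr : ((s \ E).card : ℝ) = s.card - E.card := by
    rw [← hsdiff]
    push_cast
    ring
  rw [Real.rpow_zero] at c3
  have hEh : (E.card : ℝ) ≤ s.card / 2 := by
    have : a * (m : ℝ) ^ (-ε) ≤ s.card * (1 / 2) := by
      apply mul_le_mul hale _ hp0 (by positivity)
      linarith
    linarith
  have hhalf : (s.card : ℝ) / 2 ≤ (s \ E).card := by rw [hsr]; linarith
  have hspos : (0 : ℝ) < s.card := by
    have : 0 < a * (m : ℝ) ^ (-ε) := lt_of_le_of_lt (Nat.cast_nonneg _) hcon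
    by_contra h
    have h2 : (s.card : ℝ) = 0 := le_antisymm (not_lt.mp h) (Nat.cast_nonneg _)
    rw [ha, h2] at this
    simp at this
  have hexp : ε / 2 / 16 = ε / 32 := by ring
  obtain ⟨i, hi, hi1, n, hn1, hn2, hn3, hn4⟩ := c1 hne M H hHm (by
    refine le_trans ?_ hH
    exact Real.rpow_le_rpow_of_exponent_le hm1 (by linarith)) ι (s \ E) u v (by
    rw [← card_pos]
    have : (0 : ℝ) < (s \ E).card := by linarith
    exact_mod_cast this) (fun i hi => by
      rw [hexp]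
      exact hu i (Finset.mem_sdiff.mp hi).1) (by
    intro q hq hqm ρ
    rw [hexp] at hqm
    obtain ⟨g1, g2⟩ := hE q hq hqm ρ
    have hq1 : (1 : ℝ) ≤ q := by exact_mod_cast hq
    have hq0 : (0 : ℝ) < q := by linarith
    set A := s.filter (fun i => (q : ℤ) ∣ (u i : ℤ) - ρ) with hA
    have hsub : E.filter (fun i => (q : ℤ) ∣ (u i : ℤ) - ρ) ⊆ A := by
      intro i hi
      rw [mem_filter] at hi ⊢
      exact ⟨(mem_filter.mp hi.1).1, hi.2⟩
    have hsd : (s \ E).filter (fun i => (q : ℤ) ∣ (u i : ℤ) - ρ) =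
        A \ E.filter (fun i => (q : ℤ) ∣ (u i : ℤ) - ρ) := by
      ext i
      simp only [mem_filter, Finset.mem_sdiff, hA]
      tauto
    rw [hsd]
    set E' := E.filter (fun i => (q : ℤ) ∣ (u i : ℤ) - ρ) with hE'
    have hE'c : (E'.card : ℝ) ≤ E.card := by exact_mod_cast card_filter_le _ _
    have hE'r : ((A \ E').card : ℝ) = A.card - E'.card := by
      have : (A \ E').card + E'.card = A.card := card_sdiff_add_card_eq_card hsub
      rw [← this]
      push_cast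
      ring
    refine ⟨?_, ?_⟩
    · rw [hE'r, hsr]
      have e1 : (A.card : ℝ) - E'.card - (s.card - E.card) / q =
          (A.card - s.card / q) + (-(E'.card : ℝ)) + E.card / q := by ring
      rw [e1]
      have t1 := abs_add_le ((A.card - s.card / q) + (-(E'.card : ℝ))) (E.card / q)
      have t2 := abs_add_le ((A.card : ℝ) - s.card / q) (-(E'.card : ℝ))
      rw [abs_neg, abs_of_nonneg (Nat.cast_nonneg E'.card : (0 : ℝ) ≤ E'.card)] at t2
      rw [abs_of_nonneg (by positivity : (0 : ℝ) ≤ (E.card : ℝ) / q)] at t1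
      have t3 : (E.card : ℝ) / q ≤ E.card := div_le_self (Nat.cast_nonneg _) hq1
      have t4 : (E.card : ℝ) ≤ s.card * (m : ℝ) ^ (-ε) := by
        refine hcon.le.trans ?_
        gcongr
      calc _ ≤ 3 * (s.card * (m : ℝ) ^ (-ε)) := by linarith
        _ = s.card / 2 * (6 * (m : ℝ) ^ (-ε)) := by ring
        _ ≤ s.card / 2 * (m : ℝ) ^ (-(ε / 2)) := mul_le_mul_of_nonneg_left c2 (by positivity)
        _ ≤ (s.card - E.card) * (m : ℝ) ^ (-(ε / 2)) := by
            apply mul_le_mul_of_nonneg_right _ (by positivity)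
            rw [← hsr]
            exact hhalf
    · intro w hw
      have h2 : ∑ i ∈ A \ E', (ZMod.stdAddChar (w * v i) : ℂ) =
          ∑ i ∈ A, (ZMod.stdAddChar (w * v i) : ℂ) - ∑ i ∈ E', (ZMod.stdAddChar (w * v i) : ℂ) := by
        rw [← sum_sdiff hsub]
        ring
      rw [h2]
      have h3 : ‖∑ i ∈ E', (ZMod.stdAddChar (w * v i) : ℂ)‖ ≤ E'.card := by
        refine (norm_sum_le _ _).trans (le_of_eq ?_)
        simp [AddChar.norm_apply]
      calc _ ≤ ‖∑ i ∈ A, (ZMod.stdAddChar (w * v i) : ℂ)‖ +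
            ‖∑ i ∈ E', (ZMod.stdAddChar (w * v i) : ℂ)‖ := norm_sub_le _ _
        _ ≤ a * (m : ℝ) ^ (-ε) + a * (m : ℝ) ^ (-ε) :=
            add_le_add (g2 w hw) (h3.trans (hE'c.trans hcon.le))
        _ = a / 2 * (4 * (m : ℝ) ^ (-ε)) := by ring
        _ ≤ a / 2 * (m : ℝ) ^ (-(ε / 2)) := by
            apply mul_le_mul_of_nonneg_left _ (by positivity)
            linarith
        _ ≤ (s \ E).card * H / m * (m : ℝ) ^ (-(ε / 2)) := by
            apply mul_le_mul_of_nonneg_right _ (by positivity)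
            calc a / 2 = s.card / 2 * H / m := by rw [ha]; ring
              _ ≤ _ := by gcongr)
  rw [Finset.mem_sdiff] at hi
  apply hi.2
  rw [hEd, mem_filter]
  exact ⟨hi.1, hgood i hi.1 hi1 ⟨n, hn1, hn2, hn3, hn4⟩⟩

end Pool.Agent.V11113.MP
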