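import Pool.Agent.V1179.MH.Wrap

set_option autoImplicit false

/-! The criterion of helper79 for vectors of integers and residues, with many members. -/

namespace Pool.Agent.V11113.MP

open Finset Filter
open Pool.Agent.W147.PS (ff ff_compare ev_pow)

theorem manyK (k r : ℕ) (hkr : 1 ≤ k + r) (ε : ℝ) (h0 : 0 < ε) (h1 : ε ≤ 1) :
    ∃ κ : ℝ, 0 < κ ∧ ∃ P₀ : ℕ, ∀ P : ℕ, P₀ ≤ P → P.Prime → ∀ [NeZero P],
    ∀ (ι : Type) (t : Finset ι) (w : ι → Fin k → ℤ) (u : ι → Fin r → ZMod P) (B : ℝ), 0 ≤ B →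
    (∀ q : ℕ, 1 ≤ q → (q : ℝ) ≤ (P : ℝ) ^ ε → ∀ ρ : Fin k → ℤ,
      |((t.filter (fun i => ∀ j, (q : ℤ) ∣ w i j - ρ j)).card : ℝ) - t.card / (q : ℝ) ^ k| ≤
        t.card * (P : ℝ) ^ (-ε) ∧
      ∀ h : Fin r → ZMod P, h ≠ 0 →
        ‖∑ i ∈ t.filter (fun i => ∀ j, (q : ℤ) ∣ w i j - ρ j),
          (ZMod.stdAddChar (∑ j, h j * u i j) : ℂ)‖ ≤ B) →
    (∀ i ∈ t, ∀ j, (P : ℝ) ^ (ε / 2) ≤ w i j) →
    ∀ a L : Fin r → ℕ, (∀ j, a j + L j ≤ P) →
    (∀ j, (P : ℝ) ^ ε ≤ L j) →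
    B * (P : ℝ) ^ ((r : ℝ) + ε) ≤ t.card * ∏ j, (L j : ℝ) →
    ∀ (good : ι → Prop) (_ : DecidablePred good),
    (∀ i ∈ t, (∀ j, ∀ q : ℕ, q.Prime → κ * ff P < |(q : ℝ) - w i j|) →
      (∀ j, a j ≤ (u i j).val ∧ (u i j).val < a j + L j ∧
        ∀ q : ℕ, q.Prime → κ * ff P < |(q : ℝ) - (u i j).val|) → good i) →
    t.card * (∏ j, (L j : ℝ)) * (P : ℝ) ^ (-((r : ℝ) + ε)) ≤ (t.filter good).card := by
  classical
  obtain ⟨κ, hκ, P₁, hc⟩ := Pool.Agent.V1179.MH.crit_gen' k r hkr (ε / 2) (by linarith)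
    (by linarith)
  have hcast : Tendsto (fun m : ℕ => (m : ℝ)) atTop atTop := tendsto_natCast_atTop_atTop
  obtain ⟨P₂, hP₂⟩ := eventually_atTop.mp ((hcast.eventually (ev_pow (-ε) (-(ε / 2)) 6 (by linarith))).and
    (hcast.eventually (ev_pow (-ε) 0 2 (by linarith))))
  refine ⟨κ, hκ, max P₁ (max P₂ 1), ?_⟩
  intro P hP hPp _ ι t w u B hB hE hw a L haL hL hBt good _ hgood
  obtain ⟨c2, c3⟩ := hP₂ P ((le_max_left _ _).trans ((le_max_right _ _).trans hP))
  rw [Real.rpow_zero] at c3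
  have hP1 : (1 : ℝ) ≤ P := by exact_mod_cast hPp.one_le
  have hP0 : (0 : ℝ) < P := by linarith
  by_contra hcon
  push Not at hcon
  set E := t.filter good with hEd
  set V : ℝ := ∏ j, (L j : ℝ) with hV
  have hVpos : 0 < V := by
    rw [hV]
    refine prod_pos fun j _ => ?_
    exact lt_of_lt_of_le (by positivity) (hL j)
  have hVP : V ≤ (P : ℝ) ^ (r : ℝ) := by
    rw [hV, Real.rpow_natCast]
    calc ∏ j, (L j : ℝ) ≤ ∏ _j : Fin r, (P : ℝ) := by
          refine prod_le_prod (fun j _ => Nat.cast_nonneg _) fun j _ => ?_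
          have := haL j
          have : L j ≤ P := by omega
          exact_mod_cast this
      _ = _ := by rw [prod_const, card_univ, Fintype.card_fin]
  have hsdiff : (t \ E).card + E.card = t.card := card_sdiff_add_card_eq_card (filter_subset _ _)
  have hsr : ((t \ E).card : ℝ) = t.card - E.card := by
    rw [← hsdiff]
    push_cast
    ring
  have hexp : (P : ℝ) ^ (-((r : ℝ) + ε)) = ((P : ℝ) ^ (r : ℝ))⁻¹ * (P : ℝ) ^ (-ε) := by
    rw [← Real.rpow_neg hP0.le, ← Real.rpow_add hP0]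
    congr 1
    ring
  have hPr : 0 < (P : ℝ) ^ (r : ℝ) := by positivity
  have hPe : 0 < (P : ℝ) ^ (-ε) := by positivity
  have hEe : (E.card : ℝ) ≤ t.card * (P : ℝ) ^ (-ε) := by
    have h2 : (t.card : ℝ) * V * (P : ℝ) ^ (-((r : ℝ) + ε)) ≤ t.card * (P : ℝ) ^ (-ε) := by
      rw [hexp]
      calc (t.card : ℝ) * V * (((P : ℝ) ^ (r : ℝ))⁻¹ * (P : ℝ) ^ (-ε)) =
          t.card * (V / (P : ℝ) ^ (r : ℝ)) * (P : ℝ) ^ (-ε) := by ring
        _ ≤ t.card * 1 * (P : ℝ) ^ (-ε) := by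
            have : V / (P : ℝ) ^ (r : ℝ) ≤ 1 := by rw [div_le_one hPr]; exact hVP
            gcongr
        _ = _ := by ring
    linarith
  have hEh : (E.card : ℝ) ≤ t.card / 2 := by
    have h3 : (t.card : ℝ) * (P : ℝ) ^ (-ε) ≤ t.card * (1 / 2) := by
      gcongr
      linarith
    linarith
  have hhalf : (t.card : ℝ) / 2 ≤ (t \ E).card := by rw [hsr]; linarith
  have htpos : (0 : ℝ) < t.card := by
    have h2 : 0 < (t.card : ℝ) * V * (P : ℝ) ^ (-((r : ℝ) + ε)) :=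
      lt_of_le_of_lt (Nat.cast_nonneg _) hcon
    by_contra h
    have h3 : (t.card : ℝ) = 0 := le_antisymm (not_lt.mp h) (Nat.cast_nonneg _)
    rw [h3] at h2
    simp at h2
  have htEpos : 0 < (t \ E).card := by
    have : (0 : ℝ) < (t \ E).card := by linarith
    exact_mod_cast this
  obtain ⟨i, hi, hi1, hi2⟩ := hc P ((le_max_left _ _).trans hP) hPp ι (t \ E)
    w u (B + E.card) (by positivity) (by
      intro q hq hqP ρ
      obtain ⟨g1, g2⟩ := hE q hq (hqP.trans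
        (Real.rpow_le_rpow_of_exponent_le hP1 (by linarith))) ρ
      have hq1 : (1 : ℝ) ≤ q := by exact_mod_cast hq
      have hqk : (1 : ℝ) ≤ (q : ℝ) ^ k := one_le_pow₀ hq1
      set A := t.filter (fun i => ∀ j, (q : ℤ) ∣ w i j - ρ j) with hA
      have hsub : E.filter (fun i => ∀ j, (q : ℤ) ∣ w i j - ρ j) ⊆ A := by
        intro i hi
        rw [mem_filter] at hi ⊢
        exact ⟨(mem_filter.mp hi.1).1, hi.2⟩
      have hsd : (t \ E).filter (fun i => ∀ j, (q : ℤ) ∣ w i j - ρ j) =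
          A \ E.filter (fun i => ∀ j, (q : ℤ) ∣ w i j - ρ j) := by
        ext i
        simp only [mem_filter, Finset.mem_sdiff, hA]
        tauto
      rw [hsd]
      set E' := E.filter (fun i => ∀ j, (q : ℤ) ∣ w i j - ρ j) with hE'
      have hE'c : (E'.card : ℝ) ≤ E.card := by exact_mod_cast card_filter_le _ _
      have hE'r : ((A \ E').card : ℝ) = A.card - E'.card := by
        have : (A \ E').card + E'.card = A.card := card_sdiff_add_card_eq_card hsub
        rw [← this]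
        push_cast
        ring
      refine ⟨?_, ?_⟩
      · rw [hE'r, hsr]
        have e1 : (A.card : ℝ) - E'.card - (t.card - E.card) / (q : ℝ) ^ k =
            (A.card - t.card / (q : ℝ) ^ k) + (-(E'.card : ℝ)) + E.card / (q : ℝ) ^ k := by ring
        rw [e1]
        have t1 := abs_add_le ((A.card - t.card / (q : ℝ) ^ k) + (-(E'.card : ℝ)))
          (E.card / (q : ℝ) ^ k)
        have t2 := abs_add_le ((A.card : ℝ) - t.card / (q : ℝ) ^ k) (-(E'.card : ℝ))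
        rw [abs_neg, abs_of_nonneg (Nat.cast_nonneg E'.card : (0 : ℝ) ≤ E'.card)] at t2
        rw [abs_of_nonneg (by positivity : (0 : ℝ) ≤ (E.card : ℝ) / (q : ℝ) ^ k)] at t1
        have t3 : (E.card : ℝ) / (q : ℝ) ^ k ≤ E.card := div_le_self (Nat.cast_nonneg _) hqk
        calc _ ≤ 3 * (t.card * (P : ℝ) ^ (-ε)) := by linarith
          _ = t.card / 2 * (6 * (P : ℝ) ^ (-ε)) := by ring
          _ ≤ t.card / 2 * (P : ℝ) ^ (-(ε / 2)) := mul_le_mul_of_nonneg_left c2 (by positivity)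
          _ ≤ (t.card - E.card) * (P : ℝ) ^ (-(ε / 2)) := by
              apply mul_le_mul_of_nonneg_right _ (by positivity)
              rw [← hsr]
              exact hhalf
      · intro h hh
        have h2 : ∑ i ∈ A \ E', (ZMod.stdAddChar (∑ j, h j * u i j) : ℂ) =
            ∑ i ∈ A, (ZMod.stdAddChar (∑ j, h j * u i j) : ℂ) -
            ∑ i ∈ E', (ZMod.stdAddChar (∑ j, h j * u i j) : ℂ) := by
          rw [← sum_sdiff hsub]
          ring
        rw [h2]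
        have h3 : ‖∑ i ∈ E', (ZMod.stdAddChar (∑ j, h j * u i j) : ℂ)‖ ≤ E.card := by
          refine ((norm_sum_le _ _).trans (le_of_eq ?_)).trans hE'c
          simp [AddChar.norm_apply]
        exact (norm_sub_le _ _).trans (add_le_add (g2 h hh) h3))
    (fun i hi j => hw i (Finset.mem_sdiff.mp hi).1 j) a L haL (fun j => le_trans
      (Real.rpow_le_rpow_of_exponent_le hP1 (by linarith)) (hL j)) htEpos (by
      have e1 : (P : ℝ) ^ ((r : ℝ) + ε / 2) = (P : ℝ) ^ ((r : ℝ) + ε) * (P : ℝ) ^ (-(ε / 2)) := by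
        rw [← Real.rpow_add hP0]
        congr 1
        ring
      have e2 : (P : ℝ) ^ ((r : ℝ) + ε) * (P : ℝ) ^ (-((r : ℝ) + ε)) = 1 := by
        rw [← Real.rpow_add hP0, add_neg_cancel, Real.rpow_zero]
      have hPre : 0 < (P : ℝ) ^ ((r : ℝ) + ε) := by positivity
      have e3 : (E.card : ℝ) * (P : ℝ) ^ ((r : ℝ) + ε) ≤ t.card * V := by
        calc (E.card : ℝ) * (P : ℝ) ^ ((r : ℝ) + ε) ≤
            (t.card * V * (P : ℝ) ^ (-((r : ℝ) + ε))) * (P : ℝ) ^ ((r : ℝ) + ε) := by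
              gcongr
          _ = t.card * V * ((P : ℝ) ^ ((r : ℝ) + ε) * (P : ℝ) ^ (-((r : ℝ) + ε))) := by ring
          _ = _ := by rw [e2, mul_one]
      have e4 : (P : ℝ) ^ (-(ε / 2)) ≤ 1 / 4 := by
        have e5 : (P : ℝ) ^ (-ε) = (P : ℝ) ^ (-(ε / 2)) * (P : ℝ) ^ (-(ε / 2)) := by
          rw [← Real.rpow_add hP0]
          congr 1
          ring
        rw [e5] at c2
        have e6 : 0 < (P : ℝ) ^ (-(ε / 2)) := by positivity
        nlinarith
      calc (B + E.card) * (P : ℝ) ^ ((r : ℝ) + ε / 2) =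
          (B * (P : ℝ) ^ ((r : ℝ) + ε) + E.card * (P : ℝ) ^ ((r : ℝ) + ε)) *
            (P : ℝ) ^ (-(ε / 2)) := by rw [e1]; ring
        _ ≤ (t.card * V + t.card * V) * (1 / 4) := by
            gcongr
        _ = t.card / 2 * V := by ring
        _ ≤ (t \ E).card * V := by gcongr)
  rw [Finset.mem_sdiff] at hi
  apply hi.2
  rw [hEd, mem_filter]
  exact ⟨hi.1, hgood i hi.1 hi1 hi2⟩

end Pool.Agent.V11113.MP
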