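import Pool.Agent.V11113.MP.ManyG
import Pool.Agent.V11113.MP.Bil

set_option autoImplicit false

/-! Products of matrices of arbitrary sets modulo a prime. -/

namespace Pool.Agent.V11113.MP

open Finset Filter
open Pool.Agent.W147.PS (ff ff_compare ev_pow)

section
variable {p : ℕ} [hp : Fact p.Prime]

lemma char_sum_fin {ι : Type*} [Fintype ι] [DecidableEq ι] (c : ι → ZMod p) :
    ∑ a : ι → ZMod p, (ZMod.stdAddChar (∑ i, a i * c i) : ℂ) =
      if c = 0 then ((p : ℂ) ^ Fintype.card ι) else 0 := by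
  classical
  have h1 : ∀ a : ι → ZMod p, (ZMod.stdAddChar (∑ i, a i * c i) : ℂ) =
      ∏ j, (ZMod.stdAddChar (a j * c j) : ℂ) := by
    intro a
    rw [char_sum_prod]
  rw [sum_congr rfl (fun a _ => h1 a), ← Fintype.piFinset_univ,
    ← Finset.prod_univ_sum (fun _ => (univ : Finset (ZMod p)))
      (fun j x => (ZMod.stdAddChar (x * c j) : ℂ))]
  have h2 : ∀ j, ∑ x : ZMod p, (ZMod.stdAddChar (x * c j) : ℂ) = if c j = 0 then (p : ℂ) else 0 := by
    intro j
    rw [AddChar.sum_mulShift _ (ZMod.isPrimitive_stdAddChar p), ZMod.card]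
    split_ifs <;> simp
  rw [prod_congr rfl (fun j _ => h2 j)]
  split_ifs with h
  · have : ∀ j, (if c j = 0 then (p : ℂ) else 0) = p := by
      intro j
      rw [h]
      simp
    rw [prod_congr rfl (fun j _ => this j)]
    simp
  · obtain ⟨j, hj⟩ := Function.ne_iff.mp h
    exact prod_eq_zero (mem_univ j) (if_neg hj)

lemma second_moment_fib {ι β : Type*} [Fintype ι] [DecidableEq ι] [DecidableEq β] (B : Finset β)
    (k : β → ℂ) (hk : ∀ b, ‖k b‖ = 1) (R : β → ι → ZMod p) (F : ℕ)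
    (hF : ∀ b ∈ B, (B.filter (fun b' => R b = R b')).card ≤ F) :
    ∑ a : ι → ZMod p, ‖∑ b ∈ B, k b * (ZMod.stdAddChar (∑ i, a i * R b i) : ℂ)‖ ^ 2 ≤
      (p : ℝ) ^ Fintype.card ι * (F * B.card) := by
  classical
  have h1 : ∀ a : ι → ZMod p,
      ((‖∑ b ∈ B, k b * (ZMod.stdAddChar (∑ i, a i * R b i) : ℂ)‖ ^ 2 : ℝ) : ℂ) =
      ∑ b ∈ B, ∑ b' ∈ B, (k b * (starRingEnd ℂ) (k b')) *
        (ZMod.stdAddChar (∑ i, a i * (R b i - R b' i)) : ℂ) := by
    intro a
    rw [Complex.ofReal_pow, ← Complex.mul_conj', map_sum, sum_mul_sum]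
    refine sum_congr rfl fun b _ => sum_congr rfl fun b' _ => ?_
    have e1 : ∑ i, a i * (R b i - R b' i) = ∑ i, a i * R b i + -∑ i, a i * R b' i := by
      rw [← sub_eq_add_neg, ← sum_sub_distrib]
      exact sum_congr rfl fun i _ => by ring
    rw [map_mul, ← AddChar.map_neg_eq_conj, e1, AddChar.map_add_eq_mul]
    ring
  set Z : ℂ := ∑ b ∈ B, ∑ b' ∈ B.filter (fun b' => R b = R b'),
    (k b * (starRingEnd ℂ) (k b')) * (p : ℂ) ^ Fintype.card ι with hZ
  have h2 : ((∑ a : ι → ZMod p, ‖∑ b ∈ B, k b * (ZMod.stdAddChar (∑ i, a i * R b i) : ℂ)‖ ^ 2 : ℝ) : ℂ) =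
      Z := by
    rw [Complex.ofReal_sum, sum_congr rfl (fun a _ => h1 a), sum_comm, hZ]
    refine sum_congr rfl fun b hb => ?_
    rw [sum_comm, sum_filter]
    refine sum_congr rfl fun b' _ => ?_
    rw [← mul_sum]
    have h5 := char_sum_fin (p := p) (fun i => R b i - R b' i)
    rw [h5]
    by_cases h : R b = R b'
    · rw [if_pos h, if_pos (by funext i; rw [h]; simp)]
    · rw [if_neg h, if_neg (fun h6 => h (by
        funext i
        have := congrFun h6 i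
        simpa [sub_eq_zero] using this)), mul_zero]
  have h3 : ‖Z‖ ≤ (p : ℝ) ^ Fintype.card ι * (F * B.card) := by
    rw [hZ]
    refine (norm_sum_le _ _).trans ?_
    have h4 : ∀ b ∈ B, ‖∑ b' ∈ B.filter (fun b' => R b = R b'),
        (k b * (starRingEnd ℂ) (k b')) * (p : ℂ) ^ Fintype.card ι‖ ≤
        F * (p : ℝ) ^ Fintype.card ι := by
      intro b hb
      refine (norm_sum_le _ _).trans ?_
      have h5 : ∀ b' ∈ B.filter (fun b' => R b = R b'),
          ‖(k b * (starRingEnd ℂ) (k b')) * (p : ℂ) ^ Fintype.card ι‖ =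
          (p : ℝ) ^ Fintype.card ι := by
        intro b' _
        rw [norm_mul, norm_mul, hk, RCLike.norm_conj, hk, one_mul, one_mul, norm_pow,
          Complex.norm_natCast]
      rw [sum_congr rfl h5, sum_const, nsmul_eq_mul]
      have : ((B.filter (fun b' => R b = R b')).card : ℝ) ≤ F := by exact_mod_cast hF b hb
      gcongr
    refine (sum_le_sum h4).trans (le_of_eq ?_)
    rw [sum_const, nsmul_eq_mul]
    ring
  have h6 : ‖((∑ a : ι → ZMod p, ‖∑ b ∈ B, k b *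
      (ZMod.stdAddChar (∑ i, a i * R b i) : ℂ)‖ ^ 2 : ℝ) : ℂ)‖ =
      ∑ a : ι → ZMod p, ‖∑ b ∈ B, k b * (ZMod.stdAddChar (∑ i, a i * R b i) : ℂ)‖ ^ 2 := by
    rw [Complex.norm_real, Real.norm_of_nonneg (sum_nonneg fun _ _ => by positivity)]
  rw [← h6, h2]
  exact h3

/-- fibres of `N ↦ h Nᵀ` -/
lemma fibre_card {r d s : ℕ} (h : Fin r → Fin s → ZMod p) (i₀ : Fin r) (j₀ : Fin s)
    (h0 : h i₀ j₀ ≠ 0) (S : Finset (Matrix (Fin d) (Fin s) (ZMod p)))
    (N : Matrix (Fin d) (Fin s) (ZMod p)) :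
    (S.filter (fun N' => (fun x : Fin r × Fin d => ∑ j, h x.1 j * N x.2 j) =
      (fun x : Fin r × Fin d => ∑ j, h x.1 j * N' x.2 j))).card ≤ p ^ (d * (s - 1)) := by
  classical
  set T := S.filter (fun N' => (fun x : Fin r × Fin d => ∑ j, h x.1 j * N x.2 j) =
      (fun x : Fin r × Fin d => ∑ j, h x.1 j * N' x.2 j)) with hT
  have hcard : Fintype.card (Fin d → {j : Fin s // j ≠ j₀} → ZMod p) = p ^ (d * (s - 1)) := by
    rw [Fintype.card_fun, Fintype.card_fun, ZMod.card, Fintype.card_fin]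
    have : Fintype.card {j : Fin s // j ≠ j₀} = s - 1 := by
      rw [Fintype.card_subtype_compl, Fintype.card_fin]
      simp
    rw [this, ← pow_mul, mul_comm]
  rw [← hcard, ← card_univ]
  refine card_le_card_of_injOn (fun N' => fun (k : Fin d) (j : {j : Fin s // j ≠ j₀}) => N' k j.1)
    (fun _ _ => mem_coe.mpr (mem_univ _)) ?_
  intro N₁ hN₁ N₂ hN₂ heq
  have e1 := (mem_filter.mp (mem_coe.mp hN₁)).2
  have e2 := (mem_filter.mp (mem_coe.mp hN₂)).2
  have e3 : ∀ k : Fin d, ∑ j, h i₀ j * N₁ k j = ∑ j, h i₀ j * N₂ k j := by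
    intro k
    have a1 := congrFun e1 (i₀, k)
    have a2 := congrFun e2 (i₀, k)
    simp only at a1 a2
    rw [← a1, ← a2]
  have e4 : ∀ k : Fin d, ∀ j, j ≠ j₀ → N₁ k j = N₂ k j := by
    intro k j hj
    exact congrFun (congrFun heq k) ⟨j, hj⟩
  ext k j
  by_cases hj : j = j₀
  · subst hj
    have e5 := e3 k
    rw [← add_sum_erase univ _ (mem_univ j), ← add_sum_erase univ _ (mem_univ j)] at e5
    have e6 : ∑ x ∈ univ.erase j, h i₀ x * N₁ k x = ∑ x ∈ univ.erase j, h i₀ x * N₂ k x := by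
      refine sum_congr rfl fun x hx => ?_
      rw [e4 k x (mem_erase.mp hx).1]
    rw [e6] at e5
    exact mul_left_cancel₀ h0 (add_right_cancel e5)
  · exact e4 k j hj

/-- the character sums over the products of matrices -/
lemma mat_norm {r d s : ℕ} (S : Finset (Matrix (Fin r) (Fin d) (ZMod p)))
    (T : Finset (Matrix (Fin d) (Fin s) (ZMod p)))
    (f : Matrix (Fin r) (Fin d) (ZMod p) → Fin r → Fin s → ZMod p)
    (g : Matrix (Fin d) (Fin s) (ZMod p) → Fin r → Fin s → ZMod p)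
    (h : Fin r → Fin s → ZMod p) (i₀ : Fin r) (j₀ : Fin s) (h0 : h i₀ j₀ ≠ 0) :
    ‖∑ x ∈ S ×ˢ T, (ZMod.stdAddChar (∑ i, ∑ j, h i j * ((x.1 * x.2) i j + f x.1 i j + g x.2 i j)) : ℂ)‖ ≤
      Real.sqrt ((p : ℝ) ^ (d * (r + s - 1)) * (S.card * T.card)) := by
  classical
  set R : Matrix (Fin d) (Fin s) (ZMod p) → (Fin r × Fin d) → ZMod p :=
    fun N x => ∑ j, h x.1 j * N x.2 j with hR
  set G : Matrix (Fin d) (Fin s) (ZMod p) → ℂ := fun N =>
    (ZMod.stdAddChar (∑ i, ∑ j, h i j * g N i j) : ℂ) with hG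
  set U : (Fin r × Fin d → ZMod p) → ℂ := fun a =>
    ∑ N ∈ T, G N * (ZMod.stdAddChar (∑ y, a y * R N y) : ℂ) with hU
  have hdot : ∀ (M : Matrix (Fin r) (Fin d) (ZMod p)) (N : Matrix (Fin d) (Fin s) (ZMod p)),
      ∑ i, ∑ j, h i j * (M * N) i j = ∑ y : Fin r × Fin d, M y.1 y.2 * R N y := by
    intro M N
    rw [Fintype.sum_prod_type]
    refine sum_congr rfl fun i _ => ?_
    have e1 : ∀ j, h i j * (M * N) i j = ∑ k, M i k * (h i j * N k j) := by
      intro j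
      rw [Matrix.mul_apply, mul_sum]
      exact sum_congr rfl fun k _ => by ring
    rw [sum_congr rfl (fun j _ => e1 j), sum_comm]
    refine sum_congr rfl fun k _ => ?_
    rw [hR]
    simp only
    rw [mul_sum]
  have h1 : ∑ x ∈ S ×ˢ T, (ZMod.stdAddChar
      (∑ i, ∑ j, h i j * ((x.1 * x.2) i j + f x.1 i j + g x.2 i j)) : ℂ) =
      ∑ M ∈ S, (ZMod.stdAddChar (∑ i, ∑ j, h i j * f M i j) : ℂ) * U (fun y => M y.1 y.2) := by
    rw [sum_product]
    refine sum_congr rfl fun M _ => ?_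
    rw [hU]
    simp only
    rw [mul_sum]
    refine sum_congr rfl fun N _ => ?_
    rw [hG]
    simp only
    rw [← AddChar.map_add_eq_mul, ← AddChar.map_add_eq_mul, ← hdot, ← sum_add_distrib,
      ← sum_add_distrib]
    congr 1
    refine sum_congr rfl fun i _ => ?_
    rw [← sum_add_distrib, ← sum_add_distrib]
    exact sum_congr rfl fun j _ => by ring
  rw [h1]
  have h2 : ‖∑ M ∈ S, (ZMod.stdAddChar (∑ i, ∑ j, h i j * f M i j) : ℂ) *
      U (fun y => M y.1 y.2)‖ ≤ ∑ M ∈ S, ‖U (fun y => M y.1 y.2)‖ := by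
    refine (norm_sum_le _ _).trans (le_of_eq ?_)
    refine sum_congr rfl fun a _ => ?_
    rw [norm_mul, AddChar.norm_apply, one_mul]
  refine h2.trans ?_
  apply Real.le_sqrt_of_sq_le
  have h3 := second_moment_fib (p := p) T G (fun N => AddChar.norm_apply _ _) R (p ^ (d * (s - 1)))
    (fun N _ => fibre_card h i₀ j₀ h0 T N)
  have hinj : Function.Injective (fun (M : Matrix (Fin r) (Fin d) (ZMod p)) =>
      (fun y : Fin r × Fin d => M y.1 y.2)) := by
    intro M M' hM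
    ext i k
    exact congrFun hM (i, k)
  have h4 : ∑ M ∈ S, ‖U (fun y => M y.1 y.2)‖ ^ 2 ≤ ∑ a : Fin r × Fin d → ZMod p, ‖U a‖ ^ 2 := by
    rw [← sum_image (f := fun a => ‖U a‖ ^ 2) (g := fun (M : Matrix (Fin r) (Fin d) (ZMod p)) =>
      (fun y : Fin r × Fin d => M y.1 y.2)) (fun x _ y _ hxy => hinj hxy)]
    exact sum_le_sum_of_subset_of_nonneg (subset_univ _) (fun _ _ _ => by positivity)
  have hs : 1 ≤ s := by have := j₀.2; omega
  calc (∑ M ∈ S, ‖U (fun y => M y.1 y.2)‖) ^ 2 ≤ S.card * ∑ M ∈ S, ‖U (fun y => M y.1 y.2)‖ ^ 2 :=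
        sq_sum_le_card_mul_sum_sq
    _ ≤ S.card * ∑ a : Fin r × Fin d → ZMod p, ‖U a‖ ^ 2 := by gcongr
    _ ≤ S.card * ((p : ℝ) ^ Fintype.card (Fin r × Fin d) *
          ((p ^ (d * (s - 1)) : ℕ) * T.card)) := by gcongr
    _ = (p : ℝ) ^ (d * (r + s - 1)) * (S.card * T.card) := by
        rw [Fintype.card_prod, Fintype.card_fin, Fintype.card_fin]
        push_cast
        have : d * (r + s - 1) = r * d + d * (s - 1) := by
          have e1 : r + s - 1 = r + (s - 1) := by omega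
          rw [e1]
          ring
        rw [this, pow_add]
        ring

end

open scoped Classical in
/-- all entries of the products of matrices -/
theorem matprod (r s : ℕ) (hr : 1 ≤ r) (hs : 1 ≤ s) (ε : ℝ) (h0 : 0 < ε) (h1 : ε ≤ 1) :
    ∃ κ : ℝ, 0 < κ ∧ ∃ P : ℕ, ∀ p : ℕ, P ≤ p → p.Prime →
    ∀ (d : ℕ) (S : Finset (Matrix (Fin r) (Fin d) (ZMod p)))
    (T : Finset (Matrix (Fin d) (Fin s) (ZMod p)))
    (f : Matrix (Fin r) (Fin d) (ZMod p) → Fin r → Fin s → ZMod p)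
    (g : Matrix (Fin d) (Fin s) (ZMod p) → Fin r → Fin s → ZMod p)
    (A H : Fin r → Fin s → ℕ), (∀ i j, A i j + H i j ≤ p) → (∀ i j, (p : ℝ) ^ ε ≤ H i j) →
    (p : ℝ) ^ ((d * (r + s - 1) : ℝ) + 2 * (r * s) + ε) ≤
      S.card * T.card * (∏ i, ∏ j, (H i j : ℝ)) ^ 2 →
    (S.card : ℝ) * T.card * (∏ i, ∏ j, (H i j : ℝ)) * (p : ℝ) ^ (-((r * s : ℝ) + ε / 2)) ≤
      ((S ×ˢ T).filter (fun x => ∀ i j,
        A i j ≤ ((x.1 * x.2) i j + f x.1 i j + g x.2 i j).val ∧
        ((x.1 * x.2) i j + f x.1 i j + g x.2 i j).val < A i j + H i j ∧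
        ∀ q : ℕ, q.Prime → κ * ff p < |(q : ℝ) - ((x.1 * x.2) i j + f x.1 i j + g x.2 i j).val|)).card := by
  obtain ⟨κ, hκ, P₁, hc⟩ := manyG (r * s) (Nat.mul_pos hr hs) (ε / 2) (by positivity) (by linarith)
  refine ⟨κ, hκ, max P₁ 1, ?_⟩
  intro p hpP hpp d S T f g A H hAH hH hE
  obtain ⟨e, -⟩ : ∃ e : Fin r × Fin s ≃ Fin (r * s), True := ⟨finProdFinEquiv, trivial⟩
  have : Fact p.Prime := ⟨hpp⟩
  have : NeZero p := ⟨hpp.ne_zero⟩
  have hp1 : (1 : ℝ) ≤ p := by exact_mod_cast hpp.one_le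
  have hp0 : (0 : ℝ) < p := by linarith
  set V : ℝ := ∏ i, ∏ j, (H i j : ℝ) with hV
  have hV0 : 0 < V := prod_pos fun i _ => prod_pos fun j _ => lt_of_lt_of_le (by positivity) (hH i j)
  set X : ℝ := (p : ℝ) ^ ((r * s : ℝ) + ε / 2) with hX
  have hX0 : 0 < X := by positivity
  have hXi : (p : ℝ) ^ (-((r * s : ℝ) + ε / 2)) = X⁻¹ := by rw [Real.rpow_neg hp0.le]
  set m : ℝ := (S.card * T.card : ℝ) with hm
  have hcardP : ((S ×ˢ T).card : ℝ) = m := by rw [card_product]; push_cast; rfl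
  have hVt : ∏ t : Fin (r * s), (H (e.symm t).1 (e.symm t).2 : ℝ) = V := by
    rw [hV, ← Fintype.prod_prod_type' (fun i j => (H i j : ℝ))]
    exact Equiv.prod_comp e.symm (fun y : Fin r × Fin s => (H y.1 y.2 : ℝ))
  have hm0 : 0 < m := by
    by_contra hcon
    push Not at hcon
    have h5 : m * V ^ 2 ≤ 0 := mul_nonpos_of_nonpos_of_nonneg hcon (by positivity)
    have : (0 : ℝ) < (p : ℝ) ^ ((d * (r + s - 1) : ℝ) + 2 * (r * s) + ε) := by positivity
    linarith
  have hnat : (p : ℝ) ^ ((d * (r + s - 1) : ℝ) + 2 * (r * s) + ε) =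
      (p : ℝ) ^ (d * (r + s - 1)) * X ^ 2 := by
    rw [hX, ← Real.rpow_natCast, ← Real.rpow_natCast, ← Real.rpow_mul hp0.le, ← Real.rpow_add hp0]
    congr 1
    rw [Nat.cast_mul, Nat.cast_sub (by omega)]
    push_cast
    ring
  have hbound : Real.sqrt ((p : ℝ) ^ (d * (r + s - 1)) * m) ≤ m * V * X⁻¹ := by
    apply Real.sqrt_le_iff.mpr
    refine ⟨by positivity, ?_⟩
    rw [hnat] at hE
    calc (p : ℝ) ^ (d * (r + s - 1)) * m =
        (p : ℝ) ^ (d * (r + s - 1)) * X ^ 2 * (m * (X⁻¹) ^ 2) := by field_simp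
      _ ≤ (m * V ^ 2) * (m * (X⁻¹) ^ 2) := by gcongr
      _ = _ := by ring
  have h2 := hc p ((le_max_left _ _).trans hpP) hpp
    (Matrix (Fin r) (Fin d) (ZMod p) × Matrix (Fin d) (Fin s) (ZMod p)) (S ×ˢ T)
    (fun x t => (x.1 * x.2) (e.symm t).1 (e.symm t).2 +
      f x.1 (e.symm t).1 (e.symm t).2 +
      g x.2 (e.symm t).1 (e.symm t).2)
    (m * V * X⁻¹) (by positivity)
    (by
      intro h hh
      obtain ⟨t₀, ht⟩ := Function.ne_iff.mp hh
      have h3 := mat_norm S T f g (fun i j => h (e (i, j)))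
        (e.symm t₀).1 (e.symm t₀).2 (by simpa using ht)
      refine le_trans (le_of_eq ?_) (h3.trans hbound)
      congr 1
      refine sum_congr rfl fun x _ => ?_
      congr 1
      rw [← Fintype.sum_prod_type' (fun i j => h (e (i, j)) *
        ((x.1 * x.2) i j + f x.1 i j + g x.2 i j)),
        ← Equiv.sum_comp e.symm]
      refine sum_congr rfl fun t _ => ?_
      simp)
    (fun t => A (e.symm t).1 (e.symm t).2)
    (fun t => H (e.symm t).1 (e.symm t).2)
    (fun t => hAH _ _)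
    (fun t => le_trans (Real.rpow_le_rpow_of_exponent_le hp1 (by linarith)) (hH _ _))
    (by
      rw [hVt, hcardP]
      push_cast
      rw [← hX]
      apply le_of_eq
      field_simp)
    (fun x => ∀ i j,
        A i j ≤ ((x.1 * x.2) i j + f x.1 i j + g x.2 i j).val ∧
        ((x.1 * x.2) i j + f x.1 i j + g x.2 i j).val < A i j + H i j ∧
        ∀ q : ℕ, q.Prime → κ * ff p < |(q : ℝ) - ((x.1 * x.2) i j + f x.1 i j + g x.2 i j).val|)
    (fun _ => inferInstance)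
    (by
      intro x _ h3 i j
      have := h3 (e (i, j))
      simpa using this)
  rw [hVt, hcardP] at h2
  push_cast at h2
  exact h2

end Pool.Agent.V11113.MP
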