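import Pool.Agent.V11113.MP.Crit
import Pool.Agent.V11113.MP.Pow
import Pool.Agent.H353R2.Z2

set_option autoImplicit false

/-! Exponential sums over the elements of given multiplicative order modulo a prime. -/

namespace Pool.Agent.V11113.MP

open Finset Filter
open Pool.Agent.W147.PS (ff ev_pow)

lemma moebius_gcd (n : ℕ) : ∑ d ∈ n.divisors, (ArithmeticFunction.moebius d : ℂ) =
    if n = 1 then 1 else 0 := by
  have h1 : (ArithmeticFunction.moebius * ArithmeticFunction.zeta : ArithmeticFunction ℤ) n =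
      if n = 1 then 1 else 0 := by
    rw [ArithmeticFunction.moebius_mul_coe_zeta, ArithmeticFunction.one_apply]
  rw [ArithmeticFunction.coe_mul_zeta_apply] at h1
  have h2 : ((∑ d ∈ n.divisors, ArithmeticFunction.moebius d : ℤ) : ℂ) =
      ((if n = 1 then 1 else 0 : ℤ) : ℂ) := by rw [h1]
  push_cast at h2
  rw [h2]

lemma norm_moebius (n : ℕ) : ‖(ArithmeticFunction.moebius n : ℂ)‖ ≤ 1 := by
  have h := ArithmeticFunction.abs_moebius_le_one (n := n)
  rw [Complex.norm_intCast]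
  exact_mod_cast h

variable {p : ℕ} [hp : Fact p.Prime]

/-- exponential sums over the powers of `h` with exponents coprime to the order -/
lemma coprime_norm (h : ZMod p) (hh : h ≠ 0) (y : ZMod p) (hy : y ≠ 0) :
    ‖∑ k ∈ (range (orderOf h)).filter (fun k => Nat.Coprime k (orderOf h)),
      (ZMod.stdAddChar (y * h ^ k) : ℂ)‖ ≤
      (orderOf h).divisors.card * (Real.sqrt p * (2 + Real.log p)) := by
  classical
  set t := orderOf h with ht
  have hfin : IsOfFinOrder h := by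
    rw [isOfFinOrder_iff_pow_eq_one]
    exact ⟨p - 1, by have := hp.out.two_le; omega, ZMod.pow_card_sub_one_eq_one hh⟩
  have ht0 : 0 < t := orderOf_pos_iff.mpr hfin
  have htp : t ≤ p := by
    have h1 : t ∣ p - 1 := orderOf_dvd_of_pow_eq_one (ZMod.pow_card_sub_one_eq_one hh)
    have h2 := hp.out.two_le
    have h3 := Nat.le_of_dvd (by omega) h1
    omega
  have h1 : ∑ k ∈ (range t).filter (fun k => Nat.Coprime k t), (ZMod.stdAddChar (y * h ^ k) : ℂ) =
      ∑ d ∈ t.divisors, (ArithmeticFunction.moebius d : ℂ) *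
        ∑ k ∈ (range t).filter (fun k => d ∣ k), (ZMod.stdAddChar (y * h ^ k) : ℂ) := by
    rw [sum_filter]
    have h2 : ∀ k ∈ range t, (if Nat.Coprime k t then (ZMod.stdAddChar (y * h ^ k) : ℂ) else 0) =
        ∑ d ∈ t.divisors, if d ∣ k then
          (ArithmeticFunction.moebius d : ℂ) * (ZMod.stdAddChar (y * h ^ k) : ℂ) else 0 := by
      intro k _
      have hg0 : Nat.gcd k t ≠ 0 := Nat.gcd_ne_zero_right ht0.ne'
      have h3 : ∑ d ∈ t.divisors, (if d ∣ k then
          (ArithmeticFunction.moebius d : ℂ) * (ZMod.stdAddChar (y * h ^ k) : ℂ) else 0) =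
          (∑ d ∈ (Nat.gcd k t).divisors, (ArithmeticFunction.moebius d : ℂ)) *
            (ZMod.stdAddChar (y * h ^ k) : ℂ) := by
        rw [← sum_filter, sum_mul]
        refine sum_congr ?_ fun _ _ => rfl
        ext d
        rw [mem_filter, Nat.mem_divisors, Nat.mem_divisors, Nat.dvd_gcd_iff]
        constructor
        · rintro ⟨⟨a, b⟩, c⟩
          exact ⟨⟨c, a⟩, hg0⟩
        · rintro ⟨⟨a, b⟩, c⟩
          exact ⟨⟨b, ht0.ne'⟩, a⟩
      rw [h3, moebius_gcd _]
      unfold Nat.Coprime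
      split_ifs <;> simp
    rw [sum_congr rfl h2, sum_comm]
    refine sum_congr rfl fun d _ => ?_
    rw [mul_sum, sum_filter]
  rw [h1]
  have h4 : ∀ d ∈ t.divisors, ‖(ArithmeticFunction.moebius d : ℂ) *
      ∑ k ∈ (range t).filter (fun k => d ∣ k), (ZMod.stdAddChar (y * h ^ k) : ℂ)‖ ≤
      Real.sqrt p * (2 + Real.log p) := by
    intro d hd
    obtain ⟨hdt, _⟩ := Nat.mem_divisors.mp hd
    obtain ⟨e, he⟩ := hdt
    have hd0 : 0 < d := Nat.pos_of_ne_zero (fun h => by rw [h, zero_mul] at he; omega)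
    have he0 : 0 < e := Nat.pos_of_ne_zero (fun h => by rw [h, mul_zero] at he; omega)
    have h5 : ∑ k ∈ (range t).filter (fun k => d ∣ k), (ZMod.stdAddChar (y * h ^ k) : ℂ) =
        ∑ j ∈ range e, (ZMod.stdAddChar (y * (h ^ d) ^ (0 + j)) : ℂ) := by
      refine (sum_bij (fun j _ => d * j) ?_ ?_ ?_ ?_).symm
      · intro j hj
        rw [mem_range] at hj
        rw [mem_filter, mem_range]
        refine ⟨?_, Dvd.intro _ rfl⟩
        rw [he]
        exact Nat.mul_lt_mul_of_pos_left hj hd0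
      · intro j _ j' _ hjj
        exact Nat.eq_of_mul_eq_mul_left hd0 hjj
      · intro k hk
        rw [mem_filter, mem_range] at hk
        obtain ⟨j, rfl⟩ := hk.2
        refine ⟨j, ?_, rfl⟩
        rw [mem_range]
        have := hk.1
        rw [he] at this
        exact Nat.lt_of_mul_lt_mul_left this
      · intro j _
        rw [zero_add, ← pow_mul]
    have hord : orderOf (h ^ d) = e := by
      rw [orderOf_pow_of_dvd hd0.ne' (by rw [← ht, he]; exact Dvd.intro _ rfl), ← ht, he]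
      exact Nat.mul_div_cancel_left e hd0
    have h6 := pow_norm (h ^ d) (pow_ne_zero _ hh) y hy 0 e
    rw [hord, div_self (by exact_mod_cast he0.ne')] at h6
    rw [norm_mul, h5]
    have hlog : Real.log e ≤ Real.log p := by
      apply Real.log_le_log (by exact_mod_cast he0)
      have : e ≤ p := by
        have : e ≤ t := by rw [he]; exact Nat.le_mul_of_pos_left e hd0
        omega
      exact_mod_cast this
    calc _ ≤ 1 * (Real.sqrt p * (1 + 1 + Real.log e)) :=
          mul_le_mul (norm_moebius d) h6 (norm_nonneg _) (by norm_num)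
      _ ≤ Real.sqrt p * (2 + Real.log p) := by
          rw [one_mul]
          gcongr
          linarith
  calc _ ≤ ∑ d ∈ t.divisors, ‖(ArithmeticFunction.moebius d : ℂ) *
      ∑ k ∈ (range t).filter (fun k => d ∣ k), (ZMod.stdAddChar (y * h ^ k) : ℂ)‖ := norm_sum_le _ _
    _ ≤ ∑ d ∈ t.divisors, Real.sqrt p * (2 + Real.log p) := sum_le_sum h4
    _ = _ := by rw [sum_const, nsmul_eq_mul]

/-- an element of given order -/
lemma exists_order (t : ℕ) (ht : t ∣ p - 1) : ∃ h : ZMod p, h ≠ 0 ∧ orderOf h = t := by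
  obtain ⟨g, hg⟩ := IsCyclic.exists_generator (α := (ZMod p)ˣ)
  have h1 : orderOf g = p - 1 := by
    rw [orderOf_eq_card_of_forall_mem_zpowers hg, Nat.card_eq_fintype_card, ZMod.card_units]
  have hp1 : 0 < p - 1 := by have := hp.out.two_le; omega
  obtain ⟨e, he⟩ := ht
  have he0 : e ≠ 0 := fun h => by rw [h, mul_zero] at he; omega
  refine ⟨((g ^ e : (ZMod p)ˣ) : ZMod p), Units.ne_zero _, ?_⟩
  rw [orderOf_units, orderOf_pow_of_dvd he0 (by rw [h1, he]; exact Dvd.intro_left _ rfl), h1, he]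
  exact Nat.mul_div_cancel t (Nat.pos_of_ne_zero he0)

open scoped Classical in
lemma order_norm (t : ℕ) (ht : t ∣ p - 1) (y : ZMod p) (hy : y ≠ 0) :
    ‖∑ u ∈ (univ : Finset (ZMod p)).filter (fun u => orderOf u = t),
      (ZMod.stdAddChar (y * u) : ℂ)‖ ≤ t.divisors.card * (Real.sqrt p * (2 + Real.log p)) ∧
    ((univ : Finset (ZMod p)).filter (fun u => orderOf u = t)).card = t.totient := by
  obtain ⟨h, hh, hord⟩ := exists_order t ht
  have ht0 : 0 < t := by
    have hp1 : 0 < p - 1 := by have := hp.out.two_le; omega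
    exact Nat.pos_of_dvd_of_pos ht hp1
  have : NeZero t := ⟨ht0.ne'⟩
  have hprim : IsPrimitiveRoot h t := IsPrimitiveRoot.iff_orderOf.mpr hord
  have himg : (univ : Finset (ZMod p)).filter (fun u => orderOf u = t) =
      ((range t).filter (fun k => Nat.Coprime k t)).image (fun k => h ^ k) := by
    ext u
    rw [mem_filter, mem_image]
    constructor
    · rintro ⟨_, hu⟩
      obtain ⟨i, hi1, hi2, hi3⟩ := hprim.isPrimitiveRoot_iff.mp (IsPrimitiveRoot.iff_orderOf.mpr hu)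
      exact ⟨i, mem_filter.mpr ⟨mem_range.mpr hi1, hi2⟩, hi3⟩
    · rintro ⟨i, hi, rfl⟩
      rw [mem_filter, mem_range] at hi
      refine ⟨mem_univ _, IsPrimitiveRoot.iff_orderOf.mp ?_⟩
      exact hprim.isPrimitiveRoot_iff.mpr ⟨i, hi.1, hi.2, rfl⟩
  have hinj : Set.InjOn (fun k => h ^ k) ((range t).filter (fun k => Nat.Coprime k t) : Finset ℕ) := by
    intro i hi j hj hij
    rw [mem_coe, mem_filter, mem_range, ← hord] at hi hj
    exact pow_injOn_Iio_orderOf hi.1 hj.1 hij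
  rw [himg]
  constructor
  · rw [sum_image hinj]
    have := coprime_norm h hh y hy
    rw [hord] at this
    exact this
  · rw [card_image_of_injOn hinj, Nat.totient]
    congr 1
    apply filter_congr
    intro k _
    exact Nat.coprime_comm

lemma le_tot_mul (t : ℕ) (ht : 0 < t) : t ≤ t.totient * t.divisors.card := by
  have h1 := Nat.sum_totient t
  calc t = ∑ d ∈ t.divisors, d.totient := h1.symm
    _ ≤ ∑ d ∈ t.divisors, t.totient := by
        refine sum_le_sum fun d hd => ?_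
        exact Nat.le_of_dvd (Nat.totient_pos.mpr ht)
          (Nat.totient_dvd_of_dvd (Nat.dvd_of_mem_divisors hd))
    _ = _ := by rw [sum_const, smul_eq_mul, mul_comm]

open scoped Classical in
/-- integers of given multiplicative order modulo `p` -/
theorem orders (ε : ℝ) (h0 : 0 < ε) (h1 : ε ≤ 1) : ∃ κ : ℝ, 0 < κ ∧ ∃ P : ℕ, ∀ p : ℕ, P ≤ p →
    p.Prime → ∀ t : ℕ, t ∣ p - 1 → ∀ M H : ℕ, H ≤ p → (p : ℝ) ^ (3 / 2 + ε) ≤ t * H →
    t * H * (p : ℝ) ^ (-(1 + ε)) ≤ ((Ioc M (M + H)).filter (fun n : ℕ => orderOf ((n : ℕ) : ZMod p) = t ∧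
      ∀ q : ℕ, q.Prime → κ * ff p < |(q : ℝ) - n|)).card := by
  obtain ⟨κ, hκ, hm⟩ := many (ε / 2) (by positivity) (by linarith)
  obtain ⟨C, hC, hdiv⟩ := H353.divisor_bound_real (ε / 16) (by positivity)
  have hcast : Tendsto (fun m : ℕ => (m : ℝ)) atTop atTop := tendsto_natCast_atTop_atTop
  have hlog : ∀ᶠ x : ℝ in atTop, C ^ 2 * x ^ (ε / 8) * (2 + Real.log x) ≤ x ^ (ε / 2) := by
    have h2 := (isLittleO_log_rpow_atTop (show (0 : ℝ) < ε / 8 by positivity)).def
      (show (0 : ℝ) < 1 by norm_num)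
    filter_upwards [h2, eventually_ge_atTop (1 : ℝ), ev_pow (ε / 4) (ε / 2) (3 * C ^ 2) (by linarith),
      (tendsto_rpow_atTop (show 0 < ε / 8 by positivity)).eventually_ge_atTop 1]
      with x hx hx1 hx2 hx3
    have hx0 : 0 < x := by linarith
    rw [Real.norm_eq_abs, abs_of_nonneg (Real.log_nonneg hx1), Real.norm_eq_abs,
      abs_of_nonneg (Real.rpow_nonneg hx0.le _)] at hx
    have h3 : 2 + Real.log x ≤ 3 * x ^ (ε / 8) := by linarith
    have h4 : x ^ (ε / 4) = x ^ (ε / 8) * x ^ (ε / 8) := by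
      rw [← Real.rpow_add hx0]
      congr 1
      ring
    calc C ^ 2 * x ^ (ε / 8) * (2 + Real.log x) ≤ C ^ 2 * x ^ (ε / 8) * (3 * x ^ (ε / 8)) := by
          gcongr
      _ = 3 * C ^ 2 * x ^ (ε / 4) := by rw [h4]; ring
      _ ≤ _ := hx2
  have hC2 : ∀ᶠ x : ℝ in atTop, C * x ^ (ε / 16) ≤ x ^ (ε / 2) := ev_pow _ _ _ (by linarith)
  obtain ⟨P, hP⟩ := eventually_atTop.mp (hm.and ((hcast.eventually hlog).and (hcast.eventually hC2)))
  refine ⟨κ, hκ, max P 1, ?_⟩
  intro p hpP hp t ht M H hHp htH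
  have : Fact p.Prime := ⟨hp⟩
  obtain ⟨c1, c2, c3⟩ := hP p ((le_max_left _ _).trans hpP)
  have hp1 : (1 : ℝ) ≤ p := by exact_mod_cast hp.one_le
  have hp0 : (0 : ℝ) < p := by linarith
  have hH0 : (0 : ℝ) ≤ H := Nat.cast_nonneg _
  have ht0 : 0 < t := by
    have hp1 : 0 < p - 1 := by have := hp.two_le; omega
    exact Nat.pos_of_dvd_of_pos ht hp1
  have htr : (0 : ℝ) < t := by exact_mod_cast ht0
  have htp : (t : ℝ) ≤ p := by
    have h1 : t ≤ p := by
      have h2 := hp.two_le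
      have h3 := Nat.le_of_dvd (by omega) ht
      omega
    exact_mod_cast h1
  set D : ℝ := (t.divisors.card : ℝ) with hD
  have hD0 : 0 < D := by
    rw [hD]
    exact_mod_cast card_pos.mpr ⟨1, Nat.one_mem_divisors.mpr ht0.ne'⟩
  have hDC : D ≤ C * (p : ℝ) ^ (ε / 16) := by
    refine (hdiv t ht0.ne').trans ?_
    gcongr
  have htot : (t : ℝ) ≤ t.totient * D := by
    rw [hD]
    exact_mod_cast le_tot_mul t ht0
  have hH1 : (p : ℝ) ^ (ε / 2) ≤ H := by
    have h2 : (p : ℝ) * (p : ℝ) ^ (1 / 2 + ε) ≤ p * H := by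
      calc (p : ℝ) * (p : ℝ) ^ (1 / 2 + ε) = (p : ℝ) ^ (3 / 2 + ε) := by
            rw [← Real.rpow_one_add' hp0.le (by positivity)]
            congr 1
            ring
        _ ≤ t * H := htH
        _ ≤ p * H := by gcongr
    have h3 := le_of_mul_le_mul_left h2 hp0
    refine le_trans ?_ h3
    exact Real.rpow_le_rpow_of_exponent_le hp1 (by linarith)
  have h2 := c1 ⟨hp.ne_zero⟩ M H hHp hH1 (ZMod p)
    ((univ : Finset (ZMod p)).filter (fun u => orderOf u = t)) (fun u => u)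
    (fun u => ∃ n : ℕ, M < n ∧ n ≤ M + H ∧ (n : ZMod p) = u ∧
        ∀ q : ℕ, q.Prime → κ * ff p < |(q : ℝ) - n|) (fun x => Classical.propDecidable _)
    (fun x _ h => h) (by
    intro w hw
    obtain ⟨k1, k2⟩ := order_norm (p := p) t ht w hw
    refine k1.trans ?_
    rw [k2]
    -- `D √p (2 + log p) ≤ φ(t) H / p * p^(-ε/2)`
    have e1 : D * (Real.sqrt p * (2 + Real.log p)) * (D * p * (p : ℝ) ^ (ε / 2)) ≤ t * H := by
      have e2 : D * D ≤ C ^ 2 * (p : ℝ) ^ (ε / 8) := by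
        calc D * D ≤ (C * (p : ℝ) ^ (ε / 16)) * (C * (p : ℝ) ^ (ε / 16)) := by gcongr
          _ = C ^ 2 * (p : ℝ) ^ (ε / 8) := by
            have : (p : ℝ) ^ (ε / 8) = (p : ℝ) ^ (ε / 16) * (p : ℝ) ^ (ε / 16) := by
              rw [← Real.rpow_add hp0]
              congr 1
              ring
            rw [this]
            ring
      have hlog0 : 0 ≤ Real.log p := Real.log_nonneg hp1
      calc D * (Real.sqrt p * (2 + Real.log p)) * (D * p * (p : ℝ) ^ (ε / 2)) =
          (D * D) * (2 + Real.log p) * (Real.sqrt p * p * (p : ℝ) ^ (ε / 2)) := by ring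
        _ ≤ (C ^ 2 * (p : ℝ) ^ (ε / 8)) * (2 + Real.log p) *
            (Real.sqrt p * p * (p : ℝ) ^ (ε / 2)) := by gcongr
        _ ≤ (p : ℝ) ^ (ε / 2) * (Real.sqrt p * p * (p : ℝ) ^ (ε / 2)) := by gcongr
        _ = (p : ℝ) ^ (3 / 2 + ε) := by
            rw [Real.sqrt_eq_rpow]
            have : (p : ℝ) ^ (3 / 2 + ε) = (p : ℝ) ^ (ε / 2) * ((p : ℝ) ^ (1 / 2 : ℝ) *
                (p : ℝ) ^ (1 : ℝ) * (p : ℝ) ^ (ε / 2)) := by
              rw [← Real.rpow_add hp0, ← Real.rpow_add hp0, ← Real.rpow_add hp0]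
              congr 1
              ring
            rw [this, Real.rpow_one]
        _ ≤ _ := htH
    have e3 : D * (Real.sqrt p * (2 + Real.log p)) ≤ t * H / (D * p * (p : ℝ) ^ (ε / 2)) := by
      rw [le_div_iff₀ (by positivity)]
      exact e1
    refine e3.trans ?_
    rw [div_le_iff₀ (by positivity)]
    have e4 : (t.totient : ℝ) * H / p * (p : ℝ) ^ (-(ε / 2)) * (D * p * (p : ℝ) ^ (ε / 2)) =
        t.totient * D * H := by
      rw [Real.rpow_neg hp0.le]
      have : (0 : ℝ) < (p : ℝ) ^ (ε / 2) := by positivity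
      field_simp
    rw [e4]
    gcongr)
  obtain ⟨_, k2⟩ := order_norm (p := p) t ht 1 one_ne_zero
  rw [k2] at h2
  have h3 : (((univ : Finset (ZMod p)).filter (fun u => orderOf u = t)).filter
      (fun u => ∃ n : ℕ, M < n ∧ n ≤ M + H ∧ (n : ZMod p) = u ∧
        ∀ q : ℕ, q.Prime → κ * ff p < |(q : ℝ) - n|)).card ≤
      ((Ioc M (M + H)).filter (fun n : ℕ => orderOf ((n : ℕ) : ZMod p) = t ∧
      ∀ q : ℕ, q.Prime → κ * ff p < |(q : ℝ) - n|)).card := by
    refine (card_le_card ?_).trans (card_image_le (f := fun n : ℕ => (n : ZMod p)))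
    intro u hu
    rw [mem_filter, mem_filter] at hu
    obtain ⟨⟨_, hu1⟩, n, hn1, hn2, hn3, hn4⟩ := hu
    rw [mem_image]
    refine ⟨n, ?_, hn3⟩
    rw [mem_filter, mem_Ioc, hn3]
    exact ⟨⟨hn1, hn2⟩, hu1, hn4⟩
  have h4 : (t : ℝ) * H * (p : ℝ) ^ (-(1 + ε)) ≤ t.totient * H / p * (p : ℝ) ^ (-(ε / 2)) := by
    have e5 : D ≤ (p : ℝ) ^ (ε / 2) := hDC.trans c3
    have e6 : (t : ℝ) ≤ t.totient * (p : ℝ) ^ (ε / 2) := by
      refine htot.trans ?_
      gcongr
    have e7 : (p : ℝ) ^ (-(1 + ε)) = (p : ℝ) ^ (-(ε / 2)) * (p : ℝ) ^ (-(ε / 2)) / p := by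
      rw [← Real.rpow_add hp0, div_eq_mul_inv, ← Real.rpow_neg_one (p : ℝ), ← Real.rpow_add hp0]
      congr 1
      ring
    have e8 : (p : ℝ) ^ (ε / 2) * (p : ℝ) ^ (-(ε / 2)) = 1 := by
      rw [← Real.rpow_add hp0, add_neg_cancel, Real.rpow_zero]
    rw [e7]
    calc (t : ℝ) * H * ((p : ℝ) ^ (-(ε / 2)) * (p : ℝ) ^ (-(ε / 2)) / p) ≤
        (t.totient * (p : ℝ) ^ (ε / 2)) * H * ((p : ℝ) ^ (-(ε / 2)) * (p : ℝ) ^ (-(ε / 2)) / p) := by
          gcongr
      _ = t.totient * H / p * (p : ℝ) ^ (-(ε / 2)) * ((p : ℝ) ^ (ε / 2) * (p : ℝ) ^ (-(ε / 2))) := by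
          ring
      _ = _ := by rw [e8, mul_one]
  refine h4.trans (h2.trans ?_)
  exact_mod_cast h3

end Pool.Agent.V11113.MP
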