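import Pool.Agent.V11113.MP.ManyG
import Pool.Agent.V11113.MP.Bil

set_option autoImplicit false

/-! Quadrics over the field with `p` elements: exponential sums, and record gaps around all the
coordinates of their points in short boxes. -/

namespace Pool.Agent.V11113.MP

open Finset Filter
open Pool.Agent.W147.PS (ff ff_compare ev_pow)

section

variable {p : ℕ} [hp : Fact p.Prime] {d : ℕ}

/-- the quadratic polynomial `x · A x + b · x` -/
def QF (A : Matrix (Fin d) (Fin d) (ZMod p)) (b x : Fin d → ZMod p) : ZMod p :=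
  x ⬝ᵥ A.mulVec x + b ⬝ᵥ x

lemma QF_add (A : Matrix (Fin d) (Fin d) (ZMod p)) (b y z : Fin d → ZMod p) :
    QF A b (y + z) - QF A b y = QF A b z + y ⬝ᵥ (A + A.transpose).mulVec z := by
  unfold QF
  have e1 : z ⬝ᵥ A.mulVec y = y ⬝ᵥ A.transpose.mulVec z := by
    rw [Matrix.mulVec_transpose, Matrix.dotProduct_mulVec, dotProduct_comm]
  rw [Matrix.mulVec_add, add_dotProduct, dotProduct_add, dotProduct_add, dotProduct_add,
    Matrix.add_mulVec, dotProduct_add, e1]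
  ring

/-- the Gauss sum -/
noncomputable def Gs (A : Matrix (Fin d) (Fin d) (ZMod p)) (b : Fin d → ZMod p) (s : ZMod p)
    (c : Fin d → ZMod p) : ℂ :=
  ∑ x : Fin d → ZMod p, (ZMod.stdAddChar (s * QF A b x + c ⬝ᵥ x) : ℂ)

lemma Gs_norm (A : Matrix (Fin d) (Fin d) (ZMod p)) (hA : IsUnit (A + A.transpose).det)
    (b : Fin d → ZMod p) (s : ZMod p) (hs : s ≠ 0) (c : Fin d → ZMod p) :
    ‖Gs A b s c‖ = Real.sqrt ((p : ℝ) ^ d) := by
  classical
  have h1 : ((‖Gs A b s c‖ ^ 2 : ℝ) : ℂ) = (p : ℂ) ^ d := by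
    unfold Gs
    rw [Complex.ofReal_pow, ← Complex.mul_conj', map_sum, sum_mul_sum, sum_comm]
    have h2 : ∀ y : Fin d → ZMod p, ∑ x : Fin d → ZMod p,
        (ZMod.stdAddChar (s * QF A b x + c ⬝ᵥ x) : ℂ) *
          (starRingEnd ℂ) (ZMod.stdAddChar (s * QF A b y + c ⬝ᵥ y) : ℂ) =
        ∑ z : Fin d → ZMod p, (ZMod.stdAddChar (s * QF A b z + c ⬝ᵥ z) : ℂ) *
          (ZMod.stdAddChar (y ⬝ᵥ (s • (A + A.transpose).mulVec z)) : ℂ) := by
      intro y
      rw [← Equiv.sum_comp (Equiv.addLeft y)]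
      refine sum_congr rfl fun z _ => ?_
      rw [Equiv.coe_addLeft, ← AddChar.map_neg_eq_conj, ← AddChar.map_add_eq_mul,
        ← AddChar.map_add_eq_mul]
      congr 1
      have h3 := QF_add A b y z
      rw [dotProduct_add, dotProduct_smul, smul_eq_mul]
      linear_combination s * h3
    rw [sum_congr rfl (fun y _ => h2 y), sum_comm]
    have h4 : ∀ z : Fin d → ZMod p, ∑ y : Fin d → ZMod p,
        (ZMod.stdAddChar (s * QF A b z + c ⬝ᵥ z) : ℂ) *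
          (ZMod.stdAddChar (y ⬝ᵥ (s • (A + A.transpose).mulVec z)) : ℂ) =
        if z = 0 then (p : ℂ) ^ d else 0 := by
      intro z
      rw [← mul_sum, char_sum_dot]
      by_cases hz : z = 0
      · rw [if_pos hz, if_pos (by rw [hz]; simp), hz]
        unfold QF
        simp
      · rw [if_neg hz, if_neg, mul_zero]
        intro h5
        apply hz
        have h6 : (A + A.transpose).mulVec z = 0 := (smul_eq_zero.mp h5).resolve_left hs
        exact Matrix.mulVec_injective_of_isUnit ((Matrix.isUnit_iff_isUnit_det _).mpr hA)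
          (by rw [h6, Matrix.mulVec_zero])
    rw [sum_congr rfl (fun z _ => h4 z), sum_ite_eq' univ, if_pos (mem_univ _)]
  have h7 : ‖Gs A b s c‖ ^ 2 = (p : ℝ) ^ d := by exact_mod_cast h1
  rw [← h7, Real.sqrt_sq (norm_nonneg _)]

open scoped Classical in
/-- the quadric -/
noncomputable def Qu (A : Matrix (Fin d) (Fin d) (ZMod p)) (b : Fin d → ZMod p) (m : ZMod p) :
    Finset (Fin d → ZMod p) := univ.filter (fun x => QF A b x = m)

lemma Qu_sum (A : Matrix (Fin d) (Fin d) (ZMod p)) (b : Fin d → ZMod p) (m : ZMod p)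
    (h : Fin d → ZMod p) :
    (p : ℂ) * ∑ x ∈ Qu A b m, (ZMod.stdAddChar (h ⬝ᵥ x) : ℂ) =
      ∑ s : ZMod p, (ZMod.stdAddChar (-(s * m)) : ℂ) * Gs A b s h := by
  classical
  unfold Qu Gs
  rw [sum_filter, mul_sum]
  have h1 : ∀ s : ZMod p, (ZMod.stdAddChar (-(s * m)) : ℂ) *
      ∑ x : Fin d → ZMod p, (ZMod.stdAddChar (s * QF A b x + h ⬝ᵥ x) : ℂ) =
      ∑ x : Fin d → ZMod p, (ZMod.stdAddChar (s * (QF A b x - m)) : ℂ) *
        (ZMod.stdAddChar (h ⬝ᵥ x) : ℂ) := by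
    intro s
    rw [mul_sum]
    refine sum_congr rfl fun x _ => ?_
    rw [← AddChar.map_add_eq_mul, ← AddChar.map_add_eq_mul]
    congr 1
    ring
  rw [sum_congr rfl (fun s _ => h1 s), sum_comm]
  refine sum_congr rfl fun x _ => ?_
  rw [← sum_mul, AddChar.sum_mulShift _ (ZMod.isPrimitive_stdAddChar p), ZMod.card]
  by_cases h2 : QF A b x = m
  · rw [if_pos h2, if_pos (sub_eq_zero.mpr h2)]
  · rw [if_neg h2, if_neg (fun h3 => h2 (sub_eq_zero.mp h3))]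
    simp

lemma Qu_norm (A : Matrix (Fin d) (Fin d) (ZMod p)) (hA : IsUnit (A + A.transpose).det)
    (b : Fin d → ZMod p) (m : ZMod p) (h : Fin d → ZMod p) :
    ‖(p : ℂ) * ∑ x ∈ Qu A b m, (ZMod.stdAddChar (h ⬝ᵥ x) : ℂ) - Gs A b 0 h‖ ≤
      p * Real.sqrt ((p : ℝ) ^ d) := by
  classical
  rw [Qu_sum, ← Finset.add_sum_erase univ _ (mem_univ (0 : ZMod p))]
  have e1 : (ZMod.stdAddChar (-((0 : ZMod p) * m)) : ℂ) = 1 := by simp
  rw [e1, one_mul, add_sub_cancel_left]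
  refine (norm_sum_le _ _).trans ?_
  calc ∑ s ∈ univ.erase (0 : ZMod p), ‖(ZMod.stdAddChar (-(s * m)) : ℂ) * Gs A b s h‖ ≤
      ∑ s ∈ univ.erase (0 : ZMod p), Real.sqrt ((p : ℝ) ^ d) := by
        refine sum_le_sum fun s hs => le_of_eq ?_
        rw [norm_mul, AddChar.norm_apply, one_mul, Gs_norm A hA b s (ne_of_mem_erase hs)]
    _ ≤ _ := by
        rw [sum_const, nsmul_eq_mul]
        gcongr
        calc ((univ.erase (0 : ZMod p)).card : ℕ) ≤ (univ : Finset (ZMod p)).card :=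
              card_le_card (erase_subset _ _)
          _ = p := by rw [card_univ, ZMod.card]

lemma Gs_zero (A : Matrix (Fin d) (Fin d) (ZMod p)) (b h : Fin d → ZMod p) :
    Gs A b 0 h = if h = 0 then (p : ℂ) ^ d else 0 := by
  unfold Gs
  rw [← char_sum_dot h]
  refine sum_congr rfl fun x _ => ?_
  rw [zero_mul, zero_add, dotProduct_comm]

lemma Qu_char (A : Matrix (Fin d) (Fin d) (ZMod p)) (hA : IsUnit (A + A.transpose).det)
    (b : Fin d → ZMod p) (m : ZMod p) (h : Fin d → ZMod p) (hh : h ≠ 0) :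
    ‖∑ x ∈ Qu A b m, (ZMod.stdAddChar (h ⬝ᵥ x) : ℂ)‖ ≤ Real.sqrt ((p : ℝ) ^ d) := by
  have h1 := Qu_norm A hA b m h
  rw [Gs_zero, if_neg hh, sub_zero, norm_mul, Complex.norm_natCast] at h1
  have hp0 : (0 : ℝ) < p := by exact_mod_cast hp.out.pos
  exact le_of_mul_le_mul_left h1 hp0

lemma Qu_card (A : Matrix (Fin d) (Fin d) (ZMod p)) (hA : IsUnit (A + A.transpose).det)
    (b : Fin d → ZMod p) (m : ZMod p) :
    (p : ℝ) ^ d - p * Real.sqrt ((p : ℝ) ^ d) ≤ p * (Qu A b m).card := by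
  have h1 := Qu_norm A hA b m 0
  rw [Gs_zero, if_pos rfl] at h1
  have e1 : ∑ x ∈ Qu A b m, (ZMod.stdAddChar ((0 : Fin d → ZMod p) ⬝ᵥ x) : ℂ) =
      ((Qu A b m).card : ℂ) := by
    simp
  rw [e1] at h1
  have e2 : (p : ℂ) * ((Qu A b m).card : ℂ) - (p : ℂ) ^ d =
      (((p : ℝ) * (Qu A b m).card - (p : ℝ) ^ d : ℝ) : ℂ) := by push_cast; ring
  rw [e2, Complex.norm_real, Real.norm_eq_abs] at h1
  linarith [(abs_le.mp h1).1]

end

open scoped Classical in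
/-- record gaps around all the coordinates of points of quadrics -/
theorem quadric (d : ℕ) (hd : 3 ≤ d) (ε : ℝ) (h0 : 0 < ε) (h1 : ε ≤ 1) :
    ∃ κ : ℝ, 0 < κ ∧ ∃ P : ℕ, ∀ p : ℕ, P ≤ p → p.Prime →
    ∀ (A : Matrix (Fin d) (Fin d) (ZMod p)) (b : Fin d → ZMod p) (m : ZMod p),
    IsUnit (A + A.transpose).det →
    ∀ a L : Fin d → ℕ, (∀ j, a j + L j ≤ p) → (∀ j, (p : ℝ) ^ ε ≤ L j) →
    (p : ℝ) ^ ((d : ℝ) / 2 + 1 + ε) ≤ ∏ j, (L j : ℝ) →
    (∏ j, (L j : ℝ)) * (p : ℝ) ^ (-(1 + ε)) ≤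
      ((Finset.univ : Finset (Fin d → Fin p)).filter (fun x =>
        (fun j => ((x j : ℕ) : ZMod p)) ⬝ᵥ A.mulVec (fun j => ((x j : ℕ) : ZMod p)) +
          b ⬝ᵥ (fun j => ((x j : ℕ) : ZMod p)) = m ∧
        ∀ j, a j ≤ x j ∧ (x j : ℕ) < a j + L j ∧
          ∀ q : ℕ, q.Prime → κ * ff p < |(q : ℝ) - (x j : ℕ)|)).card := by
  obtain ⟨κ, hκ, P₁, hc⟩ := manyG d (by omega) (ε / 2) (by positivity) (by linarith)
  have hcast : Tendsto (fun m : ℕ => (m : ℝ)) atTop atTop := tendsto_natCast_atTop_atTop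
  obtain ⟨P₂, hP₂⟩ := eventually_atTop.mp ((hcast.eventually (ev_pow 0 (ε / 2) 2 (by linarith))))
  refine ⟨κ, hκ, max P₁ (max P₂ 4), ?_⟩
  intro p hP hpp A b m hA a L haL hL hV
  have : Fact p.Prime := ⟨hpp⟩
  have c2 := hP₂ p ((le_max_left _ _).trans ((le_max_right _ _).trans hP))
  rw [Real.rpow_zero, mul_one] at c2
  have hp4 : (4 : ℝ) ≤ p := by exact_mod_cast (le_max_right _ _).trans ((le_max_right _ _).trans hP)
  have hp0 : (0 : ℝ) < p := by linarith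
  have hp1 : (1 : ℝ) ≤ p := by linarith
  set V : ℝ := ∏ j, (L j : ℝ) with hVd
  have hVpos : 0 < V := lt_of_lt_of_le (by positivity) hV
  have hsq : Real.sqrt ((p : ℝ) ^ d) = (p : ℝ) ^ ((d : ℝ) / 2) := by
    rw [Real.sqrt_eq_rpow, ← Real.rpow_natCast, ← Real.rpow_mul hp0.le]
    congr 1
    ring
  have hcard : (p : ℝ) ^ ((d : ℝ) - 1) / 2 ≤ ((Qu A b m).card : ℝ) := by
    have h2 := Qu_card A hA b m
    rw [hsq] at h2
    have e1 : (p : ℝ) ^ d = p * (p : ℝ) ^ ((d : ℝ) - 1) := by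
      rw [← Real.rpow_natCast, ← Real.rpow_one_add' hp0.le (by
        have : (3 : ℝ) ≤ d := by exact_mod_cast hd
        linarith)]
      congr 1
      ring
    rw [e1] at h2
    have h3 : (p : ℝ) ^ ((d : ℝ) - 1) - (p : ℝ) ^ ((d : ℝ) / 2) ≤ (Qu A b m).card := by
      have : (p : ℝ) * ((p : ℝ) ^ ((d : ℝ) - 1) - (p : ℝ) ^ ((d : ℝ) / 2)) ≤
          p * (Qu A b m).card := by linarith
      exact le_of_mul_le_mul_left this hp0
    have h4 : (p : ℝ) ^ ((d : ℝ) / 2) ≤ (p : ℝ) ^ ((d : ℝ) - 1) / 2 := by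
      have h5 : (2 : ℝ) ≤ (p : ℝ) ^ (1 / 2 : ℝ) := by
        rw [← Real.sqrt_eq_rpow]
        apply Real.le_sqrt_of_sq_le
        linarith
      have h6 : (p : ℝ) ^ ((d : ℝ) / 2) * (p : ℝ) ^ (1 / 2 : ℝ) ≤ (p : ℝ) ^ ((d : ℝ) - 1) := by
        rw [← Real.rpow_add hp0]
        apply Real.rpow_le_rpow_of_exponent_le hp1
        have : (3 : ℝ) ≤ d := by exact_mod_cast hd
        linarith
      have h7 : (0 : ℝ) < (p : ℝ) ^ ((d : ℝ) / 2) := by positivity
      nlinarith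
    linarith
  have h2 := hc p ((le_max_left _ _).trans hP) hpp (Fin d → ZMod p) (Qu A b m) (fun x => x)
    (Real.sqrt ((p : ℝ) ^ d)) (Real.sqrt_nonneg _) (fun h hh => Qu_char A hA b m h hh) a L haL
    (fun j => le_trans (Real.rpow_le_rpow_of_exponent_le hp1 (by linarith)) (hL j)) (by
      rw [hsq]
      have e1 : (p : ℝ) ^ ((d : ℝ) / 2) * (p : ℝ) ^ ((d : ℝ) + ε / 2) * (p : ℝ) ^ (ε / 2) =
          (p : ℝ) ^ ((d : ℝ) - 1) * (p : ℝ) ^ ((d : ℝ) / 2 + 1 + ε) := by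
        rw [← Real.rpow_add hp0, ← Real.rpow_add hp0, ← Real.rpow_add hp0]
        congr 1
        ring
      have e2 : (p : ℝ) ^ ((d : ℝ) / 2) * (p : ℝ) ^ ((d : ℝ) + ε / 2) * 2 ≤
          (p : ℝ) ^ ((d : ℝ) - 1) * V := by
        calc (p : ℝ) ^ ((d : ℝ) / 2) * (p : ℝ) ^ ((d : ℝ) + ε / 2) * 2 ≤
            (p : ℝ) ^ ((d : ℝ) / 2) * (p : ℝ) ^ ((d : ℝ) + ε / 2) * (p : ℝ) ^ (ε / 2) := by gcongr
          _ = _ := e1
          _ ≤ _ := by gcongr
      calc (p : ℝ) ^ ((d : ℝ) / 2) * (p : ℝ) ^ ((d : ℝ) + ε / 2) ≤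
          (p : ℝ) ^ ((d : ℝ) - 1) / 2 * V := by linarith
        _ ≤ _ := by gcongr)
    (fun x => ∀ j, a j ≤ (x j).val ∧ (x j).val < a j + L j ∧
        ∀ q : ℕ, q.Prime → κ * ff p < |(q : ℝ) - (x j).val|) (fun _ => Classical.propDecidable _)
    (fun x _ hx => hx)
  have h3 : ((Qu A b m).filter (fun x => ∀ j, a j ≤ (x j).val ∧ (x j).val < a j + L j ∧
        ∀ q : ℕ, q.Prime → κ * ff p < |(q : ℝ) - (x j).val|)).card ≤
      ((Finset.univ : Finset (Fin d → Fin p)).filter (fun x =>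
        (fun j => ((x j : ℕ) : ZMod p)) ⬝ᵥ A.mulVec (fun j => ((x j : ℕ) : ZMod p)) +
          b ⬝ᵥ (fun j => ((x j : ℕ) : ZMod p)) = m ∧
        ∀ j, a j ≤ x j ∧ (x j : ℕ) < a j + L j ∧
          ∀ q : ℕ, q.Prime → κ * ff p < |(q : ℝ) - (x j : ℕ)|)).card := by
    refine card_le_card_of_injOn (fun x j => (⟨(x j).val, ZMod.val_lt (x j)⟩ : Fin p)) ?_ ?_
    · intro x hx
      rw [mem_coe, mem_filter] at hx
      obtain ⟨hx1, hx2⟩ := hx
      rw [mem_coe, mem_filter]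
      have e1 : (fun j => ((((⟨(x j).val, ZMod.val_lt (x j)⟩ : Fin p) : ℕ)) : ZMod p)) = x := by
        funext j
        simp
      refine ⟨mem_univ _, ?_, fun j => ?_⟩
      · simp only at e1 ⊢
        rw [e1]
        unfold Qu at hx1
        rw [mem_filter] at hx1
        exact hx1.2
      · exact hx2 j
    · intro x _ y _ hxy
      funext j
      have := congrFun hxy j
      simp only [Fin.mk.injEq] at this
      exact ZMod.val_injective p this
  have h4 : V * (p : ℝ) ^ (-(1 + ε)) ≤ (Qu A b m).card * V * (p : ℝ) ^ (-((d : ℝ) + ε / 2)) := by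
    have e1 : (p : ℝ) ^ (-(1 + ε)) * (p : ℝ) ^ (ε / 2) =
        (p : ℝ) ^ ((d : ℝ) - 1) * (p : ℝ) ^ (-((d : ℝ) + ε / 2)) := by
      rw [← Real.rpow_add hp0, ← Real.rpow_add hp0]
      congr 1
      ring
    have e2 : (0 : ℝ) < (p : ℝ) ^ (-(1 + ε)) := by positivity
    calc V * (p : ℝ) ^ (-(1 + ε)) ≤ V * ((p : ℝ) ^ (-(1 + ε)) * (p : ℝ) ^ (ε / 2) / 2) := by
          gcongr
          rw [le_div_iff₀ (by norm_num)]
          gcongr
      _ = (p : ℝ) ^ ((d : ℝ) - 1) / 2 * V * (p : ℝ) ^ (-((d : ℝ) + ε / 2)) := by rw [e1]; ring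
      _ ≤ _ := by gcongr
  exact h4.trans (h2.trans (by
    refine le_trans (le_of_eq ?_) (Nat.cast_le.mpr h3)
    congr!))

end Pool.Agent.V11113.MP
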