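import Pool.Agent.V11113.MP.Curve
import Pool.Agent.V11113.MP.Prim

set_option autoImplicit false

/-! Sequences `a(n) b(n) ^ n` modulo `p` with coefficients and bases of period `p`, e.g. `n ^ n`. -/

namespace Pool.Agent.V11113.MP

open Finset Filter
open Pool.Agent.W147.PS (ff ff_compare ev_pow)

variable {p : ℕ} [hp : Fact p.Prime]

/-- one class modulo `q` and modulo `p` -/
lemma class_two (q : ℕ) (hq : 1 ≤ q) (hqp : q < p) (ρ : ℤ) (x : ZMod p) : ∃ σ : ℤ, ∀ j : ℕ,
    ((q : ℤ) ∣ (j : ℤ) - ρ ∧ (j : ZMod p) = x) ↔ ((q * p : ℕ) : ℤ) ∣ (j : ℤ) - σ := by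
  have hcop : IsCoprime (q : ℤ) (p : ℤ) := by
    rw [Nat.isCoprime_iff_coprime]
    exact (Nat.coprime_of_lt_prime (by omega) hqp hp.out).symm
  obtain ⟨u, v, huv⟩ := hcop
  refine ⟨ρ * (v * p) + x.val * (u * q), fun j => ?_⟩
  have hx : ∀ j : ℕ, (j : ZMod p) = x ↔ (p : ℤ) ∣ (j : ℤ) - x.val := by
    intro j
    rw [← ZMod.intCast_eq_intCast_iff_dvd_sub]
    push_cast
    rw [ZMod.natCast_zmod_val]
    exact eq_comm
  rw [hx]
  have e1 : (j : ℤ) - (ρ * (v * p) + x.val * (u * q)) = ((j : ℤ) - ρ) + (u * (ρ - x.val)) * q := by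
    linear_combination (-ρ) * huv
  have e2 : (j : ℤ) - (ρ * (v * p) + x.val * (u * q)) = ((j : ℤ) - x.val) + (v * (x.val - ρ)) * p := by
    linear_combination (-(x.val : ℤ)) * huv
  constructor
  · rintro ⟨h1, h2⟩
    push_cast
    apply IsCoprime.mul_dvd ⟨u, v, huv⟩
    · rw [e1]
      exact dvd_add h1 (Dvd.intro_left _ rfl)
    · rw [e2]
      exact dvd_add h2 (Dvd.intro_left _ rfl)
  · intro h
    push_cast at h
    constructor
    · have h1 : (q : ℤ) ∣ ((j : ℤ) - ρ) + (u * (ρ - x.val)) * q := by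
        rw [← e1]
        exact (Dvd.intro _ rfl).trans h
      exact (dvd_add_left (Dvd.intro_left _ rfl)).mp h1
    · have h1 : (p : ℤ) ∣ ((j : ℤ) - x.val) + (v * (x.val - ρ)) * p := by
        rw [← e2]
        exact (Dvd.intro_left _ rfl).trans h
      exact (dvd_add_left (Dvd.intro_left _ rfl)).mp h1

/-- the powers with exponents in one class modulo `q p` -/
lemma class_qp (b : ZMod p) (hb : b ≠ 0) (y : ZMod p) (hy : y ≠ 0) (L N q : ℕ) (hq : 1 ≤ q)
    (σ : ℤ) :
    ‖∑ j ∈ (Ioc L (L + N)).filter (fun j : ℕ => ((q * p : ℕ) : ℤ) ∣ (j : ℤ) - σ),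
      (ZMod.stdAddChar (y * b ^ j) : ℂ)‖ ≤
      Real.sqrt p * ((N : ℝ) / p * (orderOf b : ℝ)⁻¹ + (q + 1 + Real.log p)) := by
  have hp0 : 0 < p := hp.out.pos
  have hpr : (0 : ℝ) < p := by exact_mod_cast hp0
  obtain ⟨j0, K, hK, hfil⟩ := ap L N (q * p) (Nat.mul_pos hq hp0) σ
  have hq0 : (0 : ℝ) < q := by exact_mod_cast hq
  rw [hfil, sum_image (by
    intro x _ x' _ h
    have h1 : (q * p) * x = (q * p) * x' := Nat.add_left_cancel h
    exact Nat.eq_of_mul_eq_mul_left (Nat.mul_pos hq hp0) h1)]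
  have h1 := pow_norm (b ^ q) (pow_ne_zero q hb) (y * b ^ j0) (mul_ne_zero hy (pow_ne_zero _ hb)) 0 K
  have e1 : ∑ k ∈ range K, (ZMod.stdAddChar (y * b ^ j0 * (b ^ q) ^ (0 + k)) : ℂ) =
      ∑ k ∈ range K, (ZMod.stdAddChar (y * b ^ (j0 + q * p * k)) : ℂ) := by
    refine sum_congr rfl fun k _ => ?_
    have e2 : b ^ (q * p * k) = (b ^ q) ^ k := by
      rw [pow_mul, mul_comm q p, pow_mul, ZMod.pow_card]
    rw [zero_add, pow_add, e2]
    ring_nf
  rw [e1] at h1
  refine h1.trans ?_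
  have hfin : IsOfFinOrder b := by
    rw [isOfFinOrder_iff_pow_eq_one]
    exact ⟨p - 1, by have := hp.out.two_le; omega, ZMod.pow_card_sub_one_eq_one hb⟩
  have ht : 0 < orderOf b := orderOf_pos_iff.mpr hfin
  have htr : (0 : ℝ) < orderOf b := by exact_mod_cast ht
  have ht1 : (1 : ℝ) ≤ orderOf b := by exact_mod_cast ht
  have hfin' : IsOfFinOrder (b ^ q) := hfin.pow
  have ht' : 0 < orderOf (b ^ q) := orderOf_pos_iff.mpr hfin'
  have htr' : (0 : ℝ) < orderOf (b ^ q) := by exact_mod_cast ht'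
  have h2 : orderOf b ≤ orderOf (b ^ q) * q := by
    rw [orderOf_pow' b (by omega)]
    have hgcd : Nat.gcd (orderOf b) q ∣ orderOf b := Nat.gcd_dvd_left _ _
    calc orderOf b = orderOf b / Nat.gcd (orderOf b) q * Nat.gcd (orderOf b) q :=
          (Nat.div_mul_cancel hgcd).symm
      _ ≤ orderOf b / Nat.gcd (orderOf b) q * q :=
          Nat.mul_le_mul_left _ (Nat.gcd_le_right _ (by omega))
  have h2r : (orderOf b : ℝ) ≤ orderOf (b ^ q) * q := by exact_mod_cast h2
  have h3 : (orderOf (b ^ q) : ℝ) ≤ p := by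
    have : orderOf (b ^ q) ≤ p - 1 := by
      apply Nat.le_of_dvd (by have := hp.out.two_le; omega)
      exact orderOf_dvd_of_pow_eq_one (ZMod.pow_card_sub_one_eq_one (pow_ne_zero q hb))
    have : orderOf (b ^ q) ≤ p := by omega
    exact_mod_cast this
  have h4 : Real.log (orderOf (b ^ q)) ≤ Real.log p := Real.log_le_log htr' h3
  have h5 : (K : ℝ) / orderOf (b ^ q) ≤ N / p * (orderOf b : ℝ)⁻¹ + q := by
    have hKq : (K : ℝ) * q ≤ N / p + q := by
      have := (abs_le.mp hK).2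
      have h6 : (K : ℝ) ≤ N / (q * p : ℕ) + 1 := by linarith
      calc (K : ℝ) * q ≤ (N / (q * p : ℕ) + 1) * q := by gcongr
        _ = N / p + q := by push_cast; field_simp
    have h7 : (K : ℝ) / orderOf (b ^ q) ≤ K * q / orderOf b := by
      rw [div_le_div_iff₀ htr' htr]
      calc (K : ℝ) * orderOf b ≤ K * (orderOf (b ^ q) * q) := by gcongr
        _ = _ := by ring
    refine h7.trans ?_
    calc (K : ℝ) * q / orderOf b ≤ (N / p + q) / orderOf b := by gcongr
      _ = N / p * (orderOf b : ℝ)⁻¹ + q / orderOf b := by rw [add_div]; rfl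
      _ ≤ _ := by
        gcongr
        exact div_le_self hq0.le ht1
  refine mul_le_mul_of_nonneg_left ?_ (Real.sqrt_nonneg _)
  linarith

/-- the sum of the inverses of the orders -/
lemma inv_orders (D : ℕ) (b : ZMod p → ZMod p)
    (hb : ∀ y, ((univ : Finset (ZMod p)).filter (fun x => b x = y)).card ≤ D) :
    ∑ x ∈ (univ : Finset (ZMod p)).filter (fun x => b x ≠ 0), (orderOf (b x) : ℝ)⁻¹ ≤
      D * (p - 1).divisors.card := by
  classical
  have h1 : ∑ x ∈ (univ : Finset (ZMod p)).filter (fun x => b x ≠ 0), (orderOf (b x) : ℝ)⁻¹ =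
      ∑ y ∈ (univ : Finset (ZMod p)).filter (fun y => y ≠ 0),
        ∑ x ∈ ((univ : Finset (ZMod p)).filter (fun x => b x ≠ 0)).filter (fun x => b x = y),
          (orderOf (b x) : ℝ)⁻¹ := by
    rw [sum_fiberwise_of_maps_to]
    intro x hx
    rw [mem_filter] at hx ⊢
    exact ⟨mem_univ _, hx.2⟩
  have h2 : ∀ y ∈ (univ : Finset (ZMod p)).filter (fun y => y ≠ 0),
      ∑ x ∈ ((univ : Finset (ZMod p)).filter (fun x => b x ≠ 0)).filter (fun x => b x = y),
          (orderOf (b x) : ℝ)⁻¹ ≤ D * (orderOf y : ℝ)⁻¹ := by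
    intro y _
    have : ∀ x ∈ ((univ : Finset (ZMod p)).filter (fun x => b x ≠ 0)).filter (fun x => b x = y),
        (orderOf (b x) : ℝ)⁻¹ = (orderOf y : ℝ)⁻¹ := by
      intro x hx
      rw [(mem_filter.mp hx).2]
    rw [sum_congr rfl this, sum_const, nsmul_eq_mul]
    have h3 : ((((univ : Finset (ZMod p)).filter (fun x => b x ≠ 0)).filter
        (fun x => b x = y)).card : ℝ) ≤ D := by
      have := card_le_card (filter_subset_filter (fun x => b x = y)
        (filter_subset (fun x => b x ≠ 0) (univ : Finset (ZMod p))))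
      exact_mod_cast this.trans (hb y)
    gcongr
  have h4 : ∑ y ∈ (univ : Finset (ZMod p)).filter (fun y => y ≠ 0), (orderOf y : ℝ)⁻¹ ≤
      (p - 1).divisors.card := by
    have h5 : ∀ y ∈ (univ : Finset (ZMod p)).filter (fun y => y ≠ 0),
        orderOf y ∈ (p - 1).divisors := by
      intro y hy
      rw [Nat.mem_divisors]
      exact ⟨orderOf_dvd_of_pow_eq_one (ZMod.pow_card_sub_one_eq_one (mem_filter.mp hy).2), by
        have := hp.out.two_le; omega⟩
    rw [← sum_fiberwise_of_maps_to h5]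
    have h6 : ∀ t ∈ (p - 1).divisors, ∑ y ∈ ((univ : Finset (ZMod p)).filter
        (fun y => y ≠ 0)).filter (fun y => orderOf y = t), (orderOf y : ℝ)⁻¹ ≤ 1 := by
      intro t ht
      have hdvd := (Nat.mem_divisors.mp ht).1
      have ht0 : 0 < t := Nat.pos_of_mem_divisors ht
      have : ∀ y ∈ ((univ : Finset (ZMod p)).filter
        (fun y => y ≠ 0)).filter (fun y => orderOf y = t), (orderOf y : ℝ)⁻¹ = (t : ℝ)⁻¹ := by
        intro y hy
        rw [(mem_filter.mp hy).2]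
      rw [sum_congr rfl this, sum_const, nsmul_eq_mul]
      have h7 := (order_norm (p := p) t hdvd 1 one_ne_zero).2
      have h8 : ((((univ : Finset (ZMod p)).filter
        (fun y => y ≠ 0)).filter (fun y => orderOf y = t)).card : ℝ) ≤ t := by
        have h9 := card_le_card (filter_subset_filter (fun y => orderOf y = t)
          (filter_subset (fun x => x ≠ 0) (univ : Finset (ZMod p))))
        rw [h7] at h9
        exact_mod_cast h9.trans (Nat.totient_le t)
      have ht0r : (0 : ℝ) < t := by exact_mod_cast ht0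
      rw [← div_eq_mul_inv, div_le_one ht0r]
      exact h8
    calc ∑ t ∈ (p - 1).divisors, ∑ y ∈ ((univ : Finset (ZMod p)).filter
        (fun y => y ≠ 0)).filter (fun y => orderOf y = t), (orderOf y : ℝ)⁻¹ ≤
        ∑ t ∈ (p - 1).divisors, 1 := sum_le_sum h6
      _ = _ := by simp
  rw [h1]
  calc _ ≤ ∑ y ∈ (univ : Finset (ZMod p)).filter (fun y => y ≠ 0), D * (orderOf y : ℝ)⁻¹ :=
        sum_le_sum h2
    _ = D * ∑ y ∈ (univ : Finset (ZMod p)).filter (fun y => y ≠ 0), (orderOf y : ℝ)⁻¹ := by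
        rw [mul_sum]
    _ ≤ _ := by gcongr

/-- the exponential sum over a class -/
lemma self_norm (D : ℕ) (a b : ZMod p → ZMod p)
    (ha : ((univ : Finset (ZMod p)).filter (fun x => a x = 0)).card ≤ D)
    (hb : ∀ y, ((univ : Finset (ZMod p)).filter (fun x => b x = y)).card ≤ D)
    (w : ZMod p) (hw : w ≠ 0) (L N q : ℕ) (hq : 1 ≤ q) (hqp : q < p) (ρ : ℤ) :
    ‖∑ j ∈ (Ioc L (L + N)).filter (fun j : ℕ => (q : ℤ) ∣ (j : ℤ) - ρ),
      (ZMod.stdAddChar (w * (a j * b j ^ j)) : ℂ)‖ ≤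
      Real.sqrt p * ((N : ℝ) / p * (D * (p - 1).divisors.card) + p * (q + 1 + Real.log p)) +
        2 * D * (N / p + 1) := by
  classical
  have hp0 : 0 < p := hp.out.pos
  have hpr : (0 : ℝ) < p := by exact_mod_cast hp0
  have hp1 : (1 : ℝ) ≤ p := by exact_mod_cast hp.out.one_le
  have hlog : 0 ≤ Real.log p := Real.log_nonneg hp1
  have hqr : (1 : ℝ) ≤ q := by exact_mod_cast hq
  set T : ZMod p → Finset ℕ := fun x => ((Ioc L (L + N)).filter
    (fun j : ℕ => (q : ℤ) ∣ (j : ℤ) - ρ)).filter (fun j : ℕ => (j : ZMod p) = x) with hT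
  have h1 : ∑ j ∈ (Ioc L (L + N)).filter (fun j : ℕ => (q : ℤ) ∣ (j : ℤ) - ρ),
      (ZMod.stdAddChar (w * (a j * b j ^ j)) : ℂ) =
      ∑ x : ZMod p, ∑ j ∈ T x, (ZMod.stdAddChar (w * (a x * b x ^ j)) : ℂ) := by
    rw [← sum_fiberwise ((Ioc L (L + N)).filter (fun j : ℕ => (q : ℤ) ∣ (j : ℤ) - ρ))
      (fun j : ℕ => (j : ZMod p))]
    refine sum_congr rfl fun x _ => sum_congr rfl fun j hj => ?_
    rw [(mem_filter.mp hj).2]
  set bad := (univ : Finset (ZMod p)).filter (fun x => a x = 0 ∨ b x = 0) with hbad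
  set good := (univ : Finset (ZMod p)).filter (fun x => ¬ (a x = 0 ∨ b x = 0)) with hgood
  have hbadc : (bad.card : ℝ) ≤ 2 * D := by
    have h2 : bad.card ≤ ((univ : Finset (ZMod p)).filter (fun x => a x = 0)).card +
        ((univ : Finset (ZMod p)).filter (fun x => b x = 0)).card := by
      rw [hbad, filter_or]
      exact card_union_le _ _
    have h3 : bad.card ≤ 2 * D := by have := hb 0; omega
    exact_mod_cast h3
  have hTx : ∀ x, ∃ σ : ℤ, T x = (Ioc L (L + N)).filter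
      (fun j : ℕ => ((q * p : ℕ) : ℤ) ∣ (j : ℤ) - σ) := by
    intro x
    obtain ⟨σ, hσ⟩ := class_two q hq hqp ρ x
    refine ⟨σ, ?_⟩
    rw [hT]
    simp only
    rw [filter_filter]
    exact filter_congr fun j _ => hσ j
  have h2 : ∀ x ∈ good, ‖∑ j ∈ T x, (ZMod.stdAddChar (w * (a x * b x ^ j)) : ℂ)‖ ≤
      Real.sqrt p * ((N : ℝ) / p * (orderOf (b x) : ℝ)⁻¹ + (q + 1 + Real.log p)) := by
    intro x hx
    have hx2 := (mem_filter.mp hx).2
    push Not at hx2
    obtain ⟨σ, hσ⟩ := hTx x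
    rw [hσ]
    have h3 := class_qp (b x) hx2.2 (w * a x) (mul_ne_zero hw hx2.1) L N q hq σ
    simpa only [mul_assoc] using h3
  have h3 : ∀ x ∈ bad, ‖∑ j ∈ T x, (ZMod.stdAddChar (w * (a x * b x ^ j)) : ℂ)‖ ≤ N / p + 1 := by
    intro x _
    obtain ⟨σ, hσ⟩ := hTx x
    obtain ⟨j0, K, hK, hfil⟩ := ap L N (q * p) (Nat.mul_pos hq hp0) σ
    refine (norm_sum_le _ _).trans ?_
    have h4 : ∑ j ∈ T x, ‖(ZMod.stdAddChar (w * (a x * b x ^ j)) : ℂ)‖ = (T x).card := by
      rw [sum_congr rfl (fun j _ => AddChar.norm_apply _ _)]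
      simp
    rw [h4, hσ, hfil]
    have h5 : (((range K).image (fun k => j0 + (q * p) * k)).card : ℝ) ≤ K := by
      have := card_image_le (s := range K) (f := fun k => j0 + (q * p) * k)
      rw [card_range] at this
      exact_mod_cast this
    have h6 := (abs_le.mp hK).2
    have h7 : (N : ℝ) / (q * p : ℕ) ≤ N / p := by
      push_cast
      have : (p : ℝ) ≤ q * p := le_mul_of_one_le_left hpr.le hqr
      gcongr
    linarith
  rw [h1, ← sum_filter_add_sum_filter_not univ (fun x => a x = 0 ∨ b x = 0)]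
  refine (norm_add_le _ _).trans ?_
  rw [add_comm]
  refine add_le_add ?_ ?_
  · refine (norm_sum_le _ _).trans ?_
    refine (sum_le_sum h2).trans ?_
    rw [← mul_sum]
    refine mul_le_mul_of_nonneg_left ?_ (Real.sqrt_nonneg _)
    rw [sum_add_distrib, ← mul_sum]
    refine add_le_add ?_ ?_
    · refine mul_le_mul_of_nonneg_left ?_ (by positivity)
      refine le_trans ?_ (inv_orders D b hb)
      refine sum_le_sum_of_subset_of_nonneg ?_ (fun _ _ _ => by positivity)
      intro x hx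
      rw [mem_filter] at hx ⊢
      push Not at hx
      exact ⟨mem_univ _, hx.2.2⟩
    · rw [sum_const, nsmul_eq_mul]
      refine mul_le_mul_of_nonneg_right ?_ (by positivity)
      have : good.card ≤ p := by
        have := card_le_univ good
        rwa [ZMod.card] at this
      exact_mod_cast this
  · refine (norm_sum_le _ _).trans ?_
    refine (sum_le_sum h3).trans ?_
    rw [sum_const, nsmul_eq_mul]
    exact mul_le_mul_of_nonneg_right hbadc (by positivity)

open scoped Classical in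
/-- record gaps around `n` and around `a(n) b(n) ^ n` modulo `p` -/
theorem selfpow (D : ℕ) (ε : ℝ) (h0 : 0 < ε) (h1 : ε ≤ 1) : ∃ κ : ℝ, 0 < κ ∧ ∃ P : ℕ,
    ∀ p : ℕ, P ≤ p → ∀ [Fact p.Prime], ∀ a b : ZMod p → ZMod p,
    ((univ : Finset (ZMod p)).filter (fun x => a x = 0)).card ≤ D →
    (∀ y, ((univ : Finset (ZMod p)).filter (fun x => b x = y)).card ≤ D) →
    ∀ L N M H : ℕ, H ≤ p → (p : ℝ) ^ (1 / 2 + ε) ≤ H → (p : ℝ) ^ (5 / 2 + ε) ≤ N * H →
    N * H * (p : ℝ) ^ (-(1 + ε)) ≤ ((Ioc L (L + N)).filter (fun j : ℕ =>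
      (∀ q : ℕ, q.Prime → κ * ff p < |(q : ℝ) - j|) ∧
      ∃ n : ℕ, M < n ∧ n ≤ M + H ∧ (n : ZMod p) = a j * b j ^ j ∧
      ∀ q : ℕ, q.Prime → κ * ff p < |(q : ℝ) - n|)).card := by
  obtain ⟨κ, hκ, hm⟩ := manyJ (ε / 2) (by positivity) (by linarith)
  obtain ⟨C, hC, hdiv⟩ := H353.divisor_bound_real (ε / 16) (by positivity)
  have hcast : Tendsto (fun m : ℕ => (m : ℝ)) atTop atTop := tendsto_natCast_atTop_atTop
  have hlog : ∀ᶠ x : ℝ in atTop, 16 * (2 + Real.log x) ≤ x ^ (ε / 2) := by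
    have h2 := (isLittleO_log_rpow_atTop (show (0 : ℝ) < ε / 4 by positivity)).def
      (show (0 : ℝ) < 1 by norm_num)
    filter_upwards [h2, eventually_ge_atTop (1 : ℝ), ev_pow (ε / 4) (ε / 2) 48 (by linarith),
      (tendsto_rpow_atTop (show 0 < ε / 4 by positivity)).eventually_ge_atTop 1]
      with x hx hx1 hx2 hx3
    rw [Real.norm_eq_abs, abs_of_nonneg (Real.log_nonneg hx1), Real.norm_eq_abs,
      abs_of_nonneg (Real.rpow_nonneg (by linarith) _)] at hx
    linarith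
  obtain ⟨P, hP⟩ := eventually_atTop.mp (hm.and ((hcast.eventually hlog).and
    ((hcast.eventually (ev_pow (ε / 64) (1 / 2 + ε) 4 (by linarith))).and
    ((hcast.eventually (ev_pow 0 (ε / 2) 2 (by linarith))).and
    ((hcast.eventually (ev_pow (ε / 2) (1 / 2 + ε) 2 (by linarith))).and
    ((hcast.eventually (ev_pow (ε / 16) (ε / 2) (8 * D * C) (by linarith))).and
    ((hcast.eventually (ev_pow (ε / 64) (ε / 2) 16 (by linarith))).and
    ((hcast.eventually (ev_pow (ε / 2) (1 / 2 + ε) (32 * D) (by linarith))).and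
    ((hcast.eventually (ev_pow (ε / 64) 1 2 (by linarith))))))))))))
  refine ⟨κ, hκ, max P 1, ?_⟩
  intro p hpP hfact a b ha hb L N M H hHp hH hNH
  have hp := hfact.out
  obtain ⟨c1, c2, c3, c4, c5, c6, c7, c8, c9⟩ := hP p ((le_max_left _ _).trans hpP)
  rw [Real.rpow_zero] at c4
  rw [Real.rpow_one] at c9
  have hp1 : (1 : ℝ) ≤ p := by exact_mod_cast hp.one_le
  have hp0 : (0 : ℝ) < p := by linarith
  have hHpr : (H : ℝ) ≤ p := by exact_mod_cast hHp
  have hH0 : (0 : ℝ) ≤ H := Nat.cast_nonneg _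
  have hsplit : (p : ℝ) ^ (5 / 2 + ε) = (p : ℝ) ^ (3 / 2 + ε) * p := by
    rw [← Real.rpow_add_one hp0.ne']
    congr 1
    ring
  have hsplit2 : (p : ℝ) ^ (3 / 2 + ε) = (p : ℝ) ^ (1 / 2 + ε) * p := by
    rw [← Real.rpow_add_one hp0.ne']
    congr 1
    ring
  have hNbig' : (p : ℝ) ^ (3 / 2 + ε) ≤ N := by
    have : (p : ℝ) ^ (3 / 2 + ε) * p ≤ N * p := by
      rw [← hsplit]
      refine hNH.trans ?_
      gcongr
    exact le_of_mul_le_mul_right this hp0
  have hNbig : (p : ℝ) ^ (1 / 2 + ε) ≤ N := by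
    refine le_trans ?_ hNbig'
    exact Real.rpow_le_rpow_of_exponent_le hp1 (by linarith)
  have hNp : (p : ℝ) ≤ N := by
    refine le_trans ?_ hNbig'
    rw [hsplit2]
    have : 1 ≤ (p : ℝ) ^ (1 / 2 + ε) := Real.one_le_rpow hp1 (by linarith)
    nlinarith
  -- cut off the small exponents
  set Y : ℝ := (p : ℝ) ^ (ε / 64) with hY
  have hY1 : 1 ≤ Y := Real.one_le_rpow hp1 (by positivity)
  set K0 : ℕ := ⌈Y⌉₊ with hK0
  have hDY : Y ≤ K0 := Nat.le_ceil _
  have hDY2 : (K0 : ℝ) ≤ Y + 1 := (Nat.ceil_lt_add_one (by linarith)).le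
  have hDN : (K0 : ℝ) ≤ N / 2 := by linarith
  have hDN' : K0 ≤ N := by
    have : (K0 : ℝ) ≤ N := by
      have : (0 : ℝ) ≤ N := Nat.cast_nonneg _
      linarith
    exact_mod_cast this
  set N' : ℕ := N - K0 with hN'
  have hN'r : (N' : ℝ) = N - K0 := by rw [hN', Nat.cast_sub hDN']
  have hN'h : (N : ℝ) / 2 ≤ N' := by rw [hN'r]; linarith
  set L' : ℕ := L + K0 with hL'
  have hLN : L' + N' = L + N := by omega
  have hN0 : (0 : ℝ) ≤ N := Nat.cast_nonneg _
  have hN'0 : (0 : ℝ) ≤ N' := Nat.cast_nonneg _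
  have hcard : ((Ioc L' (L' + N')).card : ℝ) = N' := by simp
  set E : ℝ := (p : ℝ) ^ (ε / 2) with hE
  have hpe : (0 : ℝ) < E := by positivity
  have hEE : (p : ℝ) ^ ε = E * E := by
    rw [hE, ← Real.rpow_add hp0]
    congr 1
    ring
  have hs0 : 0 < Real.sqrt p := Real.sqrt_pos.mpr hp0
  have hhalf : (p : ℝ) ^ (1 / 2 + ε) = Real.sqrt p * (E * E) := by
    rw [Real.rpow_add hp0, hEE, Real.sqrt_eq_rpow]
  have hpneg : (p : ℝ) ^ (-(ε / 2)) = E⁻¹ := Real.rpow_neg hp0.le _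
  have hdiv2 : ((p - 1).divisors.card : ℝ) ≤ C * (p : ℝ) ^ (ε / 16) := by
    have hp2 := hp.two_le
    refine (hdiv (p - 1) (by omega)).trans ?_
    gcongr
    exact Nat.sub_le _ _
  have h2 := c1 ⟨hp.ne_zero⟩ M H hHp (le_trans (Real.rpow_le_rpow_of_exponent_le hp1 (by linarith)) hH)
    ℕ (Ioc L' (L' + N')) (fun j => j) (fun j => a j * b j ^ j)
    (fun j => (∀ q : ℕ, q.Prime → κ * ff p < |(q : ℝ) - j|) ∧
      ∃ n : ℕ, M < n ∧ n ≤ M + H ∧ (n : ZMod p) = a j * b j ^ j ∧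
      ∀ q : ℕ, q.Prime → κ * ff p < |(q : ℝ) - n|) (fun _ => inferInstance)
    (fun j _ h3 h4 => ⟨h3, h4⟩) (by
    intro j hj
    rw [mem_Ioc] at hj
    have h3 : K0 ≤ j := by omega
    have h3r : (K0 : ℝ) ≤ j := by exact_mod_cast h3
    have h4 : ε / 2 / 32 = ε / 64 := by ring
    rw [h4]
    exact hDY.trans h3r) (by
    intro q hq hqY ρ
    have h4 : ε / 2 / 32 = ε / 64 := by ring
    rw [h4] at hqY
    rw [hcard]
    constructor
    · obtain ⟨j0, K, hK, hfil⟩ := ap L' N' q hq ρ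
      rw [hfil, card_image_of_injective _ (by
        intro x x' h
        have h1 : q * x = q * x' := Nat.add_left_cancel h
        exact Nat.eq_of_mul_eq_mul_left (by omega) h1), card_range]
      refine hK.trans ?_
      rw [hpneg, ← div_eq_mul_inv, le_div_iff₀ hpe]
      linarith
    · intro w hw
      have hqp : q < p := by
        have : (q : ℝ) < p := by linarith
        exact_mod_cast this
      have h5 := self_norm D a b ha hb w hw L' N' q hq hqp ρ
      refine h5.trans ?_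
      rw [hpneg, ← div_eq_mul_inv, le_div_iff₀ hpe, le_div_iff₀ hp0]
      have g1 : Real.sqrt p * (E * E) ≤ H := by rw [← hhalf]; exact hH
      have g2 : Real.sqrt p * (E * E) * p * p ≤ N * H := by
        rw [← hhalf, ← hsplit2, ← hsplit]; exact hNH
      have hE1 : 1 ≤ E := Real.one_le_rpow hp1 (by positivity)
      have k1 : Real.sqrt p * ((N' : ℝ) / p * (D * (p - 1).divisors.card)) * E * p ≤ N' * H / 4 := by
        have e1 : (D : ℝ) * (p - 1).divisors.card ≤ E / 8 := by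
          calc (D : ℝ) * (p - 1).divisors.card ≤ D * (C * (p : ℝ) ^ (ε / 16)) := by gcongr
            _ ≤ E / 8 := by
              have : 8 * (D : ℝ) * C * (p : ℝ) ^ (ε / 16) ≤ E := c6
              linarith
        calc Real.sqrt p * ((N' : ℝ) / p * (D * (p - 1).divisors.card)) * E * p ≤
            Real.sqrt p * ((N' : ℝ) / p * (E / 8)) * E * p := by gcongr
          _ = N' * (Real.sqrt p * (E * E)) / 8 := by field_simp
          _ ≤ N' * H / 8 := by gcongr
          _ ≤ _ := by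
            have : 0 ≤ (N' : ℝ) * H := by positivity
            linarith
      have hN'H : N * H / 2 ≤ (N' : ℝ) * H := by
        have : (N : ℝ) / 2 * H ≤ N' * H := by gcongr
        linarith
      have k2 : Real.sqrt p * (p * (q + 1 + Real.log p)) * E * p ≤ N' * H / 4 := by
        have e1 : (q : ℝ) + 1 + Real.log p ≤ E / 8 := by
          have : (q : ℝ) ≤ E / 16 := by linarith
          linarith
        calc Real.sqrt p * (p * (q + 1 + Real.log p)) * E * p ≤
            Real.sqrt p * (p * (E / 8)) * E * p := by gcongr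
          _ = (Real.sqrt p * (E * E) * p * p) / 8 := by ring
          _ ≤ N * H / 8 := by gcongr
          _ ≤ _ := by linarith
      have k3 : 2 * D * ((N' : ℝ) / p + 1) * E * p ≤ N' * H / 4 := by
        have e1 : 32 * (D : ℝ) * E ≤ H := by
          have : 32 * (D : ℝ) * (p : ℝ) ^ (ε / 2) ≤ (p : ℝ) ^ (1 / 2 + ε) := c8
          exact this.trans hH
        have e2 : (N' : ℝ) / p + 1 ≤ 4 * N' / p := by
          rw [div_add_one hp0.ne', div_le_div_iff_of_pos_right hp0]
          linarith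
        calc 2 * D * ((N' : ℝ) / p + 1) * E * p ≤ 2 * D * (4 * N' / p) * E * p := by gcongr
          _ = N' * (32 * D * E) / 4 := by field_simp; ring
          _ ≤ _ := by gcongr
      have e0 : (Real.sqrt p * ((N' : ℝ) / p * (D * (p - 1).divisors.card) +
          p * (q + 1 + Real.log p)) + 2 * D * (N' / p + 1)) * E * p =
          Real.sqrt p * ((N' : ℝ) / p * (D * (p - 1).divisors.card)) * E * p +
          Real.sqrt p * (p * (q + 1 + Real.log p)) * E * p +
          2 * D * ((N' : ℝ) / p + 1) * E * p := by ring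
      rw [e0]
      have : 0 ≤ (N' : ℝ) * H := by positivity
      linarith)
  rw [hcard] at h2
  have h3 : ((Ioc L' (L' + N')).filter (fun j : ℕ =>
      (∀ q : ℕ, q.Prime → κ * ff p < |(q : ℝ) - j|) ∧
      ∃ n : ℕ, M < n ∧ n ≤ M + H ∧ (n : ZMod p) = a j * b j ^ j ∧
      ∀ q : ℕ, q.Prime → κ * ff p < |(q : ℝ) - n|)).card ≤
      ((Ioc L (L + N)).filter (fun j : ℕ =>
      (∀ q : ℕ, q.Prime → κ * ff p < |(q : ℝ) - j|) ∧
      ∃ n : ℕ, M < n ∧ n ≤ M + H ∧ (n : ZMod p) = a j * b j ^ j ∧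
      ∀ q : ℕ, q.Prime → κ * ff p < |(q : ℝ) - n|)).card := by
    apply card_le_card
    apply filter_subset_filter
    rw [hLN]
    exact Ioc_subset_Ioc_left (by omega)
  have h4 : (N : ℝ) * H * (p : ℝ) ^ (-(1 + ε)) ≤ N' * H / p * (p : ℝ) ^ (-(ε / 2)) := by
    have e7 : (p : ℝ) ^ (-(1 + ε)) = E⁻¹ * E⁻¹ / p := by
      rw [← hpneg, ← Real.rpow_add hp0, div_eq_mul_inv, ← Real.rpow_neg_one (p : ℝ),
        ← Real.rpow_add hp0]
      congr 1
      ring
    rw [e7, hpneg]
    have e8 : (N : ℝ) * E⁻¹ ≤ N' := by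
      rw [← div_eq_mul_inv, div_le_iff₀ hpe]
      nlinarith
    calc (N : ℝ) * H * (E⁻¹ * E⁻¹ / p) = (N * E⁻¹) * H / p * E⁻¹ := by ring
      _ ≤ N' * H / p * E⁻¹ := by gcongr
  exact h4.trans (h2.trans (Nat.cast_le.mpr h3))

end Pool.Agent.V11113.MP
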